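import Pool.Agent.X243.Gen.Three

/-!
Square classes of the values of a polynomial at the roots of another one, over the fraction field of an
integrally closed Noetherian domain.
-/

set_option autoImplicit false
set_option linter.all false

open Polynomial IsLocalRing
open scoped Classical

namespace Pool.Agent.X243.Gen

open Pool.Agent.TH115.GD Pool.Agent.X243.Tate Pool.Agent.X243.Sol

/-- There is an automorphism which fixes the roots of `a`, and changes the sign of `√b(θ₂)` but not of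
`√b(θ₁)`. -/
def SgnG {k : Type} [Field k] (a b : k[X]) : Prop :=
  ∀ (E : Type) [Field E] [Algebra k E] [FiniteDimensional k E] [IsGalois k E],
    (a.map (algebraMap k E)).Splits → ∀ β : E → E,
      (∀ θ, aeval θ a = 0 → β θ ^ 2 = aeval θ b) →
      ∃ (s : E ≃ₐ[k] E) (θ₁ θ₂ : E), aeval θ₁ a = 0 ∧ aeval θ₂ a = 0 ∧ β θ₁ ≠ 0 ∧ β θ₂ ≠ 0 ∧
        s (β θ₁) = β θ₁ ∧ s (β θ₂) = - β θ₂ ∧ ∀ θ, aeval θ a = 0 → s θ = θ

section frob

variable {R k : Type} [CommRing R] [IsDomain R] [IsIntegrallyClosed R] [IsNoetherianRing R]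
  [Field k] [Algebra R k] [IsFractionRing R k] (m : Ideal R) [m.IsMaximal] [Finite (R ⧸ m)]

theorem frob_signG (k) [Field k] [Algebra R k] [IsFractionRing R k] {a b : R[X]} {N : ℕ}
    (ha : a.natDegree ≤ N) (h2 : (2 : R ⧸ m) ≠ 0)
    (hJ : J4 N (a.map (Ideal.Quotient.mk m)) (b.map (Ideal.Quotient.mk m))) :
    SgnG (a.map (algebraMap R k)) (b.map (algebraMap R k)) := by
  intro E _ _ _ _ hspl β hβ
  letI : Algebra R E := ((algebraMap k E).comp (algebraMap R k)).toAlgebra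
  haveI : IsScalarTower R k E := IsScalarTower.of_algebraMap_eq fun _ => rfl
  haveI : m.IsMaximal := inferInstance
  letI : Field (R ⧸ m) := Ideal.Quotient.field m
  letI := Fintype.ofFinite (R ⧸ m)
  obtain ⟨d, S, c₁, c₂, hd, hS, hfac, hc₁, hc₂, hsq₁, hne₁, hsq₂⟩ := hJ
  set fb := a.map (Ideal.Quotient.mk m) with hfb
  have hdeg : fb.natDegree = N := by
    rw [hfac, natDegree_C_mul hd, natDegree_finset_prod_X_sub_C_eq_card, hS]
  have hsep : fb.Separable := by
    rw [hfac]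
    apply Separable.unit_mul (isUnit_C.2 (isUnit_iff_ne_zero.2 hd))
    apply separable_prod_X_sub_C_iff'.2
    exact fun x _ y _ h => h
  obtain ⟨B, ρ, j, s, hρ, hj, hs, hc, hθs, hr⟩ := frob_roots m k ha hdeg hsep E hspl
  obtain ⟨F, hF⟩ : ∃ F, F = a.map (algebraMap R k) := ⟨_, rfl⟩
  rw [← hfb] at hr
  rw [← hF] at hspl hβ hr hθs ⊢
  have hF0 : F ≠ 0 := by
    rw [hF]
    refine (Polynomial.map_ne_zero_iff (IsFractionRing.injective R k)).2 ?_
    rintro rfl
    apply hc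
    rw [leadingCoeff_zero]
    exact Ideal.zero_mem _
  have hinj : ∀ θ θ' : E, aeval θ F = 0 → aeval θ' F = 0 → red B θ = red B θ' → θ = θ' := by
    intro θ θ' h1 h3 h4
    have h5 := inj_of j hsep hr
    have h6 := @h5 ⟨θ, mem_rootSet.2 ⟨hF0, h1⟩⟩ ⟨θ', mem_rootSet.2 ⟨hF0, h3⟩⟩ h4
    exact congrArg Subtype.val h6
  have hroot : ∀ x, (fb.map j).eval x = 0 ↔ ∃ c ∈ S, j c = x := by
    intro x
    rw [hfac, Polynomial.map_mul, map_C, Polynomial.map_prod,
      eval_mul, eval_C, eval_prod, mul_eq_zero, Finset.prod_eq_zero_iff]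
    constructor
    · rintro (h | ⟨c, hcS, h⟩)
      · exact absurd ((map_eq_zero_iff _ j.injective).1 h) hd
      · refine ⟨c, hcS, ?_⟩
        rw [Polynomial.map_sub, map_X, map_C, eval_sub, eval_X, eval_C, sub_eq_zero] at h
        exact h.symm
    · rintro ⟨c, hcS, rfl⟩
      exact Or.inr ⟨c, hcS, by rw [Polynomial.map_sub, map_X, map_C, eval_sub, eval_X, eval_C,
        sub_self]⟩
  have hpowq : ∀ c : R ⧸ m, j c ^ Nat.card (R ⧸ m) = j c := by
    intro c
    rw [← map_pow, Nat.card_eq_fintype_card, FiniteField.pow_card]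
  have hfix : ∀ θ, aeval θ F = 0 → s θ = θ := by
    intro θ hθ
    have h1 : (fb.map j).eval (red B θ) = 0 :=
      (root_iff j hsep hr _).2 ⟨⟨θ, mem_rootSet.2 ⟨hF0, hθ⟩⟩, rfl⟩
    obtain ⟨c, -, hc'⟩ := (hroot _).1 h1
    apply hinj _ _ _ hθ
    · rw [(hθs θ hθ).2.2, ← hc', hpowq]
    · rw [aeval_algHom_apply s θ F, hθ, map_zero]
  have hex : ∀ c ∈ S, ∃ θ, aeval θ F = 0 ∧ red B θ = j c := by
    intro c hcS
    obtain ⟨θ, hθ⟩ := (root_iff j hsep hr _).1 ((hroot _).2 ⟨c, hcS, rfl⟩)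
    exact ⟨θ, aeval_eq_zero_of_mem_rootSet θ.2, hθ⟩
  -- the evaluation
  have hev : ∀ (g : R[X]) (θ : E) (hθ : θ ∈ B), red B (aeval θ (g.map (algebraMap R k))) =
      ((g.map (Ideal.Quotient.mk m)).map j).eval (red B θ) ∧
      aeval θ (g.map (algebraMap R k)) ∈ B := by
    intro g θ hθ
    have hcomp : (algebraMap B E).comp ρ = algebraMap R E := by
      ext x
      exact hρ x
    have h1 : aeval θ (g.map (algebraMap R k)) =
        (((g.map ρ).eval ⟨θ, hθ⟩ : B) : E) := by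
      have h2 : algebraMap B E ((g.map ρ).eval ⟨θ, hθ⟩) =
          ((g.map ρ).map (algebraMap B E)).eval θ :=
        (eval_map_apply (f := algebraMap B E) (p := g.map ρ) (x := (⟨θ, hθ⟩ : B))).symm
      rw [show (((g.map ρ).eval ⟨θ, hθ⟩ : B) : E) =
        algebraMap B E ((g.map ρ).eval ⟨θ, hθ⟩) from rfl, h2, Polynomial.map_map, hcomp,
        eval_map_algebraMap, aeval_map_algebraMap]
    refine ⟨?_, ?_⟩
    · have h3 : red B θ = residue B ⟨θ, hθ⟩ := red_coe (⟨θ, hθ⟩ : B)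
      rw [h1, red_coe, ← map_quot m ρ (residue B) j hj g, h3]
      exact (eval_map_apply (f := residue B) (p := g.map ρ) (x := (⟨θ, hθ⟩ : B))).symm
    · rw [h1]
      exact ((g.map ρ).eval ⟨θ, hθ⟩).2
  have hθint : ∀ θ, aeval θ F = 0 → IsIntegral R (algebraMap R E a.leadingCoeff * θ) := by
    intro θ hθ
    rw [hF, aeval_map_algebraMap] at hθ
    have := isIntegral_leadingCoeff_smul a θ hθ
    rwa [Algebra.smul_def] at this
  -- the square roots
  have hβint : ∀ θ, aeval θ F = 0 → IsIntegral R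
      (algebraMap R E (a.leadingCoeff ^ b.natDegree) * β θ) := by
    intro θ hθ
    apply IsIntegral.of_pow (n := 2) (by norm_num)
    rw [mul_pow, hβ θ hθ, aeval_map_algebraMap, aeval_eq_sum_range, Finset.mul_sum]
    refine IsIntegral.sum _ fun i hi => ?_
    have hi' : i ≤ b.natDegree := by
      rw [Finset.mem_range] at hi
      omega
    obtain ⟨t, ht⟩ := Nat.exists_eq_add_of_le hi'
    have e : algebraMap R E (a.leadingCoeff ^ b.natDegree) ^ 2 * b.coeff i • θ ^ i =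
        algebraMap R E (a.leadingCoeff ^ b.natDegree * a.leadingCoeff ^ t * b.coeff i) *
          (algebraMap R E a.leadingCoeff * θ) ^ i := by
      rw [Algebra.smul_def, ht]
      simp only [map_mul, map_pow]
      ring
    rw [e]
    exact isIntegral_algebraMap.mul ((hθint θ hθ).pow i)
  have hcpow : a.leadingCoeff ^ b.natDegree ∉ m := by
    intro h
    exact hc (Ideal.IsPrime.mem_of_pow_mem inferInstance _ h)
  have hβs : ∀ θ, aeval θ F = 0 → β θ ∈ B ∧ s (β θ) ∈ B ∧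
      red B (s (β θ)) = red B (β θ) ^ Nat.card (R ⧸ m) :=
    fun θ hθ => hs _ hcpow _ (hβint θ hθ)
  have hβpm : ∀ θ, aeval θ F = 0 → s (β θ) = β θ ∨ s (β θ) = - β θ := by
    intro θ hθ
    apply sq_eq_sq_iff_eq_or_eq_neg.1
    rw [← map_pow, hβ θ hθ, ← aeval_algHom_apply s θ, hfix θ hθ]
  have hredsq : ∀ θ, aeval θ F = 0 → ∀ c, red B θ = j c →
      red B (β θ) ^ 2 = j ((b.map (Ideal.Quotient.mk m)).eval c) := by
    intro θ hθ c hc'
    rw [← red_pow (hβs θ hθ).1, hβ θ hθ, (hev b θ (hθs θ hθ).1).1, hc', eval_map_apply]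
  obtain ⟨θ₁, z₁, w₁⟩ := hex c₁ hc₁
  obtain ⟨θ₂, z₂, w₂⟩ := hex c₂ hc₂
  have q₁ := hredsq θ₁ z₁ c₁ w₁
  have q₂ := hredsq θ₂ z₂ c₂ w₂
  have hne : red B (β θ₁) ≠ 0 := by
    intro h0
    rw [h0, zero_pow two_ne_zero] at q₁
    exact hne₁ ((map_eq_zero_iff _ j.injective).1 q₁.symm)
  have h2B : (2 : ResidueField B) ≠ 0 := by
    rw [← map_ofNat j 2]
    exact (map_ne_zero_iff _ j.injective).2 h2
  have hz0 : red B (0 : E) = 0 := by
    have : red B ((0 : B) : E) = residue B 0 := red_coe 0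
    rw [map_zero] at this
    exact this
  refine ⟨s, θ₁, θ₂, z₁, z₂, ?_, ?_, ?_, ?_, hfix⟩
  · intro h0
    apply hne
    rw [h0, hz0]
  · intro h0
    apply hsq₂
    rw [h0, hz0, zero_pow two_ne_zero] at q₂
    have := (map_eq_zero_iff _ j.injective).1 q₂.symm
    rw [this]
    exact IsSquare.zero
  · rcases hβpm θ₁ z₁ with h | h
    · exact h
    · exfalso
      obtain ⟨y, hy⟩ := hsq₁
      have h3 : red B (β θ₁) = j y ∨ red B (β θ₁) = - j y := by
        apply sq_eq_sq_iff_eq_or_eq_neg.1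
        rw [q₁, hy, map_mul, sq]
      have h4 : red B (β θ₁) ^ Nat.card (R ⧸ m) = red B (β θ₁) := by
        rcases h3 with h3 | h3
        · rw [h3, hpowq]
        · rw [h3, ← map_neg, hpowq]
      have h5 := (hβs θ₁ z₁).2.2
      have h6 : red B (- β θ₁) = - red B (β θ₁) := by
        have h7 : red B ((- (⟨β θ₁, (hβs θ₁ z₁).1⟩ : B) : B) : E) =
            residue B (- (⟨β θ₁, (hβs θ₁ z₁).1⟩ : B)) := red_coe _
        rw [map_neg] at h7
        have h8 : red B (β θ₁) = residue B (⟨β θ₁, (hβs θ₁ z₁).1⟩ : B) :=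
          red_coe (⟨β θ₁, (hβs θ₁ z₁).1⟩ : B)
        rw [h8]
        exact h7
      rw [h, h6, h4] at h5
      have h9 : 2 * red B (β θ₁) = 0 := by
        linear_combination -h5
      rcases mul_eq_zero.1 h9 with h10 | h10
      · exact h2B h10
      · exact hne h10
  · rcases hβpm θ₂ z₂ with h | h
    · exfalso
      have h5 := (hβs θ₂ z₂).2.2
      rw [h] at h5
      obtain ⟨y, hy⟩ := fixed_mem j h5.symm
      apply hsq₂
      refine ⟨y, j.injective ?_⟩
      rw [map_mul, hy, ← q₂, sq]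
    · exact h

end frob

section key

variable {k : Type} [Field k]

/-- The contradiction in a large finite extension. -/
theorem key_auxG (h2 : (2 : k) ≠ 0) {a b : k[X]} (ha : a.Separable) (h5 : 5 ≤ a.natDegree) (hfull : FullG a)
    (hsg : SgnG a b) (L L' : Type) [Field L] [Field L'] [Algebra k L] [Algebra L L'] [Algebra k L']
    [IsScalarTower k L L'] [IsGalois L L'] [IsSepClosed L'] (M : IntermediateField k L') [Normal k M]
    (hM : ∀ x : L, IsSeparable k x → algebraMap L L' x ∈ M)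
    (hns : ¬ (a.map (algebraMap k M)).Splits) (δ : L) (hδ : δ ≠ 0) (z : L[X])
    (hdvd : a.map (algebraMap k L) ∣ z ^ 2 - C δ * b.map (algebraMap k L))
    {E : Type} [Field E] [Algebra k E] [FiniteDimensional k E] [IsGalois k E] [Algebra E L']
    [IsScalarTower k E L'] (hspa : (a.map (algebraMap k E)).Splits)
    (hsqE : ∀ θ : E, aeval θ a = 0 → ∃ y : E, y ^ 2 = aeval θ b) : False := by
  haveI : NeZero (2 : L') := ⟨by
    rw [← map_ofNat (algebraMap k L') 2]
    exact (map_ne_zero_iff _ (algebraMap k L').injective).2 h2⟩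
  haveI : NeZero (2 : E) := ⟨by
    rw [← map_ofNat (algebraMap k E) 2]
    exact (map_ne_zero_iff _ (algebraMap k E).injective).2 h2⟩
  obtain ⟨β, hβ⟩ : ∃ β : E → E, ∀ θ, aeval θ a = 0 → β θ ^ 2 = aeval θ b := by
    refine ⟨fun θ => if h : ∃ y : E, y ^ 2 = aeval θ b then h.choose else 0, fun θ hθ => ?_⟩
    have h := hsqE θ hθ
    show (if h : ∃ y : E, y ^ 2 = aeval θ b then h.choose else 0) ^ 2 = _
    rw [dif_pos h]
    exact h.choose_spec
  obtain ⟨s, θ₁, θ₂, z₁, z₂, n₁, n₂, s₁, s₂, sfix⟩ := hsg E hspa β hβ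
  have hsurj := hfull E hspa
  have hcard : Nat.card (a.rootSet E) = a.natDegree := by
    rw [Nat.card_eq_fintype_card, card_rootSet_eq_natDegree ha hspa]
  have hmemR : ∀ θ : E, aeval θ a = 0 → θ ∈ a.rootSet E := fun θ h => mem_rootSet.2 ⟨ha.ne_zero, h⟩
  have hRmem : ∀ θ : a.rootSet E, aeval (θ : E) a = 0 := fun θ => aeval_eq_zero_of_mem_rootSet θ.2
  obtain ⟨t₁, ht₁⟩ : ∃ t : a.rootSet E, (t : E) = θ₁ := ⟨⟨θ₁, hmemR _ z₁⟩, rfl⟩
  obtain ⟨t₂, ht₂⟩ : ∃ t : a.rootSet E, (t : E) = θ₂ := ⟨⟨θ₂, hmemR _ z₂⟩, rfl⟩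
  have h12 : t₁ ≠ t₂ := by
    intro h
    have h1 : θ₁ = θ₂ := by rw [← ht₁, ← ht₂, h]
    rw [← h1, s₁] at s₂
    have h2 : (2 : E) * β θ₁ = 0 := by linear_combination s₂
    rcases mul_eq_zero.1 h2 with h3 | h3
    · exact two_ne_zero h3
    · exact n₁ h3
  obtain ⟨t₃, h13, h23⟩ : ∃ t : a.rootSet E, t₁ ≠ t ∧ t₂ ≠ t := by
    by_contra hall
    push Not at hall
    have h4 : (Finset.univ : Finset (a.rootSet E)) ⊆ {t₁, t₂} := by
      intro t _
      rw [Finset.mem_insert, Finset.mem_singleton]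
      by_cases ht : t₁ = t
      · exact Or.inl ht.symm
      · exact Or.inr (hall t ht).symm
    have h5' := Finset.card_le_card h4
    have h6 := Finset.card_le_two (a := t₁) (b := t₂)
    rw [Finset.card_univ, ← Nat.card_eq_fintype_card, hcard] at h5'
    omega
  obtain ⟨t₄, h14, h24, h34⟩ : ∃ t : a.rootSet E, t₁ ≠ t ∧ t₂ ≠ t ∧ t₃ ≠ t := by
    by_contra hall
    push Not at hall
    have h4 : (Finset.univ : Finset (a.rootSet E)) ⊆ {t₁, t₂, t₃} := by
      intro t _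
      rw [Finset.mem_insert, Finset.mem_insert, Finset.mem_singleton]
      by_cases ht : t₁ = t
      · exact Or.inl ht.symm
      by_cases ht2 : t₂ = t
      · exact Or.inr (Or.inl ht2.symm)
      · exact Or.inr (Or.inr (hall t ht ht2).symm)
    have h5' := Finset.card_le_card h4
    have h6 := Finset.card_le_three (a := t₁) (b := t₂) (c := t₃)
    rw [Finset.card_univ, ← Nat.card_eq_fintype_card, hcard] at h5'
    omega
  obtain ⟨h, hh, hc⟩ := even_fix (F := a) (E := E) (L' := L') hspa hsurj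
    (by rw [hcard]; exact h5) M hns (Equiv.swap t₁ t₃ * Equiv.swap t₂ t₃)
    (Equiv.Perm.mul_mem_alternatingGroup_of_isSwap ⟨t₁, t₃, h13, rfl⟩ ⟨t₂, t₃, h23, rfl⟩)
  have hact : ∀ t : a.rootSet E, h (t : E) =
      (((Equiv.swap t₁ t₃ * Equiv.swap t₂ t₃) t : a.rootSet E) : E) := by
    intro t
    rw [← hc]
    rfl
  have hh2 : h θ₂ = θ₁ := by
    have := hact t₂
    rw [Equiv.Perm.mul_apply, Equiv.swap_apply_left, Equiv.swap_apply_right] at this
    rwa [ht₁, ht₂] at this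
  have hh4 : h (t₄ : E) = t₄ := by
    have := hact t₄
    rwa [Equiv.Perm.mul_apply, Equiv.swap_apply_of_ne_of_ne h24.symm h34.symm,
      Equiv.swap_apply_of_ne_of_ne h14.symm h34.symm] at this
  have hinv1 : h⁻¹ θ₁ = θ₂ := by
    rw [← hh2]
    exact h.symm_apply_apply θ₂
  have hinv4 : h⁻¹ (t₄ : E) = t₄ := by
    conv_lhs => rw [← hh4]
    exact h.symm_apply_apply _
  have hpm : ∀ (τ : E ≃ₐ[k] E) (θ : E), aeval θ a = 0 → aeval (τ θ) a = 0 ∧
      (τ (β θ) = β (τ θ) ∨ τ (β θ) = - β (τ θ)) := by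
    intro τ θ hθ
    have h1 : aeval (τ θ) a = 0 := by
      rw [aeval_algHom_apply τ θ a, hθ, map_zero]
    refine ⟨h1, sq_eq_sq_iff_eq_or_eq_neg.1 ?_⟩
    rw [← map_pow, hβ θ hθ, hβ _ h1, aeval_algHom_apply τ θ b]
  have sinv : ∀ θ, aeval θ a = 0 → s⁻¹ θ = θ := by
    intro θ hθ
    have := sfix θ hθ
    conv_lhs => rw [← this]
    exact s.symm_apply_apply θ
  obtain ⟨g, hg⟩ : ∃ g : E ≃ₐ[k] E, g = s * h * s⁻¹ * h⁻¹ := ⟨_, rfl⟩
  have hgmem : g ∈ (ME E M).fixingSubgroup := by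
    rw [hg]
    exact mul_mem ((ME_normal (E := E) M).conj_mem h hh s) (inv_mem hh)
  have hgap : ∀ x, g x = s (h (s⁻¹ (h⁻¹ x))) := by
    intro x
    rw [hg]
    rfl
  have hhinv : ∀ x, h (h⁻¹ x) = x := fun x => h.apply_symm_apply x
  have hsinv : ∀ x, s (s⁻¹ x) = x := fun x => s.apply_symm_apply x
  have hgfix : ∀ θ, aeval θ a = 0 → g θ = θ := by
    intro θ hθ
    have h1 : aeval (h⁻¹ θ) a = 0 := (hpm h⁻¹ θ hθ).1
    rw [hgap, sinv _ h1, hhinv, sfix θ hθ]
  have hs2' : s⁻¹ (β θ₂) = - β θ₂ := by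
    have h1 : s (- β θ₂) = β θ₂ := by rw [map_neg, s₂, neg_neg]
    conv_lhs => rw [← h1]
    exact s.symm_apply_apply _
  have hg1 : g (β θ₁) = - β θ₁ := by
    have h1 : s⁻¹ (h⁻¹ (β θ₁)) = - h⁻¹ (β θ₁) := by
      rcases (hpm h⁻¹ θ₁ z₁).2 with h2 | h2
      · rw [h2, hinv1, hs2']
      · rw [h2, hinv1, map_neg, hs2']
    rw [hgap, h1, map_neg, hhinv, map_neg, s₁]
  have z₄ : aeval (t₄ : E) a = 0 := hRmem t₄
  have hg4 : g (β t₄) = β t₄ := by
    have e1 : h⁻¹ (β t₄) = β t₄ ∨ h⁻¹ (β t₄) = - β t₄ := by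
      have := (hpm h⁻¹ t₄ z₄).2
      rwa [hinv4] at this
    have e2 : s⁻¹ (β t₄) = β t₄ ∨ s⁻¹ (β t₄) = - β t₄ := by
      have := (hpm s⁻¹ t₄ z₄).2
      rwa [sinv _ z₄] at this
    have e3 : s⁻¹ (h⁻¹ (β t₄)) = h⁻¹ (s⁻¹ (β t₄)) := by
      rcases e1 with e1 | e1 <;> rcases e2 with e2 | e2 <;>
        simp only [e1, e2, map_neg]
    rw [hgap, e3, hhinv, hsinv]
  have n₄ : β t₄ ≠ 0 := by
    intro h0
    obtain ⟨τ, hτ⟩ := hsurj (Equiv.swap t₁ t₄)
    have h1 : τ θ₁ = t₄ := by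
      have h2 := congrArg (fun p : Equiv.Perm (a.rootSet E) => ((p t₁ : a.rootSet E) : E)) hτ
      simp only [Equiv.swap_apply_left] at h2
      rw [← h2, ← ht₁]
      rfl
    rcases (hpm τ θ₁ z₁).2 with h2 | h2
    · rw [h1, h0] at h2
      exact n₁ ((map_eq_zero_iff τ τ.injective).1 h2)
    · rw [h1, h0, neg_zero] at h2
      exact n₁ ((map_eq_zero_iff τ τ.injective).1 h2)
  obtain ⟨γ, hγ⟩ := lift_fix' (L := L) (L' := L') M hM hgmem
  -- the values of `z`
  obtain ⟨ρ, hρ⟩ : ∃ ρ : L', ρ ^ 2 = algebraMap L L' δ := by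
    haveI : NeZero ((2 : ℕ) : L') := ⟨by
      rw [Nat.cast_ofNat]
      exact two_ne_zero⟩
    exact IsSepClosed.exists_pow_nat_eq _ 2
  have hρ0 : ρ ≠ 0 := by
    intro h0
    rw [h0, zero_pow two_ne_zero] at hρ
    exact hδ ((map_eq_zero_iff _ (algebraMap L L').injective).1 hρ.symm)
  have hval : ∀ θ : E, aeval θ a = 0 → γ (ρ * algebraMap E L' (β θ)) = ρ * algebraMap E L' (β θ) := by
    intro θ hθ
    obtain ⟨w, hw⟩ := hdvd
    have h1 := congrArg (aeval (algebraMap E L' θ)) hw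
    have e1 : aeval (algebraMap E L' θ) a = 0 := by
      rw [aeval_algebraMap_apply, hθ, map_zero]
    have e2 : aeval (algebraMap E L' θ) b = algebraMap E L' (β θ) ^ 2 := by
      rw [aeval_algebraMap_apply, ← hβ θ hθ, map_pow]
    rw [map_sub, map_pow, map_mul, map_mul, aeval_C, aeval_map_algebraMap, aeval_map_algebraMap,
      e1, e2, zero_mul, ← hρ, ← mul_pow, sub_eq_zero] at h1
    have h2 : γ (aeval (algebraMap E L' θ) z) = aeval (algebraMap E L' θ) z := by
      rw [← aeval_algHom_apply γ, hγ, hgfix θ hθ]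
    rcases sq_eq_sq_iff_eq_or_eq_neg.1 h1 with h3 | h3
    · rw [h3] at h2
      exact h2
    · rw [h3, map_neg, neg_inj] at h2
      exact h2
  have v1 := hval θ₁ z₁
  have v4 := hval t₄ z₄
  rw [map_mul, hγ, hg1, map_neg] at v1
  rw [map_mul, hγ, hg4] at v4
  have m1 : algebraMap E L' (β θ₁) ≠ 0 := (map_ne_zero_iff _ (algebraMap E L').injective).2 n₁
  have m4 : algebraMap E L' (β t₄) ≠ 0 := (map_ne_zero_iff _ (algebraMap E L').injective).2 n₄
  have w4 := mul_right_cancel₀ m4 v4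
  rw [w4] at v1
  have w1 : (2 : L') * (ρ * algebraMap E L' (β θ₁)) = 0 := by linear_combination -v1
  rcases mul_eq_zero.1 w1 with w | w
  · exact two_ne_zero w
  · exact mul_ne_zero hρ0 m1 w


theorem key_extG (h2 : (2 : k) ≠ 0) {a b : k[X]} (ha : a.Separable) (h5 : 5 ≤ a.natDegree)
    (hfull : FullG a) (hsg : SgnG a b) (L L' : Type) [Field L] [Field L'] [Algebra k L]
    [Algebra L L'] [Algebra k L'] [IsScalarTower k L L'] [IsSepClosure L L']
    (M : IntermediateField k L') [Normal k M]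
    (hM : ∀ x : L, IsSeparable k x → algebraMap L L' x ∈ M)
    (hns : ¬ (a.map (algebraMap k M)).Splits) (δ : L) (hδ : δ ≠ 0) (z : L[X]) :
    ¬ a.map (algebraMap k L) ∣ z ^ 2 - C δ * b.map (algebraMap k L) := by
  intro hdvd
  haveI : IsSepClosed L' := IsSepClosure.sep_closed L
  haveI : IsGalois L L' := IsSepClosure.isGalois
  obtain ⟨Ks, hKs⟩ : ∃ Ks : IntermediateField k L', Ks = separableClosure k L' := ⟨_, rfl⟩
  haveI hcl : IsSepClosure k Ks := by rw [hKs]; infer_instance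
  haveI : IsSepClosed Ks := IsSepClosure.sep_closed k
  haveI : IsGalois k Ks := IsSepClosure.isGalois
  haveI : NeZero ((2 : ℕ) : Ks) := ⟨by
    rw [Nat.cast_ofNat, ← map_ofNat (algebraMap k Ks) 2]
    exact (map_ne_zero_iff _ (algebraMap k Ks).injective).2 h2⟩
  have hroot : ∀ x : Ks, ∃ y : Ks, y ^ 2 = x := fun x => IsSepClosed.exists_pow_nat_eq x 2
  choose rt hrt using hroot
  obtain ⟨S, hS⟩ : ∃ S : Set Ks, S = a.rootSet Ks ∪ (fun θ => rt (aeval θ b)) '' a.rootSet Ks :=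
    ⟨_, rfl⟩
  have hSf : S.Finite := by
    rw [hS]
    exact (rootSet_finite a Ks).union ((rootSet_finite a Ks).image _)
  haveI : Finite S := hSf
  obtain ⟨E, hE⟩ : ∃ E : FiniteGaloisIntermediateField k Ks,
    E = FiniteGaloisIntermediateField.adjoin k S := ⟨_, rfl⟩
  have hSE : ∀ x ∈ S, x ∈ E.toIntermediateField := by
    rw [hE]
    exact fun x hx => FiniteGaloisIntermediateField.subset_adjoin k S hx
  haveI : IsScalarTower k E.toIntermediateField L' := IsScalarTower.of_algebraMap_eq fun x => rfl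
  have hspK : (a.map (algebraMap k Ks)).Splits := IsSepClosed.splits_of_separable _ ha.map
  have hspa : (a.map (algebraMap k E)).Splits := by
    apply IntermediateField.splits_of_splits (F := E.toIntermediateField) hspK
    intro x hx
    apply hSE
    rw [hS]
    exact Or.inl hx
  refine key_auxG h2 ha h5 hfull hsg L L' M hM hns δ hδ z hdvd (E := E.toIntermediateField) hspa ?_
  intro θ hθ
  have h1 : aeval (algebraMap E Ks θ) a = 0 := by
    rw [aeval_algebraMap_apply, hθ, map_zero]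
  have h3 : rt (aeval (algebraMap E Ks θ) b) ∈ E.toIntermediateField := by
    apply hSE
    rw [hS]
    exact Or.inr ⟨algebraMap E Ks θ, mem_rootSet.2 ⟨ha.ne_zero, h1⟩, rfl⟩
  refine ⟨⟨_, h3⟩, (algebraMap E Ks).injective ?_⟩
  rw [map_pow, ← aeval_algebraMap_apply]
  exact hrt _

end key

end Pool.Agent.X243.Gen
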