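import Pool.Agent.X243.Gen.Main
import Pool.Agent.X243.Gen.Sgn
import Pool.Agent.X243.Sol.Main2
import Pool.Agent.X243.Sol.Main3

/-!
The Tate conjecture at two over finitely generated fields for 100% of the elliptic surfaces with
full level two, and for 100% of the elliptic surfaces with a section of order two and a section of
infinite order.
-/

set_option autoImplicit false
set_option linter.all false

open Polynomial
open scoped Classical

namespace Pool.Agent.X243.Gen

open Pool.Agent.TH115.GD Pool.Agent.X243.Tate Pool.Agent.X243.Sol Pool.Agent.Y160.T3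

section full

variable {R k : Type} [CommRing R] [IsDomain R] [IsIntegrallyClosed R] [IsNoetherianRing R]
  [Field k] [Algebra R k] [IsFractionRing R k]

theorem sgn_ofG {N B : ℕ} {a b : R[X]} (ha : a.natDegree ≤ N) {p : Ideal R}
    (hp : p ∈ Zg R B) (h : J4 N (a.map (Ideal.Quotient.mk p)) (b.map (Ideal.Quotient.mk p))) :
    SgnG (a.map (algebraMap R k)) (b.map (algebraMap R k)) := by
  haveI := hp.1
  haveI := hp.2.1
  exact frob_signG p k ha (Zg_two hp) h

theorem cop_ofG {k : Type} [Field k] {a b : k[X]} {N : ℕ} (ha : FF N a) (hsg : SgnG a b) :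
    IsCoprime a b := by
  rw [ha.1.1.coprime_iff_not_dvd]
  intro hd
  haveI : IsGalois k a.SplittingField := IsGalois.of_separable_splitting_field ha.2.1
  haveI : FiniteDimensional k a.SplittingField := inferInstance
  have hz : ∀ θ : a.SplittingField, aeval θ a = 0 → aeval θ b = 0 := by
    intro θ hθ
    obtain ⟨c, rfl⟩ := hd
    rw [map_mul, hθ, zero_mul]
  obtain ⟨s, θ₁, θ₂, z₁, -, n₁, -⟩ := hsg a.SplittingField (SplittingField.splits a) (fun _ => 0)
    (fun θ hθ => by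
      show (0 : a.SplittingField) ^ 2 = _
      rw [hz θ hθ, zero_pow two_ne_zero])
  exact n₁ rfl

theorem fl_extG {k : Type} [Field k] (h2 : (2 : k) ≠ 0) {a b : k[X]} {N : ℕ} (hN : 5 ≤ N)
    (ha : FF N a) (hb : FF N b) (hc : FF N (a - b)) (hsg : SgnG a b)
    {L L' K F : Type} [Field L] [Algebra k L] [Field L']
    [Algebra L L'] [Algebra k L'] [IsScalarTower k L L'] [Field K] [Algebra L[X] K]
    [Field F] [Algebra L'[X] F] [IsFractionRing L'[X] F] [Algebra K F] (hT : IsTower L L' K F)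
    (M : IntermediateField k L') (hMn : Normal k M)
    (hM : ∀ x : L, IsSeparable k x → algebraMap L L' x ∈ M)
    (h1 : ¬ (a.map (algebraMap k M)).Splits) (h3 : ¬ (b.map (algebraMap k M)).Splits)
    (h4 : ¬ ((a - b).map (algebraMap k M)).Splits) (δ : L) (hδ : δ ≠ 0) :
    TateAtTwo (F := F) L' (crv (algebraMap L[X] K (C δ * a.map (algebraMap k L)))
      (algebraMap L[X] K (C δ * b.map (algebraMap k L)))) ∧
    GeneratedBy (F := F) L' (crv (algebraMap L[X] K (C δ * a.map (algebraMap k L)))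
      (algebraMap L[X] K (C δ * b.map (algebraMap k L)))) 0 := by
  haveI := hT.sep
  have h2L : (2 : L) ≠ 0 := by
    rw [← map_ofNat (algebraMap k L) 2]
    exact (map_ne_zero_iff _ (algebraMap k L).injective).2 h2
  obtain ⟨i1, n1⟩ := three_gen ha.2.1 (by rw [ha.1.2]; exact hN) ha.2.2 h2 L L' M hM h1
  obtain ⟨i2, n2⟩ := three_gen hb.2.1 (by rw [hb.1.2]; exact hN) hb.2.2 h2 L L' M hM h3
  obtain ⟨i3, n3⟩ := three_gen hc.2.1 (by rw [hc.1.2]; exact hN) hc.2.2 h2 L L' M hM h4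
  rw [Polynomial.map_sub] at i3
  have s1 : (a.map (algebraMap k L)).Separable := ha.2.1.map
  have s2 : (b.map (algebraMap k L)).Separable := hb.2.1.map
  have s3 : (a.map (algebraMap k L) - b.map (algebraMap k L)).Separable := by
    rw [← Polynomial.map_sub]
    exact hc.2.1.map
  have key := key_extG h2 ha.2.1 (by rw [ha.1.2]; exact hN) ha.2.2 hsg L L' M hM h1
  have hco : IsCoprime (a.map (algebraMap k L)) (b.map (algebraMap k L)) := by
    rw [i1.coprime_iff_not_dvd]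
    intro hd
    refine key 1 one_ne_zero 0 ?_
    have e : (0 : L[X]) ^ 2 - C 1 * b.map (algebraMap k L) = -b.map (algebraMap k L) := by
      rw [C_1]
      ring
    rw [e]
    exact hd.neg_right
  exact Pool.Agent.X243.FL.full_twist hT h2L i1 i2 i3 s1 s2 s3 hco n1 n2 key hδ

theorem fl_solvG {k : Type} [Field k] (h2 : (2 : k) ≠ 0) {a b : k[X]} {N : ℕ} (hN : 5 ≤ N)
    (ha : FF N a) (hb : FF N b) (hc : FF N (a - b)) (hsg : SgnG a b)
    {L L' K F : Type} [Field L] [Algebra k L] [Field L']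
    [Algebra L L'] [Algebra k L'] [IsScalarTower k L L'] [Field K] [Algebra L[X] K]
    [Field F] [Algebra L'[X] F] [IsFractionRing L'[X] F] [Algebra K F] (hT : IsTower L L' K F)
    (hM : ∀ x : L, IsSeparable k x → Group.IsSolvable (minpoly k x).Gal) (δ : L) (hδ : δ ≠ 0) :
    TateAtTwo (F := F) L' (crv (algebraMap L[X] K (C δ * a.map (algebraMap k L)))
      (algebraMap L[X] K (C δ * b.map (algebraMap k L)))) ∧
    GeneratedBy (F := F) L' (crv (algebraMap L[X] K (C δ * a.map (algebraMap k L)))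
      (algebraMap L[X] K (C δ * b.map (algebraMap k L)))) 0 := by
  haveI := hT.sep
  haveI : IsSepClosed L' := IsSepClosure.sep_closed L
  exact fl_extG h2 hN ha hb hc hsg hT (solvM k L') (solvM_normal L')
    (fun x hx => mem_solvM hx (hM x hx))
    (solvM_not_splits L' ha.2.1 (by rw [ha.1.2]; exact hN) ha.2.2)
    (solvM_not_splits L' hb.2.1 (by rw [hb.1.2]; exact hN) hb.2.2)
    (solvM_not_splits L' hc.2.1 (by rw [hc.1.2]; exact hN) hc.2.2) δ hδ

theorem fl_goodG {N B : ℕ} (hN : 3 ≤ N) {y : Fin (N + 1) ⊕ Fin (N + 1) → R}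
    (h : ∀ s : Option (Fin 3 × Fin 3), ∃ p ∈ Zg R B,
      (fun j => Ideal.Quotient.mk p (y j)) ∈ Fe7 N s (R ⧸ p)) (a b : k[X])
    (ha : a = (bF (y ∘ Sum.inl)).map (algebraMap R k))
    (hb : b = (bF (y ∘ Sum.inr)).map (algebraMap R k)) :
    FF N a ∧ FF N b ∧ FF N (a - b) ∧ SgnG a b := by
  have hPd : (bF (y ∘ Sum.inl)).natDegree ≤ N := bF_nd _
  have hQd : (bF (y ∘ Sum.inr)).natDegree ≤ N := bF_nd _
  have hDd : (bF (y ∘ Sum.inl) - bF (y ∘ Sum.inr)).natDegree ≤ N :=
    (natDegree_sub_le _ _).trans (max_le hPd hQd)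
  have k1 := evG (k := k) (B := B) hN hPd (fun t => by
    obtain ⟨p, hp, e⟩ := h (some (0, t))
    refine ⟨p, hp, (fun j => Ideal.Quotient.mk p (y j)) ∘ Sum.inl, e, ?_⟩
    rw [bF_map]
    rfl)
  have k2 := evG (k := k) (B := B) hN hQd (fun t => by
    obtain ⟨p, hp, e⟩ := h (some (1, t))
    refine ⟨p, hp, (fun j => Ideal.Quotient.mk p (y j)) ∘ Sum.inr, e, ?_⟩
    rw [bF_map]
    rfl)
  have k3 := evG (k := k) (B := B) hN hDd (fun t => by
    obtain ⟨p, hp, e⟩ := h (some (2, t))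
    refine ⟨p, hp, fun j => Ideal.Quotient.mk p (y (Sum.inl j)) -
      Ideal.Quotient.mk p (y (Sum.inr j)), e, ?_⟩
    rw [Polynomial.map_sub, bF_map, bF_map, bF_sub]
    rfl)
  rw [Polynomial.map_sub, ← ha, ← hb] at k3
  rw [← ha] at k1
  rw [← hb] at k2
  refine ⟨k1, k2, k3, ?_⟩
  obtain ⟨p, hp, e⟩ := h none
  have e' : J4 N ((bF (y ∘ Sum.inl)).map (Ideal.Quotient.mk p))
      ((bF (y ∘ Sum.inr)).map (Ideal.Quotient.mk p)) := by
    rw [bF_map, bF_map]
    exact e
  rw [ha, hb]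
  exact sgn_ofG hPd hp e'

variable (R) in
theorem densFull [Algebra.FiniteType ℤ R] (hR : ¬ IsField R) (h2 : (2 : R) ≠ 0) {N : ℕ}
    (hN : 3 ≤ N) (η : ℝ) (hη : 0 < η) :
    ∃ M : Ideal R, Finite (R ⧸ M) ∧
      (1 - η) * (Nat.card (R ⧸ M) : ℝ) ^ (Fintype.card (Fin (N + 1) ⊕ Fin (N + 1))) ≤
      (({x : Fin (N + 1) ⊕ Fin (N + 1) → R ⧸ M | ∀ s : Option (Fin 3 × Fin 3),
        ∃ p ∈ Zg R (2 * N + 2), ∀ y : Fin (N + 1) ⊕ Fin (N + 1) → R,
          (∀ j, Ideal.Quotient.mk M (y j) = x j) →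
          (fun j => Ideal.Quotient.mk p (y j)) ∈ Fe7 N s (R ⧸ p)}).ncard : ℝ) := by
  have hD : (0 : ℝ) < ((D7 N : ℕ) : ℝ) := by
    have : 0 < D7 N := D7_pos (by omega)
    exact_mod_cast this
  refine densityG (Zg R (2 * N + 2)) (Zg_inf R hR h2 _) (fun p hp => hp.1) (fun p hp => hp.2.1)
    (fun s p => Fe7 N s (R ⧸ p)) (c := 1 / ((D7 N : ℕ) : ℝ)) (by positivity) ?_ η hη
  intro s p hp
  haveI := hp.1
  letI : Field (R ⧸ p) := Ideal.Quotient.field p
  haveI : Finite (R ⧸ p) := hp.2.1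
  have h1 := Fe7_card (F := R ⧸ p) hN hp.2.2.1 (Zg_two hp) s
  have hc : Fintype.card (Fin (N + 1) ⊕ Fin (N + 1)) = 2 * N + 2 := by
    rw [Fintype.card_sum, Fintype.card_fin]
    omega
  rw [hc, one_div, inv_mul_le_iff₀ hD]
  exact_mod_cast h1

end full

section rank

variable {R k : Type} [CommRing R] [IsDomain R] [IsIntegrallyClosed R] [IsNoetherianRing R]
  [Field k] [Algebra R k] [IsFractionRing R k]

/-- Coprimality from the different types of factorizations modulo a maximal ideal. -/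
theorem cop_of_redG {N : ℕ} (hN : 3 ≤ N) {p : Ideal R} [p.IsMaximal] {f g : R[X]}
    (hf : f.natDegree ≤ N) (hg : g.natDegree ≤ N)
    (h1 : I1 N (f.map (Ideal.Quotient.mk p))) (h2 : I2 N (g.map (Ideal.Quotient.mk p)))
    (h3 : I1 N (f.map (algebraMap R k))) (h4 : I1 N (g.map (algebraMap R k))) :
    IsCoprime (f.map (algebraMap R k)) (g.map (algebraMap R k)) := by
  haveI : p.IsMaximal := inferInstance
  letI : Field (R ⧸ p) := Ideal.Quotient.field p
  rw [h3.1.coprime_iff_not_dvd]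
  rintro ⟨c, hc⟩
  have hinj : Function.Injective (algebraMap R k) := IsFractionRing.injective R k
  have hc0 : c ≠ 0 := by
    rintro rfl
    rw [mul_zero] at hc
    exact h4.1.ne_zero hc
  have hcd : c.natDegree = 0 := by
    have h5 := h4.2
    rw [hc, natDegree_mul h3.1.ne_zero hc0, h3.2] at h5
    omega
  obtain ⟨c', hc'⟩ := natDegree_eq_zero.1 hcd
  have key : C (g.coeff N) * f = C (f.coeff N) * g := by
    apply map_injective _ hinj
    rw [Polynomial.map_mul, Polynomial.map_mul, map_C, map_C, hc, ← hc']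
    have h5 : algebraMap R k (g.coeff N) = algebraMap R k (f.coeff N) * c' := by
      have h6 := congrArg (fun q : k[X] => q.coeff N) hc
      simp only [← hc', coeff_map, coeff_mul_C] at h6
      exact h6
    rw [h5, C_mul]
    ring
  have key2 := congrArg (fun q : R[X] => q.map (Ideal.Quotient.mk p)) key
  simp only [Polynomial.map_mul, map_C] at key2
  set a := Ideal.Quotient.mk p (g.coeff N) with ha
  set b := Ideal.Quotient.mk p (f.coeff N) with hb
  have hb0 : b ≠ 0 := by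
    have h6 : (f.map (Ideal.Quotient.mk p)).coeff N ≠ 0 := by
      rw [← h1.2]
      exact leadingCoeff_ne_zero.2 h1.1.ne_zero
    rwa [coeff_map] at h6
  have ha0 : a ≠ 0 := by
    have hg0 : g.map (Ideal.Quotient.mk p) ≠ 0 := by
      intro h0
      have := h2.1
      rw [h0, natDegree_zero] at this
      omega
    have h6 : (g.map (Ideal.Quotient.mk p)).coeff N ≠ 0 := by
      rw [← h2.1]
      exact leadingCoeff_ne_zero.2 hg0
    rwa [coeff_map] at h6
  have hirr : Irreducible (g.map (Ideal.Quotient.mk p)) := by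
    have h6 : Irreducible (C a * f.map (Ideal.Quotient.mk p)) :=
      (irreducible_isUnit_mul (isUnit_C.2 (isUnit_iff_ne_zero.2 ha0))).2 h1.1
    rw [key2] at h6
    exact (irreducible_isUnit_mul (isUnit_C.2 (isUnit_iff_ne_zero.2 hb0))).1 h6
  obtain ⟨h5, π, h6, h7, h8⟩ := h2
  have h9 : Associated π (g.map (Ideal.Quotient.mk p)) := h6.associated_of_dvd hirr h8
  have h10 := natDegree_eq_of_degree_eq (degree_eq_degree_of_associated h9)
  rw [h5] at h10
  omega

theorem ro_goodG {n B : ℕ} (hn : 2 ≤ n) {y : Ix n → R}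
    (h : ∀ s : Option (Fin 3 × Fin 3), ∃ p ∈ Zg R B,
      (fun j => Ideal.Quotient.mk p (y j)) ∈ He7 n s (R ⧸ p)) (p q w : k[X])
    (hp : p = (tP y).map (algebraMap R k)) (hq : q = (tQ y).map (algebraMap R k))
    (hw : w = (tW y).map (algebraMap R k)) :
    FF (2 * n) p ∧ FF (2 * n) q ∧ FF (4 * n) ((w ^ 2 - p - q) ^ 2 - 4 * (p * q)) ∧
      IsCoprime p q := by
  have hPd : (tP y).natDegree ≤ 2 * n := bF_nd _
  have hQd : (tQ y).natDegree ≤ 2 * n := bF_nd _
  have hDd := natDegree_tD y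
  have k1 := evG (k := k) (N := 2 * n) (B := B) (by omega) hPd (fun t => by
    obtain ⟨p, hp, e⟩ := h (some (0, t))
    refine ⟨p, hp, fun j => Ideal.Quotient.mk p (y (Sum.inl (Sum.inl j))), e, ?_⟩
    rw [tP_map]
    rfl)
  have k2 := evG (k := k) (N := 2 * n) (B := B) (by omega) hQd (fun t => by
    obtain ⟨p, hp, e⟩ := h (some (1, t))
    refine ⟨p, hp, fun j => Ideal.Quotient.mk p (y (Sum.inl (Sum.inr j))), e, ?_⟩
    rw [tQ_map]
    rfl)
  have k3 := evG (k := k) (N := 4 * n) (B := B) (by omega) hDd (fun t => by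
    obtain ⟨p, hp, e⟩ := h (some (2, t))
    refine ⟨p, hp, fun j : Fin (4 * n + 1) =>
      (tD (fun j => Ideal.Quotient.mk p (y j))).coeff j, e, ?_⟩
    rw [tD_map]
    haveI := hp.1
    letI : Field (R ⧸ p) := Ideal.Quotient.field p
    haveI : Finite (R ⧸ p) := hp.2.1
    letI := Fintype.ofFinite (R ⧸ p)
    exact bF_coeffs (F := R ⧸ p) (natDegree_tD _))
  obtain ⟨p0, z0, e0⟩ := h none
  haveI := z0.1
  have e0' : I1 (2 * n) ((tP y).map (Ideal.Quotient.mk p0)) ∧
      I2 (2 * n) ((tQ y).map (Ideal.Quotient.mk p0)) := by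
    rw [tP_map, tQ_map]; exact e0
  have hco := cop_of_redG (k := k) (by omega) hPd hQd e0'.1 e0'.2 k1.1 k2.1
  have eD : (tD y).map (algebraMap R k) = (w ^ 2 - p - q) ^ 2 - 4 * (p * q) := by
    rw [hp, hq, hw, tD]
    simp only [Polynomial.map_sub, Polynomial.map_pow, Polynomial.map_mul, Polynomial.map_ofNat]
  rw [eD] at k3
  rw [← hp] at k1 hco
  rw [← hq] at k2 hco
  exact ⟨k1, k2, k3, hco⟩

theorem ro_extG {k : Type} [Field k] (h2 : (2 : k) ≠ 0) {p q w : k[X]} {n : ℕ} (hn : 3 ≤ n)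
    (hp : FF (2 * n) p) (hq : FF (2 * n) q)
    (hd : FF (4 * n) ((w ^ 2 - p - q) ^ 2 - 4 * (p * q)))
    (hco : IsCoprime p q) {L L' K F : Type} [Field L] [Algebra k L] [Field L']
    [Algebra L L'] [Algebra k L'] [IsScalarTower k L L'] [Field K] [Algebra L[X] K]
    [Field F] [Algebra L'[X] F] [IsFractionRing L'[X] F] [Algebra K F] (hT : IsTower L L' K F)
    (M : IntermediateField k L') (hMn : Normal k M)
    (hM : ∀ x : L, IsSeparable k x → algebraMap L L' x ∈ M)
    (h1 : ¬ (p.map (algebraMap k M)).Splits) (h3 : ¬ (q.map (algebraMap k M)).Splits)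
    (h4 : ¬ (((w ^ 2 - p - q) ^ 2 - 4 * (p * q)).map (algebraMap k M)).Splits) :
    TateAtTwo (F := F) L' (crvT (algebraMap L[X] K ((w ^ 2 - p - q).map (algebraMap k L)))
      (algebraMap L[X] K ((p * q).map (algebraMap k L)))) ∧
    ∃ P : Pt (crvT (algebraMap L[X] K ((w ^ 2 - p - q).map (algebraMap k L)))
      (algebraMap L[X] K ((p * q).map (algebraMap k L)))) K, ∀ m : ℕ, 0 < m → m • P ≠ 0 := by
  haveI := hT.sep
  haveI := hT.fracK
  have h2L : (2 : L) ≠ 0 := by
    rw [← map_ofNat (algebraMap k L) 2]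
    exact (map_ne_zero_iff _ (algebraMap k L).injective).2 h2
  obtain ⟨i1, n1⟩ := three_gen hp.2.1 (by rw [hp.1.2]; omega) hp.2.2 h2 L L' M hM h1
  obtain ⟨i2, n2⟩ := three_gen hq.2.1 (by rw [hq.1.2]; omega) hq.2.2 h2 L L' M hM h3
  obtain ⟨i3, n3⟩ := three_gen hd.2.1 (by rw [hd.1.2]; omega) hd.2.2 h2 L L' M hM h4
  have s1 : (p.map (algebraMap k L)).Separable := hp.2.1.map
  have s2 : (q.map (algebraMap k L)).Separable := hq.2.1.map
  have s3 := hd.2.1.map (f := algebraMap k L)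
  have hco' : IsCoprime (p.map (algebraMap k L)) (q.map (algebraMap k L)) :=
    hco.map (mapRingHom (algebraMap k L))
  have e : ((w ^ 2 - p - q) ^ 2 - 4 * (p * q)).map (algebraMap k L) =
      ((w.map (algebraMap k L)) ^ 2 - p.map (algebraMap k L) - q.map (algebraMap k L)) ^ 2 -
        4 * (p.map (algebraMap k L) * q.map (algebraMap k L)) := by
    simp only [Polynomial.map_sub, Polynomial.map_pow, Polynomial.map_mul, Polynomial.map_ofNat]
  have e1 : (w ^ 2 - p - q).map (algebraMap k L) =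
      (w.map (algebraMap k L)) ^ 2 - p.map (algebraMap k L) - q.map (algebraMap k L) := by
    simp only [Polynomial.map_sub, Polynomial.map_pow]
  rw [e] at i3 n3 s3
  rw [e1, Polynomial.map_mul]
  refine ⟨?_, ?_⟩
  · exact tate_one hT h2L i1 i2 s1 s2 i3 s3 (notNorm_mul i1 n1 hco' i2.ne_zero) n3
  · exact inf_order h2L i1 i2 hco' i3

theorem ro_solvG {k : Type} [Field k] (h2 : (2 : k) ≠ 0) {p q w : k[X]} {n : ℕ} (hn : 3 ≤ n)
    (hp : FF (2 * n) p) (hq : FF (2 * n) q)
    (hd : FF (4 * n) ((w ^ 2 - p - q) ^ 2 - 4 * (p * q)))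
    (hco : IsCoprime p q) {L L' K F : Type} [Field L] [Algebra k L] [Field L']
    [Algebra L L'] [Algebra k L'] [IsScalarTower k L L'] [Field K] [Algebra L[X] K]
    [Field F] [Algebra L'[X] F] [IsFractionRing L'[X] F] [Algebra K F] (hT : IsTower L L' K F)
    (hM : ∀ x : L, IsSeparable k x → Group.IsSolvable (minpoly k x).Gal) :
    TateAtTwo (F := F) L' (crvT (algebraMap L[X] K ((w ^ 2 - p - q).map (algebraMap k L)))
      (algebraMap L[X] K ((p * q).map (algebraMap k L)))) ∧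
    ∃ P : Pt (crvT (algebraMap L[X] K ((w ^ 2 - p - q).map (algebraMap k L)))
      (algebraMap L[X] K ((p * q).map (algebraMap k L)))) K, ∀ m : ℕ, 0 < m → m • P ≠ 0 := by
  haveI := hT.sep
  haveI : IsSepClosed L' := IsSepClosure.sep_closed L
  exact ro_extG h2 hn hp hq hd hco hT (solvM k L') (solvM_normal L')
    (fun x hx => mem_solvM hx (hM x hx))
    (solvM_not_splits L' hp.2.1 (by rw [hp.1.2]; omega) hp.2.2)
    (solvM_not_splits L' hq.2.1 (by rw [hq.1.2]; omega) hq.2.2)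
    (solvM_not_splits L' hd.2.1 (by rw [hd.1.2]; omega) hd.2.2)

theorem D8_pos {n : ℕ} (hn : 2 ≤ n) : 0 < D8 n :=
  Nat.mul_pos (Nat.mul_pos (DD_pos (by omega)) (DD_pos (by omega)))
    (Nat.mul_pos (DD_pos (by omega)) (by positivity))

variable (R) in
theorem densRo [Algebra.FiniteType ℤ R] (hR : ¬ IsField R) (h2 : (2 : R) ≠ 0) {n : ℕ}
    (hn : 2 ≤ n) (η : ℝ) (hη : 0 < η) :
    ∃ M : Ideal R, Finite (R ⧸ M) ∧
      (1 - η) * (Nat.card (R ⧸ M) : ℝ) ^ (Fintype.card (Ix n)) ≤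
      (({x : Ix n → R ⧸ M | ∀ s : Option (Fin 3 × Fin 3),
        ∃ p ∈ Zg R (8 * n + 2), ∀ y : Ix n → R,
          (∀ j, Ideal.Quotient.mk M (y j) = x j) →
          (fun j => Ideal.Quotient.mk p (y j)) ∈ He7 n s (R ⧸ p)}).ncard : ℝ) := by
  have hD : (0 : ℝ) < ((D8 n : ℕ) : ℝ) := by
    have := D8_pos hn
    exact_mod_cast this
  refine densityG (Zg R (8 * n + 2)) (Zg_inf R hR h2 _) (fun p hp => hp.1) (fun p hp => hp.2.1)
    (fun s p => He7 n s (R ⧸ p)) (c := 1 / ((D8 n : ℕ) : ℝ)) (by positivity) ?_ η hη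
  intro s p hp
  haveI := hp.1
  letI : Field (R ⧸ p) := Ideal.Quotient.field p
  haveI : Finite (R ⧸ p) := hp.2.1
  have h1 := He7_card (F := R ⧸ p) hn hp.2.2.1 (Zg_two hp) s
  have hc : Fintype.card (Ix n) = 5 * n + 3 := by
    rw [Fintype.card_sum, Fintype.card_sum, Fintype.card_fin, Fintype.card_fin]
    omega
  rw [hc, one_div, inv_mul_le_iff₀ hD]
  exact_mod_cast h1

end rank

end Pool.Agent.X243.Gen
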