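import Pool.Agent.X243.Tate.Dens

/-!
Maximal ideals of finitely generated rings, and properties which hold for a positive proportion of the
residue classes modulo each of them.
-/

set_option autoImplicit false
set_option linter.all false

open scoped Classical

namespace Pool.Agent.X243.Gen

open Pool.Agent.X243.Tate

theorem finite_field (F : Type) [Field F] [Module.Finite ℤ F] : Finite F := by
  obtain ⟨q, hq⟩ := CharP.exists F
  rcases CharP.char_is_prime_or_zero F q with hp | hp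
  · haveI : Fact q.Prime := ⟨hp⟩
    let _ : Algebra (ZMod q) F := ZMod.algebra F q
    haveI : Module.Finite (ZMod q) F := Module.Finite.of_restrictScalars_finite ℤ (ZMod q) F
    exact Module.finite_of_finite (ZMod q)
  · subst hp
    exfalso
    haveI : CharZero F := CharP.charP_to_charZero F
    haveI : Algebra.IsIntegral ℤ F := Algebra.IsIntegral.of_finite ℤ F
    have h1 : IsIntegral ℤ (algebraMap ℚ F (2 : ℚ)⁻¹) := Algebra.IsIntegral.isIntegral _
    have h2 : IsIntegral ℤ ((2 : ℚ)⁻¹) :=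
      (isIntegral_algebraMap_iff (algebraMap ℚ F).injective).1 h1
    obtain ⟨z, hz⟩ := IsIntegrallyClosed.isIntegral_iff.1 h2
    have hz' : (z : ℚ) = (2 : ℚ)⁻¹ := by simpa using hz
    have h3 : (2 * z : ℤ) = 1 := by
      have : ((2 * z : ℤ) : ℚ) = 1 := by
        push_cast
        rw [hz']; norm_num
      exact_mod_cast this
    omega

theorem jacobson_int : IsJacobsonRing ℤ := by
  rw [isJacobsonRing_iff_prime_eq]
  intro P hP
  by_cases h : P = ⊥
  · subst h
    rw [eq_bot_iff]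
    intro x hx
    rw [Ideal.mem_jacobson_bot] at hx
    have h1 := hx x
    rw [Int.isUnit_iff] at h1
    rw [Ideal.mem_bot]
    rcases h1 with h1 | h1
    · have : x * x = 0 := by linarith
      exact mul_self_eq_zero.1 this
    · nlinarith [mul_self_nonneg x]
  · haveI : P.IsMaximal := hP.isMaximal h
    exact Ideal.jacobson_eq_self_of_isMaximal

/-- residue fields of finitely generated rings -/
theorem residue_finite (R : Type) [CommRing R] [Algebra.FiniteType ℤ R] (m : Ideal R)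
    [hm : m.IsMaximal] : Finite (R ⧸ m) := by
  haveI := jacobson_int
  let i1 : Field (R ⧸ m) := Ideal.Quotient.field m
  have h2 : Module.Finite ℤ (R ⧸ m) :=
    @finite_of_finite_type_of_isJacobsonRing ℤ (R ⧸ m) _ i1 (Ideal.Quotient.algebra ℤ (I := m)) _
      (inferInstance)
  exact finite_field (R ⧸ m)

/-- The maximal ideals with large residue fields of odd characteristic. -/
def Zg (R : Type) [CommRing R] (B : ℕ) : Set (Ideal R) :=
  {m | m.IsMaximal ∧ Finite (R ⧸ m) ∧ B ≤ Nat.card (R ⧸ m) ∧ (2 : R) ∉ m}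

theorem Zg_inf (R : Type) [CommRing R] [IsDomain R] [Algebra.FiniteType ℤ R] (hR : ¬ IsField R)
    (h2 : (2 : R) ≠ 0) (B : ℕ) : (Zg R B).Infinite := by
  intro hfin
  haveI := jacobson_int
  haveI : IsJacobsonRing R := isJacobsonRing_of_finiteType (A := ℤ)
  haveI : Infinite R := by
    by_contra h
    rw [not_infinite_iff_finite] at h
    exact hR (Finite.isField_of_domain R)
  -- an element in all the ideals with small residue fields
  obtain ⟨b, hb⟩ : ∃ b : R, ∏ q ∈ Finset.Ico 2 B, (b ^ q - b) ≠ 0 := by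
    obtain ⟨P, hP⟩ : ∃ P : Polynomial R, P = ∏ q ∈ Finset.Ico 2 B,
      (Polynomial.X ^ q - Polynomial.X) := ⟨_, rfl⟩
    have hP0 : P ≠ 0 := by
      rw [hP, Finset.prod_ne_zero_iff]
      intro q hq h0
      have hq2 := (Finset.mem_Ico.1 hq).1
      have h1 := congrArg (fun f : Polynomial R => f.coeff q) h0
      simp only [Polynomial.coeff_sub, Polynomial.coeff_X_pow_self, Polynomial.coeff_zero] at h1
      rw [Polynomial.coeff_X_of_ne_one (by omega), sub_zero] at h1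
      exact one_ne_zero h1
    obtain ⟨b, hb⟩ := Infinite.exists_notMem_finset P.roots.toFinset
    refine ⟨b, fun h0 => hb ?_⟩
    rw [Multiset.mem_toFinset, Polynomial.mem_roots hP0, Polynomial.IsRoot.def, hP,
      Polynomial.eval_prod]
    simp only [Polynomial.eval_sub, Polynomial.eval_pow, Polynomial.eval_X]
    exact h0
  have hne : ∀ m ∈ Zg R B, ∃ x ∈ m, x ≠ 0 := by
    intro m hm
    have h1 : m ≠ ⊥ := by
      rintro rfl
      exact hR (Ring.isField_iff_maximal_bot.2 hm.1)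
    obtain ⟨x, hx, hx0⟩ := Submodule.exists_mem_ne_zero_of_ne_bot h1
    exact ⟨x, hx, hx0⟩
  choose! x hx hx0 using hne
  obtain ⟨c, hc⟩ : ∃ c : R, c = 2 * (∏ q ∈ Finset.Ico 2 B, (b ^ q - b)) *
    ∏ m ∈ hfin.toFinset, x m := ⟨_, rfl⟩
  have hc0 : c ≠ 0 := by
    rw [hc]
    refine mul_ne_zero (mul_ne_zero h2 hb) ?_
    rw [Finset.prod_ne_zero_iff]
    intro m hm
    exact hx0 m (hfin.mem_toFinset.1 hm)
  apply hc0
  have hall : ∀ m : Ideal R, m.IsMaximal → c ∈ m := by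
    intro m hm
    haveI := hm
    haveI : Finite (R ⧸ m) := residue_finite R m
    by_cases h3 : (2 : R) ∈ m
    · rw [hc]
      exact m.mul_mem_right _ (m.mul_mem_right _ h3)
    by_cases h4 : B ≤ Nat.card (R ⧸ m)
    · have h5 : m ∈ Zg R B := ⟨hm, inferInstance, h4, h3⟩
      rw [hc]
      refine m.mul_mem_left _ ?_
      rw [← Finset.mul_prod_erase _ _ (hfin.mem_toFinset.2 h5)]
      exact m.mul_mem_right _ (hx m h5)
    · rw [hc]
      refine m.mul_mem_right _ (m.mul_mem_left _ ?_)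
      letI : Field (R ⧸ m) := Ideal.Quotient.field m
      letI := Fintype.ofFinite (R ⧸ m)
      have h5 : Nat.card (R ⧸ m) ∈ Finset.Ico 2 B := by
        rw [Finset.mem_Ico]
        refine ⟨?_, by omega⟩
        rw [Nat.card_eq_fintype_card]
        exact Fintype.one_lt_card
      rw [← Finset.mul_prod_erase _ _ h5]
      refine m.mul_mem_right _ ?_
      rw [← Ideal.Quotient.eq, map_pow, Nat.card_eq_fintype_card, FiniteField.pow_card]
  have hJ : IsJacobsonRing R := inferInstance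
  have hbot : (⊥ : Ideal R).jacobson = ⊥ := hJ.out Ideal.isRadical_bot
  have h6 : c ∈ (⊥ : Ideal R).jacobson := by
    rw [Ideal.jacobson, Ideal.mem_sInf]
    rintro m ⟨-, hm⟩
    exact hall m hm
  rw [hbot] at h6
  exact h6

theorem densityG {R : Type} [CommRing R] {ι : Type} [Fintype ι] {σ : Type} [Fintype σ]
    (Z : Set (Ideal R)) (hZ : Z.Infinite) (hmax : ∀ p ∈ Z, p.IsMaximal)
    (hfin : ∀ p ∈ Z, Finite (R ⧸ p))
    (G : σ → ∀ p : Ideal R, Set (ι → R ⧸ p)) {c : ℝ} (hc : 0 < c)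
    (hG : ∀ s, ∀ p ∈ Z, c * (Nat.card (R ⧸ p) : ℝ) ^ (Fintype.card ι) ≤
      ((G s p).ncard : ℝ)) (η : ℝ) (hη : 0 < η) :
    ∃ M : Ideal R, Finite (R ⧸ M) ∧ (1 - η) * (Nat.card (R ⧸ M) : ℝ) ^ (Fintype.card ι) ≤
      (({x : ι → R ⧸ M | ∀ s, ∃ p ∈ Z, ∀ y : ι → R, (∀ j, Ideal.Quotient.mk M (y j) = x j) →
        (fun j => Ideal.Quotient.mk p (y j)) ∈ G s p}).ncard : ℝ) := by
  obtain ⟨c', hc'⟩ : ∃ c' : ℝ, c' = min c 1 := ⟨_, rfl⟩
  have hc0 : 0 < c' := hc' ▸ lt_min hc one_pos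
  have hc1 : c' ≤ 1 := hc' ▸ min_le_right _ _
  have hcc : c' ≤ c := hc' ▸ min_le_left _ _
  have hσ : (0 : ℝ) < Fintype.card σ + 1 := by positivity
  obtain ⟨r, hr⟩ := exists_pow_lt_of_lt_one (div_pos hη hσ) (show 1 - c' < 1 by linarith)
  have hpow0 : 0 ≤ (1 - c') ^ r := pow_nonneg (by linarith) r
  have hr' : (Fintype.card σ : ℝ) * (1 - c') ^ r ≤ η := by
    rw [lt_div_iff₀ hσ] at hr
    nlinarith
  obtain ⟨P, hPinj, hP⟩ : ∃ P : Fin r → Ideal R, Function.Injective P ∧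
      ∀ i, P i ∈ Z := by
    refine ⟨fun i => (hZ.natEmbedding _ i.1).1, ?_, fun i => (hZ.natEmbedding _ i.1).2⟩
    intro i j hij
    exact Fin.ext ((hZ.natEmbedding _).injective (Subtype.ext hij))
  have hImax : ∀ i, (P i).IsMaximal := fun i => hmax _ (hP i)
  have hIne : ∀ i j, i ≠ j → P i ≠ P j := fun i j hij h => hij (hPinj h)
  have hIfin : ∀ i, Finite (R ⧸ P i) := fun i => hfin _ (hP i)
  have key := fun s => sieve (fun i => P i) hImax hIne hIfin (fun i => G s (P i)) hc1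
    (fun i => (mul_le_mul_of_nonneg_right hcc (by positivity)).trans (hG s (P i) (hP i)))
  have hM : Finite (R ⧸ ⨅ i, P i) := (sieve (fun i => P i) hImax hIne hIfin
    (fun i => (Set.univ : Set (ι → R ⧸ P i))) (c := 0) zero_le_one (fun i => by
      rw [zero_mul]
      exact Nat.cast_nonneg _)).1
  refine ⟨⨅ i, P i, hM, ?_⟩
  set T : ℝ := (Nat.card (R ⧸ ⨅ i, P i) : ℝ) ^ (Fintype.card ι) with hT
  have hT0 : 0 ≤ T := by positivity
  let S : σ → Set (ι → R ⧸ ⨅ i, P i) := fun s =>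
    {x | ∃ i, ∀ y : ι → R, (∀ j, Ideal.Quotient.mk _ (y j) = x j) →
      (fun j => Ideal.Quotient.mk (P i) (y j)) ∈ G s (P i)}
  have hS : ∀ s, (1 - (1 - c') ^ r) * T ≤ ((S s).ncard : ℝ) := fun s => (key s).2
  have hcard : ∀ U : Set (ι → R ⧸ ⨅ i, P i), (U.ncard : ℝ) + (Uᶜ.ncard : ℝ) = T := by
    intro U
    have h1 := Set.ncard_add_ncard_compl U
    rw [Nat.card_fun, Nat.card_eq_fintype_card (α := ι)] at h1
    rw [hT]
    exact_mod_cast h1
  have hSc : ∀ s, (((S s)ᶜ).ncard : ℝ) ≤ (1 - c') ^ r * T := by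
    intro s
    have h1 := hcard (S s)
    have h2 := hS s
    linarith
  have hsub : {x | ∀ s, x ∈ S s} ⊆ {x : ι → R ⧸ ⨅ i, P i | ∀ s, ∃ p ∈ Z,
      ∀ y : ι → R, (∀ j, Ideal.Quotient.mk (⨅ i, P i) (y j) = x j) →
        (fun j => Ideal.Quotient.mk p (y j)) ∈ G s p} := by
    intro x hx s
    obtain ⟨i, hi⟩ := hx s
    exact ⟨P i, hP i, hi⟩
  have h1 : ((({x | ∀ s, x ∈ S s}ᶜ : Set (ι → R ⧸ ⨅ i, P i))).ncard : ℝ) ≤ η * T := by
    have h2 := ncard_compl_le S
    have h3 : ((({x | ∀ s, x ∈ S s}ᶜ : Set (ι → R ⧸ ⨅ i, P i))).ncard : ℝ) ≤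
        ∑ s, (((S s)ᶜ).ncard : ℝ) := by exact_mod_cast h2
    refine h3.trans ((Finset.sum_le_sum fun s _ => hSc s).trans ?_)
    rw [Finset.sum_const, Finset.card_univ, nsmul_eq_mul, ← mul_assoc]
    exact mul_le_mul_of_nonneg_right hr' hT0
  have h2 := hcard {x | ∀ s, x ∈ S s}
  have h3 : ((({x | ∀ s, x ∈ S s} : Set (ι → R ⧸ ⨅ i, P i))).ncard : ℝ) ≤
      (({x : ι → R ⧸ ⨅ i, P i | ∀ s, ∃ p ∈ Z,
      ∀ y : ι → R, (∀ j, Ideal.Quotient.mk (⨅ i, P i) (y j) = x j) →
        (fun j => Ideal.Quotient.mk p (y j)) ∈ G s p}).ncard : ℝ) := by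
    exact_mod_cast Set.ncard_le_ncard hsub (Set.toFinite _)
  linarith


end Pool.Agent.X243.Gen
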