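import Pool.Agent.X243.Gen.Three
import Pool.Agent.X243.Gen.Dens
import Pool.Agent.X243.Sol.Main

/-!
The Tate conjecture at two over finitely generated fields for 100% of the elliptic surfaces with a
section of order two.
-/

set_option autoImplicit false
set_option linter.all false

open Polynomial
open scoped Classical

namespace Pool.Agent.X243.Gen

open Pool.Agent.TH115.GD Pool.Agent.X243.Tate Pool.Agent.X243.Sol Pool.Agent.Y160.T3

section lim

open Filter Topology

/-- The proportion in a sequence of finite sets which is equidistributed modulo all the ideals of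
finite index. -/
theorem tendsto_of_dens {R : Type} [CommRing R] {ι : Type} [Fintype ι] (S : Set (ι → R))
    (h : ∀ η : ℝ, 0 < η → ∃ M : Ideal R, Finite (R ⧸ M) ∧
      (1 - η) * (Nat.card (R ⧸ M) : ℝ) ^ (Fintype.card ι) ≤
        (({x : ι → R ⧸ M | ∀ y : ι → R, (∀ j, Ideal.Quotient.mk M (y j) = x j) → y ∈ S}).ncard : ℝ))
    (B : ℕ → Finset (ι → R)) (hB : ∀ n, (B n).Nonempty)
    (heq : ∀ M : Ideal R, Finite (R ⧸ M) → ∀ x : ι → R ⧸ M,
      Tendsto (fun n => (((B n).filter (fun y => ∀ j, Ideal.Quotient.mk M (y j) = x j)).card : ℝ) /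
        ((B n).card : ℝ)) atTop (𝓝 (1 / (Nat.card (R ⧸ M) : ℝ) ^ (Fintype.card ι)))) :
    Tendsto (fun n => (((B n).filter (fun y => y ∈ S)).card : ℝ) / ((B n).card : ℝ)) atTop
      (𝓝 1) := by
  have hpos : ∀ n, (0 : ℝ) < ((B n).card : ℝ) := fun n => by exact_mod_cast (hB n).card_pos
  have hle : ∀ n, (((B n).filter (fun y => y ∈ S)).card : ℝ) / ((B n).card : ℝ) ≤ 1 := by
    intro n
    rw [div_le_one (hpos n)]
    exact_mod_cast Finset.card_filter_le _ _
  rw [tendsto_order]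
  refine ⟨fun a ha => ?_, fun a ha => ?_⟩
  · obtain ⟨M, hM, hd⟩ := h ((1 - a) / 2) (by linarith)
    haveI := hM
    haveI := Fintype.ofFinite (R ⧸ M)
    set T : ℝ := (Nat.card (R ⧸ M) : ℝ) ^ (Fintype.card ι) with hT
    have hT0 : 0 < T := by
      have : 0 < Nat.card (R ⧸ M) := Nat.card_pos
      positivity
    set X : Finset (ι → R ⧸ M) := (Set.toFinite {x : ι → R ⧸ M | ∀ y : ι → R,
      (∀ j, Ideal.Quotient.mk M (y j) = x j) → y ∈ S}).toFinset with hX
    have hXc : (({x : ι → R ⧸ M | ∀ y : ι → R, (∀ j, Ideal.Quotient.mk M (y j) = x j) →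
        y ∈ S}).ncard : ℝ) = (X.card : ℝ) := by
      rw [hX, Set.ncard_eq_toFinset_card]
    rw [hXc] at hd
    have hlim : Tendsto (fun n => ∑ x ∈ X,
        (((B n).filter (fun y => ∀ j, Ideal.Quotient.mk M (y j) = x j)).card : ℝ) /
          ((B n).card : ℝ)) atTop (𝓝 (∑ x ∈ X, 1 / T)) :=
      tendsto_finset_sum _ fun x _ => heq M hM x
    have hval : a < ∑ x ∈ X, 1 / T := by
      rw [Finset.sum_const, nsmul_eq_mul, mul_one_div, lt_div_iff₀ hT0]
      nlinarith
    filter_upwards [(tendsto_order.1 hlim).1 a hval] with n hn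
    refine hn.trans_le ?_
    rw [← Finset.sum_div]
    refine div_le_div_of_nonneg_right ?_ (hpos n).le
    have h1 : (X.biUnion fun x => (B n).filter (fun y => ∀ j, Ideal.Quotient.mk M (y j) = x j)) ⊆
        (B n).filter (fun y => y ∈ S) := by
      intro y hy
      rw [Finset.mem_biUnion] at hy
      obtain ⟨x, hx, hy⟩ := hy
      rw [Finset.mem_filter] at hy ⊢
      rw [hX, Set.Finite.mem_toFinset] at hx
      exact ⟨hy.1, hx y hy.2⟩
    have h2 := Finset.card_le_card h1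
    rw [Finset.card_biUnion (by
      intro x _ x' _ hne
      rw [Function.onFun, Finset.disjoint_left]
      intro y hy hy'
      rw [Finset.mem_filter] at hy hy'
      apply hne
      funext j
      rw [← hy.2 j, hy'.2 j])] at h2
    exact_mod_cast h2
  · exact Eventually.of_forall fun n => (hle n).trans_lt ha

end lim

section main

variable {R k : Type} [CommRing R] [IsDomain R] [IsIntegrallyClosed R] [IsNoetherianRing R]
  [Field k] [Algebra R k] [IsFractionRing R k]

/-- Irreducible of degree `N`, separable, with full symmetric Galois group. -/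
def FF {k : Type} [Field k] (N : ℕ) (F : k[X]) : Prop := I1 N F ∧ F.Separable ∧ FullG F

theorem evG {N B : ℕ} (hN : 3 ≤ N) {G : R[X]} (hG : G.natDegree ≤ N)
    (hev : ∀ t : Fin 3, ∃ p ∈ Zg R B, ∃ w ∈ Ev (R ⧸ p) N t, bF w = G.map (Ideal.Quotient.mk p)) :
    FF N (G.map (algebraMap R k)) := by
  obtain ⟨p0, z0, w0, e0, g0⟩ := hev 0
  obtain ⟨p1, z1, w1, e1, g1⟩ := hev 1
  obtain ⟨p2, z2, w2, e2, g2⟩ := hev 2
  have f0 : I1 N (bF w0) := e0
  have f1 : I2 N (bF w1) := e1
  have f2 : I3 N (bF w2) := e2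
  rw [g0] at f0
  rw [g1] at f1
  rw [g2] at f2
  haveI := z0.1
  haveI := z1.1
  haveI := z2.1
  haveI := z0.2.1
  haveI := z1.2.1
  haveI := z2.2.1
  exact gen_full hN hG f0 f1 f2

theorem goodG {m N B : ℕ} (hmN : 2 * m ≤ N) (hN : 3 ≤ N)
    {y : Fin (m + 1) ⊕ Fin (N + 1) → R}
    (h : ∀ s : Bool × Fin 3, ∃ p ∈ Zg R B, (fun j => Ideal.Quotient.mk p (y j)) ∈
      Gev3 m N s (R ⧸ p)) (a b : k[X])
    (ha : a = (bF (y ∘ Sum.inl)).map (algebraMap R k))
    (hb : b = (bF (y ∘ Sum.inr)).map (algebraMap R k)) :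
    FF N b ∧ FF N (a ^ 2 - 4 * b) := by
  have key : ∀ s : Bool, FF N ((pol s y).map (algebraMap R k)) := by
    intro s
    refine evG (B := B) hN (pol_nd s hmN y) (fun t => ?_)
    obtain ⟨p, hp, e⟩ := h (s, t)
    refine ⟨p, hp, cf s (fun j => Ideal.Quotient.mk p (y j)), e, ?_⟩
    rw [bF_cf s hmN, pol_map]
  have e1 : (pol true y).map (algebraMap R k) = b := by rw [hb]; rfl
  have e2 : (pol false y).map (algebraMap R k) = a ^ 2 - 4 * b := by
    rw [ha, hb, pol]
    simp only [Bool.false_eq_true, if_false, Polynomial.map_sub, Polynomial.map_pow,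
      Polynomial.map_mul, Polynomial.map_ofNat]
  have k1 := key true
  have k2 := key false
  rw [e1] at k1
  rw [e2] at k2
  exact ⟨k1, k2⟩

theorem Zg_two {B : ℕ} {p : Ideal R} (hp : p ∈ Zg R B) : (2 : R ⧸ p) ≠ 0 := by
  rw [← map_ofNat (Ideal.Quotient.mk p) 2, Ne, Ideal.Quotient.eq_zero_iff_mem]
  exact hp.2.2.2

theorem Gev3_G {m N : ℕ} (hN : 3 ≤ N) (s : Bool × Fin 3) {p : Ideal R}
    (hp : p ∈ Zg R (2 * N + 2)) :
    (1 / ((DD N : ℕ) : ℝ)) * (Nat.card (R ⧸ p) : ℝ) ^
      (Fintype.card (Fin (m + 1) ⊕ Fin (N + 1))) ≤ ((Gev3 m N s (R ⧸ p)).ncard : ℝ) := by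
  haveI := hp.1
  letI : Field (R ⧸ p) := Ideal.Quotient.field p
  haveI : Finite (R ⧸ p) := hp.2.1
  exact Gev3_card hN hp.2.2.1 (Zg_two hp) s

variable (R) in
theorem densOne [Algebra.FiniteType ℤ R] (hR : ¬ IsField R) (h2 : (2 : R) ≠ 0) {m N : ℕ}
    (hN : 3 ≤ N) (η : ℝ) (hη : 0 < η) :
    ∃ M : Ideal R, Finite (R ⧸ M) ∧
      (1 - η) * (Nat.card (R ⧸ M) : ℝ) ^ (Fintype.card (Fin (m + 1) ⊕ Fin (N + 1))) ≤
      (({x : Fin (m + 1) ⊕ Fin (N + 1) → R ⧸ M | ∀ s : Bool × Fin 3,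
        ∃ p ∈ Zg R (2 * N + 2), ∀ y : Fin (m + 1) ⊕ Fin (N + 1) → R,
          (∀ j, Ideal.Quotient.mk M (y j) = x j) →
          (fun j => Ideal.Quotient.mk p (y j)) ∈ Gev3 m N s (R ⧸ p)}).ncard : ℝ) := by
  refine densityG (Zg R (2 * N + 2)) (Zg_inf R hR h2 _) (fun p hp => hp.1) (fun p hp => hp.2.1)
    (fun s p => Gev3 m N s (R ⧸ p)) (c := 1 / ((DD N : ℕ) : ℝ)) ?_ ?_ η hη
  · have hD : 0 < DD N := by
      have := D3_pos N
      unfold DD
      have h3 : 0 < 4 * N := by omega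
      positivity
    have : (0 : ℝ) < ((DD N : ℕ) : ℝ) := by exact_mod_cast hD
    positivity
  · intro s p hp
    exact Gev3_G hN s hp

end main

section tate

variable {k : Type} [Field k]

theorem tate_extG (h2 : (2 : k) ≠ 0) {a b : k[X]} {N : ℕ} (hN : 5 ≤ N) (hb : FF N b)
    (hd : FF N (a ^ 2 - 4 * b)) {L L' K F : Type} [Field L] [Algebra k L] [Field L']
    [Algebra L L'] [Algebra k L'] [IsScalarTower k L L'] [Field K] [Algebra L[X] K]
    [Field F] [Algebra L'[X] F] [IsFractionRing L'[X] F] [Algebra K F] (hT : IsTower L L' K F)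
    (M : IntermediateField k L') (hMn : Normal k M)
    (hM : ∀ x : L, IsSeparable k x → algebraMap L L' x ∈ M)
    (h1 : ¬ (b.map (algebraMap k M)).Splits)
    (h3 : ¬ ((a ^ 2 - 4 * b).map (algebraMap k M)).Splits) :
    TateAtTwo (F := F) L' (crvT (algebraMap L[X] K (a.map (algebraMap k L)))
      (algebraMap L[X] K (b.map (algebraMap k L)))) := by
  haveI := hT.sep
  have h2L : (2 : L) ≠ 0 := by
    rw [← map_ofNat (algebraMap k L) 2]
    exact (map_ne_zero_iff _ (algebraMap k L).injective).2 h2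
  obtain ⟨i1, n1⟩ := three_gen hb.2.1 (by rw [hb.1.2]; exact hN) hb.2.2 h2 L L' M hM h1
  obtain ⟨i2, n2⟩ := three_gen hd.2.1 (by rw [hd.1.2]; exact hN) hd.2.2 h2 L L' M hM h3
  have e : (a ^ 2 - 4 * b).map (algebraMap k L) =
      (a.map (algebraMap k L)) ^ 2 - 4 * (b.map (algebraMap k L)) := by
    rw [Polynomial.map_sub, Polynomial.map_pow, Polynomial.map_mul, Polynomial.map_ofNat]
  have s1 : (b.map (algebraMap k L)).Separable := hb.2.1.map
  have s2 : ((a ^ 2 - 4 * b).map (algebraMap k L)).Separable := hd.2.1.map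
  rw [e] at i2 n2 s2
  exact genericT hT h2L (u := 1) (v := 1) (m := 0) (n := 0) (π := b.map (algebraMap k L))
    (ρ := (a.map (algebraMap k L)) ^ 2 - 4 * (b.map (algebraMap k L))) one_ne_zero one_ne_zero
    i1 i2 s1 s2
    (by rw [C_1, one_mul, mul_zero, zero_add, pow_one])
    (by rw [C_1, one_mul, mul_zero, zero_add, pow_one]) n1 n2

theorem mem_solvM {L L' : Type} [Field L] [Algebra k L] [Field L'] [Algebra L L'] [Algebra k L']
    [IsScalarTower k L L'] {x : L} (hx : IsSeparable k x)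
    (hs : Group.IsSolvable (minpoly k x).Gal) : algebraMap L L' x ∈ solvM k L' := by
  apply IntermediateField.subset_adjoin
  have h1 : minpoly k (algebraMap L L' x) = minpoly k x :=
    minpoly.algebraMap_eq (algebraMap L L').injective x
  refine ⟨?_, ?_⟩
  · show (minpoly k (algebraMap L L' x)).Separable
    rw [h1]
    exact hx
  · rw [h1]
    exact hs

theorem tate_solvG (h2 : (2 : k) ≠ 0) {a b : k[X]} {N : ℕ} (hN : 5 ≤ N) (hb : FF N b)
    (hd : FF N (a ^ 2 - 4 * b)) {L L' K F : Type} [Field L] [Algebra k L] [Field L']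
    [Algebra L L'] [Algebra k L'] [IsScalarTower k L L'] [Field K] [Algebra L[X] K]
    [Field F] [Algebra L'[X] F] [IsFractionRing L'[X] F] [Algebra K F] (hT : IsTower L L' K F)
    (hM : ∀ x : L, IsSeparable k x → Group.IsSolvable (minpoly k x).Gal) :
    TateAtTwo (F := F) L' (crvT (algebraMap L[X] K (a.map (algebraMap k L)))
      (algebraMap L[X] K (b.map (algebraMap k L)))) := by
  haveI := hT.sep
  haveI : IsSepClosed L' := IsSepClosure.sep_closed L
  exact tate_extG h2 hN hb hd hT (solvM k L') (solvM_normal L')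
    (fun x hx => mem_solvM hx (hM x hx))
    (solvM_not_splits L' hb.2.1 (by rw [hb.1.2]; exact hN) hb.2.2)
    (solvM_not_splits L' hd.2.1 (by rw [hd.1.2]; exact hN) hd.2.2)

end tate

end Pool.Agent.X243.Gen
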