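import Pool.Agent.X243.Gen.Aff
import Pool.Agent.TH958.T2.Fin

/-!
The elliptic surfaces of large rank
`y ^ 2 = x (x - f ^ (q + 1) - h ^ ((q + 1) / 2)) (x - f ^ (q + 1) + h ^ ((q + 1) / 2))` over finitely
generated fields of characteristic `p`, with fixed `f`.
-/

set_option autoImplicit false
set_option linter.all false

open Polynomial
open scoped Classical

namespace Pool.Agent.X243.Gen

open Pool.Agent.TH115.GD Pool.Agent.X243.Tate Pool.Agent.X243.Sol Pool.Agent.Y160.T3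
open Pool.Agent.TH958.T2 (Admissible curve)

section ext

variable {k : Type} [Field k]

theorem adm_ext {p ν : ℕ} [Fact p.Prime] (h4 : p ^ ν % 4 = 1) (hν : 0 < ν) [CharP k p]
    (h2 : (2 : k) ≠ 0) {i ω : k} (hi : i ^ 2 = -1) (hω : IsPrimitiveRoot ω (p ^ ν + 1))
    {f h : k[X]} {N : ℕ} (hN : 5 ≤ N) (hodd : Odd N) (hf0 : f ≠ 0) (hdeg : 2 * f.natDegree < N)
    (hh : FF N h) (hz : ∀ ζ : k, ζ ^ (p ^ ν + 1) = 1 → FF N (h - C ζ * f ^ 2))
    {L L' K F : Type} [Field L] [Algebra k L] [Field L']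
    [Algebra L L'] [Algebra k L'] [IsScalarTower k L L'] [Field K] [Algebra L[X] K]
    [Field F] [Algebra L'[X] F] [IsFractionRing L'[X] F] [Algebra K F] (hT : IsTower L L' K F)
    (M : IntermediateField k L') (hMn : Normal k M)
    (hM : ∀ x : L, IsSeparable k x → algebraMap L L' x ∈ M)
    (h1 : ¬ (h.map (algebraMap k M)).Splits)
    (h3 : ∀ ζ : k, ζ ^ (p ^ ν + 1) = 1 → ¬ ((h - C ζ * f ^ 2).map (algebraMap k M)).Splits) :
    TateAtTwo (F := F) L' (curve K (p ^ ν) (f.map (algebraMap k L)) (h.map (algebraMap k L))) ∧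
      ∃ P : Fin (p ^ ν) → Pt (curve K (p ^ ν) (f.map (algebraMap k L))
        (h.map (algebraMap k L))) K, LinearIndependent ℤ P := by
  haveI := hT.sep
  haveI : CharP L p := charP_of_injective_algebraMap (algebraMap k L).injective p
  have hinj := (algebraMap k L).injective
  have hω' : IsPrimitiveRoot (algebraMap k L ω) (p ^ ν + 1) := hω.map_of_injective hinj
  have hi' : (algebraMap k L i) ^ 2 = -1 := by rw [← map_pow, hi, map_neg, map_one]
  refine Pool.Agent.TH958.T2.main h4 hν hT hi' hω' ?_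
  obtain ⟨k1, -⟩ := three_gen hh.2.1 (by rw [hh.1.2]; exact hN) hh.2.2 h2 L L' M hM h1
  refine ⟨(Polynomial.map_ne_zero_iff hinj).2 hf0, ?_, ?_, ⟨k1, hh.2.1.map⟩, ?_⟩
  · rw [natDegree_map, natDegree_map, hh.1.2]
    exact hdeg
  · rw [natDegree_map, hh.1.2]
    exact hodd
  · intro ζ hζ
    obtain ⟨j, -, rfl⟩ := hω'.eq_pow_of_pow_eq_one hζ
    have hj : (ω ^ j) ^ (p ^ ν + 1) = 1 := by rw [← pow_mul, mul_comm, pow_mul, hω.pow_eq_one, one_pow]
    have hg := hz _ hj
    obtain ⟨k2, -⟩ := three_gen hg.2.1 (by rw [hg.1.2]; exact hN) hg.2.2 h2 L L' M hM (h3 _ hj)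
    have e : (h - C (ω ^ j) * f ^ 2).map (algebraMap k L) =
        h.map (algebraMap k L) - C ((algebraMap k L ω) ^ j) * (f.map (algebraMap k L)) ^ 2 := by
      rw [Polynomial.map_sub, Polynomial.map_mul, Polynomial.map_pow, map_C, map_pow]
    rw [← e]
    exact ⟨k2, hg.2.1.map⟩

theorem adm_solv {p ν : ℕ} [Fact p.Prime] (h4 : p ^ ν % 4 = 1) (hν : 0 < ν) [CharP k p]
    (h2 : (2 : k) ≠ 0) {i ω : k} (hi : i ^ 2 = -1) (hω : IsPrimitiveRoot ω (p ^ ν + 1))
    {f h : k[X]} {N : ℕ} (hN : 5 ≤ N) (hodd : Odd N) (hf0 : f ≠ 0) (hdeg : 2 * f.natDegree < N)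
    (hh : FF N h) (hz : ∀ ζ : k, ζ ^ (p ^ ν + 1) = 1 → FF N (h - C ζ * f ^ 2))
    {L L' K F : Type} [Field L] [Algebra k L] [Field L']
    [Algebra L L'] [Algebra k L'] [IsScalarTower k L L'] [Field K] [Algebra L[X] K]
    [Field F] [Algebra L'[X] F] [IsFractionRing L'[X] F] [Algebra K F] (hT : IsTower L L' K F)
    (hM : ∀ x : L, IsSeparable k x → Group.IsSolvable (minpoly k x).Gal) :
    TateAtTwo (F := F) L' (curve K (p ^ ν) (f.map (algebraMap k L)) (h.map (algebraMap k L))) ∧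
      ∃ P : Fin (p ^ ν) → Pt (curve K (p ^ ν) (f.map (algebraMap k L))
        (h.map (algebraMap k L))) K, LinearIndependent ℤ P := by
  haveI := hT.sep
  haveI : IsSepClosed L' := IsSepClosure.sep_closed L
  exact adm_ext h4 hν h2 hi hω hN hodd hf0 hdeg hh hz hT (solvM k L') (solvM_normal L')
    (fun x hx => mem_solvM hx (hM x hx))
    (solvM_not_splits L' hh.2.1 (by rw [hh.1.2]; exact hN) hh.2.2)
    (fun ζ hζ => solvM_not_splits L' (hz ζ hζ).2.1 (by rw [(hz ζ hζ).1.2]; exact hN)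
      (hz ζ hζ).2.2)

end ext

section fam

variable {R k : Type} [CommRing R] [IsDomain R] [IsIntegrallyClosed R] [IsNoetherianRing R]
  [Field k] [Algebra R k] [IsFractionRing R k]

/-- The shifts `0` and `- w ^ j f ^ 2`. -/
noncomputable def shf (N q : ℕ) (w : R) (f : R[X]) : Option (Fin (q + 1)) → Fin (N + 1) → R
  | none => fun _ => 0
  | some j => fun m => (C (-(w ^ (j : ℕ))) * f ^ 2).coeff m

theorem bF_co {S : Type} [CommRing S] {N : ℕ} {g : S[X]} (hg : g.natDegree ≤ N) :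
    bF (fun m : Fin (N + 1) => g.coeff m) = g := by
  conv_rhs => rw [g.as_sum_range' (N + 1) (by omega)]
  rw [bF, Finset.sum_range]
  refine Finset.sum_congr rfl fun m _ => ?_
  rw [C_mul_X_pow_eq_monomial]

theorem adm_good {N B q : ℕ} {c : R} (hN : 3 ≤ N) {w : R}
    (hw : IsPrimitiveRoot (algebraMap R k w) (q + 1)) {f : R[X]} (hf : 2 * f.natDegree < N)
    {y : Fin (N + 1) → R}
    (h : ∀ i : Option (Fin (q + 1)) × Fin 3, ∃ p ∈ Zc R B c,
      (fun j => Ideal.Quotient.mk p (y j)) ∈ Aev N (fun _ => 1) (shf N q w f) i p) {f' h' : k[X]}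
    (ef : f' = f.map (algebraMap R k)) (eh : h' = (bF y).map (algebraMap R k)) :
    FF N h' ∧ ∀ ζ : k, ζ ^ (q + 1) = 1 → FF N (h' - C ζ * f' ^ 2) := by
  constructor
  · refine aff_good hN h none ?_
    rw [eh, map_one, C_1, one_mul]
    have e : bF (shf N q w f none) = 0 := by
      show bF (fun _ : Fin (N + 1) => (0 : R)) = 0
      rw [bF]
      exact Finset.sum_eq_zero fun j _ => by rw [C_0, zero_mul]
    rw [e, Polynomial.map_zero, add_zero]
  · intro ζ hζ
    obtain ⟨j, hj, rfl⟩ := hw.eq_pow_of_pow_eq_one hζ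
    refine aff_good hN h (some ⟨j, hj⟩) ?_
    have e : bF (shf N q w f (some ⟨j, hj⟩)) = C (-(w ^ j)) * f ^ 2 := by
      refine bF_co ?_
      refine (natDegree_C_mul_le _ _).trans ?_
      refine (natDegree_pow_le (p := f) (n := 2)).trans ?_
      omega
    rw [e, eh, ef, map_one, C_1, one_mul, Polynomial.map_mul, map_C, Polynomial.map_pow, map_neg,
      C_neg, ← map_pow (algebraMap R k) w j]
    ring

end fam

end Pool.Agent.X243.Gen
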