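import Pool.Agent.X243.Gen.Lin

/-!
A sieve with a modulus which does not depend on the sets of residue classes; polynomials `l h + s`
with fixed `s` and variable `h`.
-/

set_option autoImplicit false
set_option linter.all false

open Polynomial
open scoped Classical

namespace Pool.Agent.X243.Gen

open Pool.Agent.TH115.GD Pool.Agent.X243.Tate Pool.Agent.X243.Sol Pool.Agent.Y160.T3

theorem densityU {R : Type} [CommRing R] (ι : Type) [Fintype ι] (σ : Type) [Fintype σ]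
    (Z : Set (Ideal R)) (hZ : Z.Infinite) (hmax : ∀ p ∈ Z, p.IsMaximal)
    (hfin : ∀ p ∈ Z, Finite (R ⧸ p)) {c : ℝ} (hc : 0 < c) (η : ℝ) (hη : 0 < η) :
    ∃ M : Ideal R, Finite (R ⧸ M) ∧ ∀ G : σ → ∀ p : Ideal R, Set (ι → R ⧸ p),
      (∀ s, ∀ p ∈ Z, c * (Nat.card (R ⧸ p) : ℝ) ^ (Fintype.card ι) ≤ ((G s p).ncard : ℝ)) →
      (1 - η) * (Nat.card (R ⧸ M) : ℝ) ^ (Fintype.card ι) ≤
      (({x : ι → R ⧸ M | ∀ s, ∃ p ∈ Z, ∀ y : ι → R, (∀ j, Ideal.Quotient.mk M (y j) = x j) →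
        (fun j => Ideal.Quotient.mk p (y j)) ∈ G s p}).ncard : ℝ) := by
  obtain ⟨c', hc'⟩ : ∃ c' : ℝ, c' = min c 1 := ⟨_, rfl⟩
  have hc0 : 0 < c' := hc' ▸ lt_min hc one_pos
  have hc1 : c' ≤ 1 := hc' ▸ min_le_right _ _
  have hcc : c' ≤ c := hc' ▸ min_le_left _ _
  have hσ : (0 : ℝ) < Fintype.card σ + 1 := by positivity
  obtain ⟨r, hr⟩ := exists_pow_lt_of_lt_one (div_pos hη hσ) (show 1 - c' < 1 by linarith)
  have hpow0 : 0 ≤ (1 - c') ^ r := pow_nonneg (by linarith) r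
  have hr' : (Fintype.card σ : ℝ) * (1 - c') ^ r ≤ η := by
    rw [lt_div_iff₀ hσ] at hr
    nlinarith
  obtain ⟨P, hPinj, hP⟩ : ∃ P : Fin r → Ideal R, Function.Injective P ∧
      ∀ i, P i ∈ Z := by
    refine ⟨fun i => (hZ.natEmbedding _ i.1).1, ?_, fun i => (hZ.natEmbedding _ i.1).2⟩
    intro i j hij
    exact Fin.ext ((hZ.natEmbedding _).injective (Subtype.ext hij))
  have hImax : ∀ i, (P i).IsMaximal := fun i => hmax _ (hP i)
  have hIne : ∀ i j, i ≠ j → P i ≠ P j := fun i j hij h => hij (hPinj h)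
  have hIfin : ∀ i, Finite (R ⧸ P i) := fun i => hfin _ (hP i)
  have hM : Finite (R ⧸ ⨅ i, P i) := (sieve (fun i => P i) hImax hIne hIfin
    (fun i => (Set.univ : Set (ι → R ⧸ P i))) (c := 0) zero_le_one (fun i => by
      rw [zero_mul]
      exact Nat.cast_nonneg _)).1
  refine ⟨⨅ i, P i, hM, ?_⟩
  intro G hG
  have key := fun s => sieve (fun i => P i) hImax hIne hIfin (fun i => G s (P i)) hc1
    (fun i => (mul_le_mul_of_nonneg_right hcc (by positivity)).trans (hG s (P i) (hP i)))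
  set T : ℝ := (Nat.card (R ⧸ ⨅ i, P i) : ℝ) ^ (Fintype.card ι) with hT
  have hT0 : 0 ≤ T := by positivity
  let S : σ → Set (ι → R ⧸ ⨅ i, P i) := fun s =>
    {x | ∃ i, ∀ y : ι → R, (∀ j, Ideal.Quotient.mk _ (y j) = x j) →
      (fun j => Ideal.Quotient.mk (P i) (y j)) ∈ G s (P i)}
  have hS : ∀ s, (1 - (1 - c') ^ r) * T ≤ ((S s).ncard : ℝ) := fun s => (key s).2
  have hcard : ∀ U : Set (ι → R ⧸ ⨅ i, P i), (U.ncard : ℝ) + (Uᶜ.ncard : ℝ) = T := by
    intro U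
    have h1 := Set.ncard_add_ncard_compl U
    rw [Nat.card_fun, Nat.card_eq_fintype_card (α := ι)] at h1
    rw [hT]
    exact_mod_cast h1
  have hSc : ∀ s, (((S s)ᶜ).ncard : ℝ) ≤ (1 - c') ^ r * T := by
    intro s
    have h1 := hcard (S s)
    have h2 := hS s
    linarith
  have hsub : {x | ∀ s, x ∈ S s} ⊆ {x : ι → R ⧸ ⨅ i, P i | ∀ s, ∃ p ∈ Z,
      ∀ y : ι → R, (∀ j, Ideal.Quotient.mk (⨅ i, P i) (y j) = x j) →
        (fun j => Ideal.Quotient.mk p (y j)) ∈ G s p} := by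
    intro x hx s
    obtain ⟨i, hi⟩ := hx s
    exact ⟨P i, hP i, hi⟩
  have h1 : ((({x | ∀ s, x ∈ S s}ᶜ : Set (ι → R ⧸ ⨅ i, P i))).ncard : ℝ) ≤ η * T := by
    have h2 := ncard_compl_le S
    have h3 : ((({x | ∀ s, x ∈ S s}ᶜ : Set (ι → R ⧸ ⨅ i, P i))).ncard : ℝ) ≤
        ∑ s, (((S s)ᶜ).ncard : ℝ) := by exact_mod_cast h2
    refine h3.trans ((Finset.sum_le_sum fun s _ => hSc s).trans ?_)
    rw [Finset.sum_const, Finset.card_univ, nsmul_eq_mul, ← mul_assoc]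
    exact mul_le_mul_of_nonneg_right hr' hT0
  have h2 := hcard {x | ∀ s, x ∈ S s}
  have h3 : ((({x | ∀ s, x ∈ S s} : Set (ι → R ⧸ ⨅ i, P i))).ncard : ℝ) ≤
      (({x : ι → R ⧸ ⨅ i, P i | ∀ s, ∃ p ∈ Z,
      ∀ y : ι → R, (∀ j, Ideal.Quotient.mk (⨅ i, P i) (y j) = x j) →
        (fun j => Ideal.Quotient.mk p (y j)) ∈ G s p}).ncard : ℝ) := by
    exact_mod_cast Set.ncard_le_ncard hsub (Set.toFinite _)
  linarith

section event

variable {R : Type} [CommRing R] {I : Type}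

/-- The events for the polynomials `l h + s`. -/
def Aev (N : ℕ) (l : I → R) (s : I → Fin (N + 1) → R) (i : I × Fin 3) (p : Ideal R) :
    Set (Fin (N + 1) → R ⧸ p) :=
  {z | (fun j => Ideal.Quotient.mk p (l i.1) * z j + Ideal.Quotient.mk p (s i.1 j)) ∈
    Ev (R ⧸ p) N i.2}

theorem aff_card {F : Type} [Field F] [Finite F] {N : ℕ} {l : F} (hl : l ≠ 0)
    (s : Fin (N + 1) → F) (T : Set (Fin (N + 1) → F)) :
    ({z : Fin (N + 1) → F | (fun j => l * z j + s j) ∈ T}).ncard = T.ncard := by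
  let σ : (Fin (N + 1) → F) ≃ (Fin (N + 1) → F) :=
    { toFun := fun z j => l * z j + s j
      invFun := fun z j => l⁻¹ * (z j - s j)
      left_inv := fun z => funext fun j => by
        show l⁻¹ * (l * z j + s j - s j) = z j
        rw [add_sub_cancel_right, inv_mul_cancel_left₀ hl]
      right_inv := fun z => funext fun j => by
        show l * (l⁻¹ * (z j - s j)) + s j = z j
        rw [mul_inv_cancel_left₀ hl, sub_add_cancel] }
  have h1 : {z : Fin (N + 1) → F | (fun j => l * z j + s j) ∈ T} = σ ⁻¹' T := rfl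
  rw [h1, Set.ncard_preimage_of_injective_subset_range (Equiv.injective _) (by simp)]

theorem Aev_card [Fintype I] {N : ℕ} (hN : 3 ≤ N) (l : I → R) (s : I → Fin (N + 1) → R)
    (i : I × Fin 3) {p : Ideal R} (hp : p ∈ Zc R (2 * N + 2) (∏ i, l i)) :
    Nat.card (R ⧸ p) ^ (N + 1) ≤ DD N * (Aev N l s i p).ncard := by
  haveI := hp.1.1
  haveI : p.IsPrime := hp.1.1.isPrime
  letI : Field (R ⧸ p) := Ideal.Quotient.field p
  haveI : Finite (R ⧸ p) := hp.1.2.1
  haveI := Fintype.ofFinite (R ⧸ p)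
  have hl : Ideal.Quotient.mk p (l i.1) ≠ 0 := by
    intro h0
    apply hp.2
    rw [← Finset.mul_prod_erase _ _ (Finset.mem_univ i.1)]
    exact p.mul_mem_right _ (Ideal.Quotient.eq_zero_iff_mem.1 h0)
  have h1 : (Aev N l s i p).ncard = (Ev (R ⧸ p) N i.2).ncard :=
    aff_card hl (fun j => Ideal.Quotient.mk p (s i.1 j)) (Ev (R ⧸ p) N i.2)
  rw [h1, Nat.card_eq_fintype_card]
  have hq := hp.1.2.2.1
  rw [Nat.card_eq_fintype_card] at hq
  exact Ev_card hN hq i.2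

end event

section main

variable {R k : Type} [CommRing R] [IsDomain R] [IsIntegrallyClosed R] [IsNoetherianRing R]
  [Field k] [Algebra R k] [IsFractionRing R k]

variable (R) in
theorem densAff [Algebra.FiniteType ℤ R] (hR : ¬ IsField R) (h2 : (2 : R) ≠ 0) {I : Type}
    [Fintype I] {N : ℕ} (hN : 3 ≤ N) {l : I → R} (hl : ∀ i, l i ≠ 0) (η : ℝ) (hη : 0 < η) :
    ∃ M : Ideal R, Finite (R ⧸ M) ∧ ∀ s : I → Fin (N + 1) → R,
      (1 - η) * (Nat.card (R ⧸ M) : ℝ) ^ (Fintype.card (Fin (N + 1))) ≤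
      (({x : Fin (N + 1) → R ⧸ M | ∀ i : I × Fin 3,
        ∃ p ∈ Zc R (2 * N + 2) (∏ i, l i), ∀ y : Fin (N + 1) → R,
          (∀ j, Ideal.Quotient.mk M (y j) = x j) →
          (fun j => Ideal.Quotient.mk p (y j)) ∈ Aev N l s i p}).ncard : ℝ) := by
  have hDD : 0 < DD N := by
    have := D3_pos N
    unfold DD
    positivity
  have hD : (0 : ℝ) < ((DD N : ℕ) : ℝ) := by exact_mod_cast hDD
  have hl' : ∏ i, l i ≠ 0 := Finset.prod_ne_zero_iff.2 fun i _ => hl i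
  obtain ⟨M, hM, h⟩ := densityU (Fin (N + 1)) (I × Fin 3) (Zc R (2 * N + 2) (∏ i, l i))
    (Zc_inf R hR h2 _ hl') (fun p hp => hp.1.1) (fun p hp => hp.1.2.1)
    (c := 1 / ((DD N : ℕ) : ℝ)) (by positivity) η hη
  refine ⟨M, hM, fun s => h (fun i p => Aev N l s i p) ?_⟩
  intro i p hp
  have h1 := Aev_card hN l s i hp
  rw [Fintype.card_fin, one_div, inv_mul_le_iff₀ hD]
  exact_mod_cast h1

theorem aff_good {I : Type} {N B : ℕ} {l : I → R} {s : I → Fin (N + 1) → R} {c : R} (hN : 3 ≤ N)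
    {y : Fin (N + 1) → R}
    (h : ∀ i : I × Fin 3, ∃ p ∈ Zc R B c, (fun j => Ideal.Quotient.mk p (y j)) ∈ Aev N l s i p)
    (i : I) {f : k[X]}
    (hf : f = C (algebraMap R k (l i)) * (bF y).map (algebraMap R k) +
      (bF (s i)).map (algebraMap R k)) : FF N f := by
  have hdeg : (C (l i) * bF y + bF (s i)).natDegree ≤ N := by
    refine (natDegree_add_le _ _).trans (max_le ?_ (bF_nd _))
    exact (natDegree_C_mul_le _ _).trans (bF_nd _)
  have hmap : (C (l i) * bF y + bF (s i)).map (algebraMap R k) = f := by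
    rw [hf, Polynomial.map_add, Polynomial.map_mul, map_C]
  rw [← hmap]
  refine evG (B := B) hN hdeg (fun t => ?_)
  obtain ⟨p, hp, e⟩ := h (i, t)
  refine ⟨p, hp.1, _, e, ?_⟩
  rw [Polynomial.map_add, Polynomial.map_mul, map_C, bF_map, bF_map]
  rw [bF, bF, bF, Finset.mul_sum, ← Finset.sum_add_distrib]
  refine Finset.sum_congr rfl fun j _ => ?_
  rw [C_add, C_mul]
  ring

end main

end Pool.Agent.X243.Gen
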