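import Pool.Agent.X243.Gen.Pull5
import Pool.Agent.X243.Gen.Aff

/-!
Pullbacks by polynomials, and two more examples.
-/

set_option autoImplicit false
set_option linter.all false

open Polynomial WeierstrassCurve WeierstrassCurve.Affine
open scoped Classical

namespace Pool.Agent.X243.Gen

open Pool.Agent.TH115.GD Pool.Agent.X243.Tate Pool.Agent.X243.Sol Pool.Agent.Y160.T3

theorem pb_one_comp {k : Type} [Field k] (q g : k[X]) : pb q 1 g = g.comp q := by
  rw [pb_sum, comp, eval₂_eq_sum_range]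
  exact Finset.sum_congr rfl fun i _ => by rw [one_pow, mul_one]

section forms

variable {R k : Type} [CommRing R] [IsDomain R] [IsIntegrallyClosed R] [IsNoetherianRing R]
  [Field k] [Algebra R k] [IsFractionRing R k]

/-- The coefficients of `g`. -/
noncomputable def lv (R : Type) {k : Type} [CommRing R] [IsDomain R] [Field k] [Algebra R k]
    [IsFractionRing R k] (S : Finset k) : S → R := fun ξ => (nd R ξ.1).2

/-- The constant terms. -/
noncomputable def sv (R : Type) {k : Type} [CommRing R] [IsDomain R] [Field k] [Algebra R k]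
    [IsFractionRing R k] (S : Finset k) (N : ℕ) : S → Fin (N + 1) → R :=
  fun ξ j => if j = 0 then -(nd R ξ.1).1 else 0

theorem lv_ne (S : Finset k) (i : S) : lv R S i ≠ 0 := nd_ne i.1

theorem bF_const {N : ℕ} (c : R) : bF (fun j : Fin (N + 1) => if j = 0 then c else 0) = C c := by
  unfold bF
  rw [Finset.sum_eq_single (0 : Fin (N + 1))]
  · beta_reduce
    rw [if_pos rfl, Fin.val_zero, pow_zero, mul_one]
  · intro j _ hj
    beta_reduce
    rw [if_neg hj, C_0, zero_mul]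
  · intro h
    exact absurd (Finset.mem_univ _) h

theorem poly_good {S : Finset k} {N B : ℕ} {c : R} (hN : 3 ≤ N) {y : Fin (N + 1) → R}
    (h : ∀ i : S × Fin 3, ∃ p ∈ Zc R B c,
      (fun j => Ideal.Quotient.mk p (y j)) ∈ Aev N (lv R S) (sv R S N) i p)
    (g : k[X]) (hg : g = (bF y).map (algebraMap R k)) (ξ : k) (hξ : ξ ∈ S) :
    FF N (g - C ξ) := by
  have hd : algebraMap R k (nd R ξ).2 ≠ 0 :=
    (map_ne_zero_iff _ (IsFractionRing.injective R k)).2 (nd_ne ξ)
  apply FF_unit hd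
  refine aff_good hN h ⟨ξ, hξ⟩ ?_
  have e : sv R S N ⟨ξ, hξ⟩ = fun j : Fin (N + 1) => if j = 0 then -(nd R ξ).1 else 0 := rfl
  rw [e, bF_const, map_C, map_neg, ← nd_eq, ← hg, C_neg, C_mul]
  show _ = C (algebraMap R k (nd R ξ).2) * g + _
  ring

end forms

section point

variable {k K : Type} [Field k] [Field K] [Algebra k[X] K] [IsFractionRing k[X] K]

theorem ptGen (h2 : (2 : k) ≠ 0) {a b : k[X]} (ha : a ≠ 0) (hb : b ≠ 0) (hab : a ≠ b)
    {x y u v : k[X]} (hxy : y ^ 2 = x * (x - a) * (x - b)) {c c' : k} (hc : c ≠ 0) (hc' : c' ≠ 0)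
    (hu : u ≠ 0) (hv : v ≠ 0) (e1 : C c * u = x) (e2 : C c' * v = x - a) : PtFor K a b u v := by
  have hx0 : x ≠ 0 := by rw [← e1]; exact mul_ne_zero (C_ne_zero.2 hc) hu
  have hxa : x ≠ a := by
    rw [← sub_ne_zero, ← e2]; exact mul_ne_zero (C_ne_zero.2 hc') hv
  exact ptFor h2 ha hb hab hxy hc hc' one_ne_zero one_ne_zero
    (by rw [if_neg hx0, one_pow, one_mul, e1]) (by rw [if_neg hxa, one_pow, one_mul, e2])

end point

section one

variable {k K : Type} [Field k] [Field K] [Algebra k[X] K] [IsFractionRing k[X] K]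

/-- The Legendre family. -/
theorem base1 (h2 : (2 : k) ≠ 0) : Base K (X : k[X]) (X - 1) := by
  have h1 : (X - 1 : k[X]) = X - C 1 := by rw [C_1]
  have ha : (X : k[X]) ≠ 0 := X_ne_zero
  have hb : (X - 1 : k[X]) ≠ 0 := by rw [h1]; exact X_sub_C_ne_zero _
  have hc : (X : k[X]) - (X - 1) = 1 := by ring
  have hab : (X : k[X]) ≠ X - 1 := by
    intro h
    have h3 : (1 : k[X]) = 0 := by rw [← hc, ← h, sub_self]
    exact one_ne_zero h3
  refine ⟨ha, hb, hab, ?_, Splits.X, ?_, ?_, ?_, ?_⟩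
  · refine ⟨1, -1, ?_⟩
    ring
  · rw [h1]; exact Splits.X_sub_C _
  · rw [hc]; exact Splits.one
  · left
    have e : (X - 1 : k[X]).natDegree = 1 := by rw [h1]; exact natDegree_X_sub_C _
    rw [e, natDegree_X, max_self]
    exact odd_one
  · intro A B D mA mB mD sA sB sD dA dB dD hinf
    obtain ⟨c1, x0, k1, rfl⟩ := dvd_irr irreducible_X dA
    rw [h1] at dB
    obtain ⟨c2, y0, k2, rfl⟩ := dvd_irr (irreducible_X_sub_C _) dB
    rw [hc] at dD
    have eD : D = 1 := mD.eq_one_of_isUnit (isUnit_of_dvd_one dD)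
    rw [eD]
    have red : PtFor K (X : k[X]) (X - 1) (X ^ (x0 : ℕ) * (X - C 1) ^ (y0 : ℕ)) (X ^ (x0 : ℕ)) →
        PtFor K (X : k[X]) (X - 1) (C c1 * X ^ (x0 : ℕ) * (C c2 * (X - C 1) ^ (y0 : ℕ)))
          (C c1 * X ^ (x0 : ℕ) * 1) := by
      intro h
      have h3 := ptFor_const (mul_ne_zero k1 k2) k1 h
      have e1 : C (c1 * c2) * (X ^ (x0 : ℕ) * (X - C 1) ^ (y0 : ℕ)) =
          C c1 * X ^ (x0 : ℕ) * (C c2 * (X - C 1) ^ (y0 : ℕ)) := by
        rw [C_mul]; ring
      rw [e1] at h3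
      rw [mul_one]
      exact h3
    apply red
    have hneg : (-1 : k) ≠ 0 := neg_ne_zero.2 one_ne_zero
    fin_cases x0 <;> fin_cases y0
    -- 0 0
    · simp only [Fin.zero_eta, Fin.val_zero, pow_zero, mul_one]
      have := ptFor_zero (K := K) (a := (X : k[X])) (b := X - 1) (c := 1) (c' := 1) one_ne_zero
        one_ne_zero
      rwa [C_1] at this
    -- 0 1
    · simp only [Fin.zero_eta, Fin.mk_one, Fin.val_zero, Fin.val_one, pow_zero, pow_one, mul_one,
        one_mul]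
      refine ptFor h2 ha hb hab (x := X - 1) (y := 0) (g := 1) (g' := 1) (c := 1) (c' := -1)
        (by ring) one_ne_zero hneg one_ne_zero one_ne_zero ?_ ?_
      · rw [if_neg hb, C_1]; ring
      · rw [if_neg hab.symm, C_neg, C_1]; ring
    -- 1 0
    · simp only [Fin.zero_eta, Fin.mk_one, Fin.val_zero, Fin.val_one, pow_zero, pow_one, mul_one,
        one_mul]
      refine ptFor h2 ha hb hab (x := X) (y := 0) (g := 1) (g' := 1) (c := 1) (c' := 1)
        (by ring) one_ne_zero one_ne_zero one_ne_zero one_ne_zero ?_ ?_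
      · rw [if_neg ha, C_1]; ring
      · rw [if_pos rfl, C_1]; ring
    -- 1 1
    · simp only [Fin.mk_one, Fin.val_one, pow_one]
      refine ptFor h2 ha hb hab (x := 0) (y := 0) (g := 1) (g' := 1) (c := 1) (c' := -1)
        (by ring) one_ne_zero hneg one_ne_zero one_ne_zero ?_ ?_
      · rw [if_pos rfl, C_1]; ring
      · rw [if_neg ha.symm, C_neg, C_1]; ring

/-- A base of rank one. -/
theorem base3 (h2 : (2 : k) ≠ 0) {c e m : k} (hc : c ≠ 0) (he : e ≠ 0) (he1 : e ≠ 1)
    (hm : c * e = m ^ 2) : Base K (C c - X : k[X]) (C c - C e * X) := by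
  have hee : e - 1 ≠ 0 := sub_ne_zero.2 he1
  have hee' : 1 - e ≠ 0 := sub_ne_zero.2 (Ne.symm he1)
  have hneg : (-1 : k) ≠ 0 := neg_ne_zero.2 one_ne_zero
  obtain ⟨γ, hγ⟩ : ∃ γ : k, γ = c / e := ⟨_, rfl⟩
  have hγ0 : γ ≠ 0 := by rw [hγ]; exact div_ne_zero hc he
  have heγ : e * γ = c := by rw [hγ]; exact mul_div_cancel₀ c he
  have heγ' : C e * C γ = (C c : k[X]) := by rw [← C_mul, heγ]
  obtain ⟨A1, hA1⟩ : ∃ A1 : k[X], A1 = X - C c := ⟨_, rfl⟩
  obtain ⟨B1, hB1⟩ : ∃ B1 : k[X], B1 = X - C γ := ⟨_, rfl⟩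
  have ea : (C c - X : k[X]) = C (-1) * A1 := by rw [hA1, C_neg, C_1]; ring
  have eb : (C c - C e * X : k[X]) = C (-e) * B1 := by
    rw [hB1, C_neg]; linear_combination -heγ'
  have ec : (C c - X : k[X]) - (C c - C e * X) = C (e - 1) * X := by rw [C_sub, C_1]; ring
  have nA1 : A1 ≠ 0 := by rw [hA1]; exact X_sub_C_ne_zero _
  have nB1 : B1 ≠ 0 := by rw [hB1]; exact X_sub_C_ne_zero _
  have ha : (C c - X : k[X]) ≠ 0 := by rw [ea]; exact mul_ne_zero (C_ne_zero.2 hneg) nA1
  have hb : (C c - C e * X : k[X]) ≠ 0 := by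
    rw [eb]; exact mul_ne_zero (C_ne_zero.2 (neg_ne_zero.2 he)) nB1
  have hcc : (C c - X : k[X]) - (C c - C e * X) ≠ 0 := by
    rw [ec]; exact mul_ne_zero (C_ne_zero.2 hee) X_ne_zero
  have hab : (C c - X : k[X]) ≠ C c - C e * X := sub_ne_zero.1 hcc
  have iA : Irreducible A1 := by rw [hA1]; exact irreducible_X_sub_C _
  have iB : Irreducible B1 := by rw [hB1]; exact irreducible_X_sub_C _
  refine ⟨ha, hb, hab, ?_, ?_, ?_, ?_, ?_, ?_⟩
  · refine ⟨-C (e / (c * (1 - e))), C (1 / (c * (1 - e))), ?_⟩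
    have h3 : c * (1 - e) ≠ 0 := mul_ne_zero hc hee'
    have h4 : C (e / (c * (1 - e))) = C e * C (1 / (c * (1 - e))) := by
      rw [← C_mul]; congr 1; field_simp
    have h5 : C (1 / (c * (1 - e))) * (C c * (1 - C e)) = (1 : k[X]) := by
      have : (1 - C e : k[X]) = C (1 - e) := by rw [C_sub, C_1]
      rw [this, ← C_mul, ← C_mul, one_div, inv_mul_cancel₀ h3, C_1]
    rw [h4]
    linear_combination h5
  · rw [ea, hA1]; exact (Splits.C _).mul (Splits.X_sub_C _)
  · rw [eb, hB1]; exact (Splits.C _).mul (Splits.X_sub_C _)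
  · rw [ec]; exact (Splits.C _).mul Splits.X
  · left
    have d1 : (C c - X : k[X]).natDegree = 1 := by
      rw [ea, natDegree_C_mul hneg, hA1, natDegree_X_sub_C]
    have d2 : (C c - C e * X : k[X]).natDegree = 1 := by
      rw [eb, natDegree_C_mul (neg_ne_zero.2 he), hB1, natDegree_X_sub_C]
    rw [d1, d2, max_self]
    exact odd_one
  · intro A B D mA mB mD sA sB sD dA dB dD hinf
    rw [ea] at dA
    rw [eb] at dB
    rw [ec] at dD
    obtain ⟨c1, x0, k1, rfl⟩ := dvd_irr iA (dvd_unit_mul hneg dA)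
    obtain ⟨c2, y0, k2, rfl⟩ := dvd_irr iB (dvd_unit_mul (neg_ne_zero.2 he) dB)
    obtain ⟨c3, z0, k3, rfl⟩ := dvd_irr irreducible_X (dvd_unit_mul hee dD)
    have red : PtFor K (C c - X : k[X]) (C c - C e * X) (A1 ^ (x0 : ℕ) * B1 ^ (y0 : ℕ))
          (A1 ^ (x0 : ℕ) * X ^ (z0 : ℕ)) →
        PtFor K (C c - X : k[X]) (C c - C e * X) (C c1 * A1 ^ (x0 : ℕ) * (C c2 * B1 ^ (y0 : ℕ)))
          (C c1 * A1 ^ (x0 : ℕ) * (C c3 * X ^ (z0 : ℕ))) := by
      intro h
      have h3 := ptFor_const (mul_ne_zero k1 k2) (mul_ne_zero k1 k3) h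
      have e1 : C (c1 * c2) * (A1 ^ (x0 : ℕ) * B1 ^ (y0 : ℕ)) =
          C c1 * A1 ^ (x0 : ℕ) * (C c2 * B1 ^ (y0 : ℕ)) := by
        rw [C_mul]; ring
      have e2 : C (c1 * c3) * (A1 ^ (x0 : ℕ) * X ^ (z0 : ℕ)) =
          C c1 * A1 ^ (x0 : ℕ) * (C c3 * X ^ (z0 : ℕ)) := by
        rw [C_mul]; ring
      rw [e1, e2] at h3
      exact h3
    apply red
    have eA : (C c - X : k[X]) = -A1 := by rw [ea, C_neg, C_1]; ring
    have eB : (C c - C e * X : k[X]) = -(C e * B1) := by rw [eb, C_neg]; ring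
    have eA1 : A1 = X - C c := hA1
    have eB1 : C e * B1 = C e * X - C c := by rw [hB1]; linear_combination -heγ'
    have hX0 : (X : k[X]) ≠ 0 := X_ne_zero
    obtain ⟨δ, hδ⟩ : ∃ δ : k, δ = c⁻¹ := ⟨_, rfl⟩
    have hδ0 : δ ≠ 0 := by rw [hδ]; exact inv_ne_zero hc
    have hcδ : C c * C δ = (1 : k[X]) := by rw [← C_mul, hδ, mul_inv_cancel₀ hc, C_1]
    obtain ⟨ε, hε⟩ : ∃ ε : k, ε = e⁻¹ := ⟨_, rfl⟩
    have hε0 : ε ≠ 0 := by rw [hε]; exact inv_ne_zero he
    have heε : C e * C ε = (1 : k[X]) := by rw [← C_mul, hε, mul_inv_cancel₀ he, C_1]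
    have hmm : C c * C e = (C m : k[X]) ^ 2 := by rw [← C_mul, hm, C_pow]
    fin_cases x0 <;> fin_cases y0 <;> fin_cases z0
    -- 0 0 0
    · simp only [Fin.zero_eta, Fin.val_zero, pow_zero, mul_one]
      have := ptFor_zero (K := K) (a := (C c - X : k[X])) (b := C c - C e * X) (c := 1) (c' := 1)
        one_ne_zero one_ne_zero
      rwa [C_1] at this
    -- 0 0 1
    · simp only [Fin.zero_eta, Fin.mk_one, Fin.val_zero, Fin.val_one, pow_zero, pow_one, mul_one,
        one_mul]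
      refine ptGen h2 ha hb hab (x := C c) (y := C m * X) (c := c) (c' := 1) ?_ hc one_ne_zero
        one_ne_zero hX0 (mul_one _) ?_
      · linear_combination -X ^ 2 * hmm
      · rw [C_1]; ring
    -- 0 1 0
    · simp only [Fin.zero_eta, Fin.mk_one, Fin.val_zero, Fin.val_one, pow_zero, pow_one, mul_one,
        one_mul]
      refine ptGen h2 ha hb hab (x := -B1) (y := C (m * (1 - e) * ε) * B1) (c := -1)
        (c' := c * (1 - e) * ε) ?_ hneg (mul_ne_zero (mul_ne_zero hc hee') hε0) nB1 one_ne_zero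
        (by rw [C_neg, C_1]; ring) ?_
      · have h3 : -B1 - (C c - X) = C c * (1 - C e) * C ε := by
          rw [hB1]; linear_combination (C c - C γ) * heε + C ε * heγ'
        have h4 : -B1 - (C c - C e * X) = (C e - 1) * B1 := by
          rw [eB]; ring
        rw [h3, h4, C_mul, C_mul, C_sub, C_1]
        linear_combination (-(1 - C e) ^ 2 * C ε ^ 2 * B1 ^ 2) * hmm +
          ((1 - C e) ^ 2 * C ε * C c * B1 ^ 2) * heε
      · rw [C_mul, C_mul, C_sub, C_1, hB1]
        linear_combination (-(C c - C γ)) * heε - C ε * heγ'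
    -- 0 1 1
    · simp only [Fin.zero_eta, Fin.mk_one, Fin.val_zero, Fin.val_one, pow_zero, pow_one, mul_one,
        one_mul]
      refine ptFor h2 ha hb hab (x := C c - C e * X) (y := 0) (g := 1) (g' := 1) (c := -e)
        (c' := 1 - e) (by ring) (neg_ne_zero.2 he) hee' one_ne_zero one_ne_zero ?_ ?_
      · rw [if_neg hb, ← eb]; ring
      · rw [if_neg hab.symm, C_sub, C_1]; ring
    -- 1 0 0
    · simp only [Fin.zero_eta, Fin.mk_one, Fin.val_zero, Fin.val_one, pow_zero, pow_one, mul_one,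
        one_mul]
      refine ptGen h2 ha hb hab (x := C e * (C c - X)) (y := C (m * (e - 1)) * (C c - X)) (c := -e)
        (c' := 1 - e) ?_ (neg_ne_zero.2 he) hee' nA1 nA1 ?_ ?_
      · rw [C_mul, C_sub, C_1]
        linear_combination (-(C e - 1) ^ 2 * (C c - X) ^ 2) * hmm
      · rw [C_neg, eA]; ring
      · rw [C_sub, C_1, eA]; ring
    -- 1 0 1
    · simp only [Fin.zero_eta, Fin.mk_one, Fin.val_zero, Fin.val_one, pow_zero, pow_one, mul_one,
        one_mul]
      refine ptFor h2 ha hb hab (x := C c - X) (y := 0) (g := 1) (g' := 1) (c := -1)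
        (c' := 1 - e) (by ring) hneg hee' one_ne_zero one_ne_zero ?_ ?_
      · rw [if_neg ha, ← ea]; ring
      · rw [if_pos rfl, ec, ea, C_sub, C_sub, C_neg, C_1]; ring
    -- 1 1 0
    · simp only [Fin.zero_eta, Fin.mk_one, Fin.val_zero, Fin.val_one, pow_zero, pow_one, mul_one,
        one_mul]
      refine ptFor h2 ha hb hab (x := 0) (y := 0) (g := 1) (g' := 1) (c := e)
        (c' := 1) (by ring) he one_ne_zero one_ne_zero one_ne_zero ?_ ?_
      · rw [if_pos rfl, eA, eB]; ring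
      · rw [if_neg ha.symm, eA, C_1]; ring
    -- 1 1 1
    · simp only [Fin.mk_one, Fin.val_one, pow_one]
      refine ptGen h2 ha hb hab (x := C δ * ((C c - X) * (C c - C e * X)))
        (y := C (m * δ ^ 2) * ((C c - X) * (C c - C e * X) * X)) (c := e * δ)
        (c' := e * δ) ?_ (mul_ne_zero he hδ0) (mul_ne_zero he hδ0) (mul_ne_zero nA1 nB1)
        (mul_ne_zero nA1 hX0) ?_ ?_
      · have h3 : C δ * ((C c - X) * (C c - C e * X)) - (C c - X) =
            -(C δ * C e * X * (C c - X)) := by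
          linear_combination (C c - X) * hcδ
        have h4 : C δ * ((C c - X) * (C c - C e * X)) - (C c - C e * X) =
            -(C δ * X * (C c - C e * X)) := by
          linear_combination (C c - C e * X) * hcδ
        rw [h3, h4, C_mul, C_pow]
        linear_combination (-(C δ ^ 4 * ((C c - X) * (C c - C e * X) * X) ^ 2)) * hmm +
          (C δ ^ 3 * C e * ((C c - X) * (C c - C e * X) * X) ^ 2) * hcδ
      · rw [eA, eB, C_mul]; ring
      · rw [C_mul]
        have h3 : C δ * ((C c - X) * (C c - C e * X)) - (C c - X) =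
            -(C δ * C e * X * (C c - X)) := by
          linear_combination (C c - X) * hcδ
        rw [h3, eA]; ring

end one

end Pool.Agent.X243.Gen
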