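import Pool.Agent.X243.Gen.PullT
import Pool.Agent.X243.Gen.Pull6

/-!
Examples of elliptic curves over `k(s)` with a point of order two and complete first descent.
-/

set_option autoImplicit false
set_option linter.all false

open Polynomial WeierstrassCurve WeierstrassCurve.Affine
open scoped Classical

namespace Pool.Agent.X243.Gen

open Pool.Agent.TH115.GD Pool.Agent.X243.Tate Pool.Agent.X243.Sol Pool.Agent.Y160.T3

section point

variable {k K : Type} [Field k] [Field K] [Algebra k[X] K] [IsFractionRing k[X] K]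

/-- The condition on a point. -/
def PtForT (K : Type) [Field K] [Algebra k[X] K] (a b u : k[X]) : Prop :=
  ∃ P : Pt (crvT (algebraMap k[X] K a) (algebraMap k[X] K b)) K,
    ∃ (c : k) (h : K), c ≠ 0 ∧ h ≠ 0 ∧ algebraMap k[X] K (C c * u) =
      h ^ 2 * dT (algebraMap k[X] K b) P

theorem ptForT_zero {a b : k[X]} {c : k} (hc : c ≠ 0) : PtForT K a b (C c) := by
  refine ⟨0, c⁻¹, 1, inv_ne_zero hc, one_ne_zero, ?_⟩
  rw [← C_mul, inv_mul_cancel₀ hc, C_1, map_one]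
  show (1 : K) = 1 ^ 2 * 1
  ring

theorem ptForT (h2 : (2 : k) ≠ 0) {a b : k[X]} (hb : b ≠ 0) (hd : a ^ 2 - 4 * b ≠ 0)
    {x y u g : k[X]} (hxy : y ^ 2 = x * (x ^ 2 + a * x + b)) {c : k} (hc : c ≠ 0)
    (hg : g ≠ 0) (hx : g ^ 2 * (C c * u) = if x = 0 then b else x) :
    PtForT K a b u := by
  have inj := IsFractionRing.injective k[X] K
  have h2K : (2 : K) ≠ 0 := by
    have h3 : algebraMap k[X] K (C 2) ≠ 0 := by simpa using h2
    rwa [C_ofNat, map_ofNat] at h3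
  have hbK : algebraMap k[X] K b ≠ 0 := by simpa using hb
  have hdK : (algebraMap k[X] K a) ^ 2 - 4 * algebraMap k[X] K b ≠ 0 := by
    have e : (algebraMap k[X] K a) ^ 2 - 4 * algebraMap k[X] K b =
        algebraMap k[X] K (a ^ 2 - 4 * b) := by
      rw [map_sub, map_mul, map_pow, map_ofNat]
    rw [e, Ne, map_eq_zero_iff _ inj]
    exact hd
  have hn : ((crvT (algebraMap k[X] K a) (algebraMap k[X] K b)).baseChange
      K).toAffine.Nonsingular (algebraMap k[X] K x) (algebraMap k[X] K y) := by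
    refine nonsT h2K hbK hdK ?_
    have := congrArg (algebraMap k[X] K) hxy
    rw [map_pow, map_mul, map_add, map_add, map_mul, map_pow] at this
    exact this
  have i0 : algebraMap k[X] K x = 0 ↔ x = 0 := by
    rw [← map_zero (algebraMap k[X] K)]
    exact inj.eq_iff
  have hgK : algebraMap k[X] K g ≠ 0 := by simpa using hg
  refine ⟨Point.some _ _ hn, c, (algebraMap k[X] K g)⁻¹, hc, inv_ne_zero hgK, ?_⟩
  show _ = _ * (if algebraMap k[X] K x = 0 then algebraMap k[X] K b else algebraMap k[X] K x)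
  have e : (if algebraMap k[X] K x = 0 then algebraMap k[X] K b
      else algebraMap k[X] K x) = (algebraMap k[X] K g) ^ 2 * algebraMap k[X] K (C c * u) := by
    have e' := congrArg (algebraMap k[X] K) hx
    rw [map_mul, map_pow] at e'
    rw [e']
    by_cases h : x = 0
    · rw [if_pos (i0.2 h), if_pos h]
    · rw [if_neg (fun h' => h (i0.1 h')), if_neg h]
  rw [e]
  field_simp

theorem ptForT_const {a b u : k[X]} {c : k} (hc : c ≠ 0)
    (h : PtForT K a b u) : PtForT K a b (C c * u) := by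
  obtain ⟨P, d, h, hd, hh, e⟩ := h
  refine ⟨P, d * c⁻¹, h, mul_ne_zero hd (inv_ne_zero hc), hh, ?_⟩
  rw [← e]
  congr 1
  rw [← mul_assoc, ← C_mul, inv_mul_cancel_right₀ hc]

/-- A point with `x ≠ 0`. -/
theorem ptGenT (h2 : (2 : k) ≠ 0) {a b : k[X]} (hb : b ≠ 0) (hd : a ^ 2 - 4 * b ≠ 0)
    {x y u : k[X]} (hxy : y ^ 2 = x * (x ^ 2 + a * x + b)) {c : k} (hc : c ≠ 0) (hu : u ≠ 0)
    (e1 : C c * u = x) : PtForT K a b u := by
  have hx0 : x ≠ 0 := by rw [← e1]; exact mul_ne_zero (C_ne_zero.2 hc) hu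
  exact ptForT h2 hb hd hxy hc one_ne_zero (by rw [if_neg hx0, one_pow, one_mul, e1])

/-- The point `(0, 0)`. -/
theorem ptTorT (h2 : (2 : k) ≠ 0) {a b : k[X]} (hb : b ≠ 0) (hd : a ^ 2 - 4 * b ≠ 0)
    {u g : k[X]} {c : k} (hc : c ≠ 0) (hg : g ≠ 0) (hx : g ^ 2 * (C c * u) = b) :
    PtForT K a b u :=
  ptForT h2 hb hd (x := 0) (y := 0) (by ring) hc hg (by rw [if_pos rfl, hx])

end point

section mult

variable {k : Type} [Field k]

theorem odd_mult_of_odd {b : k[X]} (hs : b.Splits) (hd : Odd b.natDegree) :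
    ∃ ξ : k, Odd (b.rootMultiplicity ξ) := by
  by_contra hcon
  push Not at hcon
  have h1 : b.natDegree = ∑ ξ ∈ b.roots.toFinset, b.roots.count ξ := by
    rw [Multiset.toFinset_sum_count_eq, hs.natDegree_eq_card_roots]
  rw [h1] at hd
  apply Nat.not_even_iff_odd.2 hd
  refine Finset.even_sum _ fun ξ _ => ?_
  rw [count_roots]
  exact Nat.not_odd_iff_even.1 (hcon ξ)

theorem odd_mult_mul {α β : k} (h : α ≠ β) :
    Odd (((X - C α) * (X - C β) : k[X]).rootMultiplicity α) := by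
  have h0 : ((X - C α) * (X - C β) : k[X]) ≠ 0 :=
    mul_ne_zero (X_sub_C_ne_zero _) (X_sub_C_ne_zero _)
  have h1 : (X - C β : k[X]).rootMultiplicity α = 0 := by
    rw [rootMultiplicity_eq_zero_iff]
    intro h3
    rw [IsRoot.def, eval_sub, eval_X, eval_C] at h3
    exact absurd (sub_eq_zero.1 h3) h
  rw [rootMultiplicity_mul h0, rootMultiplicity_X_sub_C_self, h1]
  exact odd_one

theorem dvd_irr3 {A p q r : k[X]} (hp : Irreducible p) (hq : Irreducible q) (hr : Irreducible r)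
    (h : A ∣ p * q * r) :
    ∃ (c : k) (x y z : Fin 2), c ≠ 0 ∧ A = C c * (p ^ (x : ℕ) * q ^ (y : ℕ) * r ^ (z : ℕ)) := by
  obtain ⟨A0, A3, h0, h3, rfl⟩ := exists_dvd_and_dvd_of_dvd_mul h
  obtain ⟨A1, A2, h1, h2, rfl⟩ := exists_dvd_and_dvd_of_dvd_mul h0
  obtain ⟨c, x, hc, rfl⟩ := dvd_irr hp h1
  obtain ⟨d, y, hd, rfl⟩ := dvd_irr hq h2
  obtain ⟨e, z, he, rfl⟩ := dvd_irr hr h3
  exact ⟨c * d * e, x, y, z, mul_ne_zero (mul_ne_zero hc hd) he, by rw [C_mul, C_mul]; ring⟩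

end mult

/-- None of the places at infinity gives a condition. -/
def NoInf {k : Type} [Field k] (a b : k[X]) : Prop :=
  ∀ m : ℕ, a.natDegree ≤ 2 * m → b.natDegree ≠ 4 * m ∧ (a ^ 2 - 4 * b).natDegree ≠ 4 * m

section zero

variable {k K : Type} [Field k] [Field K] [Algebra k[X] K] [IsFractionRing k[X] K]

/-- The universal elliptic curve with a point of order two. -/
theorem baseT0 (h2 : (2 : k) ≠ 0) : BaseT K (1 : k[X]) X ∧ NoInf (1 : k[X]) X := by
  have h4 : (4 : k) ≠ 0 := by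
    have : (4 : k) = 2 * 2 := by norm_num
    rw [this]
    exact mul_ne_zero h2 h2
  have hb : (X : k[X]) ≠ 0 := X_ne_zero
  obtain ⟨γ, hγ⟩ : ∃ γ : k, γ = 4⁻¹ := ⟨_, rfl⟩
  have hγ4 : C 4 * C γ = (1 : k[X]) := by rw [← C_mul, hγ, mul_inv_cancel₀ h4, C_1]
  have h4n : (-4 : k) ≠ 0 := neg_ne_zero.2 h4
  have ed : (1 : k[X]) ^ 2 - 4 * X = C (-4) * (X - C γ) := by
    have e4 : (4 : k[X]) = C 4 := by rw [C_ofNat]
    rw [C_neg, e4]
    linear_combination -hγ4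
  have hd : (1 : k[X]) ^ 2 - 4 * X ≠ 0 := by
    rw [ed]; exact mul_ne_zero (C_ne_zero.2 h4n) (X_sub_C_ne_zero _)
  have hd' : (-2 * 1 : k[X]) ^ 2 - 4 * (1 ^ 2 - 4 * X) ≠ 0 := by
    have e : (-2 * 1 : k[X]) ^ 2 - 4 * (1 ^ 2 - 4 * X) = C 4 * (C 4 * X) := by
      rw [C_ofNat]; ring
    rw [e]
    exact mul_ne_zero (C_ne_zero.2 h4) (mul_ne_zero (C_ne_zero.2 h4) hb)
  have sd : ((1 : k[X]) ^ 2 - 4 * X).Splits := by
    rw [ed]; exact (Splits.C _).mul (Splits.X_sub_C _)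
  have nd : ((1 : k[X]) ^ 2 - 4 * X).natDegree = 1 := by
    rw [ed, natDegree_C_mul h4n, natDegree_X_sub_C]
  refine ⟨⟨hb, hd, Splits.X, sd, odd_mult_of_odd Splits.X (by rw [natDegree_X]; exact odd_one),
    odd_mult_of_odd sd (by rw [nd]; exact odd_one), ?_, ?_⟩, ?_⟩
  · intro A mA sA dA _
    obtain ⟨c, x, hc, rfl⟩ := dvd_irr irreducible_X dA
    refine ptForT_const hc ?_
    fin_cases x
    · simp only [Fin.zero_eta, Fin.val_zero, pow_zero]
      have := ptForT_zero (K := K) (a := (1 : k[X])) (b := X) (c := (1 : k)) one_ne_zero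
      rwa [C_1] at this
    · simp only [Fin.mk_one, Fin.val_one, pow_one]
      exact ptTorT h2 hb hd (g := 1) (c := 1) one_ne_zero one_ne_zero (by rw [C_1]; ring)
  · intro A mA sA dA _
    rw [ed] at dA
    obtain ⟨c, x, hc, rfl⟩ := dvd_irr (irreducible_X_sub_C _) (dvd_unit_mul h4n dA)
    refine ptForT_const hc ?_
    fin_cases x
    · simp only [Fin.zero_eta, Fin.val_zero, pow_zero]
      have := ptForT_zero (K := K) (a := (-2 * 1 : k[X])) (b := 1 ^ 2 - 4 * X) (c := (1 : k))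
        one_ne_zero
      rwa [C_1] at this
    · simp only [Fin.mk_one, Fin.val_one, pow_one]
      exact ptTorT h2 hd hd' (g := 1) (c := -4) h4n one_ne_zero (by rw [ed]; ring)
  · intro m _
    rw [nd, natDegree_X]
    omega

end zero

section one

variable {k K : Type} [Field k] [Field K] [Algebra k[X] K] [IsFractionRing k[X] K]

/-- A base of rank one. -/
theorem baseT1 (h2 : (2 : k) ≠ 0) {w α β : k} (hw : w ≠ 0) (hαβ : α ≠ β) :
    BaseT K (C (w ^ 2 + α + β) - 2 * X : k[X]) ((X - C α) * (X - C β)) ∧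
      NoInf (C (w ^ 2 + α + β) - 2 * X : k[X]) ((X - C α) * (X - C β)) := by
  have h4 : (4 : k) ≠ 0 := by
    have : (4 : k) = 2 * 2 := by norm_num
    rw [this]
    exact mul_ne_zero h2 h2
  have hw2 : 4 * w ^ 2 ≠ 0 := mul_ne_zero h4 (pow_ne_zero 2 hw)
  obtain ⟨γ, hγ⟩ : ∃ γ : k, γ = ((w ^ 2 + α + β) ^ 2 - 4 * α * β) / (4 * w ^ 2) := ⟨_, rfl⟩
  have hwγ : 4 * w ^ 2 * γ = (w ^ 2 + α + β) ^ 2 - 4 * α * β := by
    rw [hγ]; exact mul_div_cancel₀ _ hw2
  obtain ⟨P, hP⟩ : ∃ P : k[X], P = X - C α := ⟨_, rfl⟩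
  obtain ⟨Q, hQ⟩ : ∃ Q : k[X], Q = X - C β := ⟨_, rfl⟩
  have nP : P ≠ 0 := by rw [hP]; exact X_sub_C_ne_zero _
  have nQ : Q ≠ 0 := by rw [hQ]; exact X_sub_C_ne_zero _
  have iP : Irreducible P := by rw [hP]; exact irreducible_X_sub_C _
  have iQ : Irreducible Q := by rw [hQ]; exact irreducible_X_sub_C _
  have eb : ((X - C α) * (X - C β) : k[X]) = P * Q := by rw [hP, hQ]
  have hb : ((X - C α) * (X - C β) : k[X]) ≠ 0 := by rw [eb]; exact mul_ne_zero nP nQ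
  have e4 : (4 : k[X]) = C 4 := by rw [C_ofNat]
  have hnw : -(4 * w ^ 2) ≠ 0 := neg_ne_zero.2 hw2
  have ea : (C (w ^ 2 + α + β) - 2 * X : k[X]) = C w ^ 2 - P - Q := by
    rw [hP, hQ, C_add, C_add, C_pow]; ring
  have ed : (C (w ^ 2 + α + β) - 2 * X : k[X]) ^ 2 - 4 * ((X - C α) * (X - C β)) =
      C (-(4 * w ^ 2)) * (X - C γ) := by
    have h3 := congrArg (C : k → k[X]) hwγ
    simp only [C_mul, C_sub, C_add, C_pow, ← e4] at h3
    rw [C_neg, C_mul, C_pow, ← e4, C_add, C_add, C_pow]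
    linear_combination -h3
  have hd : (C (w ^ 2 + α + β) - 2 * X : k[X]) ^ 2 - 4 * ((X - C α) * (X - C β)) ≠ 0 := by
    rw [ed]; exact mul_ne_zero (C_ne_zero.2 hnw) (X_sub_C_ne_zero _)
  have sb : ((X - C α) * (X - C β) : k[X]).Splits := (Splits.X_sub_C _).mul (Splits.X_sub_C _)
  have sd : ((C (w ^ 2 + α + β) - 2 * X : k[X]) ^ 2 - 4 * ((X - C α) * (X - C β))).Splits := by
    rw [ed]; exact (Splits.C _).mul (Splits.X_sub_C _)
  have nd : ((C (w ^ 2 + α + β) - 2 * X : k[X]) ^ 2 -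
      4 * ((X - C α) * (X - C β))).natDegree = 1 := by
    rw [ed, natDegree_C_mul hnw, natDegree_X_sub_C]
  have nb : ((X - C α) * (X - C β) : k[X]).natDegree = 2 := by
    rw [natDegree_mul (X_sub_C_ne_zero _) (X_sub_C_ne_zero _), natDegree_X_sub_C,
      natDegree_X_sub_C]
  have hd' : (-2 * (C (w ^ 2 + α + β) - 2 * X) : k[X]) ^ 2 -
      4 * ((C (w ^ 2 + α + β) - 2 * X) ^ 2 - 4 * ((X - C α) * (X - C β))) ≠ 0 := by
    have e : (-2 * (C (w ^ 2 + α + β) - 2 * X) : k[X]) ^ 2 -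
      4 * ((C (w ^ 2 + α + β) - 2 * X) ^ 2 - 4 * ((X - C α) * (X - C β))) =
      C 4 * (C 4 * ((X - C α) * (X - C β))) := by
      rw [← e4]; ring
    rw [e]
    exact mul_ne_zero (C_ne_zero.2 h4) (mul_ne_zero (C_ne_zero.2 h4) hb)
  refine ⟨⟨hb, hd, sb, sd, ⟨α, odd_mult_mul hαβ⟩,
    odd_mult_of_odd sd (by rw [nd]; exact odd_one), ?_, ?_⟩, ?_⟩
  · intro A mA sA dA _
    have dA' : A ∣ C 1 * (P * Q) := by rw [C_1, one_mul, ← eb]; exact dA
    obtain ⟨c, x, y, hc, rfl⟩ := dvd_irr2 iP iQ one_ne_zero dA'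
    refine ptForT_const hc ?_
    fin_cases x <;> fin_cases y
    · simp only [Fin.zero_eta, Fin.val_zero, pow_zero, mul_one]
      have := ptForT_zero (K := K) (a := (C (w ^ 2 + α + β) - 2 * X : k[X]))
        (b := (X - C α) * (X - C β)) (c := (1 : k)) one_ne_zero
      rwa [C_1] at this
    · simp only [Fin.zero_eta, Fin.mk_one, Fin.val_zero, Fin.val_one, pow_zero, pow_one, one_mul]
      refine ptGenT h2 hb hd (x := Q) (y := C w * Q) (c := 1) ?_ one_ne_zero nQ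
        (by rw [C_1, one_mul])
      rw [ea, eb]; ring
    · simp only [Fin.zero_eta, Fin.mk_one, Fin.val_zero, Fin.val_one, pow_zero, pow_one, mul_one]
      refine ptGenT h2 hb hd (x := P) (y := C w * P) (c := 1) ?_ one_ne_zero nP
        (by rw [C_1, one_mul])
      rw [ea, eb]; ring
    · simp only [Fin.mk_one, Fin.val_one, pow_one]
      exact ptTorT h2 hb hd (g := 1) (c := 1) one_ne_zero one_ne_zero (by rw [C_1, eb]; ring)
  · intro A mA sA dA _
    rw [ed] at dA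
    obtain ⟨c, x, hc, rfl⟩ := dvd_irr (irreducible_X_sub_C _) (dvd_unit_mul hnw dA)
    refine ptForT_const hc ?_
    fin_cases x
    · simp only [Fin.zero_eta, Fin.val_zero, pow_zero]
      have := ptForT_zero (K := K) (a := (-2 * (C (w ^ 2 + α + β) - 2 * X) : k[X]))
        (b := (C (w ^ 2 + α + β) - 2 * X) ^ 2 - 4 * ((X - C α) * (X - C β))) (c := (1 : k))
        one_ne_zero
      rwa [C_1] at this
    · simp only [Fin.mk_one, Fin.val_one, pow_one]
      exact ptTorT h2 hd hd' (g := 1) (c := -(4 * w ^ 2)) hnw one_ne_zero (by rw [ed]; ring)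
  · intro m _
    rw [nd, nb]
    omega

end one

section two

variable {k K : Type} [Field k] [Field K] [Algebra k[X] K] [IsFractionRing k[X] K]

/-- `a = 2 (u s + v)`. -/
noncomputable def aT2 (μ : k) : k[X] :=
  -2 * (C (1 + μ + μ ^ 2) * X + C (μ * (1 + μ)) ^ 2)

/-- `b = (s + (1 + μ)²) (s + μ² (1 + μ)²) (s + μ²)`. -/
noncomputable def bT2 (μ : k) : k[X] :=
  (X + C (1 + μ) ^ 2) * (X + C (μ * (1 + μ)) ^ 2) * (X + C μ ^ 2)

theorem disc_T2 (μ : k) : (aT2 μ) ^ 2 - 4 * bT2 μ = -4 * X ^ 3 := by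
  rw [aT2, bT2]
  simp only [C_mul, C_add, C_pow, C_1]
  ring

/-- A base of rank two. -/
theorem baseT2 (h2 : (2 : k) ≠ 0) {μ : k} (hμ : μ ≠ 0) (hμ1 : μ ≠ -1) :
    BaseT K (aT2 μ) (bT2 μ) ∧ NoInf (aT2 μ) (bT2 μ) := by
  have h4 : (4 : k) ≠ 0 := by
    have : (4 : k) = 2 * 2 := by norm_num
    rw [this]
    exact mul_ne_zero h2 h2
  have h4n : (-4 : k) ≠ 0 := neg_ne_zero.2 h4
  have hν : 1 + μ ≠ 0 := fun h => hμ1 (by linear_combination h)
  obtain ⟨P, hP⟩ : ∃ P : k[X], P = X + C (1 + μ) ^ 2 := ⟨_, rfl⟩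
  obtain ⟨Q, hQ⟩ : ∃ Q : k[X], Q = X + C (μ * (1 + μ)) ^ 2 := ⟨_, rfl⟩
  obtain ⟨R, hR⟩ : ∃ R : k[X], R = X + C μ ^ 2 := ⟨_, rfl⟩
  have eP : P = X - C (-(1 + μ) ^ 2) := by rw [hP, C_neg, C_pow]; ring
  have eQ : Q = X - C (-(μ * (1 + μ)) ^ 2) := by rw [hQ, C_neg, C_pow]; ring
  have eR : R = X - C (-μ ^ 2) := by rw [hR, C_neg, C_pow]; ring
  have nP : P ≠ 0 := by rw [eP]; exact X_sub_C_ne_zero _
  have nQ : Q ≠ 0 := by rw [eQ]; exact X_sub_C_ne_zero _
  have nR : R ≠ 0 := by rw [eR]; exact X_sub_C_ne_zero _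
  have iP : Irreducible P := by rw [eP]; exact irreducible_X_sub_C _
  have iQ : Irreducible Q := by rw [eQ]; exact irreducible_X_sub_C _
  have iR : Irreducible R := by rw [eR]; exact irreducible_X_sub_C _
  have eb : bT2 μ = P * Q * R := by rw [bT2, hP, hQ, hR]
  have hb : bT2 μ ≠ 0 := by rw [eb]; exact mul_ne_zero (mul_ne_zero nP nQ) nR
  have ed : (aT2 μ) ^ 2 - 4 * bT2 μ = C (-4) * (X * X * X) := by
    rw [disc_T2, C_neg, C_ofNat]; ring
  have hd : (aT2 μ) ^ 2 - 4 * bT2 μ ≠ 0 := by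
    rw [ed]
    exact mul_ne_zero (C_ne_zero.2 h4n) (mul_ne_zero (mul_ne_zero X_ne_zero X_ne_zero) X_ne_zero)
  have sb : (bT2 μ).Splits := by
    rw [eb, eP, eQ, eR]
    exact ((Splits.X_sub_C _).mul (Splits.X_sub_C _)).mul (Splits.X_sub_C _)
  have sd : ((aT2 μ) ^ 2 - 4 * bT2 μ).Splits := by
    rw [ed]; exact (Splits.C _).mul ((Splits.X.mul Splits.X).mul Splits.X)
  have nd : ((aT2 μ) ^ 2 - 4 * bT2 μ).natDegree = 3 := by
    rw [ed, natDegree_C_mul h4n, natDegree_mul (mul_ne_zero X_ne_zero X_ne_zero) X_ne_zero,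
      natDegree_mul X_ne_zero X_ne_zero, natDegree_X]
  have nb : (bT2 μ).natDegree = 3 := by
    rw [eb, natDegree_mul (mul_ne_zero nP nQ) nR, natDegree_mul nP nQ, eP, eQ, eR,
      natDegree_X_sub_C, natDegree_X_sub_C, natDegree_X_sub_C]
  have o3 : Odd 3 := ⟨1, rfl⟩
  have hd' : (-2 * aT2 μ) ^ 2 - 4 * ((aT2 μ) ^ 2 - 4 * bT2 μ) ≠ 0 := by
    have e : (-2 * aT2 μ) ^ 2 - 4 * ((aT2 μ) ^ 2 - 4 * bT2 μ) = C 4 * (C 4 * bT2 μ) := by
      rw [C_ofNat]; ring
    rw [e]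
    exact mul_ne_zero (C_ne_zero.2 h4) (mul_ne_zero (C_ne_zero.2 h4) hb)
  refine ⟨⟨hb, hd, sb, sd, odd_mult_of_odd sb (by rw [nb]; exact o3),
    odd_mult_of_odd sd (by rw [nd]; exact o3), ?_, ?_⟩, ?_⟩
  · intro A mA sA dA _
    rw [eb] at dA
    obtain ⟨c, x, y, z, hc, rfl⟩ := dvd_irr3 iP iQ iR dA
    refine ptForT_const hc ?_
    -- the polynomials in terms of `X`
    obtain ⟨m, hm⟩ : ∃ m : k[X], m = C μ := ⟨_, rfl⟩
    have hPm : P = X + (1 + m) ^ 2 := by rw [hP, C_add, C_1, hm]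
    have hQm : Q = X + (m * (1 + m)) ^ 2 := by rw [hQ, C_mul, C_add, C_1, hm]
    have hRm : R = X + m ^ 2 := by rw [hR, hm]
    have ham : aT2 μ = -2 * ((1 + m + m ^ 2) * X + (m * (1 + m)) ^ 2) := by
      rw [aT2, C_add, C_add, C_mul, C_add, C_pow, C_1, hm]
    have rP : m ^ 4 * P + aT2 μ * m ^ 2 + Q * R = X ^ 2 := by rw [ham, hPm, hQm, hRm]; ring
    have rQ : Q + aT2 μ + P * R = X ^ 2 := by rw [ham, hPm, hQm, hRm]; ring
    have rR : (1 + m) ^ 4 * R + aT2 μ * (1 + m) ^ 2 + P * Q = X ^ 2 := by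
      rw [ham, hPm, hQm, hRm]; ring
    obtain ⟨e, he⟩ : ∃ e : k, e = μ⁻¹ := ⟨_, rfl⟩
    have he0 : e ≠ 0 := by rw [he]; exact inv_ne_zero hμ
    obtain ⟨E, hE⟩ : ∃ E : k[X], E = C e := ⟨_, rfl⟩
    have hEm : E * m = 1 := by rw [hE, hm, ← C_mul, he, inv_mul_cancel₀ hμ, C_1]
    obtain ⟨f, hf⟩ : ∃ f : k, f = (1 + μ)⁻¹ := ⟨_, rfl⟩
    have hf0 : f ≠ 0 := by rw [hf]; exact inv_ne_zero hν
    obtain ⟨F, hF⟩ : ∃ F : k[X], F = C f := ⟨_, rfl⟩
    have hFm : F * (1 + m) = 1 := by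
      rw [hF, hm, ← C_1, ← C_add, ← C_mul, hf, inv_mul_cancel₀ hν]
    have rP' : P + aT2 μ * E ^ 2 + E ^ 4 * (Q * R) = E ^ 4 * X ^ 2 := by
      have h5 : E ^ 4 * m ^ 4 = 1 := by rw [← mul_pow, hEm, one_pow]
      have h6 : E ^ 4 * m ^ 2 = E ^ 2 := by
        have : E ^ 4 * m ^ 2 = E ^ 2 * (E * m) ^ 2 := by ring
        rw [this, hEm, one_pow, mul_one]
      linear_combination E ^ 4 * rP - P * h5 - aT2 μ * h6
    have rR' : R + aT2 μ * F ^ 2 + F ^ 4 * (P * Q) = F ^ 4 * X ^ 2 := by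
      have h5 : F ^ 4 * (1 + m) ^ 4 = 1 := by rw [← mul_pow, hFm, one_pow]
      have h6 : F ^ 4 * (1 + m) ^ 2 = F ^ 2 := by
        have : F ^ 4 * (1 + m) ^ 2 = F ^ 2 * (F * (1 + m)) ^ 2 := by ring
        rw [this, hFm, one_pow, mul_one]
      linear_combination F ^ 4 * rR - R * h5 - aT2 μ * h6
    fin_cases x <;> fin_cases y <;> fin_cases z
    -- 0 0 0
    · simp only [Fin.zero_eta, Fin.val_zero, pow_zero, mul_one]
      have := ptForT_zero (K := K) (a := aT2 μ) (b := bT2 μ) (c := (1 : k)) one_ne_zero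
      rwa [C_1] at this
    -- 0 0 1
    · simp only [Fin.zero_eta, Fin.mk_one, Fin.val_zero, Fin.val_one, pow_zero, pow_one, one_mul]
      refine ptGenT h2 hb hd (x := (1 + m) ^ 2 * R) (y := (1 + m) * X * R) (c := (1 + μ) ^ 2) ?_
        (pow_ne_zero 2 hν) nR (by rw [C_pow, C_add, C_1, hm])
      rw [eb]
      linear_combination (-((1 + m) ^ 2 * R ^ 2)) * rR
    -- 0 1 0
    · simp only [Fin.zero_eta, Fin.mk_one, Fin.val_zero, Fin.val_one, pow_zero, pow_one, one_mul,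
        mul_one]
      refine ptGenT h2 hb hd (x := Q) (y := X * Q) (c := 1) ?_ one_ne_zero nQ
        (by rw [C_1, one_mul])
      rw [eb]
      linear_combination (-(Q ^ 2)) * rQ
    -- 0 1 1
    · simp only [Fin.zero_eta, Fin.mk_one, Fin.val_zero, Fin.val_one, pow_zero, pow_one, one_mul,
        mul_one]
      refine ptGenT h2 hb hd (x := E ^ 2 * (Q * R)) (y := E ^ 3 * (X * (Q * R))) (c := e ^ 2) ?_
        (pow_ne_zero 2 he0) (mul_ne_zero nQ nR) (by rw [C_pow, hE])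
      rw [eb]
      linear_combination (-(E ^ 2 * (Q * R) ^ 2)) * rP'
    -- 1 0 0
    · simp only [Fin.zero_eta, Fin.mk_one, Fin.val_zero, Fin.val_one, pow_zero, pow_one, one_mul,
        mul_one]
      refine ptGenT h2 hb hd (x := m ^ 2 * P) (y := m * X * P) (c := μ ^ 2) ?_
        (pow_ne_zero 2 hμ) nP (by rw [C_pow, hm])
      rw [eb]
      linear_combination (-(m ^ 2 * P ^ 2)) * rP
    -- 1 0 1
    · simp only [Fin.zero_eta, Fin.mk_one, Fin.val_zero, Fin.val_one, pow_zero, pow_one, one_mul,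
        mul_one]
      refine ptGenT h2 hb hd (x := P * R) (y := X * (P * R)) (c := 1) ?_ one_ne_zero
        (mul_ne_zero nP nR) (by rw [C_1, one_mul])
      rw [eb]
      linear_combination (-((P * R) ^ 2)) * rQ
    -- 1 1 0
    · simp only [Fin.zero_eta, Fin.mk_one, Fin.val_zero, Fin.val_one, pow_zero, pow_one, one_mul,
        mul_one]
      refine ptGenT h2 hb hd (x := F ^ 2 * (P * Q)) (y := F ^ 3 * (X * (P * Q))) (c := f ^ 2) ?_
        (pow_ne_zero 2 hf0) (mul_ne_zero nP nQ) (by rw [C_pow, hF])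
      rw [eb]
      linear_combination (-(F ^ 2 * (P * Q) ^ 2)) * rR'
    -- 1 1 1
    · simp only [Fin.mk_one, Fin.val_one, pow_one]
      exact ptTorT h2 hb hd (g := 1) (c := 1) one_ne_zero one_ne_zero (by rw [C_1, eb]; ring)
  · intro A mA sA dA _
    rw [ed] at dA
    have dA' : A ∣ X := by
      have h1 : A ∣ X ^ 3 := by
        have h3 := dvd_unit_mul h4n dA
        have e : (X * X * X : k[X]) = X ^ 3 := by ring
        rwa [e] at h3
      exact (sA.dvd_pow_iff_dvd three_ne_zero).1 h1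
    obtain ⟨c, x, hc, rfl⟩ := dvd_irr irreducible_X dA'
    refine ptForT_const hc ?_
    fin_cases x
    · simp only [Fin.zero_eta, Fin.val_zero, pow_zero]
      have := ptForT_zero (K := K) (a := (-2 * aT2 μ)) (b := (aT2 μ) ^ 2 - 4 * bT2 μ)
        (c := (1 : k)) one_ne_zero
      rwa [C_1] at this
    · simp only [Fin.mk_one, Fin.val_one, pow_one]
      exact ptTorT h2 hd hd' (g := X) (c := -4) h4n X_ne_zero (by rw [ed]; ring)
  · intro m _
    rw [nd, nb]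
    omega

end two

end Pool.Agent.X243.Gen
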