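import Pool.Agent.X243.Gen.Main
import Pool.Agent.X243.Gen.Aff

/-!
Fixed `a`, all twists by constants, for `y² = x (x² + a x + b)`.
-/

set_option autoImplicit false
set_option linter.all false

open Polynomial
open scoped Classical

namespace Pool.Agent.X243.Gen

open Pool.Agent.TH115.GD Pool.Agent.X243.Tate Pool.Agent.X243.Sol Pool.Agent.Y160.T3

section lim

open Filter Topology

/-- The uniform form of the statement about proportions: the sets may vary. -/
theorem tendsto_of_densU {R : Type} [CommRing R] {ι : Type} [Fintype ι] (S : ℕ → Set (ι → R))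
    (h : ∀ η : ℝ, 0 < η → ∃ M : Ideal R, Finite (R ⧸ M) ∧ ∀ n : ℕ,
      (1 - η) * (Nat.card (R ⧸ M) : ℝ) ^ (Fintype.card ι) ≤
        (({x : ι → R ⧸ M | ∀ y : ι → R, (∀ j, Ideal.Quotient.mk M (y j) = x j) →
          y ∈ S n}).ncard : ℝ))
    (B : ℕ → Finset (ι → R)) (hB : ∀ n, (B n).Nonempty)
    (heq : ∀ M : Ideal R, Finite (R ⧸ M) → ∀ x : ι → R ⧸ M,
      Tendsto (fun n => (((B n).filter (fun y => ∀ j, Ideal.Quotient.mk M (y j) = x j)).card : ℝ) /
        ((B n).card : ℝ)) atTop (𝓝 (1 / (Nat.card (R ⧸ M) : ℝ) ^ (Fintype.card ι)))) :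
    Tendsto (fun n => (((B n).filter (fun y => y ∈ S n)).card : ℝ) / ((B n).card : ℝ)) atTop
      (𝓝 1) := by
  have hpos : ∀ n, (0 : ℝ) < ((B n).card : ℝ) := fun n => by exact_mod_cast (hB n).card_pos
  have hle : ∀ n, (((B n).filter (fun y => y ∈ S n)).card : ℝ) / ((B n).card : ℝ) ≤ 1 := by
    intro n
    rw [div_le_one (hpos n)]
    exact_mod_cast Finset.card_filter_le _ _
  rw [tendsto_order]
  refine ⟨fun a ha => ?_, fun a ha => ?_⟩
  · obtain ⟨η, hη0, hη1, hη2⟩ : ∃ η : ℝ, 0 < η ∧ η ≤ 1 / 2 ∧ 3 * η ≤ 1 - a := by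
      refine ⟨min ((1 - a) / 3) (1 / 2), ?_, min_le_right _ _, ?_⟩
      · exact lt_min (by linarith) (by norm_num)
      · have := min_le_left ((1 - a) / 3) (1 / 2 : ℝ)
        linarith
    obtain ⟨M, hM, hd⟩ := h η hη0
    haveI := hM
    haveI := Fintype.ofFinite (R ⧸ M)
    set T : ℝ := (Nat.card (R ⧸ M) : ℝ) ^ (Fintype.card ι) with hT
    have hT0 : 0 < T := by
      have : 0 < Nat.card (R ⧸ M) := Nat.card_pos
      positivity
    have hev : ∀ᶠ n in atTop, ∀ x : ι → R ⧸ M, (1 - η) / T <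
        (((B n).filter (fun y => ∀ j, Ideal.Quotient.mk M (y j) = x j)).card : ℝ) /
          ((B n).card : ℝ) := by
      rw [eventually_all]
      intro x
      refine (tendsto_order.1 (heq M hM x)).1 _ ?_
      exact div_lt_div_of_pos_right (by linarith) hT0
    filter_upwards [hev] with n hn
    set X : Finset (ι → R ⧸ M) := (Set.toFinite {x : ι → R ⧸ M | ∀ y : ι → R,
      (∀ j, Ideal.Quotient.mk M (y j) = x j) → y ∈ S n}).toFinset with hX
    have hXc : (({x : ι → R ⧸ M | ∀ y : ι → R, (∀ j, Ideal.Quotient.mk M (y j) = x j) →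
        y ∈ S n}).ncard : ℝ) = (X.card : ℝ) := by
      rw [hX, Set.ncard_eq_toFinset_card]
    have hdn := hd n
    rw [hXc] at hdn
    have k1 : a < (1 - η) * (1 - η) := by nlinarith
    have k2 : (1 - η) * (1 - η) ≤ (X.card : ℝ) * ((1 - η) / T) := by
      have k3 : (1 - η) * T * ((1 - η) / T) ≤ (X.card : ℝ) * ((1 - η) / T) :=
        mul_le_mul_of_nonneg_right hdn (div_nonneg (by linarith) hT0.le)
      have k4 : (1 - η) * T * ((1 - η) / T) = (1 - η) * (1 - η) := by
        field_simp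
      rwa [k4] at k3
    have k5 : (X.card : ℝ) * ((1 - η) / T) ≤ ∑ x ∈ X,
        (((B n).filter (fun y => ∀ j, Ideal.Quotient.mk M (y j) = x j)).card : ℝ) /
          ((B n).card : ℝ) := by
      rw [← nsmul_eq_mul, ← Finset.sum_const]
      exact Finset.sum_le_sum fun x _ => (hn x).le
    refine k1.trans_le (k2.trans (k5.trans ?_))
    rw [← Finset.sum_div]
    refine div_le_div_of_nonneg_right ?_ (hpos n).le
    have h1 : (X.biUnion fun x => (B n).filter (fun y => ∀ j, Ideal.Quotient.mk M (y j) = x j)) ⊆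
        (B n).filter (fun y => y ∈ S n) := by
      intro y hy
      rw [Finset.mem_biUnion] at hy
      obtain ⟨x, hx, hy⟩ := hy
      rw [Finset.mem_filter] at hy ⊢
      rw [hX, Set.Finite.mem_toFinset] at hx
      exact ⟨hy.1, hx y hy.2⟩
    have h2 := Finset.card_le_card h1
    rw [Finset.card_biUnion (by
      intro x _ x' _ hne
      rw [Function.onFun, Finset.disjoint_left]
      intro y hy hy'
      rw [Finset.mem_filter] at hy hy'
      apply hne
      funext j
      rw [← hy.2 j, hy'.2 j])] at h2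
    exact_mod_cast h2
  · exact Eventually.of_forall fun n => (hle n).trans_lt ha

end lim

section forms

variable {R k : Type} [CommRing R] [IsDomain R] [IsIntegrallyClosed R] [IsNoetherianRing R]
  [Field k] [Algebra R k] [IsFractionRing R k]

theorem bF_coeff {N : ℕ} {p : R[X]} (hp : p.natDegree ≤ N) :
    bF (fun j : Fin (N + 1) => p.coeff j) = p := by
  unfold bF
  rw [Fin.sum_univ_eq_sum_range (fun j => C (p.coeff j) * X ^ j) (N + 1)]
  conv_rhs => rw [p.as_sum_range' (N + 1) (by omega)]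
  exact Finset.sum_congr rfl fun j _ => C_mul_X_pow_eq_monomial

/-- The coefficients of `b`. -/
def fl (R : Type) [CommRing R] : Bool → R
  | true => 1
  | false => -4

/-- The fixed parts. -/
noncomputable def fs {R : Type} [CommRing R] (N : ℕ) (α : R[X]) : Bool → Fin (N + 1) → R
  | true => fun _ => 0
  | false => fun j => (α ^ 2).coeff j

theorem fl_ne (h2 : (2 : R) ≠ 0) (i : Bool) : fl R i ≠ 0 := by
  cases i
  · have : (4 : R) = 2 * 2 := by norm_num
    show (-4 : R) ≠ 0
    rw [this]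
    exact neg_ne_zero.2 (mul_ne_zero h2 h2)
  · exact one_ne_zero

theorem ft_good {m N B : ℕ} {c : R} (hmN : 2 * m ≤ N) (hN : 3 ≤ N) {α : R[X]}
    (hα : α.natDegree ≤ m) {y : Fin (N + 1) → R}
    (h : ∀ i : Bool × Fin 3, ∃ p ∈ Zc R B c,
      (fun j => Ideal.Quotient.mk p (y j)) ∈ Aev N (fl R) (fs N α) i p)
    {a b : k[X]} (ha : a = α.map (algebraMap R k)) (hb : b = (bF y).map (algebraMap R k)) :
    FF N b ∧ FF N (a ^ 2 - 4 * b) := by
  constructor
  · refine aff_good hN h true ?_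
    have e : bF (fs N α true) = 0 := by
      have e1 : fs N α true = fun _ => 0 := rfl
      rw [e1]
      unfold bF
      exact Finset.sum_eq_zero fun j _ => by rw [C_0, zero_mul]
    have e2 : fl R true = 1 := rfl
    rw [e, Polynomial.map_zero, add_zero, ← hb, e2, map_one, C_1, one_mul]
  · refine aff_good hN h false ?_
    have e : bF (fs N α false) = α ^ 2 := by
      have e1 : fs N α false = fun j : Fin (N + 1) => (α ^ 2).coeff j := rfl
      rw [e1]
      apply bF_coeff
      refine natDegree_pow_le.trans ?_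
      calc 2 * α.natDegree ≤ 2 * m := Nat.mul_le_mul_left 2 hα
        _ ≤ N := hmN
    have e2 : fl R false = -4 := rfl
    rw [e, Polynomial.map_pow, ← ha, ← hb, e2, map_neg, C_neg, map_ofNat, C_ofNat]
    ring

end forms

section tate

variable {k : Type} [Field k]

theorem notNorm_const {p : k[X]} {c : k} (hc : c ≠ 0) (h : NotNorm p) : NotNorm (C c * p) := by
  intro u D U V e
  refine h (c⁻¹ * u) D U V ?_
  rw [C_mul, mul_assoc, ← e, ← mul_assoc, ← C_mul, inv_mul_cancel₀ hc, C_1, one_mul]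

theorem tate_extT (h2 : (2 : k) ≠ 0) {a b : k[X]} {N : ℕ} (hN : 5 ≤ N) (hb : FF N b)
    (hd : FF N (a ^ 2 - 4 * b)) {L L' K F : Type} [Field L] [Algebra k L] [Field L']
    [Algebra L L'] [Algebra k L'] [IsScalarTower k L L'] [Field K] [Algebra L[X] K]
    [Field F] [Algebra L'[X] F] [IsFractionRing L'[X] F] [Algebra K F] (hT : IsTower L L' K F)
    (M : IntermediateField k L') (hMn : Normal k M)
    (hM : ∀ x : L, IsSeparable k x → algebraMap L L' x ∈ M)
    (h1 : ¬ (b.map (algebraMap k M)).Splits)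
    (h3 : ¬ ((a ^ 2 - 4 * b).map (algebraMap k M)).Splits) (δ : L) (hδ : δ ≠ 0) :
    TateAtTwo (F := F) L' (crvT (algebraMap L[X] K (C δ * a.map (algebraMap k L)))
      (algebraMap L[X] K (C (δ ^ 2) * b.map (algebraMap k L)))) := by
  haveI := hT.sep
  have h2L : (2 : L) ≠ 0 := by
    rw [← map_ofNat (algebraMap k L) 2]
    exact (map_ne_zero_iff _ (algebraMap k L).injective).2 h2
  obtain ⟨i1, n1⟩ := three_gen hb.2.1 (by rw [hb.1.2]; exact hN) hb.2.2 h2 L L' M hM h1
  obtain ⟨i2, n2⟩ := three_gen hd.2.1 (by rw [hd.1.2]; exact hN) hd.2.2 h2 L L' M hM h3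
  have e : (a ^ 2 - 4 * b).map (algebraMap k L) =
      (a.map (algebraMap k L)) ^ 2 - 4 * (b.map (algebraMap k L)) := by
    rw [Polynomial.map_sub, Polynomial.map_pow, Polynomial.map_mul, Polynomial.map_ofNat]
  have s1 : (b.map (algebraMap k L)).Separable := hb.2.1.map
  have s2 : ((a ^ 2 - 4 * b).map (algebraMap k L)).Separable := hd.2.1.map
  rw [e] at i2 n2 s2
  have hδ2 : δ ^ 2 ≠ 0 := pow_ne_zero 2 hδ
  have ed : (C δ * a.map (algebraMap k L)) ^ 2 - 4 * (C (δ ^ 2) * b.map (algebraMap k L)) =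
      C (δ ^ 2) * ((a.map (algebraMap k L)) ^ 2 - 4 * (b.map (algebraMap k L))) := by
    rw [C_pow]; ring
  refine genericT hT h2L (u := δ ^ 2) (v := δ ^ 2) (m := 0) (n := 0)
    (π := b.map (algebraMap k L))
    (ρ := (a.map (algebraMap k L)) ^ 2 - 4 * (b.map (algebraMap k L))) hδ2 hδ2
    i1 i2 s1 s2 (by rw [mul_zero, zero_add, pow_one]) ?_ (notNorm_const hδ2 n1) ?_
  · rw [ed, mul_zero, zero_add, pow_one]
  · rw [ed]
    exact notNorm_const hδ2 n2

theorem tate_solvT (h2 : (2 : k) ≠ 0) {a b : k[X]} {N : ℕ} (hN : 5 ≤ N) (hb : FF N b)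
    (hd : FF N (a ^ 2 - 4 * b)) {L L' K F : Type} [Field L] [Algebra k L] [Field L']
    [Algebra L L'] [Algebra k L'] [IsScalarTower k L L'] [Field K] [Algebra L[X] K]
    [Field F] [Algebra L'[X] F] [IsFractionRing L'[X] F] [Algebra K F] (hT : IsTower L L' K F)
    (hM : ∀ x : L, IsSeparable k x → Group.IsSolvable (minpoly k x).Gal) (δ : L) (hδ : δ ≠ 0) :
    TateAtTwo (F := F) L' (crvT (algebraMap L[X] K (C δ * a.map (algebraMap k L)))
      (algebraMap L[X] K (C (δ ^ 2) * b.map (algebraMap k L)))) := by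
  haveI := hT.sep
  haveI : IsSepClosed L' := IsSepClosure.sep_closed L
  exact tate_extT h2 hN hb hd hT (solvM k L') (solvM_normal L')
    (fun x hx => mem_solvM hx (hM x hx))
    (solvM_not_splits L' hb.2.1 (by rw [hb.1.2]; exact hN) hb.2.2)
    (solvM_not_splits L' hd.2.1 (by rw [hd.1.2]; exact hN) hd.2.2) δ hδ

end tate

end Pool.Agent.X243.Gen
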