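import Pool.Agent.X243.Gen.Pull4

/-!
Examples of elliptic curves over `k(s)` with complete first descent: rational elliptic surfaces.
-/

set_option autoImplicit false
set_option linter.all false

open Polynomial WeierstrassCurve WeierstrassCurve.Affine
open scoped Classical

namespace Pool.Agent.X243.Gen

open Pool.Agent.TH115.GD Pool.Agent.X243.Tate Pool.Agent.X243.Sol Pool.Agent.Y160.T3

section point

variable {k K : Type} [Field k] [Field K] [Algebra k[X] K] [IsFractionRing k[X] K]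

/-- The two conditions on a point. -/
def PtFor (K : Type) [Field K] [Algebra k[X] K] (a b u v : k[X]) : Prop :=
  ∃ P : Pt (crv (algebraMap k[X] K a) (algebraMap k[X] K b)) K,
    (∃ (c : k) (h : K), c ≠ 0 ∧ h ≠ 0 ∧ algebraMap k[X] K (C c * u) =
      h ^ 2 * d0 (algebraMap k[X] K a) (algebraMap k[X] K b) P) ∧
    (∃ (c : k) (h : K), c ≠ 0 ∧ h ≠ 0 ∧ algebraMap k[X] K (C c * v) =
      h ^ 2 * d1 (algebraMap k[X] K a) (algebraMap k[X] K b) P)

theorem ptFor_zero {a b : k[X]} {c c' : k} (hc : c ≠ 0) (hc' : c' ≠ 0) :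
    PtFor K a b (C c) (C c') := by
  refine ⟨0, ⟨c⁻¹, 1, inv_ne_zero hc, one_ne_zero, ?_⟩, ⟨c'⁻¹, 1, inv_ne_zero hc', one_ne_zero, ?_⟩⟩
  · rw [← C_mul, inv_mul_cancel₀ hc, C_1, map_one]
    show (1 : K) = 1 ^ 2 * 1
    ring
  · rw [← C_mul, inv_mul_cancel₀ hc', C_1, map_one]
    show (1 : K) = 1 ^ 2 * 1
    ring

theorem ptFor (h2 : (2 : k) ≠ 0) {a b : k[X]} (ha : a ≠ 0) (hb : b ≠ 0) (hab : a ≠ b)
    {x y u v g g' : k[X]} (hxy : y ^ 2 = x * (x - a) * (x - b)) {c c' : k} (hc : c ≠ 0) (hc' : c' ≠ 0)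
    (hg : g ≠ 0) (hg' : g' ≠ 0) (hx : g ^ 2 * (C c * u) = if x = 0 then a * b else x)
    (hxa : g' ^ 2 * (C c' * v) = if x = a then a * (a - b) else x - a) :
    PtFor K a b u v := by
  have inj := IsFractionRing.injective k[X] K
  have h2K : (2 : K) ≠ 0 := by
    have h3 : algebraMap k[X] K (C 2) ≠ 0 := by simpa using h2
    rwa [C_ofNat, map_ofNat] at h3
  have haK : algebraMap k[X] K a ≠ 0 := by simpa using ha
  have hbK : algebraMap k[X] K b ≠ 0 := by simpa using hb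
  have habK : algebraMap k[X] K a ≠ algebraMap k[X] K b := fun e => hab (inj e)
  have hE := isE (algebraMap k[X] K a) (algebraMap k[X] K b) K h2K haK hbK habK
  have hn : ((crv (algebraMap k[X] K a) (algebraMap k[X] K b)).baseChange
      K).toAffine.Nonsingular (algebraMap k[X] K x) (algebraMap k[X] K y) := by
    rw [hE.nonsingular]
    have := congrArg (algebraMap k[X] K) hxy
    rw [map_pow, map_mul, map_mul, map_sub, map_sub] at this
    exact this
  have i0 : algebraMap k[X] K x = 0 ↔ x = 0 := by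
    rw [← map_zero (algebraMap k[X] K)]
    exact inj.eq_iff
  have i1 : algebraMap k[X] K x = algebraMap k[X] K a ↔ x = a := inj.eq_iff
  have hgK : algebraMap k[X] K g ≠ 0 := by simpa using hg
  have hgK' : algebraMap k[X] K g' ≠ 0 := by simpa using hg'
  refine ⟨Point.some _ _ hn, ⟨c, (algebraMap k[X] K g)⁻¹, hc, inv_ne_zero hgK, ?_⟩,
    ⟨c', (algebraMap k[X] K g')⁻¹, hc', inv_ne_zero hgK', ?_⟩⟩
  · show _ = _ * (if algebraMap k[X] K x = 0 then algebraMap k[X] K a * algebraMap k[X] K b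
      else algebraMap k[X] K x)
    have e : (if algebraMap k[X] K x = 0 then algebraMap k[X] K a * algebraMap k[X] K b
      else algebraMap k[X] K x) = (algebraMap k[X] K g) ^ 2 * algebraMap k[X] K (C c * u) := by
      have e' := congrArg (algebraMap k[X] K) hx
      rw [map_mul, map_pow] at e'
      rw [e']
      by_cases h : x = 0
      · rw [if_pos (i0.2 h), if_pos h, map_mul]
      · rw [if_neg (fun h' => h (i0.1 h')), if_neg h]
    rw [e]
    field_simp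
  · show _ = _ * (if algebraMap k[X] K x = algebraMap k[X] K a then
      algebraMap k[X] K a * (algebraMap k[X] K a - algebraMap k[X] K b)
      else algebraMap k[X] K x - algebraMap k[X] K a)
    have e : (if algebraMap k[X] K x = algebraMap k[X] K a then
      algebraMap k[X] K a * (algebraMap k[X] K a - algebraMap k[X] K b)
      else algebraMap k[X] K x - algebraMap k[X] K a) =
        (algebraMap k[X] K g') ^ 2 * algebraMap k[X] K (C c' * v) := by
      have e' := congrArg (algebraMap k[X] K) hxa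
      rw [map_mul, map_pow] at e'
      rw [e']
      by_cases h : x = a
      · rw [if_pos (i1.2 h), if_pos h, map_mul, map_sub]
      · rw [if_neg (fun h' => h (i1.1 h')), if_neg h, map_sub]
    rw [e]
    field_simp

theorem ptFor_const {a b u v : k[X]} {c c' : k} (hc : c ≠ 0) (hc' : c' ≠ 0)
    (h : PtFor K a b u v) : PtFor K a b (C c * u) (C c' * v) := by
  obtain ⟨P, ⟨d, h, hd, hh, e⟩, ⟨d', h', hd', hh', e'⟩⟩ := h
  refine ⟨P, ⟨d * c⁻¹, h, mul_ne_zero hd (inv_ne_zero hc), hh, ?_⟩,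
    ⟨d' * c'⁻¹, h', mul_ne_zero hd' (inv_ne_zero hc'), hh', ?_⟩⟩
  · rw [← e]
    congr 1
    rw [← mul_assoc, ← C_mul, inv_mul_cancel_right₀ hc]
  · rw [← e']
    congr 1
    rw [← mul_assoc, ← C_mul, inv_mul_cancel_right₀ hc']

end point

section five

variable {k K : Type} [Field k] [Field K] [Algebra k[X] K] [IsFractionRing k[X] K]

/-- `a = β² s² - 1`. -/
noncomputable def a5 (β : k) : k[X] := C (β ^ 2) * X ^ 2 - 1

/-- `b = (β² - 1) s²`. -/
noncomputable def b5 (β : k) : k[X] := C (β ^ 2 - 1) * X ^ 2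

theorem base5 (h2 : (2 : k) ≠ 0) {β : k} (hβ : β ≠ 0) (hβ1 : β ≠ 1) (hβ2 : β ≠ -1) :
    Base K (a5 β) (b5 β) ∧ (b5 β).natDegree = (a5 β).natDegree ∧
      (a5 β - b5 β).natDegree = (a5 β).natDegree ∧ (a5 β).natDegree = 2 := by
  have hm1 : β - 1 ≠ 0 := sub_ne_zero.2 hβ1
  have hp1 : β + 1 ≠ 0 := fun h => hβ2 (by linear_combination h)
  have hb2 : β ^ 2 - 1 ≠ 0 := by
    have : β ^ 2 - 1 = (β - 1) * (β + 1) := by ring
    rw [this]
    exact mul_ne_zero hm1 hp1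
  have hneg : (-1 : k) ≠ 0 := neg_ne_zero.2 one_ne_zero
  obtain ⟨γ, hγ⟩ : ∃ γ : k, γ = β⁻¹ := ⟨_, rfl⟩
  have hγ0 : γ ≠ 0 := by rw [hγ]; exact inv_ne_zero hβ
  have hβγ : β * γ = 1 := by rw [hγ]; exact mul_inv_cancel₀ hβ
  have hβγ' : C β * C γ = (1 : k[X]) := by rw [← C_mul, hβγ, C_1]
  have eA1 : C β * (X - C (-γ)) = C β * X + 1 := by
    rw [C_neg]; linear_combination hβγ'
  have eA2 : C β * (X - C γ) = C β * X - 1 := by
    linear_combination -hβγ'
  have ea : a5 β = C (β ^ 2) * ((X - C (-γ)) * (X - C γ)) := by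
    have : C (β ^ 2) * ((X - C (-γ)) * (X - C γ)) = (C β * (X - C (-γ))) * (C β * (X - C γ)) := by
      rw [C_pow]; ring
    rw [this, eA1, eA2, a5, C_pow]
    ring
  have ec : a5 β - b5 β = C 1 * ((X - C (-1)) * (X - C 1)) := by
    rw [a5, b5, C_sub, C_neg, C_1, C_pow]
    ring
  have eb : b5 β = C (β ^ 2 - 1) * ((X - C 0) * (X - C 0)) := by
    rw [b5, C_0, sub_zero]; ring
  have hβ20 : β ^ 2 ≠ 0 := pow_ne_zero 2 hβ
  have ha : a5 β ≠ 0 := by
    rw [ea]
    exact mul_ne_zero (C_ne_zero.2 hβ20) (mul_ne_zero (X_sub_C_ne_zero _) (X_sub_C_ne_zero _))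
  have hb : b5 β ≠ 0 := by
    rw [eb]
    exact mul_ne_zero (C_ne_zero.2 hb2) (mul_ne_zero (X_sub_C_ne_zero _) (X_sub_C_ne_zero _))
  have hc0 : a5 β - b5 β ≠ 0 := by
    rw [ec]
    exact mul_ne_zero (C_ne_zero.2 one_ne_zero)
      (mul_ne_zero (X_sub_C_ne_zero _) (X_sub_C_ne_zero _))
  have hab : a5 β ≠ b5 β := sub_ne_zero.1 hc0
  have nd2 : ∀ (c x y : k), c ≠ 0 → (C c * ((X - C x) * (X - C y))).natDegree = 2 := by
    intro c x y hc
    rw [natDegree_C_mul hc, natDegree_mul (X_sub_C_ne_zero _) (X_sub_C_ne_zero _),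
      natDegree_X_sub_C, natDegree_X_sub_C]
  have sp : ∀ (c x y : k), (C c * ((X - C x) * (X - C y)) : k[X]).Splits := by
    intro c x y
    exact (Polynomial.Splits.C _).mul ((Polynomial.Splits.X_sub_C _).mul
      (Polynomial.Splits.X_sub_C _))
  have da : (a5 β).natDegree = 2 := by rw [ea]; exact nd2 _ _ _ hβ20
  have db : (b5 β).natDegree = 2 := by rw [eb]; exact nd2 _ _ _ hb2
  have dc : (a5 β - b5 β).natDegree = 2 := by rw [ec]; exact nd2 _ _ _ one_ne_zero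
  have hof : ∀ (c x y : k), c ≠ 0 → x ≠ y → HasOddFactor (C c * ((X - C x) * (X - C y))) := by
    intro c x y hc hxy
    refine ⟨X - C x, 0, irreducible_X_sub_C x, by rw [natDegree_X_sub_C]; exact odd_one, ?_, ?_⟩
    · rw [mul_zero, zero_add, pow_one]
      exact (dvd_mul_right _ _).mul_left _
    · intro h
      rw [mul_zero, zero_add, sq] at h
      have h1 := dvd_unit_mul hc h
      have h3 : X - C x ∣ X - C y := (mul_dvd_mul_iff_left (X_sub_C_ne_zero x)).1 h1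
      have h4 := dvd_iff_isRoot.1 h3
      rw [IsRoot.def, eval_sub, eval_X, eval_C] at h4
      exact hxy (sub_eq_zero.1 h4)
  have hγγ : -γ ≠ γ := by
    intro h
    apply mul_ne_zero h2 hγ0
    linear_combination -h
  have h11 : (-1 : k) ≠ 1 := by
    intro h
    apply h2
    linear_combination -h
  refine ⟨⟨ha, hb, hab, ?_, ?_, ?_, ?_, ?_, ?_⟩, by rw [da, db], by rw [da, dc], da⟩
  · refine ⟨-1, C (β ^ 2 / (β ^ 2 - 1)), ?_⟩
    rw [a5, b5, ← mul_assoc, ← C_mul, div_mul_cancel₀ _ hb2]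
    ring
  · rw [ea]; exact sp _ _ _
  · rw [eb]; exact sp _ _ _
  · rw [ec]; exact sp _ _ _
  · right
    right; left
    exact ⟨by rw [ea]; exact hof _ _ _ hβ20 hγγ, by rw [ec]; exact hof _ _ _ one_ne_zero h11⟩
  · intro A B D mA mB mD sA sB sD dA dB dD hinf
    rw [ea] at dA
    rw [ec] at dD
    obtain ⟨c1, x0, x1, k1, rfl⟩ := dvd_irr2 (irreducible_X_sub_C _) (irreducible_X_sub_C _)
      hβ20 dA
    obtain ⟨c3, z0, z1, k3, rfl⟩ := dvd_irr2 (irreducible_X_sub_C _) (irreducible_X_sub_C _)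
      one_ne_zero dD
    have dB' : B ∣ X := by
      have h1 : B ∣ X ^ 2 := dvd_unit_mul hb2 dB
      exact (sB.dvd_pow_iff_dvd two_ne_zero).1 h1
    obtain ⟨c2, y0, k2, rfl⟩ := dvd_irr irreducible_X dB'
    obtain ⟨i1, i2, -⟩ := hinf (by rw [da, db, max_self]; exact even_two)
    have j1 := i1 (by rw [da, db])
    have j2 := i2 (by rw [da, db, max_self]) (by rw [dc, da, db, max_self])
    have n1 : (C c1 * ((X - C (-γ)) ^ (x0 : ℕ) * (X - C γ) ^ (x1 : ℕ))).natDegree =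
        (x0 : ℕ) + (x1 : ℕ) := by
      rw [natDegree_C_mul k1, natDegree_mul (pow_ne_zero _ (X_sub_C_ne_zero _))
        (pow_ne_zero _ (X_sub_C_ne_zero _)), natDegree_pow, natDegree_pow, natDegree_X_sub_C,
        natDegree_X_sub_C, mul_one, mul_one]
    have n3 : (C c3 * ((X - C (-1)) ^ (z0 : ℕ) * (X - C 1) ^ (z1 : ℕ)) : k[X]).natDegree =
        (z0 : ℕ) + (z1 : ℕ) := by
      rw [natDegree_C_mul k3, natDegree_mul (pow_ne_zero _ (X_sub_C_ne_zero _))
        (pow_ne_zero _ (X_sub_C_ne_zero _)), natDegree_pow, natDegree_pow, natDegree_X_sub_C,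
        natDegree_X_sub_C, mul_one, mul_one]
    have n2 : (C c2 * X ^ (y0 : ℕ) : k[X]).natDegree = (y0 : ℕ) := by
      rw [natDegree_C_mul k2, natDegree_X_pow]
    rw [natDegree_mul mA.ne_zero mB.ne_zero, n1, n2] at j1
    rw [natDegree_mul mA.ne_zero mD.ne_zero, n1, n3] at j2
    have j1' := Nat.even_iff.1 j1
    have j2' := Nat.even_iff.1 j2
    -- the points
    have red : PtFor K (a5 β) (b5 β)
        ((X - C (-γ)) ^ (x0 : ℕ) * (X - C γ) ^ (x1 : ℕ) * X ^ (y0 : ℕ))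
        ((X - C (-γ)) ^ (x0 : ℕ) * (X - C γ) ^ (x1 : ℕ) *
          ((X - C (-1)) ^ (z0 : ℕ) * (X - C 1) ^ (z1 : ℕ))) →
        PtFor K (a5 β) (b5 β)
          (C c1 * ((X - C (-γ)) ^ (x0 : ℕ) * (X - C γ) ^ (x1 : ℕ)) * (C c2 * X ^ (y0 : ℕ)))
          (C c1 * ((X - C (-γ)) ^ (x0 : ℕ) * (X - C γ) ^ (x1 : ℕ)) *
            (C c3 * ((X - C (-1)) ^ (z0 : ℕ) * (X - C 1) ^ (z1 : ℕ)))) := by
      intro h
      have h1 := ptFor_const (mul_ne_zero k1 k2) (mul_ne_zero k1 k3) h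
      have e1 : C (c1 * c2) * ((X - C (-γ)) ^ (x0 : ℕ) * (X - C γ) ^ (x1 : ℕ) * X ^ (y0 : ℕ)) =
          C c1 * ((X - C (-γ)) ^ (x0 : ℕ) * (X - C γ) ^ (x1 : ℕ)) * (C c2 * X ^ (y0 : ℕ)) := by
        rw [C_mul]; ring
      have e2 : C (c1 * c3) * ((X - C (-γ)) ^ (x0 : ℕ) * (X - C γ) ^ (x1 : ℕ) *
          ((X - C (-1)) ^ (z0 : ℕ) * (X - C 1) ^ (z1 : ℕ))) =
          C c1 * ((X - C (-γ)) ^ (x0 : ℕ) * (X - C γ) ^ (x1 : ℕ)) *
            (C c3 * ((X - C (-1)) ^ (z0 : ℕ) * (X - C 1) ^ (z1 : ℕ))) := by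
        rw [C_mul]; ring
      rw [e1, e2] at h1
      exact h1
    apply red
    obtain ⟨A1, hA1⟩ : ∃ A1 : k[X], A1 = X - C (-γ) := ⟨_, rfl⟩
    obtain ⟨A2, hA2⟩ : ∃ A2 : k[X], A2 = X - C γ := ⟨_, rfl⟩
    obtain ⟨D1, hD1⟩ : ∃ D1 : k[X], D1 = X - C (-1) := ⟨_, rfl⟩
    obtain ⟨D2, hD2⟩ : ∃ D2 : k[X], D2 = X - C 1 := ⟨_, rfl⟩
    rw [← hA1, ← hA2, ← hD1, ← hD2]
    rw [← hA1] at eA1
    rw [← hA2] at eA2
    have eD1 : D1 = X + 1 := by rw [hD1, C_neg, C_1]; ring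
    have eD2 : D2 = X - 1 := by rw [hD2, C_1]
    have nA1 : A1 ≠ 0 := by rw [hA1]; exact X_sub_C_ne_zero _
    have nA2 : A2 ≠ 0 := by rw [hA2]; exact X_sub_C_ne_zero _
    have nD1 : D1 ≠ 0 := by rw [hD1]; exact X_sub_C_ne_zero _
    have nD2 : D2 ≠ 0 := by rw [hD2]; exact X_sub_C_ne_zero _
    have fa : a5 β = (C β * X + 1) * (C β * X - 1) := by rw [a5, C_pow]; ring
    have fb : b5 β = (C β - 1) * (C β + 1) * X ^ 2 := by rw [b5, C_sub, C_pow, C_1]; ring
    have Cm1 : C (β - 1) = (C β - 1 : k[X]) := by rw [C_sub, C_1]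
    have Cp1 : C (β + 1) = (C β + 1 : k[X]) := by rw [C_add, C_1]
    have hX0 : (X : k[X]) ≠ 0 := X_ne_zero
    -- the points which are not of order two
    have gen : ∀ {x y u v : k[X]}, y ^ 2 = x * (x - a5 β) * (x - b5 β) →
        ∀ {c c' : k}, c ≠ 0 → c' ≠ 0 → u ≠ 0 → v ≠ 0 → C c * u = x → C c' * v = x - a5 β →
        PtFor K (a5 β) (b5 β) u v := by
      intro x y u v hxy c c' hc hc' hu hv e1 e2
      have hx0 : x ≠ 0 := by rw [← e1]; exact mul_ne_zero (C_ne_zero.2 hc) hu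
      have hxa : x ≠ a5 β := by
        rw [← sub_ne_zero, ← e2]; exact mul_ne_zero (C_ne_zero.2 hc') hv
      exact ptFor h2 ha hb hab hxy hc hc' one_ne_zero one_ne_zero
        (by rw [if_neg hx0, one_pow, one_mul, e1]) (by rw [if_neg hxa, one_pow, one_mul, e2])
    fin_cases x0 <;> fin_cases x1 <;> fin_cases y0 <;> fin_cases z0 <;> fin_cases z1 <;>
      first
      | (exfalso; revert j1'; decide)
      | (exfalso; revert j2'; decide)
      | skip
    -- 0 0 0 0 0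
    · simp only [Fin.zero_eta, Fin.val_zero, pow_zero, mul_one]
      have := ptFor_zero (K := K) (a := a5 β) (b := b5 β) (c := 1) (c' := 1) one_ne_zero one_ne_zero
      rwa [C_1] at this
    -- 0 0 0 1 1
    · simp only [Fin.zero_eta, Fin.mk_one, Fin.val_zero, Fin.val_one, pow_zero, pow_one, mul_one,
        one_mul]
      refine ptFor h2 ha hb hab (x := b5 β) (y := 0) (g := X) (g' := 1) (c := β ^ 2 - 1) (c' := -1)
        (by ring) hb2 hneg hX0 one_ne_zero ?_ ?_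
      · rw [if_neg hb, b5]; ring
      · rw [if_neg hab.symm, a5, b5, eD1, eD2, C_sub, C_pow, C_neg, C_1]; ring
    -- 0 1 1 0 1
    · simp only [Fin.zero_eta, Fin.mk_one, Fin.val_zero, Fin.val_one, pow_zero, pow_one, mul_one,
        one_mul]
      refine gen (x := (C β + 1) * X * (C β * X - 1)) (y := (C β + 1) * X * (C β * X - 1) * (X - 1))
        (c := (β + 1) * β) (c' := β) ?_ (mul_ne_zero hp1 hβ) hβ (mul_ne_zero nA2 hX0)
        (mul_ne_zero nA2 nD2) ?_ ?_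
      · rw [fa, fb]; ring
      · rw [C_mul, Cp1, ← eA2]; ring
      · rw [fa, eD2, ← mul_assoc, eA2]; ring
    -- 0 1 1 1 0
    · simp only [Fin.zero_eta, Fin.mk_one, Fin.val_zero, Fin.val_one, pow_zero, pow_one, mul_one,
        one_mul]
      refine gen (x := (C β - 1) * X * (C β * X - 1)) (y := (C β - 1) * X * (C β * X - 1) * (X + 1))
        (c := (β - 1) * β) (c' := -β) ?_ (mul_ne_zero hm1 hβ) (neg_ne_zero.2 hβ) (mul_ne_zero nA2 hX0)
        (mul_ne_zero nA2 nD1) ?_ ?_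
      · rw [fa, fb]; ring
      · rw [C_mul, Cm1, ← eA2]; ring
      · rw [fa, eD1, C_neg, neg_mul, ← mul_assoc, eA2]; ring
    -- 1 0 1 0 1
    · simp only [Fin.zero_eta, Fin.mk_one, Fin.val_zero, Fin.val_one, pow_zero, pow_one, mul_one,
        one_mul]
      refine gen (x := (C β - 1) * X * (C β * X + 1)) (y := (C β - 1) * X * (C β * X + 1) * (X - 1))
        (c := (β - 1) * β) (c' := -β) ?_ (mul_ne_zero hm1 hβ) (neg_ne_zero.2 hβ) (mul_ne_zero nA1 hX0)
        (mul_ne_zero nA1 nD2) ?_ ?_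
      · rw [fa, fb]; ring
      · rw [C_mul, Cm1, ← eA1]; ring
      · rw [fa, eD2, C_neg, neg_mul, ← mul_assoc, eA1]; ring
    -- 1 0 1 1 0
    · simp only [Fin.zero_eta, Fin.mk_one, Fin.val_zero, Fin.val_one, pow_zero, pow_one, mul_one,
        one_mul]
      refine gen (x := (C β + 1) * X * (C β * X + 1)) (y := (C β + 1) * X * (C β * X + 1) * (X + 1))
        (c := (β + 1) * β) (c' := β) ?_ (mul_ne_zero hp1 hβ) hβ (mul_ne_zero nA1 hX0)
        (mul_ne_zero nA1 nD1) ?_ ?_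
      · rw [fa, fb]; ring
      · rw [C_mul, Cp1, ← eA1]; ring
      · rw [fa, eD1, ← mul_assoc, eA1]; ring
    -- 1 1 0 0 0
    · simp only [Fin.zero_eta, Fin.mk_one, Fin.val_zero, Fin.val_one, pow_zero, pow_one, mul_one,
        one_mul]
      refine ptFor h2 ha hb hab (x := 0) (y := 0) (g := X) (g' := 1) (c := β ^ 2 * (β ^ 2 - 1))
        (c' := -β ^ 2) (by ring) (mul_ne_zero hβ20 hb2) (neg_ne_zero.2 hβ20) hX0 one_ne_zero ?_ ?_
      · rw [if_pos rfl, ea, b5, C_mul, ← hA1, ← hA2]; ring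
      · rw [if_neg ha.symm, ea, C_neg, ← hA1, ← hA2]; ring
    -- 1 1 0 1 1
    · simp only [Fin.zero_eta, Fin.mk_one, Fin.val_zero, Fin.val_one, pow_zero, pow_one, mul_one,
        one_mul]
      refine ptFor h2 ha hb hab (x := a5 β) (y := 0) (g := 1) (g' := 1) (c := β ^ 2)
        (c' := β ^ 2) (by ring) hβ20 hβ20 one_ne_zero one_ne_zero ?_ ?_
      · rw [if_neg ha, ea, ← hA1, ← hA2]; ring
      · rw [if_pos rfl, ec, ea, ← hA1, ← hA2, ← hD1, ← hD2, C_1]; ring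

end five

end Pool.Agent.X243.Gen
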