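import Pool.Agent.X243.Gen.TI

/-!
Pullbacks of elliptic curves with a point of order two and complete first descent.
-/

set_option autoImplicit false
set_option linter.all false

open Polynomial WeierstrassCurve WeierstrassCurve.Affine
open scoped Classical

namespace Pool.Agent.X243.Gen

open Pool.Agent.TH115.GD Pool.Agent.X243.Tate Pool.Agent.X243.Sol Pool.Agent.Y160.T3

section norm

variable {k : Type} [Field k]

theorem norm_step {p U V : k[X]} {D : k} (hp : Irreducible p) (hN : NotNorm p)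
    (hdv : p ∣ U ^ 2 - C D * V ^ 2) (hboth : ¬ (p ∣ U ∧ p ∣ V)) : V ≠ 0 ∧ IsSquare D := by
  have hV : ¬ p ∣ V := by
    intro h
    apply hboth
    refine ⟨?_, h⟩
    have h3 : p ∣ (U ^ 2 - C D * V ^ 2) + C D * V ^ 2 :=
      dvd_add hdv ((dvd_pow h two_ne_zero).mul_left _)
    rw [sub_add_cancel] at h3
    exact hp.prime.dvd_of_dvd_pow h3
  refine ⟨fun h => hV (h ▸ dvd_zero p), ?_⟩
  by_contra hD
  obtain ⟨a, b, hab⟩ := hp.coprime_iff_not_dvd.2 hV
  have hs : p ∣ (U * b) ^ 2 - C D := by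
    have e3 : (U * b) ^ 2 - C D = b ^ 2 * (U ^ 2 - C D * V ^ 2) -
        C D * ((1 + b * V) * (a * p)) := by
      linear_combination C D * (1 + b * V) * hab
    rw [e3]
    exact dvd_sub (hdv.mul_left _) ((dvd_mul_left p a).mul_left _ |>.mul_left _)
  rcases Nat.even_or_odd p.natDegree with hev | hodd
  · obtain ⟨c, G, H, hGH⟩ := norm_of_sq hp hev hD hs
    exact hD (hN c D G H hGH).2
  · exact hD (const_sq hp hodd ⟨_, hs⟩)

theorem notNorm_pow {p q : k[X]} (hp : Irreducible p) (hN : NotNorm p) (hpq : ¬ p ∣ q)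
    (hq : q ≠ 0) (j : ℕ) : NotNorm (p ^ (2 * j + 1) * q) := by
  induction j with
  | zero =>
    intro u D U V e
    have hu : u ≠ 0 := by
      rintro rfl
      rw [C_0, zero_mul] at e
      exact mul_ne_zero (pow_ne_zero _ hp.ne_zero) hq e
    have hCu : IsUnit (C u : k[X]) := isUnit_C.2 (isUnit_iff_ne_zero.2 hu)
    rw [mul_zero, zero_add, pow_one] at e
    refine norm_step hp hN ((hCu.dvd_mul_left).1 (e ▸ dvd_mul_right p q)) ?_
    rintro ⟨⟨a, rfl⟩, ⟨b, rfl⟩⟩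
    apply hpq
    refine ⟨C u * (a ^ 2 - C D * b ^ 2), mul_left_cancel₀ hp.ne_zero ?_⟩
    rw [e]; ring
  | succ j ih =>
    intro u D U V e
    have hu : u ≠ 0 := by
      rintro rfl
      rw [C_0, zero_mul] at e
      exact mul_ne_zero (pow_ne_zero _ hp.ne_zero) hq e
    have hCu : IsUnit (C u : k[X]) := isUnit_C.2 (isUnit_iff_ne_zero.2 hu)
    by_cases hb : p ∣ U ∧ p ∣ V
    · obtain ⟨⟨a, rfl⟩, ⟨b, rfl⟩⟩ := hb
      have h1 : p ^ (2 * j + 1) * q = C u * (a ^ 2 - C D * b ^ 2) := by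
        apply mul_left_cancel₀ (pow_ne_zero 2 hp.ne_zero)
        linear_combination e
      obtain ⟨h3, h4⟩ := ih u D a b h1
      exact ⟨mul_ne_zero hp.ne_zero h3, h4⟩
    · refine norm_step hp hN ((hCu.dvd_mul_left).1 (e ▸ ?_)) hb
      exact (dvd_pow_self p (by omega)).mul_right q

end norm

section forms

variable {k L : Type} [Field k] [Field L] (φ : k →+* L) {q r : L[X]}

theorem notNorm_pb (hco : IsCoprime q r) (hq : 0 < q.natDegree) {g : k[X]} (hg : g ≠ 0)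
    (hs : g.Splits) (hirr : ∀ ξ, g.IsRoot ξ → Irreducible (q - C (φ ξ) * r) ∧
      NotNorm (q - C (φ ξ) * r)) {ξ : k} (hξ : Odd (g.rootMultiplicity ξ)) :
    NotNorm (pb q r (g.map φ)) := by
  obtain ⟨g', hg', hnd⟩ := exists_eq_pow_rootMultiplicity_mul_and_not_dvd g hg ξ
  have hroot : g.IsRoot ξ := (rootMultiplicity_pos hg).1 hξ.pos
  have hg'0 : g' ≠ 0 := by
    rintro rfl
    rw [mul_zero] at hg'
    exact hg hg'
  obtain ⟨i1, i2⟩ := hirr ξ hroot
  obtain ⟨j, hj⟩ := hξ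
  have e : pb q r (g.map φ) = (q - C (φ ξ) * r) ^ (2 * j + 1) * pb q r (g'.map φ) := by
    conv_lhs => rw [hg']
    rw [Polynomial.map_mul, Polynomial.map_pow, Polynomial.map_sub, map_X, map_C, pb_mul,
      pb_pow, pb_lin, hj]
  rw [e]
  refine notNorm_pow i1 i2 ?_ (pb_ne hco hq ((Polynomial.map_ne_zero_iff φ.injective).2 hg'0)) j
  intro h4
  obtain ⟨ξ', hξ', h5⟩ := root_of_prime φ hg'0 (hs.of_dvd hg ⟨_, by rw [mul_comm]; exact hg'⟩)
    i1.prime h4
  have hne : ξ ≠ ξ' := by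
    rintro rfl
    exact hnd (dvd_iff_isRoot.2 hξ')
  exact i1.not_isUnit (form_cop φ hco hne dvd_rfl h5)

theorem natDegree_pb_le {n : ℕ} (h1 : q.natDegree ≤ n) (h3 : r.natDegree ≤ n) (g : L[X]) :
    (pb q r g).natDegree ≤ n * g.natDegree := by
  rw [pb_sum]
  refine natDegree_sum_le_of_forall_le _ _ fun i hi => ?_
  rw [Finset.mem_range] at hi
  refine natDegree_mul_le.trans ?_
  have h4 : (C (g.coeff i) * q ^ i).natDegree ≤ n * i := by
    refine (natDegree_C_mul_le _ _).trans (natDegree_pow_le.trans ?_)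
    rw [mul_comm]
    exact Nat.mul_le_mul_right _ h1
  have h5 : (r ^ (g.natDegree - i)).natDegree ≤ n * (g.natDegree - i) := by
    refine natDegree_pow_le.trans ?_
    rw [mul_comm]
    exact Nat.mul_le_mul_right _ h3
  calc _ ≤ n * i + n * (g.natDegree - i) := Nat.add_le_add h4 h5
    _ = n * g.natDegree := by rw [← mul_add]; congr 1; omega

end forms

/-- The first descent on `y ^ 2 = x (x ^ 2 + a x + b)` is complete: for all squarefree monic divisors `A`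
of `b` which satisfy the condition at infinity there is a point `P` of the curve over `K` such that
`A = x(P)` up to constants of `k` and squares of `K`. -/
def CompleteT {k : Type} [Field k] (K : Type) [Field K] [Algebra k[X] K] (a b : k[X]) : Prop :=
  ∀ A : k[X], A.Monic → Squarefree A → A ∣ b → InfT a b A →
    ∃ P : Pt (crvT (algebraMap k[X] K a) (algebraMap k[X] K b)) K,
      ∃ (c : k) (h : K), c ≠ 0 ∧ h ≠ 0 ∧ algebraMap k[X] K (C c * A) =
        h ^ 2 * dT (algebraMap k[X] K b) P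

theorem enoughTI_of_complete {k k' K F : Type} [Field k] [Field k'] [Algebra k k'] [Field K]
    [Algebra k[X] K] [Field F] [Algebra k'[X] F] [IsFractionRing k'[X] F] [Algebra K F]
    (hT : IsTower k k' K F) (h2 : (2 : k) ≠ 0) {a b : k[X]} (h : CompleteT K a b) :
    EnoughTI K F a b := by
  intro A mA sA dA hinf
  obtain ⟨P, c, h, hc, hh, e⟩ := h A mA sA dA hinf
  refine ⟨P, ?_⟩
  obtain ⟨u, hu, hu'⟩ := emb_C (K := K) (F := F) hT h2 hc
  refine ⟨algebraMap K F h / u, div_ne_zero ((_root_.map_ne_zero _).2 hh) hu, ?_⟩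
  have e1 := congrArg (algebraMap K F) e
  rw [map_mul, map_mul, map_mul, map_pow] at e1
  have e2 : algebraMap K F (algebraMap k[X] K (C c)) = u ^ 2 := by
    have : emb k K F (C c) = u ^ 2 * 1 := hu'
    rw [mul_one] at this
    exact this
  rw [e2] at e1
  rw [div_pow]
  field_simp
  rw [← e1]
  ring

section point

variable {K₀ K : Type} [Field K₀] [Field K]

theorem pt_pullT (ψ : K₀ →+* K) {a₀ b₀ : K₀} {a b ρ : K} (hρ : ρ ≠ 0) (ha : a = ρ ^ 2 * ψ a₀)
    (hb : b = ρ ^ 4 * ψ b₀) (h2 : (2 : K₀) ≠ 0) (hb₀ : b₀ ≠ 0) (hd₀ : a₀ ^ 2 - 4 * b₀ ≠ 0)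
    (P : Pt (crvT a₀ b₀) K₀) :
    ∃ Q : Pt (crvT a b) K, ∃ h : K, h ≠ 0 ∧ ψ (dT b₀ P) = h ^ 2 * dT b Q := by
  have hinj := ψ.injective
  have h2' : (2 : K) ≠ 0 := by
    rw [← map_ofNat ψ 2]
    exact (map_ne_zero_iff _ hinj).2 h2
  have hρ2 : ρ ^ 2 ≠ 0 := pow_ne_zero 2 hρ
  have hρ4 : ρ ^ 4 ≠ 0 := pow_ne_zero 4 hρ
  have hb' : b ≠ 0 := by rw [hb]; exact mul_ne_zero hρ4 ((map_ne_zero_iff _ hinj).2 hb₀)
  have hd' : a ^ 2 - 4 * b ≠ 0 := by
    have e : a ^ 2 - 4 * b = ρ ^ 4 * ψ (a₀ ^ 2 - 4 * b₀) := by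
      rw [ha, hb, map_sub, map_mul, map_pow, map_ofNat]
      ring
    rw [e]
    exact mul_ne_zero hρ4 ((map_ne_zero_iff _ hinj).2 hd₀)
  cases P with
  | zero =>
    refine ⟨0, 1, one_ne_zero, ?_⟩
    show ψ 1 = 1 ^ 2 * 1
    rw [map_one]; ring
  | some x y hn =>
    have hy : y ^ 2 = x * (x ^ 2 + a₀ * x + b₀) := crvT_eq hn
    have hQ : ((crvT a b).baseChange K).toAffine.Nonsingular (ρ ^ 2 * ψ x) (ρ ^ 3 * ψ y) := by
      refine nonsT h2' hb' hd' ?_
      have h3 := congrArg ψ hy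
      rw [map_pow, map_mul, map_add, map_add, map_pow, map_mul] at h3
      rw [ha, hb]
      linear_combination ρ ^ 6 * h3
    refine ⟨Point.some _ _ hQ, ?_⟩
    by_cases hx : x = 0
    · refine ⟨(ρ ^ 2)⁻¹, inv_ne_zero hρ2, ?_⟩
      show ψ (if x = 0 then b₀ else x) = _ * (if ρ ^ 2 * ψ x = 0 then b else ρ ^ 2 * ψ x)
      rw [if_pos hx, if_pos (by rw [hx, map_zero, mul_zero]), hb]
      field_simp
    · refine ⟨ρ⁻¹, inv_ne_zero hρ, ?_⟩
      have hx' : ψ x ≠ 0 := (map_ne_zero_iff _ hinj).2 hx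
      show ψ (if x = 0 then b₀ else x) = _ * (if ρ ^ 2 * ψ x = 0 then b else ρ ^ 2 * ψ x)
      rw [if_neg hx, if_neg (mul_ne_zero hρ2 hx')]
      field_simp

end point

section main

variable {k L K₀ K : Type} [Field k] [Field L] [Field K₀] [Algebra k[X] K₀] [IsFractionRing k[X] K₀]
  [Field K] [Algebra L[X] K] [IsFractionRing L[X] K]

theorem complete_pullT (φ : k →+* L) (h2 : (2 : k) ≠ 0) {a b : k[X]} (hb : b ≠ 0)
    (hd0 : a ^ 2 - 4 * b ≠ 0) (hsb : b.Splits) (hC : CompleteT K₀ a b) {q r : L[X]}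
    (hco : IsCoprime q r) (hq : 0 < q.natDegree) {n : ℕ} (hqn : q.natDegree ≤ n)
    (hrn : r.natDegree ≤ n)
    (hirr : ∀ ξ, b.IsRoot ξ → Irreducible (q - C (φ ξ) * r) ∧ (q - C (φ ξ) * r).natDegree = n)
    (hpar : Odd n ∨ ∀ m, a.natDegree ≤ 2 * m → b.natDegree ≠ 4 * m)
    (hd : r = 1 ∨ ∃ m, a.natDegree = 2 * m ∧ b.natDegree = 4 * m) :
    CompleteT K (pb q r (a.map φ)) (pb q r (b.map φ)) := by
  have hr0 : r ≠ 0 := by
    rintro rfl
    rw [isCoprime_zero_right] at hco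
    have := natDegree_eq_zero_of_isUnit hco
    omega
  have Db := natDegree_pb φ hb hsb hirr
  obtain ⟨ψ, hψ⟩ := exists_psi (K₀ := K₀) (K := K) φ (q := q) hr0 (fun g hg =>
    pb_ne hco hq ((Polynomial.map_ne_zero_iff φ.injective).2 hg))
  have hr0' : algebraMap L[X] K r ≠ 0 := by simpa using hr0
  -- the scaling
  obtain ⟨ρ, hρ, ρa, ρb⟩ : ∃ ρ : K, ρ ≠ 0 ∧
      algebraMap L[X] K (pb q r (a.map φ)) = ρ ^ 2 * ψ (algebraMap k[X] K₀ a) ∧
      algebraMap L[X] K (pb q r (b.map φ)) = ρ ^ 4 * ψ (algebraMap k[X] K₀ b) := by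
    rcases hd with h1 | ⟨m, h1, h3⟩
    · refine ⟨1, one_ne_zero, ?_, ?_⟩
      · rw [hψ, h1, map_one, one_pow, one_pow]
      · rw [hψ, h1, map_one, one_pow, one_pow]
    · refine ⟨(algebraMap L[X] K r) ^ m, pow_ne_zero _ hr0', ?_, ?_⟩
      · rw [hψ, h1, ← pow_mul, mul_comm m 2]
      · rw [hψ, h3, ← pow_mul, mul_comm m 4]
  have inj₀ := IsFractionRing.injective k[X] K₀
  have h2₀ : (2 : K₀) ≠ 0 := by
    have h3 : algebraMap k[X] K₀ (C 2) ≠ 0 := by simpa using h2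
    rwa [C_ofNat, map_ofNat] at h3
  intro A mA sA dA hinf
  obtain ⟨cA, hcA, A₀, mA₀, sA₀, dA₀, eA⟩ := dvd_pb' φ hb hsb (fun ξ h => (hirr ξ h).1) sA dA
  have nA : A.natDegree = n * A₀.natDegree := by
    rw [eA, natDegree_C_mul hcA]
    exact natDegree_pb φ mA₀.ne_zero (hsb.of_dvd hb dA₀) fun ξ h => hirr ξ (h.dvd dA₀)
  have hinf₀ : InfT a b A₀ := by
    intro m hm1 hm2
    rcases hpar with hn | hv
    · have h1 := hinf (n * m) ((natDegree_pb_le hqn hrn _).trans (by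
        rw [natDegree_map]
        calc n * a.natDegree ≤ n * (2 * m) := Nat.mul_le_mul_left _ hm1
          _ = 2 * (n * m) := by ring)) (by rw [Db, hm2]; ring)
      rw [nA] at h1
      rcases Nat.even_mul.1 h1 with h5 | h5
      · exact absurd h5 (Nat.not_even_iff_odd.2 hn)
      · exact h5
    · exact absurd hm2 (hv m hm1)
  -- the powers of `r` are squares
  have sqA : ∃ w : K, w ≠ 0 ∧ (algebraMap L[X] K r) ^ A₀.natDegree = w ^ 2 := by
    rcases hd with h1 | ⟨m, h1, h3⟩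
    · exact ⟨1, one_ne_zero, by rw [h1, map_one, one_pow, one_pow]⟩
    · obtain ⟨m, hm⟩ := hinf₀ m h1.le h3
      exact ⟨_, pow_ne_zero m hr0', by rw [hm, ← pow_mul, mul_two]⟩
  obtain ⟨P, c1, h1, hc1, hh1, e1⟩ := hC A₀ mA₀ sA₀ dA₀ hinf₀
  have hdK : (algebraMap k[X] K₀ a) ^ 2 - 4 * algebraMap k[X] K₀ b ≠ 0 := by
    have e : (algebraMap k[X] K₀ a) ^ 2 - 4 * algebraMap k[X] K₀ b =
        algebraMap k[X] K₀ (a ^ 2 - 4 * b) := by
      rw [map_sub, map_mul, map_pow, map_ofNat]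
    rw [e, Ne, map_eq_zero_iff _ inj₀]
    exact hd0
  obtain ⟨Q, u, hu, eu⟩ := pt_pullT ψ hρ ρa ρb h2₀ (by simpa using hb) hdK P
  have hψC : ∀ c : k, ψ (algebraMap k[X] K₀ (C c)) = algebraMap L[X] K (C (φ c)) := by
    intro c
    have := hψ (C c)
    rw [map_C, pb_C, natDegree_C, pow_zero, one_mul] at this
    exact this.symm
  refine ⟨Q, ?_⟩
  obtain ⟨w, hw, ew⟩ := sqA
  refine ⟨φ c1 * cA⁻¹, w * (ψ h1 * u), mul_ne_zero ((map_ne_zero_iff _ φ.injective).2 hc1)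
    (inv_ne_zero hcA), mul_ne_zero hw (mul_ne_zero ((map_ne_zero_iff _ ψ.injective).2 hh1) hu), ?_⟩
  have k1 : C (φ c1 * cA⁻¹) * A = C (φ c1) * pb q r (A₀.map φ) := by
    rw [eA]
    have k3 : C cA⁻¹ * C cA = (1 : L[X]) := by
      rw [← C_mul, inv_mul_cancel₀ hcA, C_1]
    rw [C_mul]
    linear_combination C (φ c1) * pb q r (A₀.map φ) * k3
  rw [k1, map_mul, hψ, ew, ← hψC]
  have k4 := congrArg ψ e1
  rw [map_mul (algebraMap k[X] K₀) (C c1) A₀, map_mul ψ (algebraMap k[X] K₀ (C c1)),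
    map_mul ψ (h1 ^ 2), map_pow, eu] at k4
  linear_combination w ^ 2 * k4

end main

section tate

variable {k K₀ : Type} [Field k] [Field K₀] [Algebra k[X] K₀] [IsFractionRing k[X] K₀]

/-- The base: an elliptic curve `y ^ 2 = x (x ^ 2 + a x + b)` over `k(s)` with complete first descent, all
of whose finite places of bad reduction are rational. -/
structure BaseT (K₀ : Type) [Field K₀] [Algebra k[X] K₀] (a b : k[X]) : Prop where
  hb : b ≠ 0
  hd : a ^ 2 - 4 * b ≠ 0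
  sb : b.Splits
  sd : (a ^ 2 - 4 * b).Splits
  ob : ∃ ξ : k, Odd (b.rootMultiplicity ξ)
  od : ∃ ξ : k, Odd ((a ^ 2 - 4 * b).rootMultiplicity ξ)
  c1 : CompleteT K₀ a b
  c2 : CompleteT K₀ (-2 * a) (a ^ 2 - 4 * b)

theorem pull_tateT (h2 : (2 : k) ≠ 0) {a b : k[X]} (hB : BaseT K₀ a b)
    {L L' K F : Type} [Field L] [Field L'] [Algebra L L'] [Field K] [Algebra L[X] K]
    [Field F] [Algebra L'[X] F] [IsFractionRing L'[X] F] [Algebra K F] (hT : IsTower L L' K F)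
    (φ : k →+* L) {q r : L[X]} (hco : IsCoprime q r) (hq : 0 < q.natDegree) {n : ℕ}
    (hqn : q.natDegree ≤ n) (hrn : r.natDegree ≤ n)
    (hirr : ∀ ξ, (b * (a ^ 2 - 4 * b)).IsRoot ξ → Irreducible (q - C (φ ξ) * r) ∧
      (q - C (φ ξ) * r).natDegree = n ∧ (q - C (φ ξ) * r).Separable ∧ NotNorm (q - C (φ ξ) * r))
    (hpar : Odd n ∨ ∀ m, a.natDegree ≤ 2 * m → b.natDegree ≠ 4 * m ∧
      (a ^ 2 - 4 * b).natDegree ≠ 4 * m)
    (hd : r = 1 ∨ ∃ m, a.natDegree = 2 * m ∧ b.natDegree = 4 * m ∧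
      (a ^ 2 - 4 * b).natDegree = 4 * m) :
    TateAtTwo (F := F) L' (crvT (algebraMap L[X] K (pb q r (a.map φ)))
      (algebraMap L[X] K (pb q r (b.map φ)))) ∧
    CompleteT K (pb q r (a.map φ)) (pb q r (b.map φ)) ∧
    CompleteT K (-2 * pb q r (a.map φ)) (pb q r (a.map φ) ^ 2 - 4 * pb q r (b.map φ)) := by
  haveI := hT.fracK
  obtain ⟨hb, hd0, sb, sd, ⟨ξb, ob⟩, ⟨ξd, od⟩, c1, c2⟩ := hB
  have h2L : (2 : L) ≠ 0 := by
    rw [← map_ofNat φ 2]
    exact (map_ne_zero_iff _ φ.injective).2 h2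
  have h4 : (4 : k) ≠ 0 := by
    have : (4 : k) = 2 * 2 := by norm_num
    rw [this]
    exact mul_ne_zero h2 h2
  have rb : ∀ ξ, b.IsRoot ξ → Irreducible (q - C (φ ξ) * r) ∧ (q - C (φ ξ) * r).natDegree = n ∧
      (q - C (φ ξ) * r).Separable ∧ NotNorm (q - C (φ ξ) * r) := by
    intro ξ h
    exact hirr ξ (by rw [IsRoot.def, eval_mul, IsRoot.def.1 h, zero_mul])
  have rd : ∀ ξ, (a ^ 2 - 4 * b).IsRoot ξ → Irreducible (q - C (φ ξ) * r) ∧
      (q - C (φ ξ) * r).natDegree = n ∧ (q - C (φ ξ) * r).Separable ∧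
      NotNorm (q - C (φ ξ) * r) := by
    intro ξ h
    exact hirr ξ (by rw [IsRoot.def, eval_mul, IsRoot.def.1 h, mul_zero])
  -- the pullback of the second polynomial
  have hsub : pb q r (a.map φ) ^ 2 - 4 * pb q r (b.map φ) = pb q r ((a ^ 2 - 4 * b).map φ) := by
    have e4 : (4 : L[X]) = pb q r (C 4) := by rw [pb_C, C_ofNat]
    have h4b : (C 4 * b.map φ : L[X]) = (4 * b).map φ := by
      rw [Polynomial.map_mul, Polynomial.map_ofNat, C_ofNat]
    have h4L : (4 : L) ≠ 0 := by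
      rw [← map_ofNat φ 4]
      exact (map_ne_zero_iff _ φ.injective).2 h4
    rw [e4, ← pb_mul, ← pb_pow, h4b, ← Polynomial.map_pow, Polynomial.map_sub]
    rcases hd with rfl | ⟨m, h1, h3, h5⟩
    · exact pb_sub_one q _ _
    · have n4 : (4 * b).natDegree = 4 * m := by
        rw [← C_ofNat, natDegree_C_mul h4, h3]
      have na : (a ^ 2).natDegree = 4 * m := by
        rw [natDegree_pow, h1]
        ring
      apply pb_sub_eq
      · rw [natDegree_map, natDegree_map, n4, na]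
      · rw [← Polynomial.map_sub, natDegree_map, natDegree_map, h5, na]
  have h2a : (-2 * pb q r (a.map φ) : L[X]) = pb q r ((-2 * a).map φ) := by
    have e2 : (-2 : L[X]) = pb q r (C (-2)) := by rw [pb_C, C_neg, C_ofNat]
    have e3 : (C (-2) * a.map φ : L[X]) = (-2 * a).map φ := by
      rw [Polynomial.map_mul, Polynomial.map_neg, Polynomial.map_ofNat, C_neg, C_ofNat]
    rw [e2, ← pb_mul, e3]
  have na2 : (-2 * a : k[X]).natDegree = a.natDegree := by
    have h3 : (-2 * a : k[X]) = C (-2) * a := by rw [C_neg, C_ofNat]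
    rw [h3, natDegree_C_mul (neg_ne_zero.2 h2)]
  have key1 := complete_pullT (K₀ := K₀) (K := K) φ h2 hb hd0 sb c1 hco hq hqn hrn
    (fun ξ h => ⟨(rb ξ h).1, (rb ξ h).2.1⟩) (hpar.imp id fun h m hm => (h m hm).1)
    (hd.imp id fun ⟨m, h1, h3, _⟩ => ⟨m, h1, h3⟩)
  have hd1 : (-2 * a) ^ 2 - 4 * (a ^ 2 - 4 * b) ≠ 0 := by
    have e : (-2 * a) ^ 2 - 4 * (a ^ 2 - 4 * b) = C 4 * (C 4 * b) := by
      rw [C_ofNat]; ring
    rw [e]
    exact mul_ne_zero (C_ne_zero.2 h4) (mul_ne_zero (C_ne_zero.2 h4) hb)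
  have key2 := complete_pullT (K₀ := K₀) (K := K) φ h2 hd0 hd1 sd c2 hco hq hqn hrn
    (fun ξ h => ⟨(rd ξ h).1, (rd ξ h).2.1⟩) (hpar.imp id fun h m hm => (h m (by rwa [na2] at hm)).2)
    (hd.imp id fun ⟨m, h1, _, h5⟩ => ⟨m, by rw [na2, h1], h5⟩)
  rw [← hsub, ← h2a] at key2
  refine ⟨?_, key1, key2⟩
  have nb : pb q r (b.map φ) ≠ 0 := pb_ne hco hq ((Polynomial.map_ne_zero_iff φ.injective).2 hb)
  have nd : pb q r ((a ^ 2 - 4 * b).map φ) ≠ 0 :=
    pb_ne hco hq ((Polynomial.map_ne_zero_iff φ.injective).2 hd0)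
  refine mainTI hT h2L nb (by rw [hsub]; exact nd) ?_ ?_ ?_ (enoughTI_of_complete hT h2L key1)
    (enoughTI_of_complete hT h2L key2)
  · intro π hπ hdv
    have h1 : π ∣ pb q r ((b * (a ^ 2 - 4 * b)).map φ) := by
      rw [hsub] at hdv
      rw [Polynomial.map_mul, pb_mul]
      exact hdv
    obtain ⟨ξ, hξ, h3⟩ := root_of_prime φ (mul_ne_zero hb hd0) (sb.mul sd) hπ.prime h1
    exact (hirr ξ hξ).2.2.1.of_dvd h3
  · exact notNorm_pb φ hco hq hb sb (fun ξ h => ⟨(rb ξ h).1, (rb ξ h).2.2.2⟩) ob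
  · rw [hsub]
    exact notNorm_pb φ hco hq hd0 sd (fun ξ h => ⟨(rd ξ h).1, (rd ξ h).2.2.2⟩) od

theorem pull_extT (h2 : (2 : k) ≠ 0) {a b : k[X]} (hB : BaseT K₀ a b)
    {q r : k[X]} {n : ℕ} (h5 : 5 ≤ n) (hco : IsCoprime q r) (hq : q.natDegree = n)
    (hrn : r.natDegree ≤ n)
    (hf : ∀ ξ, (b * (a ^ 2 - 4 * b)).IsRoot ξ → FF n (q - C ξ * r))
    (hpar : Odd n ∨ ∀ m, a.natDegree ≤ 2 * m → b.natDegree ≠ 4 * m ∧
      (a ^ 2 - 4 * b).natDegree ≠ 4 * m)
    (hd : r = 1 ∨ ∃ m, a.natDegree = 2 * m ∧ b.natDegree = 4 * m ∧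
      (a ^ 2 - 4 * b).natDegree = 4 * m)
    {L L' K F : Type} [Field L] [Algebra k L] [Field L']
    [Algebra L L'] [Algebra k L'] [IsScalarTower k L L'] [Field K] [Algebra L[X] K]
    [Field F] [Algebra L'[X] F] [IsFractionRing L'[X] F] [Algebra K F] (hT : IsTower L L' K F)
    (M : IntermediateField k L') (hMn : Normal k M)
    (hM : ∀ x : L, IsSeparable k x → algebraMap L L' x ∈ M)
    (hns : ∀ ξ, (b * (a ^ 2 - 4 * b)).IsRoot ξ →
      ¬ ((q - C ξ * r).map (algebraMap k M)).Splits) :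
    TateAtTwo (F := F) L' (crvT (algebraMap L[X] K ((pb q r a).map (algebraMap k L)))
      (algebraMap L[X] K ((pb q r b).map (algebraMap k L)))) ∧
    CompleteT K ((pb q r a).map (algebraMap k L)) ((pb q r b).map (algebraMap k L)) ∧
    CompleteT K (-2 * (pb q r a).map (algebraMap k L))
      ((pb q r a).map (algebraMap k L) ^ 2 - 4 * (pb q r b).map (algebraMap k L)) := by
  haveI := hT.sep
  rw [pb_map, pb_map]
  refine pull_tateT h2 hB hT (algebraMap k L) (hco.map (mapRingHom (algebraMap k L))) ?_ ?_ ?_ ?_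
    hpar ?_
  · rw [natDegree_map, hq]
    omega
  · rw [natDegree_map, hq]
  · rw [natDegree_map]
    exact hrn
  · intro ξ hξ
    obtain ⟨f1, f2, f3⟩ := hf ξ hξ
    obtain ⟨i1, i2⟩ := three_gen f2 (by rw [f1.2]; exact h5) f3 h2 L L' M hM (hns ξ hξ)
    have e : (q - C ξ * r).map (algebraMap k L) =
        q.map (algebraMap k L) - C (algebraMap k L ξ) * r.map (algebraMap k L) := by
      rw [Polynomial.map_sub, Polynomial.map_mul, map_C]
    rw [← e]
    refine ⟨i1, ?_, f2.map, i2⟩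
    rw [natDegree_map, f1.2]
  · rcases hd with rfl | h
    · left
      exact Polynomial.map_one _
    · exact Or.inr h

theorem pull_solvT (h2 : (2 : k) ≠ 0) {a b : k[X]} (hB : BaseT K₀ a b)
    {q r : k[X]} {n : ℕ} (h5 : 5 ≤ n) (hco : IsCoprime q r) (hq : q.natDegree = n)
    (hrn : r.natDegree ≤ n)
    (hf : ∀ ξ, (b * (a ^ 2 - 4 * b)).IsRoot ξ → FF n (q - C ξ * r))
    (hpar : Odd n ∨ ∀ m, a.natDegree ≤ 2 * m → b.natDegree ≠ 4 * m ∧
      (a ^ 2 - 4 * b).natDegree ≠ 4 * m)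
    (hd : r = 1 ∨ ∃ m, a.natDegree = 2 * m ∧ b.natDegree = 4 * m ∧
      (a ^ 2 - 4 * b).natDegree = 4 * m)
    {L L' K F : Type} [Field L] [Algebra k L] [Field L']
    [Algebra L L'] [Algebra k L'] [IsScalarTower k L L'] [Field K] [Algebra L[X] K]
    [Field F] [Algebra L'[X] F] [IsFractionRing L'[X] F] [Algebra K F] (hT : IsTower L L' K F)
    (hM : ∀ x : L, IsSeparable k x → Group.IsSolvable (minpoly k x).Gal) :
    TateAtTwo (F := F) L' (crvT (algebraMap L[X] K ((pb q r a).map (algebraMap k L)))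
      (algebraMap L[X] K ((pb q r b).map (algebraMap k L)))) ∧
    CompleteT K ((pb q r a).map (algebraMap k L)) ((pb q r b).map (algebraMap k L)) ∧
    CompleteT K (-2 * (pb q r a).map (algebraMap k L))
      ((pb q r a).map (algebraMap k L) ^ 2 - 4 * (pb q r b).map (algebraMap k L)) := by
  haveI := hT.sep
  haveI : IsSepClosed L' := IsSepClosure.sep_closed L
  exact pull_extT h2 hB h5 hco hq hrn hf hpar hd hT (solvM k L') (solvM_normal L')
    (fun x hx => mem_solvM hx (hM x hx))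
    (fun ξ hξ => solvM_not_splits L' (hf ξ hξ).2.1 (by rw [(hf ξ hξ).1.2]; exact h5)
      (hf ξ hξ).2.2)

end tate

end Pool.Agent.X243.Gen
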