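import Pool.Agent.X243.Sol.Frob2

/-!
Frobenius elements over the fraction field of an integrally closed Noetherian domain.
-/

set_option autoImplicit false
set_option linter.all false

open Polynomial IsLocalRing
open scoped Classical

namespace Pool.Agent.X243.Gen

open Pool.Agent.X243.Tate Pool.Agent.X243.Sol

section frob

variable {R k : Type} [CommRing R] [IsDomain R] [IsIntegrallyClosed R] [IsNoetherianRing R]
  [Field k] [Algebra R k] [IsFractionRing R k] (m : Ideal R) [m.IsMaximal] [Finite (R ⧸ m)]

/-- The Frobenius element in a finite Galois extension. -/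
theorem frob_gen (k) [Field k] [Algebra R k] [IsFractionRing R k] (E : Type) [Field E] [Algebra k E]
    [FiniteDimensional k E] [IsGalois k E] [Algebra R E] [IsScalarTower R k E] :
    ∃ (B : ValuationSubring E) (ρ : R →+* B) (j : R ⧸ m →+* ResidueField B) (σ : E ≃ₐ[k] E),
      (∀ x : R, (ρ x : E) = algebraMap R E x) ∧
      (∀ x : R, residue B (ρ x) = j (Ideal.Quotient.mk m x)) ∧
      ∀ (c : R), c ∉ m → ∀ θ : E, IsIntegral R (algebraMap R E c * θ) →
        θ ∈ B ∧ σ θ ∈ B ∧ red B (σ θ) = red B θ ^ Nat.card (R ⧸ m) := by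
  obtain ⟨ι0, hι0⟩ : ∃ ι0 : R →+* E, ι0 = algebraMap R E := ⟨_, rfl⟩
  have hinjE : Function.Injective (algebraMap R E) := by
    rw [IsScalarTower.algebraMap_eq R k E]
    exact (algebraMap k E).injective.comp (IsFractionRing.injective R k)
  obtain ⟨B, hB1, hB2⟩ := exists_dom (algebraMap R E) hinjE m (Ideal.IsPrime.ne_top inferInstance)
  let ρ : R →+* B := (algebraMap R E).codRestrict B.toSubring hB1
  have hρm : ∀ x ∈ m, residue B (ρ x) = 0 := by
    intro x hx
    rw [residue_eq_zero_iff, ← ValuationSubring.coe_mem_nonunits_iff]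
    exact hB2 x hx
  let j : R ⧸ m →+* ResidueField B := Ideal.Quotient.lift m ((residue B).comp ρ) hρm
  have hj : ∀ x, residue B (ρ x) = j (Ideal.Quotient.mk m x) := fun x => rfl
  -- the integers are in `B`
  have hint : ∀ y : integralClosure R E, (y : E) ∈ B := by
    intro y
    have h1 : IsIntegral R (y : E) := y.2
    have h3 : IsIntegral B (y : E) := by
      obtain ⟨g, hg, hgy⟩ := h1
      refine ⟨g.map ρ, hg.map _, ?_⟩
      rw [eval₂_map]
      have : (algebraMap B E).comp ρ = algebraMap R E := by
        ext x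
        rfl
      rw [this]
      exact hgy
    obtain ⟨z, hz⟩ := IsIntegrallyClosed.isIntegral_iff.1 h3
    rw [← hz]
    exact z.2
  let ι : integralClosure R E →+* B :=
    (algebraMap (integralClosure R E) E).codRestrict B.toSubring hint
  let τ : integralClosure R E →+* ResidueField B := (residue B).comp ι
  obtain ⟨Q, hQ⟩ : ∃ Q : Ideal (integralClosure R E), Q = RingHom.ker τ := ⟨_, rfl⟩
  haveI hQp : Q.IsPrime := by rw [hQ]; exact RingHom.ker_isPrime τ
  have hτR : ∀ x : R, τ (algebraMap R (integralClosure R E) x) = j (Ideal.Quotient.mk m x) := by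
    intro x
    rw [← hj]
    show residue B _ = residue B _
    congr 1
  have hunder : Q.under R = m := by
    symm
    refine Ideal.IsMaximal.eq_of_le inferInstance ?_ ?_
    · exact Ideal.IsPrime.ne_top inferInstance
    · intro x hx
      show algebraMap R (integralClosure R E) x ∈ Q
      rw [hQ, RingHom.mem_ker, hτR, ← hj]
      exact hρm x hx
  haveI : IsFractionRing (integralClosure R E) E :=
    integralClosure.isFractionRing_of_finite_extension k E
  haveI : Module.Finite R (integralClosure R E) := IsIntegralClosure.finite R k E _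
  haveI : Finite (integralClosure R E ⧸ Q) := by
    haveI : Q.LiesOver m := ⟨hunder.symm⟩
    haveI : Module.Finite (R ⧸ m) (integralClosure R E ⧸ Q) :=
      Module.Finite.of_restrictScalars_finite R _ _
    exact Module.finite_of_finite (R ⧸ m)
  letI := IsIntegralClosure.MulSemiringAction R k E (integralClosure R E)
  haveI := Algebra.isInvariant_of_isGalois R k E (integralClosure R E)
  haveI : SMulCommClass Gal(E/k) R (integralClosure R E) := by
    refine ⟨fun g r x => ?_⟩
    show galRestrict R k E (integralClosure R E) g (r • x) =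
      r • galRestrict R k E (integralClosure R E) g x
    exact map_smul (galRestrict R k E (integralClosure R E) g) r x
  obtain ⟨σ, hσ⟩ := IsArithFrobAt.exists_of_isInvariant R (Gal(E/k)) Q
  refine ⟨B, ρ, j, σ, fun x => rfl, hj, ?_⟩
  have hfrob : ∀ y : integralClosure R E, τ (σ • y) = τ y ^ Nat.card (R ⧸ m) := by
    intro y
    have h1 := hσ y
    rw [hunder] at h1
    have h2 : σ • y - y ^ Nat.card (R ⧸ m) ∈ RingHom.ker τ := by rw [← hQ]; exact h1
    rw [RingHom.mem_ker, map_sub, map_pow, sub_eq_zero] at h2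
    exact h2
  have hsmul : ∀ y : integralClosure R E, ((σ • y : integralClosure R E) : E) = σ (y : E) :=
    fun y => algebraMap_galRestrict_apply R σ y
  intro c hc
  have hc0 : j (Ideal.Quotient.mk m c) ≠ 0 := by
    haveI : m.IsMaximal := inferInstance
    letI := Ideal.Quotient.field m
    rw [Ne, map_eq_zero, Ideal.Quotient.eq_zero_iff_mem]
    exact hc
  have hck : algebraMap R E c ≠ 0 := by
    intro h
    apply hc0
    rw [← hj]
    have : ρ c = 0 := Subtype.ext h
    rw [this, map_zero]
  have hcinv : (algebraMap R E c)⁻¹ ∈ B := by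
    have h1 : ρ c ∉ maximalIdeal B := by
      rw [← residue_eq_zero_iff]
      exact hc0
    have h2 : IsUnit (ρ c) := by
      by_contra h
      exact h1 ((mem_maximalIdeal _).2 h)
    obtain ⟨u, hu⟩ := h2
    have h3 : ((u⁻¹ : Bˣ) : E) = (algebraMap R E c)⁻¹ := by
      have h4 : ((u : B) : E) * ((u⁻¹ : Bˣ) : B) = 1 := by
        have := congrArg (fun z : B => (z : E)) (u.mul_inv)
        exact this
      have h5 : ((u : B) : E) = algebraMap R E c := by
        rw [hu]
        rfl
      rw [h5] at h4
      exact eq_inv_of_mul_eq_one_right h4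
    rw [← h3]
    exact ((u⁻¹ : Bˣ) : B).2
  have hcB : algebraMap R E c ∈ B := hB1 c
  have hredc : red B (algebraMap R E c) = j (Ideal.Quotient.mk m c) := by
    rw [red, dif_pos hcB]
    rfl
  have hmemB : ∀ θ : E, ∀ y : integralClosure R E, (y : E) = algebraMap R E c * θ →
      θ ∈ B ∧ j (Ideal.Quotient.mk m c) * red B θ = τ y := by
    intro θ y hy
    have h1 : θ = (algebraMap R E c)⁻¹ * (y : E) := by
      rw [hy, inv_mul_cancel_left₀ hck]
    have h2 : θ ∈ B := by
      rw [h1]
      exact mul_mem hcinv (hint y)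
    refine ⟨h2, ?_⟩
    rw [← hredc, ← red_mul hcB h2, ← hy]
    exact red_coe (ι y)
  intro θ hθ
  obtain ⟨y, hy⟩ : ∃ y : integralClosure R E, (y : E) = algebraMap R E c * θ := ⟨⟨_, hθ⟩, rfl⟩
  obtain ⟨h1, h2⟩ := hmemB θ y hy
  have hy' : ((σ • y : integralClosure R E) : E) = algebraMap R E c * σ θ := by
    rw [hsmul, hy, map_mul]
    congr 1
    rw [IsScalarTower.algebraMap_apply R k E, σ.commutes]
  obtain ⟨h3, h4⟩ := hmemB (σ θ) (σ • y) hy'
  refine ⟨h1, h3, ?_⟩
  have h5 : j (Ideal.Quotient.mk m c) ^ Nat.card (R ⧸ m) = j (Ideal.Quotient.mk m c) := by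
    haveI : m.IsMaximal := inferInstance
    letI : Field (R ⧸ m) := Ideal.Quotient.field m
    letI := Fintype.ofFinite (R ⧸ m)
    rw [← map_pow, Nat.card_eq_fintype_card, FiniteField.pow_card]
  apply mul_left_cancel₀ hc0
  rw [h4, hfrob, ← h2, mul_pow, h5]

end frob

end Pool.Agent.X243.Gen
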