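import Pool.Agent.X243.Gen.Roots

/-!
Full symmetric Galois groups over the fraction field of an integrally closed Noetherian domain, from
three maximal ideals.
-/

set_option autoImplicit false
set_option linter.all false

open Polynomial IsLocalRing
open scoped Classical

namespace Pool.Agent.X243.Gen

open Pool.Agent.X243.Tate Pool.Agent.X243.Sol

/-- A polynomial whose reduction of the same degree is separable. -/
theorem sep_lift {R K k : Type} [CommRing R] [Field K] [Field k] [Algebra R k]
    (φ : R →+* K) (hinj : Function.Injective (algebraMap R k)) {f : R[X]} {N : ℕ}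
    (hf : f.natDegree ≤ N) (hd : (f.map φ).natDegree = N) (hsep : (f.map φ).Separable) :
    (f.map (algebraMap R k)).Separable := by
  rcases Nat.eq_zero_or_pos N with hN | hN
  · have h1 : f.natDegree = 0 := by omega
    rw [eq_C_of_natDegree_eq_zero h1] at hsep ⊢
    rw [map_C] at hsep ⊢
    apply (separable_C _).2
    rw [isUnit_iff_ne_zero]
    intro h0
    have h2 : f.coeff 0 = 0 := hinj (by rw [h0, map_zero])
    rw [h2, map_zero, C_0] at hsep
    exact hsep.ne_zero rfl
  · have hf' : f.natDegree = N := by
      refine le_antisymm hf ?_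
      rw [← hd]
      exact natDegree_map_le
    have hdeg : (derivative f).natDegree ≤ N - 1 := by
      rw [← hf']
      exact natDegree_derivative_le f
    obtain ⟨p, q, -, -, h1⟩ := exists_mul_add_mul_eq_C_resultant (m := N) (n := N - 1) f
      (derivative f) hf hdeg (Or.inl (by omega))
    have h2 : φ (resultant f (derivative f) N (N - 1)) ≠ 0 := by
      rw [← resultant_map_map, ← derivative_map]
      obtain ⟨t, ht⟩ : ∃ t, N - 1 = (derivative (f.map φ)).natDegree + t := by
        have : (derivative (f.map φ)).natDegree ≤ N - 1 := by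
          rw [← hd]
          exact natDegree_derivative_le _
        exact ⟨N - 1 - (derivative (f.map φ)).natDegree, by omega⟩
      rw [ht, resultant_add_right_deg _ _ _ _ _ le_rfl]
      have h3 : (f.map φ).coeff N ≠ 0 := by
        rw [← hd]
        exact leadingCoeff_ne_zero.2 hsep.ne_zero
      refine mul_ne_zero (pow_ne_zero _ h3) ?_
      rw [← hd]
      intro h0
      exact (resultant_eq_zero_iff.1 h0).2 hsep
    have h3 : algebraMap R k (resultant f (derivative f) N (N - 1)) ≠ 0 := by
      intro h0
      have h4 : resultant f (derivative f) N (N - 1) = 0 := hinj (by rw [h0, map_zero])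
      rw [h4, map_zero] at h2
      exact h2 rfl
    have h4 := congrArg (fun g : R[X] => g.map (algebraMap R k)) h1
    simp only [Polynomial.map_add, Polynomial.map_mul, map_C] at h4
    rw [← derivative_map] at h4
    refine ⟨C (algebraMap R k (resultant f (derivative f) N (N - 1)))⁻¹ * p.map (algebraMap R k),
      C (algebraMap R k (resultant f (derivative f) N (N - 1)))⁻¹ * q.map (algebraMap R k), ?_⟩
    have h5 : C (algebraMap R k (resultant f (derivative f) N (N - 1)))⁻¹ *
        C (algebraMap R k (resultant f (derivative f) N (N - 1))) = 1 := by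
      rw [← C_mul, inv_mul_cancel₀ h3, C_1]
    linear_combination C (algebraMap R k (resultant f (derivative f) N (N - 1)))⁻¹ * h4 + h5

/-- The Galois group over `k` is the full symmetric group. -/
def FullG {k : Type} [Field k] (F : k[X]) : Prop :=
  ∀ (E : Type) [Field E] [Algebra k E] [FiniteDimensional k E] [IsGalois k E],
    (F.map (algebraMap k E)).Splits →
      Function.Surjective (MulAction.toPermHom (E ≃ₐ[k] E) (F.rootSet E))

section full

variable {R k : Type} [CommRing R] [IsDomain R] [IsIntegrallyClosed R] [IsNoetherianRing R]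
  [Field k] [Algebra R k] [IsFractionRing R k]

/-- The action of a Frobenius element on the roots. -/
theorem frob_act (m : Ideal R) [m.IsMaximal] [Finite (R ⧸ m)] (k) [Field k] [Algebra R k]
    [IsFractionRing R k] {f : R[X]} {N : ℕ} (hf : f.natDegree ≤ N)
    (hd : (f.map (Ideal.Quotient.mk m)).natDegree = N)
    (hsep : (f.map (Ideal.Quotient.mk m)).Separable)
    (E : Type) [Field E] [Algebra k E] [FiniteDimensional k E] [IsGalois k E]
    (hspl : ((f.map (algebraMap R k)).map (algebraMap k E)).Splits) :
    ∃ (κ : Type) (_ : Field κ) (j : R ⧸ m →+* κ)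
      (r : (f.map (algebraMap R k)).rootSet E → κ) (σ : E ≃ₐ[k] E) (u : κ),
      (∀ θ, r (MulAction.toPermHom (E ≃ₐ[k] E) ((f.map (algebraMap R k)).rootSet E) σ θ) =
        r θ ^ Nat.card (R ⧸ m)) ∧
      (f.map (Ideal.Quotient.mk m)).map j =
        C u * ∏ θ : (f.map (algebraMap R k)).rootSet E, (X - C (r θ)) := by
  letI : Algebra R E := ((algebraMap k E).comp (algebraMap R k)).toAlgebra
  haveI : IsScalarTower R k E := IsScalarTower.of_algebraMap_eq fun _ => rfl
  obtain ⟨B, ρ, j, σ, -, -, -, -, h1, h2⟩ := frob_roots m k hf hd hsep E hspl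
  refine ⟨ResidueField B, inferInstance, j, fun θ => red B (θ : E), σ, _, ?_, h2⟩
  intro θ
  exact (h1 θ (aeval_eq_zero_of_mem_rootSet θ.2)).2.2

theorem gen_full {m1 m2 m3 : Ideal R} [m1.IsMaximal] [Finite (R ⧸ m1)] [m2.IsMaximal]
    [Finite (R ⧸ m2)] [m3.IsMaximal] [Finite (R ⧸ m3)] {f : R[X]} {N : ℕ} (hN : 3 ≤ N)
    (hf : f.natDegree ≤ N) (h1 : I1 N (f.map (Ideal.Quotient.mk m1)))
    (h2 : I2 N (f.map (Ideal.Quotient.mk m2))) (h3 : I3 N (f.map (Ideal.Quotient.mk m3))) :
    I1 N (f.map (algebraMap R k)) ∧ (f.map (algebraMap R k)).Separable ∧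
      FullG (f.map (algebraMap R k)) := by
  haveI : m1.IsMaximal := inferInstance
  haveI : m2.IsMaximal := inferInstance
  haveI : m3.IsMaximal := inferInstance
  letI : Field (R ⧸ m1) := Ideal.Quotient.field m1
  letI : Field (R ⧸ m2) := Ideal.Quotient.field m2
  letI : Field (R ⧸ m3) := Ideal.Quotient.field m3
  haveI : PerfectField (R ⧸ m1) := PerfectField.ofFinite
  have hinj : Function.Injective (algebraMap R k) := IsFractionRing.injective R k
  obtain ⟨i1, d1⟩ := h1
  have hsep1 : (f.map (Ideal.Quotient.mk m1)).Separable := PerfectField.separable_of_irreducible i1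
  have hsep : (f.map (algebraMap R k)).Separable := sep_lift _ hinj hf d1 hsep1
  have hfN : f.natDegree = N := by
    refine le_antisymm hf ?_
    rw [← d1]
    exact natDegree_map_le
  have hdeg : (f.map (algebraMap R k)).natDegree = N := by
    rw [natDegree_map_eq_of_injective hinj, hfN]
  obtain ⟨ha, π, hπ, hπd, hdv⟩ := h2
  obtain ⟨d', π', S, hd', hm', hπ', hπd', hS, hfac'⟩ := h3
  obtain ⟨c, d, hd, hfac⟩ := two_fac hN ha hπd hdv
  have hsep2 : (f.map (Ideal.Quotient.mk m2)).Separable := by
    have h4 := sep_lin hπ (by omega) hd {c}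
    rw [Finset.prod_singleton] at h4
    rw [hfac]
    have e : C d * (X - C c) * π = C d * π * (X - C c) := by ring
    rw [e]
    exact h4
  have hsep3 : (f.map (Ideal.Quotient.mk m3)).Separable := by
    rw [hfac']
    exact sep_lin hπ' hπd'.ge hd' S
  have hdeg3 : (f.map (Ideal.Quotient.mk m3)).natDegree = N := by
    rw [hfac', mul_assoc, natDegree_C_mul hd', natDegree_mul hπ'.ne_zero, hπd',
      natDegree_finset_prod_X_sub_C_eq_card]
    · rw [← hS]
      omega
    · exact (monic_prod_X_sub_C (fun c => c) S).ne_zero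
  -- transitivity
  have htrans : ∀ (E : Type) [Field E] [Algebra k E] [FiniteDimensional k E] [IsGalois k E],
      ((f.map (algebraMap R k)).map (algebraMap k E)).Splits →
      ∀ x y : (f.map (algebraMap R k)).rootSet E, ∃ g : E ≃ₐ[k] E,
        MulAction.toPermHom (E ≃ₐ[k] E) ((f.map (algebraMap R k)).rootSet E) g x = y := by
    intro E _ _ _ _ hspl x y
    obtain ⟨κ, _, j, r, σ, u, hσ, hr⟩ := frob_act m1 k hf d1 hsep1 E hspl
    obtain ⟨n, hn⟩ := trans_of j hsep1 hr hσ i1 (θ := x) (θ' := y)
      ((root_iff j hsep1 hr _).2 ⟨x, rfl⟩) ((root_iff j hsep1 hr _).2 ⟨y, rfl⟩)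
    refine ⟨σ ^ n, ?_⟩
    rw [map_pow]
    exact hn
  have hirr : Irreducible (f.map (algebraMap R k)) := by
    have hsp := SplittingField.splits (f.map (algebraMap R k))
    haveI : IsGalois k (f.map (algebraMap R k)).SplittingField :=
      IsGalois.of_separable_splitting_field hsep
    haveI : FiniteDimensional k (f.map (algebraMap R k)).SplittingField := inferInstance
    have hF0 : f.map (algebraMap R k) ≠ 0 := hsep.ne_zero
    have hnu : ¬ IsUnit (f.map (algebraMap R k)) := by
      intro h
      have := natDegree_eq_zero_of_isUnit h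
      omega
    obtain ⟨g, hg, hgd⟩ := WfDvdMonoid.exists_irreducible_factor hnu hF0
    have hgs : (g.map (algebraMap k (f.map (algebraMap R k)).SplittingField)).Splits :=
      hsp.of_dvd ((Polynomial.map_ne_zero_iff (algebraMap k _).injective).2 hF0)
        ((mapRingHom (algebraMap k (f.map (algebraMap R k)).SplittingField)).map_dvd hgd)
    obtain ⟨x, hx⟩ := hgs.exists_eval_eq_zero (by
      intro h
      have h5 : (g.map (algebraMap k (f.map (algebraMap R k)).SplittingField)).natDegree = 0 :=
        natDegree_eq_of_degree_eq_some h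
      rw [natDegree_map] at h5
      have := hg.natDegree_pos
      omega)
    have hxg : aeval x g = 0 := by
      rw [aeval_def, ← eval_map]
      exact hx
    have hxF : aeval x (f.map (algebraMap R k)) = 0 := by
      obtain ⟨h, hh⟩ := hgd
      have h5 := congrArg (aeval x) hh
      rw [map_mul, hxg, zero_mul] at h5
      exact h5
    have hall : ∀ y : (f.map (algebraMap R k)).rootSet (f.map (algebraMap R k)).SplittingField,
        aeval (y : (f.map (algebraMap R k)).SplittingField) g = 0 := by
      intro y
      obtain ⟨τ, hτ⟩ := htrans _ hsp ⟨x, mem_rootSet.2 ⟨hF0, hxF⟩⟩ y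
      have : τ x = (y : (f.map (algebraMap R k)).SplittingField) := by
        rw [← hτ]
        rfl
      rw [← this, aeval_algHom_apply τ x g, hxg, map_zero]
    have hdvd : f.map (algebraMap R k) ∣ g := by
      rw [← Polynomial.map_dvd_map' (algebraMap k (f.map (algebraMap R k)).SplittingField)]
      rw [hsp.dvd_iff_roots_le_roots ((Polynomial.map_ne_zero_iff (algebraMap k _).injective).2 hF0)
        ((Polynomial.map_ne_zero_iff (algebraMap k _).injective).2 hg.ne_zero)]
      rw [Multiset.le_iff_subset (nodup_roots hsep.map)]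
      intro y hy
      rw [mem_roots ((Polynomial.map_ne_zero_iff (algebraMap k _).injective).2 hF0), IsRoot.def,
        eval_map_algebraMap] at hy
      rw [mem_roots ((Polynomial.map_ne_zero_iff (algebraMap k _).injective).2 hg.ne_zero),
        IsRoot.def, eval_map_algebraMap]
      exact hall ⟨y, mem_rootSet.2 ⟨hF0, hy⟩⟩
    exact (associated_of_dvd_dvd hgd hdvd).irreducible hg
  refine ⟨⟨hirr, hdeg⟩, hsep, ?_⟩
  intro E _ _ _ _ hspl
  obtain ⟨κ, _, j, r, σ, u, hσ, hr⟩ := frob_act m2 k hf ha hsep2 E hspl
  obtain ⟨κ', _, j', r', σ', u', hσ', hr'⟩ := frob_act m3 k hf hdeg3 hsep3 E hspl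
  obtain ⟨a, hsa, htr⟩ := type_two j hsep2 hr hσ hπ hfac
  have hsw := type_swap j' hsep3 hr' hσ' hπ' hπd' hfac'
  rw [← MonoidHom.range_eq_top]
  refine top_of _ a ?_ ?_ ⟨_, ⟨σ', rfl⟩, hsw⟩
  · intro x
    obtain ⟨g, hg⟩ := htrans E hspl x a
    exact ⟨_, ⟨g, rfl⟩, hg⟩
  · intro x y hx hy
    obtain ⟨n, hn⟩ := htr x y hx hy
    refine ⟨_, ⟨σ ^ n, rfl⟩, ?_, ?_⟩
    · rw [map_pow]
      exact Function.IsFixedPt.perm_pow hsa n
    · rw [map_pow]
      exact hn

end full

end Pool.Agent.X243.Gen
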