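import Pool.Agent.X243.Gen.Main2
import Pool.Agent.X243.Tate.Ind2

/-!
Polynomials `l q + m r` for finitely many pairs of coefficients `(l, m)` over a finitely generated ring:
for 100% of the pairs `(q, r)` they all have full symmetric Galois groups.
-/

set_option autoImplicit false
set_option linter.all false

open Polynomial
open scoped Classical

namespace Pool.Agent.X243.Gen

open Pool.Agent.TH115.GD Pool.Agent.X243.Tate Pool.Agent.X243.Sol Pool.Agent.Y160.T3

/-- The maximal ideals with large residue fields of odd characteristic which do not contain `c`. -/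
def Zc (R : Type) [CommRing R] (B : ℕ) (c : R) : Set (Ideal R) := {m | m ∈ Zg R B ∧ c ∉ m}

theorem Zc_inf (R : Type) [CommRing R] [IsDomain R] [Algebra.FiniteType ℤ R] (hR : ¬ IsField R)
    (h2 : (2 : R) ≠ 0) (B : ℕ) {c₀ : R} (hc₀ : c₀ ≠ 0) : (Zc R B c₀).Infinite := by
  intro hfin
  haveI := jacobson_int
  haveI : IsJacobsonRing R := isJacobsonRing_of_finiteType (A := ℤ)
  haveI : Infinite R := by
    by_contra h
    rw [not_infinite_iff_finite] at h
    exact hR (Finite.isField_of_domain R)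
  -- an element in all the ideals with small residue fields
  obtain ⟨b, hb⟩ : ∃ b : R, ∏ q ∈ Finset.Ico 2 B, (b ^ q - b) ≠ 0 := by
    obtain ⟨P, hP⟩ : ∃ P : Polynomial R, P = ∏ q ∈ Finset.Ico 2 B,
      (Polynomial.X ^ q - Polynomial.X) := ⟨_, rfl⟩
    have hP0 : P ≠ 0 := by
      rw [hP, Finset.prod_ne_zero_iff]
      intro q hq h0
      have hq2 := (Finset.mem_Ico.1 hq).1
      have h1 := congrArg (fun f : Polynomial R => f.coeff q) h0
      simp only [Polynomial.coeff_sub, Polynomial.coeff_X_pow_self, Polynomial.coeff_zero] at h1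
      rw [Polynomial.coeff_X_of_ne_one (by omega), sub_zero] at h1
      exact one_ne_zero h1
    obtain ⟨b, hb⟩ := Infinite.exists_notMem_finset P.roots.toFinset
    refine ⟨b, fun h0 => hb ?_⟩
    rw [Multiset.mem_toFinset, Polynomial.mem_roots hP0, Polynomial.IsRoot.def, hP,
      Polynomial.eval_prod]
    simp only [Polynomial.eval_sub, Polynomial.eval_pow, Polynomial.eval_X]
    exact h0
  have hne : ∀ m ∈ Zc R B c₀, ∃ x ∈ m, x ≠ 0 := by
    intro m hm
    have h1 : m ≠ ⊥ := by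
      rintro rfl
      exact hR (Ring.isField_iff_maximal_bot.2 hm.1.1)
    obtain ⟨x, hx, hx0⟩ := Submodule.exists_mem_ne_zero_of_ne_bot h1
    exact ⟨x, hx, hx0⟩
  choose! x hx hx0 using hne
  obtain ⟨c, hc⟩ : ∃ c : R, c = c₀ * (2 * (∏ q ∈ Finset.Ico 2 B, (b ^ q - b)) *
    ∏ m ∈ hfin.toFinset, x m) := ⟨_, rfl⟩
  have hc0 : c ≠ 0 := by
    rw [hc]
    refine mul_ne_zero hc₀ (mul_ne_zero (mul_ne_zero h2 hb) ?_)
    rw [Finset.prod_ne_zero_iff]
    intro m hm
    exact hx0 m (hfin.mem_toFinset.1 hm)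
  apply hc0
  have hall : ∀ m : Ideal R, m.IsMaximal → c ∈ m := by
    intro m hm
    haveI := hm
    haveI : Finite (R ⧸ m) := residue_finite R m
    by_cases h3 : (2 : R) ∈ m
    · rw [hc]
      exact m.mul_mem_left _ (m.mul_mem_right _ (m.mul_mem_right _ h3))
    by_cases h0 : c₀ ∈ m
    · rw [hc]
      exact m.mul_mem_right _ h0
    by_cases h4 : B ≤ Nat.card (R ⧸ m)
    · have h5 : m ∈ Zc R B c₀ := ⟨⟨hm, inferInstance, h4, h3⟩, h0⟩
      rw [hc]
      refine m.mul_mem_left _ (m.mul_mem_left _ ?_)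
      rw [← Finset.mul_prod_erase _ _ (hfin.mem_toFinset.2 h5)]
      exact m.mul_mem_right _ (hx m h5)
    · rw [hc]
      refine m.mul_mem_left _ (m.mul_mem_right _ (m.mul_mem_left _ ?_))
      letI : Field (R ⧸ m) := Ideal.Quotient.field m
      letI := Fintype.ofFinite (R ⧸ m)
      have h5 : Nat.card (R ⧸ m) ∈ Finset.Ico 2 B := by
        rw [Finset.mem_Ico]
        refine ⟨?_, by omega⟩
        rw [Nat.card_eq_fintype_card]
        exact Fintype.one_lt_card
      rw [← Finset.mul_prod_erase _ _ h5]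
      refine m.mul_mem_right _ ?_
      rw [← Ideal.Quotient.eq, map_pow, Nat.card_eq_fintype_card, FiniteField.pow_card]
  have hJ : IsJacobsonRing R := inferInstance
  have hbot : (⊥ : Ideal R).jacobson = ⊥ := hJ.out Ideal.isRadical_bot
  have h6 : c ∈ (⊥ : Ideal R).jacobson := by
    rw [Ideal.jacobson, Ideal.mem_sInf]
    rintro m ⟨-, hm⟩
    exact hall m hm
  rw [hbot] at h6
  exact h6

section count

variable {F : Type} [Field F] [Finite F]

theorem lin_one {N : ℕ} {l m : F} (h : l ≠ 0 ∨ m ≠ 0) (T : Set (Fin (N + 1) → F)) :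
    ({z : Fin (N + 1) ⊕ Fin (N + 1) → F |
      (fun j => l * z (Sum.inl j) + m * z (Sum.inr j)) ∈ T}).ncard =
      Nat.card F ^ (N + 1) * T.ncard := by
  haveI := Fintype.ofFinite F
  rcases h with h | h
  · have e := ncard_ev (F := F) (m := N) (N := N) (fun x j => m * x j) h T
    rw [← e]
    let σ : (Fin (N + 1) ⊕ Fin (N + 1) → F) ≃ (Fin (N + 1) ⊕ Fin (N + 1) → F) :=
      (Equiv.sumComm _ _).arrowCongr (Equiv.refl F)
    have h1 : {z : Fin (N + 1) ⊕ Fin (N + 1) → F |
        (fun j => l * z (Sum.inl j) + m * z (Sum.inr j)) ∈ T} =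
        σ ⁻¹' {z : Fin (N + 1) ⊕ Fin (N + 1) → F |
          (fun j => (fun (x : Fin (N + 1) → F) j => m * x j) (z ∘ Sum.inl) j + l * z (Sum.inr j)) ∈
            T} := by
      ext z
      show (fun j => l * z (Sum.inl j) + m * z (Sum.inr j)) ∈ T ↔
        (fun j => m * z (Sum.inr j) + l * z (Sum.inl j)) ∈ T
      have h2 : (fun j => m * z (Sum.inr j) + l * z (Sum.inl j)) =
          fun j => l * z (Sum.inl j) + m * z (Sum.inr j) := funext fun j => add_comm _ _
      rw [h2]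
    rw [h1, Set.ncard_preimage_of_injective_subset_range (Equiv.injective _) (by simp)]
  · exact ncard_ev (F := F) (m := N) (N := N) (fun x j => l * x j) h T

theorem lin_two {N : ℕ} {l m l' m' : F} (h : l * m' - l' * m ≠ 0) (T T' : Set (Fin (N + 1) → F)) :
    T.ncard * T'.ncard ≤ ({z : Fin (N + 1) ⊕ Fin (N + 1) → F |
      (fun j => l * z (Sum.inl j) + m * z (Sum.inr j)) ∈ T ∧
      (fun j => l' * z (Sum.inl j) + m' * z (Sum.inr j)) ∈ T'}).ncard := by
  haveI := Fintype.ofFinite F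
  rw [← Set.ncard_prod]
  refine Set.ncard_le_ncard_of_injOn (fun u => Sum.elim
    (fun j => (m' * u.1 j - m * u.2 j) / (l * m' - l' * m))
    (fun j => (l * u.2 j - l' * u.1 j) / (l * m' - l' * m))) ?_ ?_ (Set.toFinite _)
  · rintro ⟨u, v⟩ ⟨hu, hv⟩
    refine ⟨?_, ?_⟩
    · have e : (fun j => l * ((m' * u j - m * v j) / (l * m' - l' * m)) +
          m * ((l * v j - l' * u j) / (l * m' - l' * m))) = u := by
        funext j
        rw [mul_div_assoc', mul_div_assoc', ← add_div, div_eq_iff h]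
        ring
      show (fun j => l * ((m' * u j - m * v j) / (l * m' - l' * m)) +
          m * ((l * v j - l' * u j) / (l * m' - l' * m))) ∈ T
      rw [e]
      exact hu
    · have e : (fun j => l' * ((m' * u j - m * v j) / (l * m' - l' * m)) +
          m' * ((l * v j - l' * u j) / (l * m' - l' * m))) = v := by
        funext j
        rw [mul_div_assoc', mul_div_assoc', ← add_div, div_eq_iff h]
        ring
      show (fun j => l' * ((m' * u j - m * v j) / (l * m' - l' * m)) +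
          m' * ((l * v j - l' * u j) / (l * m' - l' * m))) ∈ T'
      rw [e]
      exact hv
  · rintro ⟨u, v⟩ - ⟨u', v'⟩ - he
    have k1 : ∀ j, m' * u j - m * v j = m' * u' j - m * v' j := by
      intro j
      have h1 := congrFun he (Sum.inl j)
      have h2 : (m' * u j - m * v j) / (l * m' - l' * m) =
        (m' * u' j - m * v' j) / (l * m' - l' * m) := h1
      rwa [div_left_inj' h] at h2
    have k2 : ∀ j, l * v j - l' * u j = l * v' j - l' * u' j := by
      intro j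
      have h1 := congrFun he (Sum.inr j)
      have h2 : (l * v j - l' * u j) / (l * m' - l' * m) =
        (l * v' j - l' * u' j) / (l * m' - l' * m) := h1
      rwa [div_left_inj' h] at h2
    refine Prod.ext (funext fun j => ?_) (funext fun j => ?_)
    · show u j = u' j
      apply mul_left_cancel₀ h
      linear_combination l * k1 j + m * k2 j
    · show v j = v' j
      apply mul_left_cancel₀ h
      linear_combination l' * k1 j + m' * k2 j

end count

section event

variable {R : Type} [CommRing R] {I : Type}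

/-- The linear form with the index `i`. -/
def lf {S : Type} [CommRing S] {N : ℕ} (l m : I → S) (i : I) (z : Fin (N + 1) ⊕ Fin (N + 1) → S) :
    Fin (N + 1) → S := fun j => l i * z (Sum.inl j) + m i * z (Sum.inr j)

theorem bF_lf {S : Type} [CommRing S] {N : ℕ} (l m : I → S) (i : I)
    (z : Fin (N + 1) ⊕ Fin (N + 1) → S) :
    bF (lf l m i z) = C (l i) * bF (z ∘ Sum.inl) + C (m i) * bF (z ∘ Sum.inr) := by
  rw [bF, bF, bF, Finset.mul_sum, Finset.mul_sum, ← Finset.sum_add_distrib]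
  refine Finset.sum_congr rfl fun j _ => ?_
  rw [lf, C_add, C_mul, C_mul]
  show (C (l i) * C (z (Sum.inl j)) + C (m i) * C (z (Sum.inr j))) * X ^ (j : ℕ) =
    C (l i) * (C (z (Sum.inl j)) * X ^ (j : ℕ)) + C (m i) * (C (z (Sum.inr j)) * X ^ (j : ℕ))
  ring

/-- The events for the linear forms; the forms `i₀` and `i₁` are distinguished. -/
def Lev (N : ℕ) (l m : I → R) (i₀ i₁ : I) (s : Option (I × Fin 3)) (p : Ideal R) :
    Set (Fin (N + 1) ⊕ Fin (N + 1) → R ⧸ p) :=
  match s with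
  | none => {z | lf (fun i => Ideal.Quotient.mk p (l i)) (fun i => Ideal.Quotient.mk p (m i)) i₀ z ∈
        Ev (R ⧸ p) N 0 ∧
      lf (fun i => Ideal.Quotient.mk p (l i)) (fun i => Ideal.Quotient.mk p (m i)) i₁ z ∈
        Ev (R ⧸ p) N 1}
  | some s => {z | lf (fun i => Ideal.Quotient.mk p (l i)) (fun i => Ideal.Quotient.mk p (m i)) s.1 z ∈
        Ev (R ⧸ p) N s.2}

/-- The product of the elements which have to be nonzero. -/
noncomputable def cst [Fintype I] (l m : I → R) (i₀ i₁ : I) : R :=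
  (∏ i, if l i ≠ 0 then l i else m i) * (l i₀ * m i₁ - l i₁ * m i₀)

theorem cst_ne [IsDomain R] [Fintype I] {l m : I → R} {i₀ i₁ : I} (h : ∀ i, l i ≠ 0 ∨ m i ≠ 0)
    (hd : l i₀ * m i₁ - l i₁ * m i₀ ≠ 0) : cst l m i₀ i₁ ≠ 0 := by
  unfold cst
  refine mul_ne_zero ?_ hd
  rw [Finset.prod_ne_zero_iff]
  intro i _
  split_ifs with h1
  · exact h1
  · exact (h i).resolve_left h1

theorem cst_mem [Fintype I] {l m : I → R} {i₀ i₁ : I} {p : Ideal R} [p.IsPrime]
    (h : cst l m i₀ i₁ ∉ p) : (∀ i, Ideal.Quotient.mk p (l i) ≠ 0 ∨ Ideal.Quotient.mk p (m i) ≠ 0) ∧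
      Ideal.Quotient.mk p (l i₀) * Ideal.Quotient.mk p (m i₁) -
        Ideal.Quotient.mk p (l i₁) * Ideal.Quotient.mk p (m i₀) ≠ 0 := by
  constructor
  · intro i
    by_contra hall
    push Not at hall
    apply h
    unfold cst
    refine p.mul_mem_right _ ?_
    rw [← Finset.mul_prod_erase _ _ (Finset.mem_univ i)]
    refine p.mul_mem_right _ ?_
    split_ifs
    · exact Ideal.Quotient.eq_zero_iff_mem.1 hall.1
    · exact Ideal.Quotient.eq_zero_iff_mem.1 hall.2
  · intro h0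
    apply h
    unfold cst
    refine p.mul_mem_left _ ?_
    rw [← Ideal.Quotient.eq_zero_iff_mem, map_sub, map_mul, map_mul]
    exact h0

theorem Lev_card [Fintype I] {N : ℕ} (hN : 3 ≤ N) (l m : I → R) (i₀ i₁ : I)
    (s : Option (I × Fin 3)) {p : Ideal R} (hp : p ∈ Zc R (2 * N + 2) (cst l m i₀ i₁)) :
    Nat.card (R ⧸ p) ^ (2 * N + 2) ≤ (DD N * DD N) * (Lev N l m i₀ i₁ s p).ncard := by
  haveI := hp.1.1
  haveI : p.IsPrime := hp.1.1.isPrime
  letI : Field (R ⧸ p) := Ideal.Quotient.field p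
  haveI : Finite (R ⧸ p) := hp.1.2.1
  haveI := Fintype.ofFinite (R ⧸ p)
  obtain ⟨h1, h2⟩ := cst_mem hp.2
  obtain ⟨q, hqd⟩ : ∃ q, q = Nat.card (R ⧸ p) := ⟨_, rfl⟩
  have hqF : q = Fintype.card (R ⧸ p) := by rw [hqd, Nat.card_eq_fintype_card]
  have hq : 2 * N + 2 ≤ q := by rw [hqd]; exact hp.1.2.2.1
  have hDD : 0 < DD N := by
    have := D3_pos N
    unfold DD
    positivity
  have h3 : ∀ s, q ^ (N + 1) ≤ DD N * (Ev (R ⧸ p) N s).ncard := by
    intro s
    rw [hqF]
    exact Ev_card hN (by rw [← hqF]; exact hq) s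
  rw [← hqd]
  rcases s with _ | ⟨i, t⟩
  · have h4 := lin_two h2 (Ev (R ⧸ p) N 0) (Ev (R ⧸ p) N 1)
    calc q ^ (2 * N + 2) = q ^ (N + 1) * q ^ (N + 1) := by ring
      _ ≤ (DD N * (Ev (R ⧸ p) N 0).ncard) * (DD N * (Ev (R ⧸ p) N 1).ncard) :=
        Nat.mul_le_mul (h3 0) (h3 1)
      _ = DD N * DD N * ((Ev (R ⧸ p) N 0).ncard * (Ev (R ⧸ p) N 1).ncard) := by ring
      _ ≤ _ := Nat.mul_le_mul_left _ h4
  · have h4 := lin_one (h1 i) (Ev (R ⧸ p) N t)
    have h5 : (Lev N l m i₀ i₁ (some (i, t)) p).ncard = q ^ (N + 1) * (Ev (R ⧸ p) N t).ncard := by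
      rw [hqd]
      exact h4
    rw [h5]
    calc q ^ (2 * N + 2) = q ^ (N + 1) * q ^ (N + 1) := by ring
      _ ≤ q ^ (N + 1) * (DD N * (Ev (R ⧸ p) N t).ncard) := Nat.mul_le_mul_left _ (h3 t)
      _ = DD N * (q ^ (N + 1) * (Ev (R ⧸ p) N t).ncard) := by ring
      _ ≤ DD N * DD N * (q ^ (N + 1) * (Ev (R ⧸ p) N t).ncard) :=
        Nat.mul_le_mul_right _ (Nat.le_mul_of_pos_right _ hDD)

end event

section main

variable {R k : Type} [CommRing R] [IsDomain R] [IsIntegrallyClosed R] [IsNoetherianRing R]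
  [Field k] [Algebra R k] [IsFractionRing R k]

variable (R) in
theorem densLin [Algebra.FiniteType ℤ R] (hR : ¬ IsField R) (h2 : (2 : R) ≠ 0) {I : Type}
    [Fintype I] {N : ℕ} (hN : 3 ≤ N) {l m : I → R} {i₀ i₁ : I} (h : ∀ i, l i ≠ 0 ∨ m i ≠ 0)
    (hd : l i₀ * m i₁ - l i₁ * m i₀ ≠ 0) (η : ℝ) (hη : 0 < η) :
    ∃ M : Ideal R, Finite (R ⧸ M) ∧
      (1 - η) * (Nat.card (R ⧸ M) : ℝ) ^ (Fintype.card (Fin (N + 1) ⊕ Fin (N + 1))) ≤
      (({x : Fin (N + 1) ⊕ Fin (N + 1) → R ⧸ M | ∀ s : Option (I × Fin 3),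
        ∃ p ∈ Zc R (2 * N + 2) (cst l m i₀ i₁), ∀ y : Fin (N + 1) ⊕ Fin (N + 1) → R,
          (∀ j, Ideal.Quotient.mk M (y j) = x j) →
          (fun j => Ideal.Quotient.mk p (y j)) ∈ Lev N l m i₀ i₁ s p}).ncard : ℝ) := by
  have hDD : 0 < DD N := by
    have := D3_pos N
    unfold DD
    positivity
  have hD : (0 : ℝ) < ((DD N * DD N : ℕ) : ℝ) := by
    have : 0 < DD N * DD N := Nat.mul_pos hDD hDD
    exact_mod_cast this
  refine densityG (Zc R (2 * N + 2) (cst l m i₀ i₁)) (Zc_inf R hR h2 _ (cst_ne h hd))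
    (fun p hp => hp.1.1) (fun p hp => hp.1.2.1)
    (fun s p => Lev N l m i₀ i₁ s p) (c := 1 / ((DD N * DD N : ℕ) : ℝ)) (by positivity) ?_ η hη
  intro s p hp
  have h1 := Lev_card hN l m i₀ i₁ s hp
  have hc : Fintype.card (Fin (N + 1) ⊕ Fin (N + 1)) = 2 * N + 2 := by
    rw [Fintype.card_sum, Fintype.card_fin]
    omega
  rw [hc, one_div, inv_mul_le_iff₀ hD]
  exact_mod_cast h1

theorem lf_map {S : Type} [CommRing S] {I : Type} {N : ℕ} (g : R →+* S) (l m : I → R) (i : I)
    (y : Fin (N + 1) ⊕ Fin (N + 1) → R) :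
    (C (l i) * bF (y ∘ Sum.inl) + C (m i) * bF (y ∘ Sum.inr)).map g =
      bF (lf (fun i => g (l i)) (fun i => g (m i)) i (fun j => g (y j))) := by
  rw [bF_lf, Polynomial.map_add, Polynomial.map_mul, Polynomial.map_mul, map_C, map_C, bF_map,
    bF_map]
  rfl

theorem lin_good {I : Type} {l m : I → R} {i₀ i₁ : I} {N B : ℕ} {c : R} (hN : 3 ≤ N)
    {y : Fin (N + 1) ⊕ Fin (N + 1) → R}
    (h : ∀ s : Option (I × Fin 3), ∃ p ∈ Zc R B c,
      (fun j => Ideal.Quotient.mk p (y j)) ∈ Lev N l m i₀ i₁ s p) (q r : k[X])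
    (hq : q = (bF (y ∘ Sum.inl)).map (algebraMap R k))
    (hr : r = (bF (y ∘ Sum.inr)).map (algebraMap R k)) :
    (∀ i, FF N (C (algebraMap R k (l i)) * q + C (algebraMap R k (m i)) * r)) ∧
      IsCoprime q r := by
  have hdeg : ∀ i, (C (l i) * bF (y ∘ Sum.inl) + C (m i) * bF (y ∘ Sum.inr)).natDegree ≤ N := by
    intro i
    refine (natDegree_add_le _ _).trans (max_le ?_ ?_)
    · exact (natDegree_C_mul_le _ _).trans (bF_nd _)
    · exact (natDegree_C_mul_le _ _).trans (bF_nd _)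
  have hmap : ∀ i, (C (l i) * bF (y ∘ Sum.inl) + C (m i) * bF (y ∘ Sum.inr)).map (algebraMap R k) =
      C (algebraMap R k (l i)) * q + C (algebraMap R k (m i)) * r := by
    intro i
    rw [hq, hr, Polynomial.map_add, Polynomial.map_mul, Polynomial.map_mul, map_C, map_C]
  have key : ∀ i, FF N (C (algebraMap R k (l i)) * q + C (algebraMap R k (m i)) * r) := by
    intro i
    rw [← hmap]
    refine evG (B := B) hN (hdeg i) (fun t => ?_)
    obtain ⟨p, hp, e⟩ := h (some (i, t))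
    exact ⟨p, hp.1, _, e, (lf_map (Ideal.Quotient.mk p) l m i y).symm⟩
  refine ⟨key, ?_⟩
  obtain ⟨p, hp, e0, e1⟩ := h none
  haveI := hp.1.1
  have e0' : I1 N ((C (l i₀) * bF (y ∘ Sum.inl) + C (m i₀) * bF (y ∘ Sum.inr)).map
      (Ideal.Quotient.mk p)) := by
    rw [lf_map]
    exact e0
  have e1' : I2 N ((C (l i₁) * bF (y ∘ Sum.inl) + C (m i₁) * bF (y ∘ Sum.inr)).map
      (Ideal.Quotient.mk p)) := by
    rw [lf_map]
    exact e1
  have hco := cop_of_redG (k := k) hN (hdeg i₀) (hdeg i₁) e0' e1'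
    (by rw [hmap]; exact (key i₀).1) (by rw [hmap]; exact (key i₁).1)
  rw [hmap, hmap] at hco
  -- the pair of forms generates, so `q` and `r` generate
  obtain ⟨u, v, huv⟩ := hco
  refine ⟨u * C (algebraMap R k (l i₀)) + v * C (algebraMap R k (l i₁)),
    u * C (algebraMap R k (m i₀)) + v * C (algebraMap R k (m i₁)), ?_⟩
  rw [← huv]
  ring

end main

end Pool.Agent.X243.Gen
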