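import Pool.Agent.X243.Gen.RkTwo
import Pool.Agent.TH115.GD.Crit

/-!
Pullbacks of elliptic curves with complete first descent by rational functions.
-/

set_option autoImplicit false
set_option linter.all false

open Polynomial
open scoped Classical

namespace Pool.Agent.X243.Gen

open Pool.Agent.TH115.GD Pool.Agent.X243.Tate Pool.Agent.X243.Sol Pool.Agent.Y160.T3

section pb

variable {k : Type} [Field k]

/-- The pullback of `g` by `q / r`, times the power of `r` whose exponent is the degree of `g`. -/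
noncomputable def pb (q r g : k[X]) : k[X] := ((g.map (C : k →+* k[X])).scaleRoots r).eval q

theorem pb_sum (q r g : k[X]) : pb q r g =
    ∑ i ∈ Finset.range (g.natDegree + 1), C (g.coeff i) * q ^ i * r ^ (g.natDegree - i) := by
  unfold pb
  rw [eval_eq_sum_range, natDegree_scaleRoots, natDegree_map_eq_of_injective C_injective]
  refine Finset.sum_congr rfl fun i _ => ?_
  rw [coeff_scaleRoots, coeff_map, natDegree_map_eq_of_injective C_injective]
  ring

theorem pb_mul (q r g h : k[X]) : pb q r (g * h) = pb q r g * pb q r h := by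
  unfold pb
  rw [Polynomial.map_mul, mul_scaleRoots_of_noZeroDivisors, eval_mul]

theorem pb_C (q r : k[X]) (c : k) : pb q r (C c) = C c := by
  rw [pb_sum, natDegree_C]
  simp

theorem pb_one (q r : k[X]) : pb q r 1 = 1 := by
  rw [← C_1, pb_C]

theorem pb_pow (q r g : k[X]) (m : ℕ) : pb q r (g ^ m) = pb q r g ^ m := by
  induction m with
  | zero => rw [pow_zero, pow_zero, pb_one]
  | succ m ih => rw [pow_succ, pow_succ, pb_mul, ih]

theorem pb_lin (q r : k[X]) (ξ : k) : pb q r (X - C ξ) = q - C ξ * r := by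
  rw [pb_sum, natDegree_X_sub_C, Finset.sum_range_succ, Finset.sum_range_succ,
    Finset.sum_range_zero, zero_add, coeff_sub, coeff_sub, coeff_X_zero, coeff_X_one,
    coeff_C_zero, coeff_C_of_ne_zero (by norm_num : (1 : ℕ) ≠ 0)]
  simp only [zero_sub, C_neg, pow_zero, mul_one, sub_zero, pow_one, C_1, one_mul, Nat.sub_self]
  ring

theorem pb_prod (q r : k[X]) (s : Multiset k) :
    pb q r (s.map fun ξ => X - C ξ).prod = (s.map fun ξ => q - C ξ * r).prod := by
  induction s using Multiset.induction with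
  | empty => rw [Multiset.map_zero, Multiset.map_zero, Multiset.prod_zero, pb_one]
  | cons ξ s ih =>
    rw [Multiset.map_cons, Multiset.map_cons, Multiset.prod_cons, Multiset.prod_cons, pb_mul, ih,
      pb_lin]

theorem pb_map {L : Type} [Field L] (φ : k →+* L) (q r g : k[X]) :
    (pb q r g).map φ = pb (q.map φ) (r.map φ) (g.map φ) := by
  rw [pb_sum, pb_sum, natDegree_map, Polynomial.map_sum]
  refine Finset.sum_congr rfl fun i _ => ?_
  rw [Polynomial.map_mul, Polynomial.map_mul, Polynomial.map_pow, Polynomial.map_pow, map_C,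
    coeff_map]

theorem pb_frac {K : Type} [Field K] [Algebra k[X] K] [IsFractionRing k[X] K] (q : k[X])
    {r : k[X]} (hr : r ≠ 0) (g : k[X]) : algebraMap k[X] K (pb q r g) =
      (algebraMap k[X] K r) ^ g.natDegree *
        eval₂ ((algebraMap k[X] K).comp C) (algebraMap k[X] K q / algebraMap k[X] K r) g := by
  have hr' : algebraMap k[X] K r ≠ 0 := by simpa using hr
  rw [pb_sum, eval₂_eq_sum_range, map_sum, Finset.mul_sum]
  refine Finset.sum_congr rfl fun i hi => ?_
  have hi' : i ≤ g.natDegree := by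
    rw [Finset.mem_range] at hi
    omega
  rw [map_mul, map_mul, map_pow, map_pow, RingHom.comp_apply, div_pow]
  obtain ⟨j, hj⟩ : ∃ j, g.natDegree = i + j := ⟨g.natDegree - i, by omega⟩
  rw [hj, Nat.add_sub_cancel_left, pow_add]
  field_simp

theorem pb_sub_one (q g h : k[X]) : pb q 1 g - pb q 1 h = pb q 1 (g - h) := by
  have e : ∀ g : k[X], pb q 1 g = g.comp q := by
    intro g
    rw [pb_sum, comp, eval₂_eq_sum_range]
    refine Finset.sum_congr rfl fun i _ => ?_
    rw [one_pow, mul_one]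
  rw [e, e, e, sub_comp]

theorem pb_sub_eq (q r : k[X]) {g h : k[X]} (h1 : h.natDegree = g.natDegree)
    (h2 : (g - h).natDegree = g.natDegree) : pb q r g - pb q r h = pb q r (g - h) := by
  rw [pb_sum, pb_sum, pb_sum, h1, h2, ← Finset.sum_sub_distrib]
  refine Finset.sum_congr rfl fun i _ => ?_
  rw [coeff_sub, C_sub]
  ring

/-- Nonvanishing of pullbacks. -/
theorem pb_ne {q r : k[X]} (hco : IsCoprime q r) (hq : 0 < q.natDegree) {g : k[X]} (hg : g ≠ 0) :
    pb q r g ≠ 0 := by
  intro h0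
  have hr0 : r ≠ 0 := by
    rintro rfl
    rw [isCoprime_zero_right] at hco
    have := natDegree_eq_zero_of_isUnit hco
    omega
  have hru : IsUnit r := by
    have h1 : IsCoprime (C g.leadingCoeff * q ^ g.natDegree) r :=
      (isCoprime_mul_unit_left_left (isUnit_C.2 (isUnit_iff_ne_zero.2
        (leadingCoeff_ne_zero.2 hg))) _ _).2 hco.pow_left
    refine h1.symm.isUnit_of_dvd ?_
    rw [pb_sum, Finset.sum_range_succ, Nat.sub_self, pow_zero, mul_one] at h0
    have h3 : C g.leadingCoeff * q ^ g.natDegree = -∑ i ∈ Finset.range g.natDegree,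
        C (g.coeff i) * q ^ i * r ^ (g.natDegree - i) := by
      rw [eq_neg_iff_add_eq_zero, add_comm]
      exact h0
    rw [h3]
    refine (dvd_neg).2 (Finset.dvd_sum fun i hi => ?_)
    rw [Finset.mem_range] at hi
    exact (dvd_pow_self r (by omega)).mul_left _
  obtain ⟨ρ, hρ, rfl⟩ := Polynomial.isUnit_iff.1 hru
  have hρ0 : ρ ≠ 0 := hρ.ne_zero
  have e : pb q (C ρ) g = C (ρ ^ g.natDegree) * g.comp (C ρ⁻¹ * q) := by
    rw [pb_sum, comp, eval₂_eq_sum_range, Finset.mul_sum]
    refine Finset.sum_congr rfl fun i hi => ?_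
    have hi' : i ≤ g.natDegree := by
      rw [Finset.mem_range] at hi
      omega
    obtain ⟨j, hj⟩ : ∃ j, g.natDegree = i + j := ⟨g.natDegree - i, by omega⟩
    rw [hj, Nat.add_sub_cancel_left, mul_pow, ← C_pow, ← C_pow]
    have h1 : ρ ^ (i + j) * ρ⁻¹ ^ i = ρ ^ j := by
      rw [pow_add, inv_pow]
      field_simp
    calc C (g.coeff i) * q ^ i * C (ρ ^ j) = C (ρ ^ j) * (C (g.coeff i) * q ^ i) := by ring
      _ = C (ρ ^ (i + j)) * C (ρ⁻¹ ^ i) * (C (g.coeff i) * q ^ i) := by rw [← C_mul, h1]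
      _ = _ := by ring
  rw [e] at h0
  rcases mul_eq_zero.1 h0 with h1 | h1
  · exact pow_ne_zero _ hρ0 (C_eq_zero.1 h1)
  · rcases comp_eq_zero_iff.1 h1 with h3 | ⟨-, h3⟩
    · exact hg h3
    · have h4 := congrArg natDegree h3
      rw [natDegree_C, natDegree_C_mul (inv_ne_zero hρ0)] at h4
      omega

end pb

section desc

variable {k L : Type} [Field k] [Field L] (φ : k →+* L)

/-- Squarefree divisors of products of irreducible forms come from squarefree divisors. -/
theorem dvd_pb {q r : L[X]} (s : Multiset k) (hirr : ∀ ξ ∈ s, Irreducible (q - C (φ ξ) * r)) :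
    ∀ A : L[X], Squarefree A → A ∣ (s.map fun ξ => q - C (φ ξ) * r).prod →
      ∃ c : L, c ≠ 0 ∧ ∃ A₀ : k[X], A₀.Monic ∧ Squarefree A₀ ∧
        A₀ ∣ (s.map fun ξ => X - C ξ).prod ∧ A = C c * pb q r (A₀.map φ) := by
  induction s using Multiset.induction with
  | empty =>
    intro A _ hd
    rw [Multiset.map_zero, Multiset.prod_zero] at hd
    obtain ⟨c, hc, rfl⟩ := Polynomial.isUnit_iff.1 (isUnit_of_dvd_one hd)
    refine ⟨c, hc.ne_zero, 1, monic_one, squarefree_one, one_dvd _, ?_⟩
    rw [Polynomial.map_one, pb_one, mul_one]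
  | cons ξ s ih =>
    intro A hA hd
    have hξ := hirr ξ (Multiset.mem_cons_self ξ s)
    have ih' := ih fun ζ hζ => hirr ζ (Multiset.mem_cons_of_mem hζ)
    rw [Multiset.map_cons, Multiset.prod_cons] at hd
    by_cases h : q - C (φ ξ) * r ∣ A
    · obtain ⟨A', rfl⟩ := h
      have h1 : A' ∣ (s.map fun ξ => q - C (φ ξ) * r).prod :=
        (mul_dvd_mul_iff_left hξ.ne_zero).1 hd
      obtain ⟨c, hc, A₀, m1, m2, m3, m4⟩ := ih' A' (hA.squarefree_of_dvd (dvd_mul_left _ _)) h1
      have hcop : IsCoprime (X - C ξ) A₀ := by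
        rw [(irreducible_X_sub_C ξ).coprime_iff_not_dvd]
        rintro ⟨B, rfl⟩
        apply hξ.not_isUnit
        apply hA
        rw [m4, Polynomial.map_mul, pb_mul, Polynomial.map_sub, map_X, map_C, pb_lin]
        exact mul_dvd_mul_left _ ((dvd_mul_right _ _).mul_left _)
      refine ⟨c, hc, (X - C ξ) * A₀, (monic_X_sub_C ξ).mul m1, ?_, ?_, ?_⟩
      · exact (squarefree_mul_iff.2 ⟨hcop.isRelPrime, (irreducible_X_sub_C ξ).squarefree, m2⟩)
      · rw [Multiset.map_cons, Multiset.prod_cons]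
        exact mul_dvd_mul_left _ m3
      · rw [m4, Polynomial.map_mul, pb_mul, Polynomial.map_sub, map_X, map_C, pb_lin]
        ring
    · have h1 : IsCoprime A (q - C (φ ξ) * r) := (hξ.coprime_iff_not_dvd.2 h).symm
      obtain ⟨c, hc, A₀, m1, m2, m3, m4⟩ := ih' A hA (h1.dvd_of_dvd_mul_left hd)
      refine ⟨c, hc, A₀, m1, m2, ?_, m4⟩
      rw [Multiset.map_cons, Multiset.prod_cons]
      exact m3.mul_left _

/-- The same for a polynomial which splits. -/
theorem dvd_pb' {q r : L[X]} {g : k[X]} (hg : g ≠ 0) (hs : g.Splits)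
    (hirr : ∀ ξ, g.IsRoot ξ → Irreducible (q - C (φ ξ) * r)) {A : L[X]} (hA : Squarefree A)
    (hd : A ∣ pb q r (g.map φ)) :
    ∃ c : L, c ≠ 0 ∧ ∃ A₀ : k[X], A₀.Monic ∧ Squarefree A₀ ∧ A₀ ∣ g ∧
      A = C c * pb q r (A₀.map φ) := by
  have e := hs.eq_prod_roots
  have hlc : φ g.leadingCoeff ≠ 0 := (map_ne_zero_iff _ φ.injective).2 (leadingCoeff_ne_zero.2 hg)
  have hmap : (g.roots.map fun ξ => X - C ξ).prod.map φ =
      ((g.roots.map φ).map fun ξ => X - C ξ).prod := by
    rw [Polynomial.map_multiset_prod, Multiset.map_map, Multiset.map_map]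
    congr 1
    refine Multiset.map_congr rfl fun ξ _ => ?_
    simp
  have e2 : pb q r (g.map φ) = C (φ g.leadingCoeff) * (g.roots.map fun ξ => q - C (φ ξ) * r).prod := by
    conv_lhs => rw [e]
    rw [Polynomial.map_mul, map_C, pb_mul, pb_C, hmap, pb_prod, Multiset.map_map]
    rfl
  rw [e2] at hd
  have hd' : A ∣ (g.roots.map fun ξ => q - C (φ ξ) * r).prod := by
    have hu : IsUnit (C (φ g.leadingCoeff) : L[X]) := isUnit_C.2 (isUnit_iff_ne_zero.2 hlc)
    exact hu.dvd_mul_left.1 hd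
  obtain ⟨c, hc, A₀, m1, m2, m3, m4⟩ := dvd_pb φ g.roots
    (fun ξ hξ => hirr ξ ((mem_roots hg).1 hξ)) A hA hd'
  refine ⟨c, hc, A₀, m1, m2, ?_, m4⟩
  rw [e]
  exact m3.mul_left _

end desc

end Pool.Agent.X243.Gen
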