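import Pool.Agent.X243.Gen.Pull

/-!
The first descent is complete for the pullbacks.
-/

set_option autoImplicit false
set_option linter.all false

open Polynomial WeierstrassCurve WeierstrassCurve.Affine
open scoped Classical

namespace Pool.Agent.X243.Gen

open Pool.Agent.TH115.GD Pool.Agent.X243.Tate Pool.Agent.X243.Sol Pool.Agent.Y160.T3

/-- The first descent on `y ^ 2 = x (x - a) (x - b)` is complete: for all squarefree monic divisors `A`,
`B`, `D` of `a`, `b`, `a - b` which satisfy the condition at infinity there is a point `P` of the curve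
over `K` such that `A B = x(P)` and `A D = x(P) - a` up to constants of `k` and squares of `K`. -/
def Complete {k : Type} [Field k] (K : Type) [Field K] [Algebra k[X] K] (a b : k[X]) : Prop :=
  ∀ A B D : k[X], A.Monic → B.Monic → D.Monic → Squarefree A → Squarefree B → Squarefree D →
    A ∣ a → B ∣ b → D ∣ a - b → InfCond a b A B D →
    ∃ P : Pt (crv (algebraMap k[X] K a) (algebraMap k[X] K b)) K,
      (∃ (c : k) (h : K), c ≠ 0 ∧ h ≠ 0 ∧ algebraMap k[X] K (C c * (A * B)) =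
        h ^ 2 * d0 (algebraMap k[X] K a) (algebraMap k[X] K b) P) ∧
      (∃ (c : k) (h : K), c ≠ 0 ∧ h ≠ 0 ∧ algebraMap k[X] K (C c * (A * D)) =
        h ^ 2 * d1 (algebraMap k[X] K a) (algebraMap k[X] K b) P)

theorem enough_of_complete {k k' K F : Type} [Field k] [Field k'] [Algebra k k'] [Field K]
    [Algebra k[X] K] [Field F] [Algebra k'[X] F] [IsFractionRing k'[X] F] [Algebra K F]
    (hT : IsTower k k' K F) (h2 : (2 : k) ≠ 0) {a b : k[X]} (h : Complete K a b) :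
    EnoughPoints K F a b := by
  have key : ∀ {p : k[X]} {d : K}, (∃ (c : k) (h : K), c ≠ 0 ∧ h ≠ 0 ∧
      algebraMap k[X] K (C c * p) = h ^ 2 * d) → Represents K F p d := by
    rintro p d ⟨c, h, hc, hh, e⟩
    obtain ⟨u, hu, hu'⟩ := emb_C (K := K) (F := F) hT h2 hc
    refine ⟨algebraMap K F h / u, div_ne_zero ((_root_.map_ne_zero _).2 hh) hu, ?_⟩
    have e1 := congrArg (algebraMap K F) e
    rw [map_mul, map_mul, map_mul, map_pow] at e1
    have e2 : algebraMap K F (algebraMap k[X] K (C c)) = u ^ 2 := by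
      have : emb k K F (C c) = u ^ 2 * 1 := hu'
      rw [mul_one] at this
      exact this
    rw [e2] at e1
    rw [div_pow]
    field_simp
    rw [← e1]
    ring
  intro A B D mA mB mD sA sB sD dA dB dD hinf
  obtain ⟨P, h1, h3⟩ := h A B D mA mB mD sA sB sD dA dB dD hinf
  exact ⟨P, key h1, key h3⟩

section point

variable {K₀ K : Type} [Field K₀] [Field K]

theorem pt_pull (ψ : K₀ →+* K) {a₀ b₀ : K₀} {a b ρ : K} (hρ : ρ ≠ 0) (ha : a = ρ ^ 2 * ψ a₀)
    (hb : b = ρ ^ 2 * ψ b₀) (h2 : (2 : K₀) ≠ 0) (ha₀ : a₀ ≠ 0) (hb₀ : b₀ ≠ 0) (hab : a₀ ≠ b₀)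
    (P : Pt (crv a₀ b₀) K₀) :
    ∃ Q : Pt (crv a b) K, (∃ h : K, h ≠ 0 ∧ ψ (d0 a₀ b₀ P) = h ^ 2 * d0 a b Q) ∧
      (∃ h : K, h ≠ 0 ∧ ψ (d1 a₀ b₀ P) = h ^ 2 * d1 a b Q) := by
  have hinj := ψ.injective
  have h2' : (2 : K) ≠ 0 := by
    rw [← map_ofNat ψ 2]
    exact (map_ne_zero_iff _ hinj).2 h2
  have hρ2 : ρ ^ 2 ≠ 0 := pow_ne_zero 2 hρ
  have ha' : a ≠ 0 := by rw [ha]; exact mul_ne_zero hρ2 ((map_ne_zero_iff _ hinj).2 ha₀)
  have hb' : b ≠ 0 := by rw [hb]; exact mul_ne_zero hρ2 ((map_ne_zero_iff _ hinj).2 hb₀)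
  have hab' : a ≠ b := by
    rw [ha, hb]
    intro e
    exact hab (hinj (mul_left_cancel₀ hρ2 e))
  have hE₀ := isE a₀ b₀ K₀ h2 ha₀ hb₀ hab
  have hE := isE a b K h2' ha' hb' hab'
  cases P with
  | zero =>
    refine ⟨0, ⟨1, one_ne_zero, ?_⟩, ⟨1, one_ne_zero, ?_⟩⟩
    · show ψ 1 = 1 ^ 2 * 1
      rw [map_one]; ring
    · show ψ 1 = 1 ^ 2 * 1
      rw [map_one]; ring
  | some x y hn =>
    have hy : y ^ 2 = x * (x - a₀) * (x - b₀) := by
      have h1 := hn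
      rw [hE₀.nonsingular] at h1
      exact h1
    have hQ : ((crv a b).baseChange K).toAffine.Nonsingular (ρ ^ 2 * ψ x) (ρ ^ 3 * ψ y) := by
      rw [hE.nonsingular]
      have h3 := congrArg ψ hy
      rw [map_pow, map_mul, map_mul, map_sub, map_sub] at h3
      show (ρ ^ 3 * ψ y) ^ 2 = (ρ ^ 2 * ψ x) * (ρ ^ 2 * ψ x - a) * (ρ ^ 2 * ψ x - b)
      rw [ha, hb]
      linear_combination ρ ^ 6 * h3
    refine ⟨Point.some _ _ hQ, ?_, ?_⟩
    · by_cases hx : x = 0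
      · refine ⟨(ρ ^ 2)⁻¹, inv_ne_zero hρ2, ?_⟩
        show ψ (if x = 0 then a₀ * b₀ else x) = _ * (if ρ ^ 2 * ψ x = 0 then a * b else ρ ^ 2 * ψ x)
        rw [if_pos hx, if_pos (by rw [hx, map_zero, mul_zero]), ha, hb, map_mul]
        field_simp
      · refine ⟨ρ⁻¹, inv_ne_zero hρ, ?_⟩
        have hx' : ψ x ≠ 0 := (map_ne_zero_iff _ hinj).2 hx
        show ψ (if x = 0 then a₀ * b₀ else x) = _ * (if ρ ^ 2 * ψ x = 0 then a * b else ρ ^ 2 * ψ x)
        rw [if_neg hx, if_neg (mul_ne_zero hρ2 hx')]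
        field_simp
    · by_cases hx : x = a₀
      · refine ⟨(ρ ^ 2)⁻¹, inv_ne_zero hρ2, ?_⟩
        show ψ (if x = a₀ then a₀ * (a₀ - b₀) else x - a₀) =
          _ * (if ρ ^ 2 * ψ x = a then a * (a - b) else ρ ^ 2 * ψ x - a)
        rw [if_pos hx, if_pos (by rw [hx, ha]), ha, hb, map_mul, map_sub]
        field_simp
      · refine ⟨ρ⁻¹, inv_ne_zero hρ, ?_⟩
        have hx' : ρ ^ 2 * ψ x ≠ a := by
          rw [ha]
          intro e
          exact hx (hinj (mul_left_cancel₀ hρ2 e))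
        show ψ (if x = a₀ then a₀ * (a₀ - b₀) else x - a₀) =
          _ * (if ρ ^ 2 * ψ x = a then a * (a - b) else ρ ^ 2 * ψ x - a)
        rw [if_neg hx, if_neg hx', ha, map_sub]
        field_simp

end point

section psi

variable {k L K₀ K : Type} [Field k] [Field L] [Field K₀] [Algebra k[X] K₀] [IsFractionRing k[X] K₀]
  [Field K] [Algebra L[X] K] [IsFractionRing L[X] K]

/-- The embedding `s ↦ q / r`. -/
theorem exists_psi (φ : k →+* L) {q r : L[X]} (hr : r ≠ 0)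
    (hne : ∀ g : k[X], g ≠ 0 → pb q r (g.map φ) ≠ 0) :
    ∃ ψ : K₀ →+* K, ∀ g : k[X], algebraMap L[X] K (pb q r (g.map φ)) =
      (algebraMap L[X] K r) ^ g.natDegree * ψ (algebraMap k[X] K₀ g) := by
  let θ : k[X] →+* K := eval₂RingHom (((algebraMap L[X] K).comp C).comp φ)
    (algebraMap L[X] K q / algebraMap L[X] K r)
  have hθ : ∀ g : k[X], algebraMap L[X] K (pb q r (g.map φ)) =
      (algebraMap L[X] K r) ^ g.natDegree * θ g := by
    intro g
    rw [pb_frac q hr, natDegree_map, eval₂_map]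
    rfl
  have hinj : Function.Injective θ := by
    rw [injective_iff_map_eq_zero]
    intro g hg
    by_contra h0
    apply hne g h0
    apply IsFractionRing.injective L[X] K
    rw [hθ, hg, mul_zero, map_zero]
  refine ⟨IsFractionRing.lift hinj, fun g => ?_⟩
  rw [hθ, IsFractionRing.lift_algebraMap]

end psi

section degree

variable {k L : Type} [Field k] [Field L] (φ : k →+* L)

theorem natDegree_pb {q r : L[X]} {n : ℕ} {g : k[X]} (hg : g ≠ 0) (hs : g.Splits)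
    (hirr : ∀ ξ, g.IsRoot ξ → Irreducible (q - C (φ ξ) * r) ∧ (q - C (φ ξ) * r).natDegree = n) :
    (pb q r (g.map φ)).natDegree = n * g.natDegree := by
  have e := hs.eq_prod_roots
  have hlc : φ g.leadingCoeff ≠ 0 := (map_ne_zero_iff _ φ.injective).2 (leadingCoeff_ne_zero.2 hg)
  have hmap : (g.roots.map fun ξ => X - C ξ).prod.map φ =
      ((g.roots.map φ).map fun ξ => X - C ξ).prod := by
    rw [Polynomial.map_multiset_prod, Multiset.map_map, Multiset.map_map]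
    congr 1
    refine Multiset.map_congr rfl fun ξ _ => ?_
    simp
  have e2 : pb q r (g.map φ) = C (φ g.leadingCoeff) * (g.roots.map fun ξ => q - C (φ ξ) * r).prod := by
    conv_lhs => rw [e]
    rw [Polynomial.map_mul, map_C, pb_mul, pb_C, hmap, pb_prod, Multiset.map_map]
    rfl
  have hroot : ∀ ξ ∈ g.roots, Irreducible (q - C (φ ξ) * r) ∧ (q - C (φ ξ) * r).natDegree = n :=
    fun ξ hξ => hirr ξ ((mem_roots hg).1 hξ)
  have e3 : g.roots.map (natDegree ∘ fun ξ => q - C (φ ξ) * r) = g.roots.map (fun _ => n) :=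
    Multiset.map_congr rfl fun ξ hξ => (hroot ξ hξ).2
  rw [e2, natDegree_C_mul hlc, natDegree_multiset_prod _ (by
    intro h0
    rw [Multiset.mem_map] at h0
    obtain ⟨ξ, hξ, h0⟩ := h0
    exact (hroot ξ hξ).1.ne_zero h0), Multiset.map_map, hs.natDegree_eq_card_roots,
    e3, Multiset.map_const', Multiset.sum_replicate, smul_eq_mul, mul_comm]

end degree

section main

variable {k L K₀ K : Type} [Field k] [Field L] [Field K₀] [Algebra k[X] K₀] [IsFractionRing k[X] K₀]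
  [Field K] [Algebra L[X] K] [IsFractionRing L[X] K]

theorem complete_pull (φ : k →+* L) (h2 : (2 : k) ≠ 0) {a b : k[X]} (ha : a ≠ 0) (hb : b ≠ 0)
    (hab : a ≠ b) (hsa : a.Splits) (hsb : b.Splits) (hsc : (a - b).Splits)
    (hC : Complete K₀ a b) {q r : L[X]} (hco : IsCoprime q r) (hq : 0 < q.natDegree) {n : ℕ}
    (hn : Odd n)
    (hirr : ∀ ξ, (a * b * (a - b)).IsRoot ξ →
      Irreducible (q - C (φ ξ) * r) ∧ (q - C (φ ξ) * r).natDegree = n)
    (hd : r = 1 ∨ (b.natDegree = a.natDegree ∧ (a - b).natDegree = a.natDegree ∧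
      Even a.natDegree)) :
    Complete K (pb q r (a.map φ)) (pb q r (b.map φ)) := by
  have hc0 : a - b ≠ 0 := sub_ne_zero.2 hab
  have ra : ∀ ξ, a.IsRoot ξ → Irreducible (q - C (φ ξ) * r) ∧ (q - C (φ ξ) * r).natDegree = n := by
    intro ξ h
    apply hirr
    rw [IsRoot.def, eval_mul, eval_mul, IsRoot.def.1 h, zero_mul, zero_mul]
  have rb : ∀ ξ, b.IsRoot ξ → Irreducible (q - C (φ ξ) * r) ∧ (q - C (φ ξ) * r).natDegree = n := by
    intro ξ h
    apply hirr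
    rw [IsRoot.def, eval_mul, eval_mul, IsRoot.def.1 h, mul_zero, zero_mul]
  have rc : ∀ ξ, (a - b).IsRoot ξ →
      Irreducible (q - C (φ ξ) * r) ∧ (q - C (φ ξ) * r).natDegree = n := by
    intro ξ h
    apply hirr
    rw [IsRoot.def, eval_mul, IsRoot.def.1 h, mul_zero]
  have hnpos : 0 < n := hn.pos
  have hr0 : r ≠ 0 := by
    rintro rfl
    rw [isCoprime_zero_right] at hco
    have := natDegree_eq_zero_of_isUnit hco
    omega
  have hsub : pb q r (a.map φ) - pb q r (b.map φ) = pb q r ((a - b).map φ) := by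
    rw [Polynomial.map_sub]
    rcases hd with rfl | ⟨h1, h3, -⟩
    · exact pb_sub_one q _ _
    · apply pb_sub_eq
      · rw [natDegree_map, natDegree_map, h1]
      · rw [← Polynomial.map_sub, natDegree_map, natDegree_map, h3]
  have Da := natDegree_pb φ ha hsa ra
  have Db := natDegree_pb φ hb hsb rb
  have Dc := natDegree_pb φ hc0 hsc rc
  obtain ⟨ψ, hψ⟩ := exists_psi (K₀ := K₀) (K := K) φ (q := q) hr0 (fun g hg =>
    pb_ne hco hq ((Polynomial.map_ne_zero_iff φ.injective).2 hg))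
  have hr0' : algebraMap L[X] K r ≠ 0 := by simpa using hr0
  -- the scaling
  obtain ⟨ρ, hρ, ρa, ρb⟩ : ∃ ρ : K, ρ ≠ 0 ∧
      algebraMap L[X] K (pb q r (a.map φ)) = ρ ^ 2 * ψ (algebraMap k[X] K₀ a) ∧
      algebraMap L[X] K (pb q r (b.map φ)) = ρ ^ 2 * ψ (algebraMap k[X] K₀ b) := by
    rcases hd with h1 | ⟨h1, h3, m, hm⟩
    · refine ⟨1, one_ne_zero, ?_, ?_⟩
      · rw [hψ, h1, map_one, one_pow, one_pow]
      · rw [hψ, h1, map_one, one_pow, one_pow]
    · refine ⟨(algebraMap L[X] K r) ^ m, pow_ne_zero _ hr0', ?_, ?_⟩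
      · rw [hψ, hm, ← pow_mul, mul_two]
      · rw [hψ, h1, hm, ← pow_mul, mul_two]
  have inj₀ := IsFractionRing.injective k[X] K₀
  have h2₀ : (2 : K₀) ≠ 0 := by
    have h3 : algebraMap k[X] K₀ (C 2) ≠ 0 := by simpa using h2
    rwa [C_ofNat, map_ofNat] at h3
  intro A B D mA mB mD sA sB sD dA dB dD hinf
  rw [hsub] at dD
  obtain ⟨cA, hcA, A₀, mA₀, sA₀, dA₀, eA⟩ := dvd_pb' φ ha hsa (fun ξ h => (ra ξ h).1) sA dA
  obtain ⟨cB, hcB, B₀, mB₀, sB₀, dB₀, eB⟩ := dvd_pb' φ hb hsb (fun ξ h => (rb ξ h).1) sB dB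
  obtain ⟨cD, hcD, D₀, mD₀, sD₀, dD₀, eD⟩ := dvd_pb' φ hc0 hsc (fun ξ h => (rc ξ h).1) sD dD
  have nA : A.natDegree = n * A₀.natDegree := by
    rw [eA, natDegree_C_mul hcA]
    exact natDegree_pb φ mA₀.ne_zero (hsa.of_dvd ha dA₀) fun ξ h => ra ξ (h.dvd dA₀)
  have nB : B.natDegree = n * B₀.natDegree := by
    rw [eB, natDegree_C_mul hcB]
    exact natDegree_pb φ mB₀.ne_zero (hsb.of_dvd hb dB₀) fun ξ h => rb ξ (h.dvd dB₀)
  have nD : D.natDegree = n * D₀.natDegree := by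
    rw [eD, natDegree_C_mul hcD]
    exact natDegree_pb φ mD₀.ne_zero (hsc.of_dvd hc0 dD₀) fun ξ h => rc ξ (h.dvd dD₀)
  have hpar : ∀ {U V U₀ V₀ : ℕ}, U = n * U₀ → V = n * V₀ → Even (U + V) → Even (U₀ + V₀) := by
    intro U V U₀ V₀ h1 h3 h4
    rw [h1, h3, ← mul_add] at h4
    rcases Nat.even_mul.1 h4 with h5 | h5
    · exact absurd h5 (Nat.not_even_iff_odd.2 hn)
    · exact h5
  have hmax : max (pb q r (a.map φ)).natDegree (pb q r (b.map φ)).natDegree =
      n * max a.natDegree b.natDegree := by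
    rw [Da, Db, Nat.mul_max_mul_left]
  have hinf₀ : InfCond a b A₀ B₀ D₀ := by
    intro hev
    obtain ⟨i1, i2, i3⟩ := hinf (by rw [hmax]; exact hev.mul_left n)
    refine ⟨fun h => ?_, fun h h' => ?_, fun h h' => ?_⟩
    · have h1 := i1 (by rw [Da, Db, h])
      rw [natDegree_mul mA.ne_zero mB.ne_zero] at h1
      rw [natDegree_mul mA₀.ne_zero mB₀.ne_zero]
      exact hpar nA nB h1
    · have h1 := i2 (by rw [hmax, Da, ← h]) (by rw [hmax, hsub, Dc, h'])
      rw [natDegree_mul mA.ne_zero mD.ne_zero] at h1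
      rw [natDegree_mul mA₀.ne_zero mD₀.ne_zero]
      exact hpar nA nD h1
    · have h1 := i3 (by rw [hmax, Db, ← h]) (by rw [hmax, hsub, Dc, h'])
      rw [natDegree_mul mB.ne_zero mD.ne_zero] at h1
      rw [natDegree_mul mB₀.ne_zero mD₀.ne_zero]
      exact hpar nB nD h1
  -- the powers of `r` are squares
  have sqAB : ∃ w : K, w ≠ 0 ∧ (algebraMap L[X] K r) ^ (A₀ * B₀).natDegree = w ^ 2 := by
    rcases hd with h1 | ⟨h1, h3, h4⟩
    · exact ⟨1, one_ne_zero, by rw [h1, map_one, one_pow, one_pow]⟩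
    · obtain ⟨i1, -, -⟩ := hinf₀ (by rw [h1, max_self]; exact h4)
      obtain ⟨m, hm⟩ := i1 h1.symm
      exact ⟨_, pow_ne_zero m hr0', by rw [hm, ← pow_mul, mul_two]⟩
  have sqAD : ∃ w : K, w ≠ 0 ∧ (algebraMap L[X] K r) ^ (A₀ * D₀).natDegree = w ^ 2 := by
    rcases hd with h1 | ⟨h1, h3, h4⟩
    · exact ⟨1, one_ne_zero, by rw [h1, map_one, one_pow, one_pow]⟩
    · obtain ⟨-, i2, -⟩ := hinf₀ (by rw [h1, max_self]; exact h4)
      obtain ⟨m, hm⟩ := i2 (by rw [h1, max_self]) (by rw [h1, max_self, h3])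
      exact ⟨_, pow_ne_zero m hr0', by rw [hm, ← pow_mul, mul_two]⟩
  obtain ⟨P, ⟨c1, h1, hc1, hh1, e1⟩, ⟨c3, h3, hc3, hh3, e3⟩⟩ :=
    hC A₀ B₀ D₀ mA₀ mB₀ mD₀ sA₀ sB₀ sD₀ dA₀ dB₀ dD₀ hinf₀
  obtain ⟨Q, ⟨u, hu, eu⟩, ⟨v, hv, ev⟩⟩ := pt_pull ψ hρ ρa ρb h2₀
    (by simpa using ha) (by simpa using hb) (fun e => hab (inj₀ e)) P
  have hψC : ∀ c : k, ψ (algebraMap k[X] K₀ (C c)) = algebraMap L[X] K (C (φ c)) := by
    intro c
    have := hψ (C c)
    rw [map_C, pb_C, natDegree_C, pow_zero, one_mul] at this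
    exact this.symm
  refine ⟨Q, ?_, ?_⟩
  · obtain ⟨w, hw, ew⟩ := sqAB
    refine ⟨φ c1 * (cA * cB)⁻¹, w * (ψ h1 * u), mul_ne_zero ((map_ne_zero_iff _ φ.injective).2 hc1)
      (inv_ne_zero (mul_ne_zero hcA hcB)), mul_ne_zero hw (mul_ne_zero
      ((map_ne_zero_iff _ ψ.injective).2 hh1) hu), ?_⟩
    have k1 : C (φ c1 * (cA * cB)⁻¹) * (A * B) = C (φ c1) * pb q r ((A₀ * B₀).map φ) := by
      rw [eA, eB, Polynomial.map_mul, pb_mul]
      have k3 : C (cA * cB)⁻¹ * (C cA * C cB) = (1 : L[X]) := by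
        rw [← C_mul, ← C_mul, inv_mul_cancel₀ (mul_ne_zero hcA hcB), C_1]
      rw [C_mul]
      linear_combination C (φ c1) * (pb q r (A₀.map φ) * pb q r (B₀.map φ)) * k3
    rw [k1, map_mul, hψ, ew, ← hψC]
    have k4 := congrArg ψ e1
    rw [map_mul (algebraMap k[X] K₀) (C c1) (A₀ * B₀), map_mul ψ (algebraMap k[X] K₀ (C c1)),
      map_mul ψ (h1 ^ 2), map_pow, eu] at k4
    linear_combination w ^ 2 * k4
  · obtain ⟨w, hw, ew⟩ := sqAD
    refine ⟨φ c3 * (cA * cD)⁻¹, w * (ψ h3 * v), mul_ne_zero ((map_ne_zero_iff _ φ.injective).2 hc3)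
      (inv_ne_zero (mul_ne_zero hcA hcD)), mul_ne_zero hw (mul_ne_zero
      ((map_ne_zero_iff _ ψ.injective).2 hh3) hv), ?_⟩
    have k1 : C (φ c3 * (cA * cD)⁻¹) * (A * D) = C (φ c3) * pb q r ((A₀ * D₀).map φ) := by
      rw [eA, eD, Polynomial.map_mul, pb_mul]
      have k3 : C (cA * cD)⁻¹ * (C cA * C cD) = (1 : L[X]) := by
        rw [← C_mul, ← C_mul, inv_mul_cancel₀ (mul_ne_zero hcA hcD), C_1]
      rw [C_mul]
      linear_combination C (φ c3) * (pb q r (A₀.map φ) * pb q r (D₀.map φ)) * k3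
    rw [k1, map_mul, hψ, ew, ← hψC]
    have k4 := congrArg ψ e3
    rw [map_mul (algebraMap k[X] K₀) (C c3) (A₀ * D₀), map_mul ψ (algebraMap k[X] K₀ (C c3)),
      map_mul ψ (h3 ^ 2), map_pow, ev] at k4
    linear_combination w ^ 2 * k4

end main

end Pool.Agent.X243.Gen
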