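import Pool.Agent.X243.Gen.Pull2

/-!
The Tate conjecture at two for pullbacks.
-/

set_option autoImplicit false
set_option linter.all false

open Polynomial WeierstrassCurve WeierstrassCurve.Affine
open scoped Classical

namespace Pool.Agent.X243.Gen

open Pool.Agent.TH115.GD Pool.Agent.X243.Tate Pool.Agent.X243.Sol Pool.Agent.Y160.T3

section forms

variable {k L : Type} [Field k] [Field L] (φ : k →+* L) {q r : L[X]}

theorem root_of_prime {g : k[X]} (hg : g ≠ 0) (hs : g.Splits) {z : L[X]} (hz : Prime z)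
    (hd : z ∣ pb q r (g.map φ)) : ∃ ξ, g.IsRoot ξ ∧ z ∣ q - C (φ ξ) * r := by
  have e := hs.eq_prod_roots
  have hlc : φ g.leadingCoeff ≠ 0 := (map_ne_zero_iff _ φ.injective).2 (leadingCoeff_ne_zero.2 hg)
  have hmap : (g.roots.map fun ξ => X - C ξ).prod.map φ =
      ((g.roots.map φ).map fun ξ => X - C ξ).prod := by
    rw [Polynomial.map_multiset_prod, Multiset.map_map, Multiset.map_map]
    congr 1
    refine Multiset.map_congr rfl fun ξ _ => ?_
    simp
  have e2 : pb q r (g.map φ) = C (φ g.leadingCoeff) * (g.roots.map fun ξ => q - C (φ ξ) * r).prod := by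
    conv_lhs => rw [e]
    rw [Polynomial.map_mul, map_C, pb_mul, pb_C, hmap, pb_prod, Multiset.map_map]
    rfl
  rw [e2] at hd
  rcases hz.dvd_or_dvd hd with h | h
  · exact absurd (isUnit_of_dvd_unit h (isUnit_C.2 (isUnit_iff_ne_zero.2 hlc))) hz.not_unit
  · obtain ⟨ξ, hξ, h1⟩ := hz.exists_mem_multiset_map_dvd h
    exact ⟨ξ, (mem_roots hg).1 hξ, h1⟩

theorem form_cop (hco : IsCoprime q r) {ξ ξ' : k} (hne : ξ ≠ ξ') {z : L[X]}
    (h1 : z ∣ q - C (φ ξ) * r) (h3 : z ∣ q - C (φ ξ') * r) : IsUnit z := by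
  have hc : φ ξ' - φ ξ ≠ 0 := sub_ne_zero.2 fun h => hne (φ.injective h).symm
  have h4 : z ∣ C (φ ξ' - φ ξ) * r := by
    have := dvd_sub h1 h3
    have e : q - C (φ ξ) * r - (q - C (φ ξ') * r) = C (φ ξ' - φ ξ) * r := by
      rw [C_sub]; ring
    rwa [e] at this
  have h5 : z ∣ r := (isUnit_C.2 (isUnit_iff_ne_zero.2 hc)).dvd_mul_left.1 h4
  have h6 : z ∣ q := (dvd_sub_left (h5.mul_left _)).1 h1
  exact hco.isUnit_of_dvd' h6 h5

theorem cop_pb (hco : IsCoprime q r) (hq : 0 < q.natDegree) {a b : k[X]} (ha : a ≠ 0) (hb : b ≠ 0)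
    (hsa : a.Splits) (hsb : b.Splits) (hab : IsCoprime a b) :
    IsCoprime (pb q r (a.map φ)) (pb q r (b.map φ)) := by
  refine isCoprime_of_prime_dvd ?_ ?_
  · rintro ⟨h, -⟩
    exact pb_ne hco hq ((Polynomial.map_ne_zero_iff φ.injective).2 ha) h
  · intro z hz h1 h3
    obtain ⟨ξ, hξ, d1⟩ := root_of_prime φ ha hsa hz h1
    obtain ⟨ξ', hξ', d2⟩ := root_of_prime φ hb hsb hz h3
    have hne : ξ ≠ ξ' := by
      rintro rfl
      obtain ⟨u, v, huv⟩ := hab
      have := congrArg (eval ξ) huv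
      rw [eval_add, eval_mul, eval_mul, hξ, hξ', mul_zero, mul_zero, add_zero, eval_one] at this
      exact zero_ne_one this
    exact hz.not_unit (form_cop φ hco hne d1 d2)

theorem odd_pb (hco : IsCoprime q r) {n : ℕ} (hn : Odd n) {g : k[X]} (hg : g ≠ 0) (hs : g.Splits)
    (hirr : ∀ ξ, g.IsRoot ξ → Irreducible (q - C (φ ξ) * r) ∧ (q - C (φ ξ) * r).natDegree = n)
    (h : HasOddFactor g) : HasOddFactor (pb q r (g.map φ)) := by
  obtain ⟨π, m, hπ, -, hd, hnd⟩ := h
  -- the factor is linear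
  have h1 : π ∣ g := (dvd_pow_self π (by omega)).trans hd
  obtain ⟨ξ, hξ, h3⟩ : ∃ ξ, g.IsRoot ξ ∧ π ∣ X - C ξ := by
    have h4 := h1
    rw [hs.eq_prod_roots] at h4
    rcases hπ.prime.dvd_or_dvd h4 with h5 | h5
    · exact absurd (isUnit_of_dvd_unit h5 (isUnit_C.2 (isUnit_iff_ne_zero.2
        (leadingCoeff_ne_zero.2 hg)))) hπ.not_isUnit
    · obtain ⟨ξ, hξ, h6⟩ := hπ.prime.exists_mem_multiset_map_dvd h5
      exact ⟨ξ, (mem_roots hg).1 hξ, h6⟩
  have has : Associated π (X - C ξ) := hπ.associated_of_dvd (irreducible_X_sub_C ξ) h3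
  have hd' : (X - C ξ) ^ (2 * m + 1) ∣ g := (has.pow_pow.dvd_iff_dvd_left).1 hd
  have hnd' : ¬ (X - C ξ) ^ (2 * m + 2) ∣ g := fun h => hnd ((has.pow_pow.dvd_iff_dvd_left).2 h)
  obtain ⟨g', hg'⟩ := hd'
  have hnr : ¬ g'.IsRoot ξ := by
    intro hr
    apply hnd'
    obtain ⟨g'', hg''⟩ := dvd_iff_isRoot.2 hr
    rw [hg', hg'', show 2 * m + 2 = (2 * m + 1) + 1 by ring, pow_succ (X - C ξ) (2 * m + 1)]
    exact mul_dvd_mul_left _ (dvd_mul_right _ _)
  have hg'0 : g' ≠ 0 := by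
    rintro rfl
    rw [mul_zero] at hg'
    exact hg hg'
  obtain ⟨i1, i2⟩ := hirr ξ hξ
  have e : pb q r (g.map φ) = (q - C (φ ξ) * r) ^ (2 * m + 1) * pb q r (g'.map φ) := by
    rw [hg', Polynomial.map_mul, Polynomial.map_pow, Polynomial.map_sub, map_X, map_C, pb_mul,
      pb_pow, pb_lin]
  refine ⟨q - C (φ ξ) * r, m, i1, by rw [i2]; exact hn, ?_, ?_⟩
  · rw [e]
    exact dvd_mul_right _ _
  · intro h4
    rw [e, show 2 * m + 2 = (2 * m + 1) + 1 by ring, pow_succ (q - C (φ ξ) * r) (2 * m + 1),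
      mul_dvd_mul_iff_left (pow_ne_zero _ i1.ne_zero)] at h4
    obtain ⟨ξ', hξ', h5⟩ := root_of_prime φ hg'0
      (hs.of_dvd hg ⟨_, by rw [hg', mul_comm]⟩) i1.prime h4
    have hne : ξ ≠ ξ' := by
      rintro rfl
      exact hnr hξ'
    exact i1.not_isUnit (form_cop φ hco hne dvd_rfl h5)

end forms

section tate

variable {k K₀ : Type} [Field k] [Field K₀] [Algebra k[X] K₀] [IsFractionRing k[X] K₀]

/-- The base: an elliptic curve `y ^ 2 = x (x - a) (x - b)` over `k(s)` with complete first descent, all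
of whose finite places of bad reduction are rational. -/
structure Base (K₀ : Type) [Field K₀] [Algebra k[X] K₀] (a b : k[X]) : Prop where
  ha : a ≠ 0
  hb : b ≠ 0
  hab : a ≠ b
  co : IsCoprime a b
  sa : a.Splits
  sb : b.Splits
  sc : (a - b).Splits
  odd : Odd (max a.natDegree b.natDegree) ∨ TwoOddFactors a b
  complete : Complete K₀ a b

theorem pull_tate (h2 : (2 : k) ≠ 0) {a b : k[X]} (hB : Base K₀ a b)
    {L L' K F : Type} [Field L] [Field L'] [Algebra L L'] [Field K] [Algebra L[X] K]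
    [Field F] [Algebra L'[X] F] [IsFractionRing L'[X] F] [Algebra K F] (hT : IsTower L L' K F)
    (φ : k →+* L) {q r : L[X]} (hco : IsCoprime q r) (hq : 0 < q.natDegree) {n : ℕ} (hn : Odd n)
    (hirr : ∀ ξ, (a * b * (a - b)).IsRoot ξ → Irreducible (q - C (φ ξ) * r) ∧
      (q - C (φ ξ) * r).natDegree = n ∧ (q - C (φ ξ) * r).Separable)
    (hd : r = 1 ∨ (b.natDegree = a.natDegree ∧ (a - b).natDegree = a.natDegree ∧
      Even a.natDegree)) :
    TateAtTwo (F := F) L' (crv (algebraMap L[X] K (pb q r (a.map φ)))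
      (algebraMap L[X] K (pb q r (b.map φ)))) ∧
    Complete K (pb q r (a.map φ)) (pb q r (b.map φ)) := by
  haveI := hT.fracK
  obtain ⟨ha, hb, hab, co, sa, sb, sc, odd, hC⟩ := hB
  have hc0 : a - b ≠ 0 := sub_ne_zero.2 hab
  have h2L : (2 : L) ≠ 0 := by
    rw [← map_ofNat φ 2]
    exact (map_ne_zero_iff _ φ.injective).2 h2
  have ra : ∀ ξ, a.IsRoot ξ → Irreducible (q - C (φ ξ) * r) ∧ (q - C (φ ξ) * r).natDegree = n := by
    intro ξ h
    have := hirr ξ (by rw [IsRoot.def, eval_mul, eval_mul, IsRoot.def.1 h, zero_mul, zero_mul])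
    exact ⟨this.1, this.2.1⟩
  have rb : ∀ ξ, b.IsRoot ξ → Irreducible (q - C (φ ξ) * r) ∧ (q - C (φ ξ) * r).natDegree = n := by
    intro ξ h
    have := hirr ξ (by rw [IsRoot.def, eval_mul, eval_mul, IsRoot.def.1 h, mul_zero, zero_mul])
    exact ⟨this.1, this.2.1⟩
  have rc : ∀ ξ, (a - b).IsRoot ξ →
      Irreducible (q - C (φ ξ) * r) ∧ (q - C (φ ξ) * r).natDegree = n := by
    intro ξ h
    have := hirr ξ (by rw [IsRoot.def, eval_mul, IsRoot.def.1 h, mul_zero])
    exact ⟨this.1, this.2.1⟩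
  have hsub : pb q r (a.map φ) - pb q r (b.map φ) = pb q r ((a - b).map φ) := by
    rw [Polynomial.map_sub]
    rcases hd with rfl | ⟨h1, h3, -⟩
    · exact pb_sub_one q _ _
    · apply pb_sub_eq
      · rw [natDegree_map, natDegree_map, h1]
      · rw [← Polynomial.map_sub, natDegree_map, natDegree_map, h3]
  have na : pb q r (a.map φ) ≠ 0 := pb_ne hco hq ((Polynomial.map_ne_zero_iff φ.injective).2 ha)
  have nb : pb q r (b.map φ) ≠ 0 := pb_ne hco hq ((Polynomial.map_ne_zero_iff φ.injective).2 hb)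
  have nc : pb q r ((a - b).map φ) ≠ 0 :=
    pb_ne hco hq ((Polynomial.map_ne_zero_iff φ.injective).2 hc0)
  have Da := natDegree_pb φ ha sa ra
  have Db := natDegree_pb φ hb sb rb
  have key := complete_pull (K₀ := K₀) (K := K) φ h2 ha hb hab sa sb sc hC hco hq hn
    (fun ξ h => ⟨(hirr ξ h).1, (hirr ξ h).2.1⟩) hd
  refine ⟨?_, key⟩
  refine criterion hT h2L na nb ?_ (cop_pb φ hco hq ha hb sa sb co) ?_ ?_
    (enough_of_complete hT h2L key)
  · intro e
    apply nc
    rw [← hsub, e, sub_self]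
  · intro π hπ hdv
    have h1 : π ∣ pb q r ((a * b * (a - b)).map φ) := by
      rw [hsub] at hdv
      rw [Polynomial.map_mul, Polynomial.map_mul, pb_mul, pb_mul]
      exact hdv
    obtain ⟨ξ, hξ, h3⟩ := root_of_prime φ (mul_ne_zero (mul_ne_zero ha hb) hc0)
      ((sa.mul sb).mul sc) hπ.prime h1
    exact (hirr ξ hξ).2.2.of_dvd h3
  · rcases odd with h | h
    · left
      rw [Da, Db, Nat.mul_max_mul_left]
      exact hn.mul h
    · right
      unfold TwoOddFactors
      rw [hsub]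
      rcases h with ⟨h1, h3⟩ | ⟨h1, h3⟩ | ⟨h1, h3⟩
      · exact Or.inl ⟨odd_pb φ hco hn ha sa ra h1, odd_pb φ hco hn hb sb rb h3⟩
      · exact Or.inr (Or.inl ⟨odd_pb φ hco hn ha sa ra h1, odd_pb φ hco hn hc0 sc rc h3⟩)
      · exact Or.inr (Or.inr ⟨odd_pb φ hco hn hb sb rb h1, odd_pb φ hco hn hc0 sc rc h3⟩)

theorem pull_ext (h2 : (2 : k) ≠ 0) {a b : k[X]} (hB : Base K₀ a b)
    {q r : k[X]} {n : ℕ} (h5 : 5 ≤ n) (hn : Odd n) (hco : IsCoprime q r) (hq : q.natDegree = n)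
    (hf : ∀ ξ, (a * b * (a - b)).IsRoot ξ → FF n (q - C ξ * r))
    (hd : r = 1 ∨ (b.natDegree = a.natDegree ∧ (a - b).natDegree = a.natDegree ∧
      Even a.natDegree))
    {L L' K F : Type} [Field L] [Algebra k L] [Field L']
    [Algebra L L'] [Algebra k L'] [IsScalarTower k L L'] [Field K] [Algebra L[X] K]
    [Field F] [Algebra L'[X] F] [IsFractionRing L'[X] F] [Algebra K F] (hT : IsTower L L' K F)
    (M : IntermediateField k L') (hMn : Normal k M)
    (hM : ∀ x : L, IsSeparable k x → algebraMap L L' x ∈ M)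
    (hns : ∀ ξ, (a * b * (a - b)).IsRoot ξ → ¬ ((q - C ξ * r).map (algebraMap k M)).Splits) :
    TateAtTwo (F := F) L' (crv (algebraMap L[X] K ((pb q r a).map (algebraMap k L)))
      (algebraMap L[X] K ((pb q r b).map (algebraMap k L)))) ∧
    Complete K ((pb q r a).map (algebraMap k L)) ((pb q r b).map (algebraMap k L)) := by
  haveI := hT.sep
  rw [pb_map, pb_map]
  refine pull_tate h2 hB hT (algebraMap k L) (hco.map (mapRingHom (algebraMap k L))) ?_ hn ?_ ?_
  · rw [natDegree_map, hq]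
    omega
  · intro ξ hξ
    obtain ⟨f1, f2, f3⟩ := hf ξ hξ
    obtain ⟨i1, -⟩ := three_gen f2 (by rw [f1.2]; exact h5) f3 h2 L L' M hM (hns ξ hξ)
    have e : (q - C ξ * r).map (algebraMap k L) =
        q.map (algebraMap k L) - C (algebraMap k L ξ) * r.map (algebraMap k L) := by
      rw [Polynomial.map_sub, Polynomial.map_mul, map_C]
    rw [← e]
    refine ⟨i1, ?_, f2.map⟩
    rw [natDegree_map, f1.2]
  · rcases hd with rfl | h
    · left
      exact Polynomial.map_one _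
    · exact Or.inr h

theorem pull_solv (h2 : (2 : k) ≠ 0) {a b : k[X]} (hB : Base K₀ a b)
    {q r : k[X]} {n : ℕ} (h5 : 5 ≤ n) (hn : Odd n) (hco : IsCoprime q r) (hq : q.natDegree = n)
    (hf : ∀ ξ, (a * b * (a - b)).IsRoot ξ → FF n (q - C ξ * r))
    (hd : r = 1 ∨ (b.natDegree = a.natDegree ∧ (a - b).natDegree = a.natDegree ∧
      Even a.natDegree))
    {L L' K F : Type} [Field L] [Algebra k L] [Field L']
    [Algebra L L'] [Algebra k L'] [IsScalarTower k L L'] [Field K] [Algebra L[X] K]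
    [Field F] [Algebra L'[X] F] [IsFractionRing L'[X] F] [Algebra K F] (hT : IsTower L L' K F)
    (hM : ∀ x : L, IsSeparable k x → Group.IsSolvable (minpoly k x).Gal) :
    TateAtTwo (F := F) L' (crv (algebraMap L[X] K ((pb q r a).map (algebraMap k L)))
      (algebraMap L[X] K ((pb q r b).map (algebraMap k L)))) ∧
    Complete K ((pb q r a).map (algebraMap k L)) ((pb q r b).map (algebraMap k L)) := by
  haveI := hT.sep
  haveI : IsSepClosed L' := IsSepClosure.sep_closed L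
  exact pull_ext h2 hB h5 hn hco hq hf hd hT (solvM k L') (solvM_normal L')
    (fun x hx => mem_solvM hx (hM x hx))
    (fun ξ hξ => solvM_not_splits L' (hf ξ hξ).2.1 (by rw [(hf ξ hξ).1.2]; exact h5)
      (hf ξ hξ).2.2)

end tate

end Pool.Agent.X243.Gen
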