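import Pool.Agent.X243.Gen.Pull3

/-!
The linear forms for a rational function, and examples.
-/

set_option autoImplicit false
set_option linter.all false

open Polynomial WeierstrassCurve WeierstrassCurve.Affine
open scoped Classical

namespace Pool.Agent.X243.Gen

open Pool.Agent.TH115.GD Pool.Agent.X243.Tate Pool.Agent.X243.Sol Pool.Agent.Y160.T3

section forms

variable {R k : Type} [CommRing R] [IsDomain R] [IsIntegrallyClosed R] [IsNoetherianRing R]
  [Field k] [Algebra R k] [IsFractionRing R k]

/-- The numerator and the denominator of an element. -/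
noncomputable def nd (R : Type) {k : Type} [CommRing R] [IsDomain R] [Field k] [Algebra R k]
    [IsFractionRing R k] (ξ : k) : R × R :=
  ((IsLocalization.surj (nonZeroDivisors R) ξ).choose.1,
    ((IsLocalization.surj (nonZeroDivisors R) ξ).choose.2 : R))

theorem nd_ne (ξ : k) : (nd R ξ).2 ≠ 0 :=
  nonZeroDivisors.ne_zero (IsLocalization.surj (nonZeroDivisors R) ξ).choose.2.2

theorem nd_eq (ξ : k) : ξ * algebraMap R k (nd R ξ).2 = algebraMap R k (nd R ξ).1 :=
  (IsLocalization.surj (nonZeroDivisors R) ξ).choose_spec

/-- The coefficients of `q` in the forms `q`, `r`, `q - ξ r`. -/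
noncomputable def ql (R : Type) {k : Type} [CommRing R] [IsDomain R] [Field k] [Algebra R k]
    [IsFractionRing R k] (S : Finset k) : Option (Option S) → R
  | none => 1
  | some none => 0
  | some (some ξ) => (nd R ξ.1).2

/-- The coefficients of `r`. -/
noncomputable def qm (R : Type) {k : Type} [CommRing R] [IsDomain R] [Field k] [Algebra R k]
    [IsFractionRing R k] (S : Finset k) : Option (Option S) → R
  | none => 0
  | some none => 1
  | some (some ξ) => -(nd R ξ.1).1

theorem q_ne (S : Finset k) (i : Option (Option S)) : ql R S i ≠ 0 ∨ qm R S i ≠ 0 := by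
  rcases i with _ | _ | ξ
  · exact Or.inl one_ne_zero
  · exact Or.inr one_ne_zero
  · exact Or.inl (nd_ne ξ.1)

theorem q_det (S : Finset k) : ql R S none * qm R S (some none) -
    ql R S (some none) * qm R S none ≠ 0 := by
  have e : ql R S none * qm R S (some none) - ql R S (some none) * qm R S none = 1 := by
    show (1 : R) * 1 - 0 * 0 = 1
    ring
  rw [e]
  exact one_ne_zero

theorem pull_good {S : Finset k} {N b : ℕ} {c : R} (hN : 3 ≤ N)
    {y : Fin (N + 1) ⊕ Fin (N + 1) → R}
    (h : ∀ s : Option (Option (Option S) × Fin 3), ∃ p ∈ Zc R b c,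
      (fun j => Ideal.Quotient.mk p (y j)) ∈ Lev N (ql R S) (qm R S) none (some none) s p)
    (q r : k[X]) (hq : q = (bF (y ∘ Sum.inl)).map (algebraMap R k))
    (hr : r = (bF (y ∘ Sum.inr)).map (algebraMap R k)) :
    FF N q ∧ FF N r ∧ (∀ ξ ∈ S, FF N (q - C ξ * r)) ∧ IsCoprime q r := by
  obtain ⟨h1, h2⟩ := lin_good (k := k) hN h q r hq hr
  refine ⟨?_, ?_, ?_, h2⟩
  · have := h1 none
    have e : C (algebraMap R k (ql R S none)) * q + C (algebraMap R k (qm R S none)) * r = q := by
      show C (algebraMap R k 1) * q + C (algebraMap R k 0) * r = q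
      rw [map_one, map_zero, C_1, C_0]
      ring
    rwa [e] at this
  · have := h1 (some none)
    have e : C (algebraMap R k (ql R S (some none))) * q +
        C (algebraMap R k (qm R S (some none))) * r = r := by
      show C (algebraMap R k 0) * q + C (algebraMap R k 1) * r = r
      rw [map_one, map_zero, C_1, C_0]
      ring
    rwa [e] at this
  · intro ξ hξ
    have := h1 (some (some ⟨ξ, hξ⟩))
    have hd : algebraMap R k (nd R ξ).2 ≠ 0 :=
      (map_ne_zero_iff _ (IsFractionRing.injective R k)).2 (nd_ne ξ)
    apply FF_unit hd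
    have e : C (algebraMap R k (nd R ξ).2) * (q - C ξ * r) =
        C (algebraMap R k (ql R S (some (some ⟨ξ, hξ⟩)))) * q +
          C (algebraMap R k (qm R S (some (some ⟨ξ, hξ⟩)))) * r := by
      show _ = C (algebraMap R k (nd R ξ).2) * q + C (algebraMap R k (-(nd R ξ).1)) * r
      rw [map_neg, ← nd_eq, C_neg, C_mul]
      ring
    rw [e]
    exact this

end forms

end Pool.Agent.X243.Gen
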