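import Pool.Agent.X243.Gen.Lin
import Pool.Agent.TH115.GD.Rk2

/-!
The elliptic surfaces `y ^ 2 = x (x - (p ^ 2 - q ^ 2)) (x - (p ^ 2 - r ^ 2))`, `p = α q + β r`, over all
the finitely generated fields of characteristic different from two and their extensions.
-/

set_option autoImplicit false
set_option linter.all false

open Polynomial
open scoped Classical

namespace Pool.Agent.X243.Gen

open Pool.Agent.TH115.GD Pool.Agent.X243.Tate Pool.Agent.X243.Sol Pool.Agent.Y160.T3

section unit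

variable {k : Type} [Field k]

theorem FF_unit {n : ℕ} {d : k} (hd : d ≠ 0) {f : k[X]} (h : FF n (C d * f)) : FF n f := by
  obtain ⟨h1, h2, h3⟩ := h
  have hu : IsUnit (C d : k[X]) := isUnit_C.2 (isUnit_iff_ne_zero.2 hd)
  refine ⟨⟨(irreducible_isUnit_mul hu).1 h1.1, ?_⟩, h2.of_mul_right, ?_⟩
  · have := h1.2
    rwa [natDegree_C_mul hd] at this
  · intro E _ _ _ _ hspl
    have hspl' : ((C d * f).map (algebraMap k E)).Splits := by
      rw [Polynomial.map_mul, map_C]
      exact (Polynomial.Splits.C _).mul hspl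
    have key := h3 E hspl'
    have hf0 : f ≠ 0 := right_ne_zero_of_mul h1.1.ne_zero
    have e : (C d * f).rootSet E = f.rootSet E := by
      ext x
      rw [mem_rootSet, mem_rootSet, map_mul, aeval_C, mul_eq_zero, map_eq_zero]
      exact ⟨fun h => ⟨hf0, h.2.resolve_left hd⟩, fun h => ⟨h1.1.ne_zero, Or.inr h.2⟩⟩
    intro τ
    obtain ⟨s, hs⟩ := key (((Equiv.setCongr e).trans τ).trans (Equiv.setCongr e).symm)
    refine ⟨s, Equiv.ext fun x => Subtype.ext ?_⟩
    have h4 := congrArg (fun π : Equiv.Perm ((C d * f).rootSet E) =>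
      ((π ⟨x.1, (Set.ext_iff.1 e x.1).2 x.2⟩ : (C d * f).rootSet E) : E)) hs
    exact h4

end unit

section ext

variable {k : Type} [Field k]

/-- The six forms. -/
def fms (α β : k) (q r : k[X]) : Set k[X] :=
  {C α * q + C β * r + q, C α * q + C β * r - q, C α * q + C β * r + r, C α * q + C β * r - r,
    q + r, q - r}

theorem fms_map {L : Type} [Field L] (φ : k →+* L) {α β : k} {q r : k[X]} {g : L[X]}
    (h : g ∈ fms (φ α) (φ β) (q.map φ) (r.map φ)) :
    ∃ f ∈ fms α β q r, g = f.map φ := by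
  simp only [fms, Set.mem_insert_iff, Set.mem_singleton_iff] at h
  rcases h with rfl | rfl | rfl | rfl | rfl | rfl
  · exact ⟨C α * q + C β * r + q, by simp [fms], by simp⟩
  · exact ⟨C α * q + C β * r - q, by simp [fms], by simp⟩
  · exact ⟨C α * q + C β * r + r, by simp [fms], by simp⟩
  · exact ⟨C α * q + C β * r - r, by simp [fms], by simp⟩
  · exact ⟨q + r, by simp [fms], by simp⟩
  · exact ⟨q - r, by simp [fms], by simp⟩

theorem rk_ext (h2 : (2 : k) ≠ 0) {α β μ : k} (hα : α ≠ 0) (hβ : β ≠ 0) (hμ : μ ≠ 0)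
    (hsq : ((α + β) ^ 2 - 1) * ((α - β) ^ 2 - 1) = μ ^ 2) {q r : k[X]} {n : ℕ} (hn : 5 ≤ n)
    (hodd : Odd n) (hf : ∀ f ∈ fms α β q r, FF n f) (hco : IsCoprime q r)
    {L L' K F : Type} [Field L] [Algebra k L] [Field L']
    [Algebra L L'] [Algebra k L'] [IsScalarTower k L L'] [Field K] [Algebra L[X] K]
    [Field F] [Algebra L'[X] F] [IsFractionRing L'[X] F] [Algebra K F] (hT : IsTower L L' K F)
    (M : IntermediateField k L') (hMn : Normal k M)
    (hM : ∀ x : L, IsSeparable k x → algebraMap L L' x ∈ M)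
    (hns : ∀ f ∈ fms α β q r, ¬ (f.map (algebraMap k M)).Splits) {α' β' : L} {p' q' r' : L[X]}
    (eα : α' = algebraMap k L α) (eβ : β' = algebraMap k L β)
    (eq' : q' = q.map (algebraMap k L)) (er : r' = r.map (algebraMap k L))
    (ep : p' = C α' * q' + C β' * r') :
    TateAtTwo (F := F) L' (crv (algebraMap L[X] K (p' ^ 2 - q' ^ 2))
      (algebraMap L[X] K (p' ^ 2 - r' ^ 2))) ∧
    ∃ P : Fin 2 → Pt (crv (algebraMap L[X] K (p' ^ 2 - q' ^ 2))
      (algebraMap L[X] K (p' ^ 2 - r' ^ 2))) K, LinearIndependent ℤ P := by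
  haveI := hT.sep
  haveI := hT.fracK
  have hinj := (algebraMap k L).injective
  have h2L : (2 : L) ≠ 0 := by
    rw [← map_ofNat (algebraMap k L) 2]
    exact (map_ne_zero_iff _ hinj).2 h2
  have hα' : α' ≠ 0 := by rw [eα]; exact (map_ne_zero_iff _ hinj).2 hα
  have hβ' : β' ≠ 0 := by rw [eβ]; exact (map_ne_zero_iff _ hinj).2 hβ
  have hμ' : algebraMap k L μ ≠ 0 := (map_ne_zero_iff _ hinj).2 hμ
  have hsq' : ((α' + β') ^ 2 - 1) * ((α' - β') ^ 2 - 1) = (algebraMap k L μ) ^ 2 := by
    rw [eα, eβ, ← map_pow, ← hsq]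
    simp only [map_mul, map_sub, map_pow, map_add, map_one]
  have hco' : IsCoprime q' r' := by
    rw [eq', er]
    exact hco.map (mapRingHom (algebraMap k L))
  have hgood : ∀ g ∈ ({p' + q', p' - q', p' + r', p' - r', q' + r', q' - r'} : Set L[X]),
      Irreducible g ∧ g.Separable ∧ g.natDegree = n := by
    intro g hg
    have hg' : g ∈ fms (algebraMap k L α) (algebraMap k L β) (q.map (algebraMap k L))
        (r.map (algebraMap k L)) := by
      rw [← eα, ← eβ, ← eq', ← er]
      rw [ep] at hg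
      exact hg
    obtain ⟨f, hfm, rfl⟩ := fms_map _ hg'
    obtain ⟨f1, f2, f3⟩ := hf f hfm
    have h5 := three_gen f2 (by rw [f1.2]; exact hn) f3 h2 L L' M hM (hns f hfm)
    refine ⟨h5.1, f2.map, ?_⟩
    rw [natDegree_map, f1.2]
  exact ⟨rank2 hT h2L hα' hβ' hμ' hsq' ep hco' hodd hgood,
    indep2 h2L hα' hβ' hμ' hsq' ep hco' fun f hf => (hgood f hf).1⟩

theorem rk_solv (h2 : (2 : k) ≠ 0) {α β μ : k} (hα : α ≠ 0) (hβ : β ≠ 0) (hμ : μ ≠ 0)
    (hsq : ((α + β) ^ 2 - 1) * ((α - β) ^ 2 - 1) = μ ^ 2) {q r : k[X]} {n : ℕ} (hn : 5 ≤ n)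
    (hodd : Odd n) (hf : ∀ f ∈ fms α β q r, FF n f) (hco : IsCoprime q r)
    {L L' K F : Type} [Field L] [Algebra k L] [Field L']
    [Algebra L L'] [Algebra k L'] [IsScalarTower k L L'] [Field K] [Algebra L[X] K]
    [Field F] [Algebra L'[X] F] [IsFractionRing L'[X] F] [Algebra K F] (hT : IsTower L L' K F)
    (hM : ∀ x : L, IsSeparable k x → Group.IsSolvable (minpoly k x).Gal)
    {α' β' : L} {p' q' r' : L[X]}
    (eα : α' = algebraMap k L α) (eβ : β' = algebraMap k L β)
    (eq' : q' = q.map (algebraMap k L)) (er : r' = r.map (algebraMap k L))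
    (ep : p' = C α' * q' + C β' * r') :
    TateAtTwo (F := F) L' (crv (algebraMap L[X] K (p' ^ 2 - q' ^ 2))
      (algebraMap L[X] K (p' ^ 2 - r' ^ 2))) ∧
    ∃ P : Fin 2 → Pt (crv (algebraMap L[X] K (p' ^ 2 - q' ^ 2))
      (algebraMap L[X] K (p' ^ 2 - r' ^ 2))) K, LinearIndependent ℤ P := by
  haveI := hT.sep
  haveI : IsSepClosed L' := IsSepClosure.sep_closed L
  exact rk_ext h2 hα hβ hμ hsq hn hodd hf hco hT (solvM k L') (solvM_normal L')
    (fun x hx => mem_solvM hx (hM x hx))
    (fun f hfm => solvM_not_splits L' (hf f hfm).2.1 (by rw [(hf f hfm).1.2]; exact hn)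
      (hf f hfm).2.2) eα eβ eq' er ep

end ext

section forms

variable {R k : Type} [CommRing R] [IsDomain R] [IsIntegrallyClosed R] [IsNoetherianRing R]
  [Field k] [Algebra R k] [IsFractionRing R k]

/-- The coefficients of `q` in the six forms, times a denominator. -/
def rl (A D : R) : Fin 6 → R := ![A + D, A - D, A, A, 1, 1]

/-- The coefficients of `r` in the six forms, times a denominator. -/
def rm (B D : R) : Fin 6 → R := ![B, B, B + D, B - D, 1, -1]

theorem r_ne {A B D : R} (hA : A ≠ 0) (hB : B ≠ 0) (i : Fin 6) :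
    rl A D i ≠ 0 ∨ rm B D i ≠ 0 := by
  fin_cases i
  · exact Or.inr hB
  · exact Or.inr hB
  · exact Or.inl hA
  · exact Or.inl hA
  · exact Or.inl one_ne_zero
  · exact Or.inl one_ne_zero

theorem r_det (h2 : (2 : R) ≠ 0) (A B D : R) :
    rl A D 4 * rm B D 5 - rl A D 5 * rm B D 4 ≠ 0 := by
  have e : rl A D 4 * rm B D 5 - rl A D 5 * rm B D 4 = -2 := by
    show (1 : R) * (-1) - 1 * 1 = -2
    ring
  rw [e]
  exact neg_ne_zero.2 h2

theorem rk_good {A B D : R} (hD : D ≠ 0) {α β : k} (hα : α * algebraMap R k D = algebraMap R k A)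
    (hβ : β * algebraMap R k D = algebraMap R k B) {N b : ℕ} {c : R} (hN : 3 ≤ N)
    {y : Fin (N + 1) ⊕ Fin (N + 1) → R}
    (h : ∀ s : Option (Fin 6 × Fin 3), ∃ p ∈ Zc R b c,
      (fun j => Ideal.Quotient.mk p (y j)) ∈ Lev N (rl A D) (rm B D) 4 5 s p) (q r : k[X])
    (hq : q = (bF (y ∘ Sum.inl)).map (algebraMap R k))
    (hr : r = (bF (y ∘ Sum.inr)).map (algebraMap R k)) :
    (∀ f ∈ fms α β q r, FF N f) ∧ IsCoprime q r := by
  obtain ⟨h1, h2⟩ := lin_good (k := k) hN h q r hq hr
  refine ⟨?_, h2⟩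
  have hD' : algebraMap R k D ≠ 0 := (map_ne_zero_iff _ (IsFractionRing.injective R k)).2 hD
  obtain ⟨d, hd⟩ : ∃ d, d = algebraMap R k D := ⟨_, rfl⟩
  rw [← hd] at hD' hα hβ
  intro f hf
  simp only [fms, Set.mem_insert_iff, Set.mem_singleton_iff] at hf
  rcases hf with rfl | rfl | rfl | rfl | rfl | rfl
  · apply FF_unit hD'
    have e : C d * (C α * q + C β * r + q) =
        C (algebraMap R k (rl A D 0)) * q + C (algebraMap R k (rm B D 0)) * r := by
      show _ = C (algebraMap R k (A + D)) * q + C (algebraMap R k B) * r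
      rw [map_add, ← hα, ← hβ, ← hd]
      simp only [C_add, C_mul]
      ring
    rw [e]
    exact h1 0
  · apply FF_unit hD'
    have e : C d * (C α * q + C β * r - q) =
        C (algebraMap R k (rl A D 1)) * q + C (algebraMap R k (rm B D 1)) * r := by
      show _ = C (algebraMap R k (A - D)) * q + C (algebraMap R k B) * r
      rw [map_sub, ← hα, ← hβ, ← hd]
      simp only [C_sub, C_mul]
      ring
    rw [e]
    exact h1 1
  · apply FF_unit hD'
    have e : C d * (C α * q + C β * r + r) =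
        C (algebraMap R k (rl A D 2)) * q + C (algebraMap R k (rm B D 2)) * r := by
      show _ = C (algebraMap R k A) * q + C (algebraMap R k (B + D)) * r
      rw [map_add, ← hα, ← hβ, ← hd]
      simp only [C_add, C_mul]
      ring
    rw [e]
    exact h1 2
  · apply FF_unit hD'
    have e : C d * (C α * q + C β * r - r) =
        C (algebraMap R k (rl A D 3)) * q + C (algebraMap R k (rm B D 3)) * r := by
      show _ = C (algebraMap R k A) * q + C (algebraMap R k (B - D)) * r
      rw [map_sub, ← hα, ← hβ, ← hd]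
      simp only [C_sub, C_mul]
      ring
    rw [e]
    exact h1 3
  · have e : q + r = C (algebraMap R k (rl A D 4)) * q + C (algebraMap R k (rm B D 4)) * r := by
      show _ = C (algebraMap R k 1) * q + C (algebraMap R k 1) * r
      rw [map_one, C_1]
      ring
    rw [e]
    exact h1 4
  · have e : q - r = C (algebraMap R k (rl A D 5)) * q + C (algebraMap R k (rm B D 5)) * r := by
      show _ = C (algebraMap R k 1) * q + C (algebraMap R k (-1)) * r
      rw [map_neg, map_one, C_neg, C_1]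
      ring
    rw [e]
    exact h1 5

end forms

end Pool.Agent.X243.Gen
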