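import Pool.Agent.X243.Gen.Frob

/-!
Frobenius elements acting on the roots of a polynomial, over the fraction field of an integrally closed
Noetherian domain.
-/

set_option autoImplicit false
set_option linter.all false

open Polynomial IsLocalRing
open scoped Classical

namespace Pool.Agent.X243.Gen

open Pool.Agent.X243.Tate Pool.Agent.X243.Sol

section frob

variable {R k : Type} [CommRing R] [IsDomain R] [IsIntegrallyClosed R] [IsNoetherianRing R]
  [Field k] [Algebra R k] [IsFractionRing R k] (m : Ideal R) [m.IsMaximal] [Finite (R ⧸ m)]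

theorem map_quot {S : Type} [CommRing S] (ρ : R →+* S) {κ : Type} [CommRing κ] (π : S →+* κ)
    (j : R ⧸ m →+* κ) (h : ∀ x, π (ρ x) = j (Ideal.Quotient.mk m x)) (f : R[X]) :
    (f.map ρ).map π = (f.map (Ideal.Quotient.mk m)).map j := by
  rw [Polynomial.map_map, Polynomial.map_map]
  congr 1
  ext x
  exact h x

/-- The roots and the action of the Frobenius element. -/
theorem frob_roots (k) [Field k] [Algebra R k] [IsFractionRing R k] {f : R[X]} {N : ℕ}
    (hf : f.natDegree ≤ N)
    (hd : (f.map (Ideal.Quotient.mk m)).natDegree = N)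
    (hsep : (f.map (Ideal.Quotient.mk m)).Separable)
    (E : Type) [Field E] [Algebra k E]
    [FiniteDimensional k E] [IsGalois k E] [Algebra R E] [IsScalarTower R k E]
    (hspl : ((f.map (algebraMap R k)).map (algebraMap k E)).Splits) :
    ∃ (B : ValuationSubring E) (ρ : R →+* B) (j : R ⧸ m →+* ResidueField B) (σ : E ≃ₐ[k] E),
      (∀ x : R, (ρ x : E) = algebraMap R E x) ∧
      (∀ x : R, residue B (ρ x) = j (Ideal.Quotient.mk m x)) ∧
      (∀ (c : R), c ∉ m → ∀ θ : E, IsIntegral R (algebraMap R E c * θ) →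
        θ ∈ B ∧ σ θ ∈ B ∧ red B (σ θ) = red B θ ^ Nat.card (R ⧸ m)) ∧
      f.leadingCoeff ∉ m ∧
      (∀ θ : E, aeval θ (f.map (algebraMap R k)) = 0 → θ ∈ B ∧ σ θ ∈ B ∧
        red B (σ θ) = red B θ ^ Nat.card (R ⧸ m)) ∧
      (f.map (Ideal.Quotient.mk m)).map j =
        C (j (f.map (Ideal.Quotient.mk m)).leadingCoeff) *
          ∏ θ : (f.map (algebraMap R k)).rootSet E, (X - C (red B (θ : E))) := by
  haveI : m.IsMaximal := inferInstance
  letI : Field (R ⧸ m) := Ideal.Quotient.field m
  obtain ⟨fb, hfb⟩ : ∃ fb, fb = f.map (Ideal.Quotient.mk m) := ⟨_, rfl⟩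
  rw [← hfb] at hd hsep ⊢
  have hfN : f.natDegree = N := by
    refine le_antisymm hf ?_
    rw [← hd, hfb]
    exact natDegree_map_le
  have hlc : fb.leadingCoeff = Ideal.Quotient.mk m f.leadingCoeff := by
    rw [leadingCoeff, hd, hfb, coeff_map, leadingCoeff, hfN]
  have hc : f.leadingCoeff ∉ m := by
    intro h
    apply leadingCoeff_ne_zero.2 hsep.ne_zero
    rw [hlc, Ideal.Quotient.eq_zero_iff_mem]
    exact h
  have hinjk : Function.Injective (algebraMap R k) := IsFractionRing.injective R k
  have hf0 : f ≠ 0 := by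
    rintro rfl
    apply hc
    rw [leadingCoeff_zero]
    exact Ideal.zero_mem _
  obtain ⟨F, hF⟩ : ∃ F, F = f.map (algebraMap R k) := ⟨_, rfl⟩
  rw [← hF] at hspl
  have hlcF : F.leadingCoeff = algebraMap R k f.leadingCoeff := by
    rw [hF, leadingCoeff_map_of_injective hinjk]
  have hF0 : F ≠ 0 := hF ▸ (Polynomial.map_ne_zero_iff hinjk).2 hf0
  obtain ⟨B, ρ, j, σ, hρ, hj, hσ⟩ := frob_gen m k E
  refine ⟨B, ρ, j, σ, hρ, hj, hσ, hc, ?_⟩
  rw [← hF]
  have hθint : ∀ θ, aeval θ F = 0 → IsIntegral R (algebraMap R E f.leadingCoeff * θ) := by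
    intro θ hθ
    rw [hF, aeval_map_algebraMap] at hθ
    have := isIntegral_leadingCoeff_smul f θ hθ
    rwa [Algebra.smul_def] at this
  have hθs : ∀ θ, aeval θ F = 0 → θ ∈ B ∧ σ θ ∈ B ∧
      red B (σ θ) = red B θ ^ Nat.card (R ⧸ m) := fun θ hθ => hσ _ hc θ (hθint θ hθ)
  refine ⟨hθs, ?_⟩
  have hFE0 : F.map (algebraMap k E) ≠ 0 :=
    (Polynomial.map_ne_zero_iff (algebraMap k E).injective).2 hF0
  have hrt : ∀ θ : E, θ ∈ (F.map (algebraMap k E)).roots ↔ aeval θ F = 0 := by
    intro θ
    rw [mem_roots hFE0, IsRoot.def, eval_map_algebraMap]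
  have hBθ : ∀ θ ∈ (F.map (algebraMap k E)).roots, θ ∈ B := fun θ h => (hθs θ ((hrt θ).1 h)).1
  have hmapρ : (f.map ρ).map (algebraMap B E) = F.map (algebraMap k E) := by
    rw [hF, Polynomial.map_map, Polynomial.map_map, ← IsScalarTower.algebraMap_eq]
    congr 1
    ext x
    exact hρ x
  have hfac : (f.map ρ) = C (ρ f.leadingCoeff) *
      ((F.map (algebraMap k E)).roots.attach.map
        (fun θ => (X - C (⟨θ.1, hBθ θ.1 θ.2⟩ : B)))).prod := by
    apply Polynomial.map_injective (algebraMap B E) Subtype.val_injective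
    rw [hmapρ, Polynomial.map_mul, map_C, Polynomial.map_multiset_prod, Multiset.map_map]
    have h1 : (Multiset.map ((Polynomial.map (algebraMap B E)) ∘
        (fun θ : {x // x ∈ (F.map (algebraMap k E)).roots} => (X - C (⟨θ.1, hBθ θ.1 θ.2⟩ : B))))
        (F.map (algebraMap k E)).roots.attach) =
        (F.map (algebraMap k E)).roots.map (fun θ => X - C θ) := by
      conv_rhs => rw [← Multiset.attach_map_val (F.map (algebraMap k E)).roots]
      rw [Multiset.map_map]
      refine Multiset.map_congr rfl fun θ _ => ?_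
      simp only [Function.comp, Polynomial.map_sub, map_X, map_C]
      rfl
    rw [h1]
    have h2 := hspl.eq_prod_roots
    have hl : algebraMap B E (ρ f.leadingCoeff) = (F.map (algebraMap k E)).leadingCoeff := by
      rw [leadingCoeff_map, hlcF, ← IsScalarTower.algebraMap_apply]
      exact hρ _
    rw [hl]
    exact h2
  have hfac2 : fb.map j = C (j fb.leadingCoeff) *
      ((F.map (algebraMap k E)).roots.map (fun θ => X - C (red B θ))).prod := by
    rw [hfb, ← map_quot m ρ (residue B) j hj f, hfac, Polynomial.map_mul, map_C,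
      Polynomial.map_multiset_prod, Multiset.map_map, ← hfb, hlc, hj]
    congr 2
    conv_rhs => rw [← Multiset.attach_map_val (F.map (algebraMap k E)).roots]
    rw [Multiset.map_map]
    refine Multiset.map_congr rfl fun θ _ => ?_
    simp only [Function.comp, Polynomial.map_sub, map_X, map_C]
    congr 2
    exact (red_coe (⟨θ.1, hBθ θ.1 θ.2⟩ : B)).symm
  have hsep2 : (fb.map j).Separable := hsep.map
  have hnd : ((F.map (algebraMap k E)).roots.map (red B)).Nodup := by
    have h1 : fb.map j ≠ 0 := hsep2.ne_zero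
    have h2 : (fb.map j).roots = (F.map (algebraMap k E)).roots.map (red B) := by
      rw [hfac2, roots_C_mul]
      · have h3 : (F.map (algebraMap k E)).roots.map (fun θ => X - C (red B θ)) =
            ((F.map (algebraMap k E)).roots.map (red B)).map (fun x => X - C x) := by
          rw [Multiset.map_map]; rfl
        rw [h3, roots_multiset_prod_X_sub_C]
      · intro h0
        rw [h0, C_0, zero_mul] at hfac2
        exact h1 hfac2
    rw [← h2]
    exact nodup_roots hsep2
  have hndE : (F.map (algebraMap k E)).roots.Nodup := Multiset.Nodup.of_map _ hnd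
  rw [hfac2]
  congr 1
  have hset : (F.rootSet E).toFinset = (F.map (algebraMap k E)).roots.toFinset := by
    ext x
    rw [Set.mem_toFinset, mem_rootSet, Multiset.mem_toFinset, hrt]
    exact ⟨fun h => h.2, fun h => ⟨hF0, h⟩⟩
  rw [Finset.prod_set_coe (F.rootSet E) (f := fun θ : E => X - C (red B θ)), hset,
    Finset.prod_multiset_map_count]
  refine Finset.prod_congr rfl fun θ hθ => ?_
  rw [Multiset.count_eq_one_of_mem hndE (Multiset.mem_toFinset.1 hθ), pow_one]

end frob

end Pool.Agent.X243.Gen
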