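import Pool.Agent.X243.Gen.Pull6
import Pool.Agent.TH115.ID.Main

/-!
The criterion for elliptic surfaces with a section of order two, with the condition at the place at
infinity.
-/

set_option autoImplicit false
set_option linter.all false

open Polynomial IsDedekindDomain WeierstrassCurve WeierstrassCurve.Affine
open scoped Classical

namespace Pool.Agent.X243.Gen

open Pool.Agent.TH115.GD

section val

variable {K F L : Type} [Field K] [Field F] [Field L] [Algebra K F] [Algebra K L]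
  [Algebra F L] [IsScalarTower K F L] {a b : K}
  (w : Valuation L (WithZero (Multiplicative ℤ)))
  (v : Valuation F (WithZero (Multiplicative ℤ))) (hwv : ∀ x : F, w (algebraMap F L x) = v x)

include hwv in
theorem gen0I {ρ : F} (hρ : ρ ≠ 0) (va : v (algebraMap K F a) ≤ v ρ ^ 2)
    (vb : v (algebraMap K F b) = v ρ ^ 4) {a0 : F} (hs : LocT0 a b L a0) : IsSquare (v a0) := by
  obtain ⟨Q, c, hc, e⟩ := hs
  have wa : w (algebraMap K L a) ≤ v ρ ^ 2 := by
    rw [IsScalarTower.algebraMap_apply K F L, hwv]; exact va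
  have wb : w (algebraMap K L b) = v ρ ^ 4 := by
    rw [IsScalarTower.algebraMap_apply K F L, hwv]; exact vb
  have hv0 : v ρ ≠ 0 := (Valuation.ne_zero_iff v).2 hρ
  rw [← hwv, e, map_mul, map_pow, pow_two]
  refine IsSquare.mul ⟨_, rfl⟩ ?_
  rcases Q with _ | ⟨x, y, hxy⟩
  · simp only [dT, map_one]
    exact ⟨1, (mul_one 1).symm⟩
  · simp only [dT]
    split_ifs with hx
    · rw [wb]; exact ⟨v ρ ^ 2, by rw [← pow_add]⟩
    · set r := algebraMap F L ρ with hr
      have hr0 : r ≠ 0 := (_root_.map_ne_zero _).2 hρ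
      have hwr : w r = v ρ := hwv ρ
      have h1 := crvT_eq hxy
      have h2 : IsSquare (w (x / r ^ 2)) := by
        refine evA (a := algebraMap K L a / r ^ 2) (b := algebraMap K L b / r ^ 4)
          (y := y / r ^ 3) w ?_ ?_ (div_ne_zero hx (pow_ne_zero 2 hr0)) ?_
        · rw [map_div₀, map_pow, hwr]
          exact div_le_one_of_le₀ wa zero_le
        · rw [map_div₀, map_pow, hwr, wb, div_self (pow_ne_zero 4 hv0)]
        · field_simp
          linear_combination h1
      rw [map_div₀, map_pow, hwr] at h2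
      have h3 : w x = w x / v ρ ^ 2 * (v ρ * v ρ) := by
        rw [← pow_two, div_mul_cancel₀ _ (pow_ne_zero 2 hv0)]
      rw [h3]
      exact h2.mul ⟨_, rfl⟩

include hwv in
theorem gen1I {ρ : F} (hρ : ρ ≠ 0) (v2 : v 2 ≤ 1) (va : v (algebraMap K F a) ≤ v ρ ^ 2)
    (vb : v (algebraMap K F (a ^ 2 - 4 * b)) = v ρ ^ 4) {a1 : F}
    (hs : LocT1 a b L a1) : IsSquare (v a1) := by
  obtain ⟨c, z, hc, e, hz⟩ := hs
  have wa : w (algebraMap K L a) ≤ v ρ ^ 2 := by
    rw [IsScalarTower.algebraMap_apply K F L, hwv]; exact va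
  have wb : w (algebraMap K L (a ^ 2 - 4 * b)) = v ρ ^ 4 := by
    rw [IsScalarTower.algebraMap_apply K F L, hwv]; exact vb
  have w2 : w 2 ≤ 1 := by
    have := hwv 2
    rw [map_ofNat] at this
    rw [this]; exact v2
  have hv0 : v ρ ≠ 0 := (Valuation.ne_zero_iff v).2 hρ
  rw [← hwv, e, map_mul, map_pow, pow_two]
  refine IsSquare.mul ⟨_, rfl⟩ ?_
  rcases hz with rfl | rfl | ⟨hz, r, hr⟩
  · rw [map_one]; exact ⟨1, (mul_one 1).symm⟩
  · rw [wb]; exact ⟨v ρ ^ 2, by rw [← pow_add]⟩
  · set u := algebraMap F L ρ with hu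
    have hu0 : u ≠ 0 := (_root_.map_ne_zero _).2 hρ
    have hwu : w u = v ρ := hwv ρ
    have h2 : IsSquare (w (z / u ^ 2)) := by
      refine evB (a := algebraMap K L a / u ^ 2) (b := algebraMap K L b / u ^ 4)
        (w := r / u) w w2 ?_ ?_ (div_ne_zero hz (pow_ne_zero 2 hu0)) ?_
      · rw [map_div₀, map_pow, hwu]
        exact div_le_one_of_le₀ wa zero_le
      · have h3 : (algebraMap K L a / u ^ 2) ^ 2 - 4 * (algebraMap K L b / u ^ 4) =
            algebraMap K L (a ^ 2 - 4 * b) / u ^ 4 := by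
          rw [map_sub, map_mul, map_pow, map_ofNat]
          field_simp
        rw [h3, map_div₀, map_pow, hwu, wb, div_self (pow_ne_zero 4 hv0)]
      · field_simp
        linear_combination hr
    rw [map_div₀, map_pow, hwu] at h2
    have h3 : w z = w z / v ρ ^ 2 * (v ρ * v ρ) := by
      rw [← pow_two, div_mul_cancel₀ _ (pow_ne_zero 2 hv0)]
    rw [h3]
    exact h2.mul ⟨_, rfl⟩

end val

section defs

variable {k : Type} [Field k]

/-- The condition on a divisor `A` of `b` at the place at infinity for `y ^ 2 = x (x ^ 2 + a x + b)`: if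
for some `m` the degrees of `a` and `b` are at most `2 m` and equal to `4 m`, then `A` has even
degree. -/
def InfT (a b A : k[X]) : Prop :=
  ∀ m : ℕ, a.natDegree ≤ 2 * m → b.natDegree = 4 * m → Even A.natDegree

/-- Every monic squarefree divisor `A` of `b` over `k` which satisfies the condition at infinity is
equal, up to squares of `F`, to `x(P)` for a point `P` over `K` of `y ^ 2 = x (x ^ 2 + a x + b)`. -/
def EnoughTI (K F : Type) [Field K] [Algebra k[X] K] [Field F] [Algebra K F] (a b : k[X]) : Prop :=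
  ∀ A : k[X], A.Monic → Squarefree A → A ∣ b → InfT a b A →
    ∃ P : Pt (crvT (algebraMap k[X] K a) (algebraMap k[X] K b)) K,
      Represents K F A (dT (algebraMap k[X] K b) P)

end defs

section main

variable {k k' K F : Type} [Field k] [Field k'] [Algebra k k'] [Field K] [Algebra k[X] K]
    [Field F] [Algebra k'[X] F] [IsFractionRing k'[X] F] [Algebra K F]

/-- **The criterion for elliptic surfaces with a section of order two.** -/
theorem mainTI (hT : IsTower k k' K F) (h2 : (2 : k) ≠ 0) {a b : k[X]} (hb : b ≠ 0)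
    (hd : a ^ 2 - 4 * b ≠ 0)
    (hsep : ∀ π : k[X], Irreducible π → π ∣ b * (a ^ 2 - 4 * b) → π.Separable)
    (hNb : NotNorm b) (hNd : NotNorm (a ^ 2 - 4 * b))
    (hpA : EnoughTI K F a b) (hpB : EnoughTI K F (-2 * a) (a ^ 2 - 4 * b)) :
    TateAtTwo (F := F) k' (crvT (algebraMap k[X] K a) (algebraMap k[X] K b)) := by
  haveI := hT.sep
  haveI := hT.fracK
  have hKF := hT.map
  have h2K : (2 : K) ≠ 0 := tt h2
  have injK := IsFractionRing.injective k[X] K
  have injk := (algebraMap k k').injective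
  set aK := algebraMap k[X] K a with haK
  set bK := algebraMap k[X] K b with hbK
  have hbK0 : bK ≠ 0 := by rw [hbK]; simpa using hb
  have hdK : algebraMap k[X] K (a ^ 2 - 4 * b) = aK ^ 2 - 4 * bK := by
    rw [map_sub, map_mul, map_pow, map_ofNat]
  have hdK0 : aK ^ 2 - 4 * bK ≠ 0 := by
    rw [← hdK]
    intro h
    apply hd
    apply injK
    rw [h, map_zero]
  have hsb : ∀ π : k[X], Irreducible π → π ∣ b → π.Separable :=
    fun π h h' => hsep π h (h'.mul_right _)
  have hsd : ∀ π : k[X], Irreducible π → π ∣ a ^ 2 - 4 * b → π.Separable :=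
    fun π h h' => hsep π h (h'.mul_left _)
  obtain ⟨α, β, hR⟩ := exists_roots (Ω := Sep F) h2K hbK0 hdK0
  have hbs : ∀ g : F, g ^ 2 ≠ algebraMap K F bK := notSq hKF hb hsb hNb
  have hds : ∀ g : F, g ^ 2 ≠ algebraMap K F (aK ^ 2 - 4 * bK) := by
    rw [← hdK]
    exact notSq hKF hd hsd hNd
  haveI : IsSepClosure K (Sep F) := sepKΩ hKF
  haveI : Algebra.IsSeparable K (Sep F) := IsSepClosure.separable
  haveI : IsGalois K (Sep F) := inferInstance
  have hdiv : ∀ X : Pt (crvT aK bK) (Sep F), ∃ Y, Y + Y = X := halve_sep hR.E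
  have hpres : Preserves K F (Sep F) := preserves hKF
  -- valuations
  have vle : ∀ (v : HeightOneSpectrum k'[X]) (p : k[X]),
      v.valuation F (algebraMap K F (algebraMap k[X] K p)) ≤ 1 := by
    intro v p
    rw [hKF]
    exact v.valuation_le_one _
  have vone : ∀ (v : HeightOneSpectrum k'[X]) (p : k[X]),
      p.map (algebraMap k k') ∉ v.asIdeal →
      v.valuation F (algebraMap K F (algebraMap k[X] K p)) = 1 := by
    intro v p hp
    rw [hKF, v.valuation_of_algebraMap, HeightOneSpectrum.intValuation_eq_one_iff]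
    exact hp
  have v2 : ∀ v : HeightOneSpectrum k'[X], v.valuation F 2 ≤ 1 := by
    intro v
    have := vle v 2
    rwa [map_ofNat, map_ofNat] at this
  have vdeg : ∀ p : k[X], p ≠ 0 → vInf k' F (algebraMap K F (algebraMap k[X] K p)) =
      WithZero.exp (p.natDegree : ℤ) := by
    intro p hp
    rw [hKF, vInf_poly ((Polynomial.map_ne_zero_iff injk).2 hp), natDegree_map]
  have vX : ∀ m : ℕ, vInf k' F ((algebraMap K F (algebraMap k[X] K X)) ^ m) =
      WithZero.exp (m : ℤ) := by
    intro m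
    rw [map_pow, vdeg X X_ne_zero, natDegree_X, ← WithZero.exp_nsmul]
    simp
  have hX0 : algebraMap K F (algebraMap k[X] K X) ≠ 0 := by simp
  have v2inf : vInf k' F 2 ≤ 1 := by
    have h3 := vdeg (C 2) (C_ne_zero.2 h2)
    rw [natDegree_C, C_ofNat, map_ofNat, map_ofNat] at h3
    rw [h3]
    simp
  have even_of : ∀ (p : k[X]) (q : F) (x : F), p ≠ 0 → q ≠ 0 →
      x = q ^ 2 * algebraMap K F (algebraMap k[X] K p) → IsSquare (vInf k' F x) →
      Even p.natDegree := by
    intro p q x hp hq hx hs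
    rw [hx, map_mul, map_pow, pow_two] at hs
    have h3 := Pool.Agent.W309.TD.IsSquare.of_mul_left' ⟨vInf k' F q, rfl⟩
      (mul_ne_zero ((Valuation.ne_zero_iff _).2 hq) ((Valuation.ne_zero_iff _).2 hq)) hs
    rw [vdeg p hp, isSquare_exp] at h3
    exact_mod_cast h3
  have vale : ∀ m : ℕ, a.natDegree ≤ 2 * m → vInf k' F (algebraMap K F aK) ≤
      vInf k' F ((algebraMap K F (algebraMap k[X] K X)) ^ m) ^ 2 := by
    intro m hm
    rw [vX, ← WithZero.exp_nsmul]
    by_cases ha0 : a = 0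
    · rw [haK, ha0, map_zero, map_zero, map_zero]
      exact zero_le
    · rw [haK, vdeg a ha0, WithZero.exp_le_exp]
      simp only [smul_eq_mul, nsmul_eq_mul]
      push_cast
      exact_mod_cast hm
  -- the points of the isogenous curve
  have hE' : ∀ x y : K, ((crvT (algebraMap k[X] K (-2 * a))
      (algebraMap k[X] K (a ^ 2 - 4 * b))).baseChange K).toAffine.Nonsingular x y →
      y ^ 2 = x * (x ^ 2 - 2 * aK * x + (aK ^ 2 - 4 * bK)) := by
    intro x y hxy
    have h3 := crvT_eq hxy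
    have e1 : algebraMap K K (algebraMap k[X] K (-2 * a)) = -2 * aK := by
      rw [map_mul, map_neg, map_ofNat]
      rfl
    have e3 : algebraMap K K (algebraMap k[X] K (a ^ 2 - 4 * b)) = aK ^ 2 - 4 * bK := hdK
    rw [e1, e3] at h3
    rw [h3]
    ring
  refine tate_of_half hdiv fun c hc => ?_
  have hcc := hc.tc
  have hf2 : ∀ σ, c 1 σ + c 1 σ = 0 := fun σ => by
    rw [← two_nsmul, hcc.two 0 σ, hcc.zero]
  -- the first step
  obtain ⟨t0, a0, n0, e0, k0⟩ := kummer0 hR (hcc.coc 1) hf2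
  have ha0 : a0 ≠ 0 := by
    rintro rfl
    rw [map_zero] at e0
    exact pow_ne_zero 2 n0 e0
  have hi0 : InvOne (crvT aK bK) (c 1) := by
    intro τ
    obtain ⟨m, Q, hQ, hinv⟩ := hc.inv τ
    have hpow : ∀ (k : ℕ) (σ), 2 ^ k • c (k + 1) σ = c 1 σ := by
      intro k
      induction k with
      | zero => intro σ; rw [pow_zero, one_smul]
      | succ k ih =>
        intro σ
        rw [pow_succ, mul_smul, hcc.two, ih]
    have hQpow : ∀ (k : ℕ), 2 ^ k • Q k = 0 := by
      intro k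
      induction k with
      | zero => rw [hQ.zero, smul_zero]
      | succ k ih =>
        rw [pow_succ, mul_smul, hQ.two, ih]
    refine ⟨Q (m + 1), ⟨m + 1, hQpow _⟩, fun σ σ' h => ?_⟩
    rw [← hinv (m + 1) σ σ' h, smul_sub, ← map_nsmul, hpow, hpow]
  obtain ⟨A, hA1, hA2, hA3, cA, hcA, rA⟩ := global1 (Ω := Sep F) hKF h2 hb hsb hNb ha0
    (fun v hv => by
      rw [par_eq_zero]
      exact gen0 (F := F) (L := Comp k'[X] F v)
        (Valued.v (R := v.adicCompletion F) (Γ₀ := WithZero (Multiplicative ℤ)))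
        (v.valuation F) (wFin v) (vle v a) (vone v b hv)
        (loc0T hR hf2 ((hc.loc 1).1 v) n0 e0 k0))
    (inv0 hR hbs hds hpres hf2 hi0 n0 e0 k0)
  have hA4 : InfT a b A := by
    intro m hm1 hm2
    refine even_of A cA a0 hA1.ne_zero hcA rA ?_
    refine gen0I (F := F) (L := CompInf k' F)
      (Valued.v (R := (pl (0 : k')).adicCompletion (AtInf F))
        (Γ₀ := WithZero (Multiplicative ℤ)))
      (vInf k' F) wInf (ρ := (algebraMap K F (algebraMap k[X] K X)) ^ m) (pow_ne_zero m hX0)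
      (vale m hm1) ?_ (loc0T hR hf2 (hc.loc 1).2 n0 e0 k0)
    rw [hbK, vdeg b hb, hm2, vX, ← WithZero.exp_nsmul]
    congr 1
  obtain ⟨PA, uA, huA, sA⟩ := hpA A hA1 hA2 hA3 hA4
  obtain ⟨HA, hHA⟩ := hdiv (act (crvT aK bK) (incl K K (Sep F)) PA)
  have PK : ∀ φ : Sep F →ₐ[K] Sep F, act (crvT aK bK) φ (act (crvT aK bK) (incl K K (Sep F)) PA) =
      act (crvT aK bK) (incl K K (Sep F)) PA := by
    intro φ
    have h1 : φ.comp (incl K K (Sep F)) = incl K K (Sep F) := AlgHom.ext fun x => φ.commutes x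
    rw [act_act, h1]
  have hf1 : ∀ σ, c 1 σ - (act (crvT aK bK) (rs K σ) HA - HA) = 0 ∨
      c 1 σ - (act (crvT aK bK) (rs K σ) HA - HA) = pt0 hR.E := by
    refine step0 hR hf2 n0 k0 (fun σ => by rw [hHA]; exact PK _) (c0 := cA * uA) ?_
    rw [hHA]
    have h5 : dT (algebraMap K (Sep F) bK) (act (crvT aK bK) (incl K K (Sep F)) PA) =
        algebraMap K (Sep F) (dT bK PA) := dT_act (crvT aK bK) (incl K K (Sep F)) bK PA
    rw [h5, e0, rA, sA, IsScalarTower.algebraMap_apply K F (Sep F)]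
    simp only [map_mul, map_pow]
    ring
  -- the second step
  set f1 : (Sep F ≃ₐ[F] Sep F) → Pt (crvT aK bK) (Sep F) :=
    fun σ => c 1 σ - (act (crvT aK bK) (rs K σ) HA - HA) with hf1def
  have hf1c : IsCoc (crvT aK bK) f1 := (hcc.coc 1).sub _ (cob_isCoc _ _)
  have hf1l : LocallyTrivial k' (crvT aK bK) f1 := lt_subT (hc.loc 1) HA
  obtain ⟨t1, a1, n1, e1, k1⟩ := kummer1 hR hf1c hf1
  have ha1 : a1 ≠ 0 := by
    rintro rfl
    rw [map_zero] at e1
    exact pow_ne_zero 2 n1 e1
  have hi1 : InvOne (crvT aK bK) f1 := by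
    intro τ
    obtain ⟨R, ⟨m, hm⟩, hrel⟩ := hi0 τ
    have h2H : (act (crvT aK bK) (ak τ) HA - HA) + (act (crvT aK bK) (ak τ) HA - HA) = 0 := by
      rw [sub_add_sub_comm, ← map_add, hHA, PK, sub_self]
    refine ⟨R - (act (crvT aK bK) (ak τ) HA - HA), ⟨m + 1, ?_⟩, fun σ σ' h => ?_⟩
    · rw [smul_sub]
      have h5 : 2 ^ (m + 1) • R = 0 := by rw [pow_succ', mul_smul, hm, smul_zero]
      have h6 : 2 ^ (m + 1) • (act (crvT aK bK) (ak τ) HA - HA) = 0 := by
        rw [pow_succ, mul_smul, two_nsmul, h2H, smul_zero]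
      rw [h5, h6, sub_zero]
    · have h1 := hrel σ σ' h
      have hcomp : act (crvT aK bK) (ak τ) (act (crvT aK bK) (rs K σ') HA) =
          act (crvT aK bK) (rs K σ) (act (crvT aK bK) (ak τ) HA) := by
        have h5 : (ak τ).comp (rs K σ') = (rs K σ).comp (ak τ) := AlgHom.ext fun x => h x
        rw [act_act, act_act, h5]
      show act (crvT aK bK) (ak τ) (c 1 σ' - (act (crvT aK bK) (rs K σ') HA - HA)) -
        (c 1 σ - (act (crvT aK bK) (rs K σ) HA - HA)) =
        act (crvT aK bK) (rs K σ) (R - (act (crvT aK bK) (ak τ) HA - HA)) -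
          (R - (act (crvT aK bK) (ak τ) HA - HA))
      rw [map_sub (act (crvT aK bK) (ak τ)), map_sub (act (crvT aK bK) (ak τ)), hcomp,
        map_sub (act (crvT aK bK) (rs K σ)) R, map_sub (act (crvT aK bK) (rs K σ))]
      have h6 : act (crvT aK bK) (ak τ) (c 1 σ') = c 1 σ + (act (crvT aK bK) (rs K σ) R - R) := by
        rw [← h1]; abel
      rw [h6]
      abel
  obtain ⟨B, hB1, hB2, hB3, cB, hcB, rB⟩ := global1 (Ω := Sep F) hKF h2 hd hsd hNd ha1
    (fun v hv => by
      rw [par_eq_zero]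
      exact gen1 (F := F) (L := Comp k'[X] F v)
        (Valued.v (R := v.adicCompletion F) (Γ₀ := WithZero (Multiplicative ℤ)))
        (v.valuation F) (wFin v) (v2 v) (vle v a) (by rw [← hdK]; exact vone v _ hv)
        (loc1T hR hf1 (hf1l.1 v) n1 e1 k1))
    (by
      rw [hdK]
      exact inv1 hR hbs hds hpres hf1 hi1 n1 e1 k1)
  have hB4 : InfT (-2 * a) (a ^ 2 - 4 * b) B := by
    intro m hm1 hm2
    have hm1' : a.natDegree ≤ 2 * m := by
      have h3 : (-2 * a : k[X]) = C (-2) * a := by rw [C_neg, C_ofNat]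
      rw [h3, natDegree_C_mul (neg_ne_zero.2 h2)] at hm1
      exact hm1
    refine even_of B cB a1 hB1.ne_zero hcB rB ?_
    refine gen1I (F := F) (L := CompInf k' F)
      (Valued.v (R := (pl (0 : k')).adicCompletion (AtInf F))
        (Γ₀ := WithZero (Multiplicative ℤ)))
      (vInf k' F) wInf (ρ := (algebraMap K F (algebraMap k[X] K X)) ^ m) (pow_ne_zero m hX0)
      v2inf (vale m hm1') ?_ (loc1T hR hf1 hf1l.2 n1 e1 k1)
    rw [← hdK, vdeg _ hd, hm2, vX, ← WithZero.exp_nsmul]
    congr 1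
  obtain ⟨PB, uB, huB, sB⟩ := hpB B hB1 hB2 hB3 hB4
  -- the point and its half
  obtain ⟨HB, t, ht0, htsq, hφ⟩ : ∃ (H : Pt (crvT aK bK) (Sep F)) (t : Sep F), t ≠ 0 ∧
      t ^ 2 = algebraMap K (Sep F) (dT (algebraMap k[X] K (a ^ 2 - 4 * b)) PB) ∧
      ∀ φ : Sep F →ₐ[K] Sep F, (act (crvT aK bK) φ H - H = 0 ∨
        act (crvT aK bK) φ H - H = pt0 hR.E) ∧
        φ t = s1 α (act (crvT aK bK) φ H - H) * t := by
    rcases PB with _ | ⟨z, y, hzy⟩
    · refine ⟨0, 1, one_ne_zero, ?_, fun φ => ?_⟩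
      · rw [one_pow]; exact (map_one _).symm
      · rw [map_zero, sub_zero]
        refine ⟨Or.inl rfl, ?_⟩
        rw [map_one]
        show _ = 1 * _
        rw [one_mul]
    · by_cases hz : z = 0
      · obtain ⟨R, -, hsq, hne, -, hφ⟩ := sgn_root hR (Or.inl rfl : α = α ∨ α = β)
        refine ⟨R, _, hne, ?_, hφ⟩
        rw [hsq]
        simp only [dT, hz, if_true]
        rw [hdK]
      · obtain ⟨H, t, ht0, htsq, hφ⟩ := half_isog hR hz (hE' z y hzy)
        refine ⟨H, t, ht0, ?_, hφ⟩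
        rw [htsq]
        simp only [dT, hz, if_false]
  obtain ⟨Q, hQ⟩ := fixed_point (K := K) (F := K) (crvT aK bK) (HB + HB) (fun τ => by
    rw [map_add]
    have h5 : act (crvT aK bK) (rs K τ) HB = HB + (act (crvT aK bK) (rs K τ) HB - HB) := by abel
    rcases (hφ (rs K τ)).1 with h | h
    · rw [sub_eq_zero.1 h]
    · rw [h5, h, add_add_add_comm, pt0_two, add_zero])
  have hfin := step1 hR hf1 n1 k1 (H := HB) (t := t) (fun σ => hφ (rs K σ)) (c1 := cB * uB) (by
    rw [htsq, e1, rB, sB, IsScalarTower.algebraMap_apply K F (Sep F)]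
    simp only [map_mul, map_pow]
    ring)
  refine ⟨PA + Q, HA + HB, ?_, fun σ => ?_⟩
  · rw [add_add_add_comm, hHA, map_add, hQ]
  · have h5 : c 1 σ - (act (crvT aK bK) (rs K σ) HA - HA) = act (crvT aK bK) (rs K σ) HB - HB :=
      hfin σ
    rw [sub_eq_iff_eq_add] at h5
    rw [h5, map_add]
    abel

end main

end Pool.Agent.X243.Gen
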