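import Pool.Agent.X243.Gen.Full
import Pool.Agent.X243.Sol.Three
import Pool.Agent.X243.Sol.SgnE

/-!
Polynomials with full symmetric Galois groups over extensions of the ground field, in any
characteristic different from two.
-/

set_option autoImplicit false
set_option linter.all false

open Polynomial
open scoped Classical

namespace Pool.Agent.X243.Gen

open Pool.Agent.TH115.GD Pool.Agent.X243.Tate Pool.Agent.X243.Sol

section three

variable {L L' : Type} [Field L] [Field L'] [Algebra L L']

theorem notNorm_of_three' (h2L : (2 : L) ≠ 0) [IsSepClosure L L'] {f : L[X]} (hsep : f.Separable)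
    (hspl : (f.map (algebraMap L L')).Splits) (hd : 0 < f.natDegree)
    (h : Three L (f.rootSet L')) : NotNorm f := by
  intro u D U V hf
  haveI : IsSepClosed L' := IsSepClosure.sep_closed L
  haveI : IsGalois L L' := IsSepClosure.isGalois
  haveI : NeZero (2 : L') := ⟨by
    rw [← map_ofNat (algebraMap L L') 2]
    exact (map_ne_zero_iff _ (algebraMap L L').injective).2 h2L⟩
  have hirr := irr_of_three hsep hspl hd h
  have hu : u ≠ 0 := by
    rintro rfl
    rw [C_0, zero_mul] at hf
    exact hsep.ne_zero hf
  constructor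
  · rintro rfl
    have e : f = (C u * U) * U := by rw [hf]; ring
    rcases hirr.isUnit_or_isUnit e with h1 | h1
    · have h2 : IsUnit U := isUnit_of_mul_isUnit_right h1
      have h3 : IsUnit f := by rw [e]; exact h1.mul h2
      exact hirr.not_isUnit h3
    · have h3 : IsUnit f := by
        rw [e]
        exact ((isUnit_C.2 (isUnit_iff_ne_zero.2 hu)).mul h1).mul h1
      exact hirr.not_isUnit h3
  · by_contra hD
    have hsf : Squarefree (f.map (algebraMap L L')) := hsep.map.squarefree
    have hfm0 : f.map (algebraMap L L') ≠ 0 := hsf.ne_zero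
    have hZ : ∀ x, x ∈ f.rootSet L' ↔ (f.map (algebraMap L L')).eval x = 0 := by
      intro x
      rw [mem_rootSet, eval_map_algebraMap]
      exact ⟨fun h => h.2, fun h => ⟨hsep.ne_zero, h⟩⟩
    have hfe : ∀ x, (f.map (algebraMap L L')).eval x = algebraMap L L' u *
        ((U.map (algebraMap L L')).eval x ^ 2 - algebraMap L L' D *
          (V.map (algebraMap L L')).eval x ^ 2) := by
      intro x
      conv_lhs => rw [hf]
      simp only [Polynomial.map_mul, Polynomial.map_sub, Polynomial.map_pow, map_C, eval_mul,
        eval_sub, eval_pow, eval_C]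
    have hgal : ∀ (g : L' ≃ₐ[L] L') (x : L') (W : L[X]), (W.map (algebraMap L L')).eval (g x) =
        g ((W.map (algebraMap L L')).eval x) := by
      intro g x W
      rw [eval_map_algebraMap, eval_map_algebraMap, aeval_algHom_apply g x W]
    have key : ∀ (δ : L'), δ ^ 2 = algebraMap L L' D → ∀ x ∈ f.rootSet L',
        (U.map (algebraMap L L')).eval x = δ * (V.map (algebraMap L L')).eval x → False := by
      intro δ hδ x hx he
      have hδ0 : δ ≠ 0 := by
        rintro rfl
        apply hD
        have : D = 0 := (algebraMap L L').injective (by rw [← hδ, map_zero]; ring)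
        rw [this]
        exact IsSquare.zero
      have hsg : ∀ g : L' ≃ₐ[L] L', g δ = δ ∨ g δ = -δ := by
        intro g
        apply sq_eq_sq_iff_eq_or_eq_neg.1
        rw [← map_pow, hδ, g.commutes]
      obtain ⟨τ, hτ⟩ : ∃ τ : L' ≃ₐ[L] L', τ δ ≠ δ := by
        by_contra hall
        push Not at hall
        have h1 : δ ∈ Set.range (algebraMap L L') := by
          rw [InfiniteGalois.mem_range_algebraMap_iff_fixed]
          exact hall
        obtain ⟨d, hd⟩ := h1
        apply hD
        refine ⟨d, (algebraMap L L').injective ?_⟩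
        rw [map_mul, hd, ← hδ, sq]
      have hτ' : τ δ = -δ := (hsg τ).resolve_left hτ
      have hy : τ x ∈ f.rootSet L' := by
        rw [hZ] at hx ⊢
        rw [hgal, hx, map_zero]
      have e1 : (U.map (algebraMap L L')).eval (τ x) = -δ * (V.map (algebraMap L L')).eval (τ x) := by
        rw [hgal, he, map_mul, hτ', hgal]
      have e2 : (U.map (algebraMap L L')).eval (τ x) = δ * (V.map (algebraMap L L')).eval (τ x) := by
        rcases eq_or_ne x (τ x) with h1 | h1
        · rw [← h1]
          exact he
        · obtain ⟨g, z, g1, g2, g3⟩ := h x hx (τ x) hy h1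
          have h2 : (g * g * g * g) x = τ x := by
            show g (g (g (g x))) = τ x
            rw [g1, g2, g3, g1]
          have h3 : (g * g * g * g) δ = δ := by
            show g (g (g (g δ))) = δ
            rcases hsg g with h4 | h4
            · rw [h4, h4, h4, h4]
            · rw [h4, map_neg, h4, neg_neg, h4, map_neg, h4, neg_neg]
          rw [← h2, hgal, he, map_mul, h3, hgal]
      have e3 : (V.map (algebraMap L L')).eval (τ x) = 0 := by
        have h1 : (2 * δ) * (V.map (algebraMap L L')).eval (τ x) = 0 := by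
          linear_combination e1 - e2
        rcases mul_eq_zero.1 h1 with h2 | h2
        · exact absurd h2 (mul_ne_zero two_ne_zero hδ0)
        · exact h2
      have e4 : (U.map (algebraMap L L')).eval (τ x) = 0 := by rw [e2, e3, mul_zero]
      have d1 : X - C (τ x) ∣ V.map (algebraMap L L') := dvd_iff_isRoot.2 e3
      have d2 : X - C (τ x) ∣ U.map (algebraMap L L') := dvd_iff_isRoot.2 e4
      have d3 : (X - C (τ x)) * (X - C (τ x)) ∣ f.map (algebraMap L L') := by
        conv_rhs => rw [hf]
        rw [Polynomial.map_mul, Polynomial.map_sub, Polynomial.map_pow, Polynomial.map_mul,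
          Polynomial.map_pow, sq, sq]
        exact ((mul_dvd_mul d2 d2).sub ((mul_dvd_mul d1 d1).mul_left _)).mul_left _
      exact not_isUnit_X_sub_C _ (hsf _ d3)
    have hcard : Multiset.card (f.map (algebraMap L L')).roots = f.natDegree := by
      rw [← hspl.natDegree_eq_card_roots, natDegree_map]
    obtain ⟨x, hx⟩ : ∃ x, x ∈ (f.map (algebraMap L L')).roots := by
      apply Multiset.card_pos_iff_exists_mem.1
      omega
    rw [mem_roots hfm0, IsRoot.def] at hx
    obtain ⟨δ, hδ⟩ : ∃ δ : L', δ ^ 2 = algebraMap L L' D := by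
      haveI : NeZero ((2 : ℕ) : L') := ⟨by
        rw [Nat.cast_ofNat]
        exact two_ne_zero⟩
      exact IsSepClosed.exists_pow_nat_eq _ 2
    have h1 := hx
    rw [hfe] at h1
    have h2 : (U.map (algebraMap L L')).eval x ^ 2 - algebraMap L L' D *
          (V.map (algebraMap L L')).eval x ^ 2 = 0 := by
      rcases mul_eq_zero.1 h1 with h3 | h3
      · exact absurd ((map_eq_zero _).1 h3) hu
      · exact h3
    have h3 : ((U.map (algebraMap L L')).eval x - δ * (V.map (algebraMap L L')).eval x) *
        ((U.map (algebraMap L L')).eval x - (-δ) * (V.map (algebraMap L L')).eval x) = 0 := by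
      rw [← h2, ← hδ]
      ring
    rcases mul_eq_zero.1 h3 with h4 | h4
    · exact key δ hδ x ((hZ x).2 hx) (sub_eq_zero.1 h4)
    · exact key (-δ) (by rw [neg_sq, hδ]) x ((hZ x).2 hx) (sub_eq_zero.1 h4)

end three

section ext

variable {k : Type} [Field k] {F : k[X]} {E : Type} [Field E] [Algebra k E] [FiniteDimensional k E]
  [IsGalois k E] {L L' : Type} [Field L] [Field L'] [Algebra k L] [Algebra L L'] [Algebra k L']
  [IsScalarTower k L L'] [IsGalois L L'] [Algebra E L'] [IsScalarTower k E L']

/-- The elements which fix `M ∩ E` extend. -/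
theorem lift_fix' (M : IntermediateField k L') (hM : ∀ x : L, IsSeparable k x → algebraMap L L' x ∈ M)
    {σ : E ≃ₐ[k] E} (hσ : σ ∈ (ME E M).fixingSubgroup) :
    ∃ g : L' ≃ₐ[L] L', ∀ x : E, g (algebraMap E L' x) = algebraMap E L' (σ x) := by
  let ρ : (L' ≃ₐ[L] L') →* (E ≃ₐ[k] E) :=
    (AlgEquiv.restrictNormalHom E).comp (AlgEquiv.restrictScalarsHom k)
  have hρ : ∀ (g : L' ≃ₐ[L] L') (x : E), algebraMap E L' (ρ g x) = g (algebraMap E L' x) := by
    intro g x
    exact AlgEquiv.restrictNormal_commutes (g.restrictScalars k) E x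
  have hle : IntermediateField.fixedField ρ.range ≤ ME E M := by
    intro x hx
    rw [IntermediateField.mem_fixedField_iff] at hx
    rw [mem_ME]
    have h1 : algebraMap E L' x ∈ Set.range (algebraMap L L') := by
      rw [InfiniteGalois.mem_range_algebraMap_iff_fixed]
      intro g
      rw [← hρ, hx _ ⟨g, rfl⟩]
    obtain ⟨y, hy⟩ := h1
    rw [← hy]
    apply hM
    have h2 : minpoly k y = minpoly k x := by
      rw [← minpoly.algebraMap_eq (algebraMap L L').injective y, hy,
        minpoly.algebraMap_eq (algebraMap E L').injective x]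
    show (minpoly k y).Separable
    rw [h2]
    exact Algebra.IsSeparable.isSeparable k x
  have hmem : σ ∈ ρ.range := by
    rw [← IntermediateField.fixingSubgroup_fixedField ρ.range]
    exact IntermediateField.fixingSubgroup_le hle hσ
  obtain ⟨g, rfl⟩ := hmem
  exact ⟨g, fun θ => (hρ g θ).symm⟩

end ext

section good

variable {k : Type} [Field k]

theorem three_gen {F : k[X]} (hF : F.Separable) (h5 : 5 ≤ F.natDegree) (hfull : FullG F)
    (h2 : (2 : k) ≠ 0)
    (L L' : Type) [Field L] [Field L'] [Algebra k L] [Algebra L L'] [Algebra k L']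
    [IsScalarTower k L L'] [IsSepClosure L L'] (M : IntermediateField k L') [Normal k M]
    (hM : ∀ x : L, IsSeparable k x → algebraMap L L' x ∈ M)
    (hns : ¬ (F.map (algebraMap k M)).Splits) :
    Irreducible (F.map (algebraMap k L)) ∧ NotNorm (F.map (algebraMap k L)) := by
  haveI : IsSepClosed L' := IsSepClosure.sep_closed L
  haveI : IsGalois L L' := IsSepClosure.isGalois
  have h2L : (2 : L) ≠ 0 := by
    rw [← map_ofNat (algebraMap k L) 2]
    exact (map_ne_zero_iff _ (algebraMap k L).injective).2 h2
  have hsp := SplittingField.splits F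
  haveI : FiniteDimensional k F.SplittingField := inferInstance
  haveI : IsGalois k F.SplittingField := IsGalois.of_separable_splitting_field hF
  obtain ⟨i, -⟩ : ∃ i : F.SplittingField →ₐ[k] L', i = i := ⟨IsSepClosed.lift, rfl⟩
  letI : Algebra F.SplittingField L' := i.toRingHom.toAlgebra
  haveI : IsScalarTower k F.SplittingField L' :=
    IsScalarTower.of_algebraMap_eq fun x => (i.commutes x).symm
  have hsurj := hfull F.SplittingField hsp
  have hcard : Nat.card (F.rootSet F.SplittingField) = F.natDegree := by
    rw [Nat.card_eq_fintype_card, card_rootSet_eq_natDegree hF hsp]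
  have hsepL : (F.map (algebraMap k L)).Separable := hF.map
  have hsplL : ((F.map (algebraMap k L)).map (algebraMap L L')).Splits := by
    rw [Polynomial.map_map, ← IsScalarTower.algebraMap_eq, IsScalarTower.algebraMap_eq k
      F.SplittingField L', ← Polynomial.map_map]
    exact hsp.map _
  have hZ : (F.map (algebraMap k L)).rootSet L' =
      (algebraMap F.SplittingField L') '' F.rootSet F.SplittingField := by
    rw [hsp.image_rootSet_algebraMap]
    ext x
    rw [mem_rootSet, mem_rootSet, aeval_map_algebraMap]
    exact ⟨fun h => ⟨hF.ne_zero, h.2⟩, fun h => ⟨hsepL.ne_zero, h.2⟩⟩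
  have h3 : Three L ((F.map (algebraMap k L)).rootSet L') := by
    intro x hx y hy hxy
    rw [hZ] at hx hy
    obtain ⟨x, hx, rfl⟩ := hx
    obtain ⟨y, hy, rfl⟩ := hy
    obtain ⟨X', hX'⟩ : ∃ X' : F.rootSet F.SplittingField, X' = ⟨x, hx⟩ := ⟨_, rfl⟩
    obtain ⟨Y', hY'⟩ : ∃ Y' : F.rootSet F.SplittingField, Y' = ⟨y, hy⟩ := ⟨_, rfl⟩
    have hne : X' ≠ Y' := by
      intro h
      apply hxy
      rw [hX', hY'] at h
      rw [Subtype.mk.inj h]
    obtain ⟨Z', hZ1, hZ2⟩ : ∃ Z' : F.rootSet F.SplittingField, Z' ≠ X' ∧ Z' ≠ Y' := by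
      by_contra hall
      push Not at hall
      have h4 : (Finset.univ : Finset (F.rootSet F.SplittingField)) ⊆ {X', Y'} := by
        intro z _
        rw [Finset.mem_insert, Finset.mem_singleton]
        by_cases hz : z = X'
        · exact Or.inl hz
        · exact Or.inr (hall z hz)
      have h5' := Finset.card_le_card h4
      have h6 := Finset.card_le_two (a := X') (b := Y')
      rw [Finset.card_univ, ← Nat.card_eq_fintype_card, hcard] at h5'
      omega
    obtain ⟨σ, hσ, hc⟩ := even_fix (F := F) (E := F.SplittingField) (L' := L') hsp hsurj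
      (by rw [hcard]; exact h5) M hns (Equiv.swap X' Y' * Equiv.swap Y' Z')
      (Equiv.Perm.mul_mem_alternatingGroup_of_isSwap ⟨X', Y', hne, rfl⟩ ⟨Y', Z', hZ2.symm, rfl⟩)
    obtain ⟨g, hg'⟩ := lift_fix' (L := L) (L' := L') M hM hσ
    have hg : ∀ t : F.rootSet F.SplittingField, g (algebraMap F.SplittingField L' t) =
        algebraMap F.SplittingField L'
          ((Equiv.swap X' Y' * Equiv.swap Y' Z') t : F.rootSet F.SplittingField) := by
      intro t
      rw [hg', ← hc]
      rfl
    refine ⟨g, algebraMap F.SplittingField L' (Z' : F.SplittingField), ?_, ?_, ?_⟩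
    · have h7 := hg X'
      rw [Equiv.Perm.mul_apply, Equiv.swap_apply_of_ne_of_ne hne hZ1.symm,
        Equiv.swap_apply_left] at h7
      rw [hX', hY'] at h7
      exact h7
    · have h7 := hg Y'
      rw [Equiv.Perm.mul_apply, Equiv.swap_apply_left,
        Equiv.swap_apply_of_ne_of_ne hZ1 hZ2] at h7
      rw [hY'] at h7
      exact h7
    · have h7 := hg Z'
      rw [Equiv.Perm.mul_apply, Equiv.swap_apply_right, Equiv.swap_apply_right] at h7
      rw [hX'] at h7
      exact h7
  have hd : 0 < (F.map (algebraMap k L)).natDegree := by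
    rw [natDegree_map]
    omega
  exact ⟨irr_of_three hsepL hsplL hd h3, notNorm_of_three' h2L hsepL hsplL hd h3⟩

/-- The elements with solvable Galois groups. -/
def solvSet (k : Type) [Field k] (L' : Type) [Field L'] [Algebra k L'] : Set L' :=
  {x | IsSeparable k x ∧ Group.IsSolvable (minpoly k x).Gal}

/-- The maximal solvable extension in a separable closure. -/
noncomputable def solvM (k : Type) [Field k] (L' : Type) [Field L'] [Algebra k L'] :
    IntermediateField k L' := IntermediateField.adjoin k (solvSet k L')

theorem solvSet_splits (L' : Type) [Field L'] [Algebra k L'] [IsSepClosed L'] {x : L'}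
    (hx : x ∈ solvSet k L') : IsIntegral k x ∧
      ((minpoly k x).map (algebraMap k (solvM k L'))).Splits := by
  refine ⟨hx.1.isIntegral, ?_⟩
  have h1 : ((minpoly k x).map (algebraMap k L')).Splits :=
    IsSepClosed.splits_of_separable _ (Separable.map hx.1)
  apply IntermediateField.splits_of_splits h1
  intro y hy
  have hy0 : aeval y (minpoly k x) = 0 := aeval_eq_zero_of_mem_rootSet hy
  have hmin : minpoly k y = minpoly k x :=
    (minpoly.eq_of_irreducible_of_monic (minpoly.irreducible hx.1.isIntegral) hy0
      (minpoly.monic hx.1.isIntegral)).symm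
  apply IntermediateField.subset_adjoin
  refine ⟨?_, ?_⟩
  · show (minpoly k y).Separable
    rw [hmin]
    exact hx.1
  · rw [hmin]
    exact hx.2

theorem solvM_normal (L' : Type) [Field L'] [Algebra k L'] [IsSepClosed L'] :
    Normal k (solvM k L') := by
  have hint : ∀ x ∈ solvSet k L', IsIntegral k x := fun x hx => hx.1.isIntegral
  haveI halg : Algebra.IsAlgebraic k (solvM k L') :=
    IntermediateField.isAlgebraic_adjoin hint
  refine normal_iff.2 fun x => ⟨Algebra.IsIntegral.isIntegral x, ?_⟩
  have hmin : minpoly k x = minpoly k (x : L') :=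
    (minpoly.algebraMap_eq (algebraMap (solvM k L') L').injective x).symm
  rw [hmin]
  exact IntermediateField.splits_of_mem_adjoin k L' (L := solvM k L') (S := solvSet k L')
    (fun y hy => solvSet_splits L' hy) x.2

theorem solvM_not_splits (L' : Type) [Field L'] [Algebra k L'] [IsSepClosed L'] {F : k[X]}
    (hF : F.Separable) (h5 : 5 ≤ F.natDegree) (hfull : FullG F) :
    ¬ (F.map (algebraMap k (solvM k L'))).Splits := by
  intro hspl
  -- the roots
  have hrt : ∀ x ∈ F.rootSet L', x ∈ solvM k L' := by
    intro x hx
    rw [← hspl.image_rootSet_algebraMap (B := L')] at hx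
    obtain ⟨θ, -, rfl⟩ := hx
    exact θ.2
  have hfin : ∀ x ∈ F.rootSet L', ∃ T : Finset L', (T : Set L') ⊆ solvSet k L' ∧
      x ∈ IntermediateField.adjoin k (T : Set L') := by
    intro x hx
    exact IntermediateField.exists_finset_of_mem_adjoin (hrt x hx)
  choose! T hT1 hT2 using hfin
  obtain ⟨T0, hT0⟩ : ∃ T0 : Finset L', T0 = (F.rootSet L').toFinset.biUnion T := ⟨_, rfl⟩
  have hsub : (T0 : Set L') ⊆ solvSet k L' := by
    intro y hy
    rw [hT0, Finset.mem_coe, Finset.mem_biUnion] at hy
    obtain ⟨x, hx, hy⟩ := hy
    exact hT1 x (Set.mem_toFinset.1 hx) hy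
  have hmem : ∀ x ∈ F.rootSet L', x ∈ IntermediateField.adjoin k (T0 : Set L') := by
    intro x hx
    refine IntermediateField.adjoin.mono k _ _ ?_ (hT2 x hx)
    intro y hy
    rw [hT0, Finset.mem_coe, Finset.mem_biUnion]
    exact ⟨x, Set.mem_toFinset.2 hx, hy⟩
  obtain ⟨H, hH⟩ : ∃ H : k[X], H = (T0.val.map (minpoly k)).prod := ⟨_, rfl⟩
  have hHsol : Group.IsSolvable H.Gal := by
    rw [hH]
    apply gal_prod_isSolvable
    intro p hp
    rw [Multiset.mem_map] at hp
    obtain ⟨x, hx, rfl⟩ := hp
    exact (hsub hx).2
  have hH0 : H ≠ 0 := by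
    rw [hH]
    apply Multiset.prod_ne_zero
    intro h0
    rw [Multiset.mem_map] at h0
    obtain ⟨x, hx, h0⟩ := h0
    exact minpoly.ne_zero (hsub hx).1.isIntegral h0
  have hHspl : (H.map (algebraMap k L')).Splits := by
    rw [hH, Polynomial.map_multiset_prod, Multiset.map_map]
    apply Splits.multisetProd
    intro p hp
    rw [Multiset.mem_map] at hp
    obtain ⟨x, hx, rfl⟩ := hp
    exact IsSepClosed.splits_of_separable _ (Separable.map (hsub hx).1)
  obtain ⟨i, -⟩ : ∃ i : H.SplittingField →ₐ[k] L', i = i := ⟨SplittingField.lift H hHspl, rfl⟩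
  have hle : IntermediateField.adjoin k (T0 : Set L') ≤ i.fieldRange := by
    rw [IntermediateField.adjoin_le_iff]
    intro x hx
    have h1 : ((minpoly k x).map (algebraMap k H.SplittingField)).Splits := by
      refine (SplittingField.splits H).of_dvd
        ((Polynomial.map_ne_zero_iff (algebraMap k H.SplittingField).injective).2 hH0) ?_
      refine (mapRingHom (algebraMap k H.SplittingField)).map_dvd ?_
      rw [hH]
      exact Multiset.dvd_prod (Multiset.mem_map_of_mem _ hx)
    have h3 : (((minpoly k x).map (algebraMap k H.SplittingField)).map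
        (i : H.SplittingField →+* L')).IsRoot x := by
      rw [Polynomial.map_map, i.comp_algebraMap, IsRoot.def, eval_map_algebraMap, minpoly.aeval]
    obtain ⟨y, hy⟩ := h1.mem_range_of_isRoot
      ((Polynomial.map_ne_zero_iff (algebraMap k H.SplittingField).injective).2
        (minpoly.ne_zero (hsub hx).1.isIntegral)) h3
    exact ⟨y, hy⟩
  have hFL : (F.map (algebraMap k L')).Splits := IsSepClosed.splits_of_separable _ hF.map
  have hFH : (F.map (algebraMap k H.SplittingField)).Splits := by
    have h1 : (F.map (algebraMap k i.fieldRange)).Splits := by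
      apply IntermediateField.splits_of_splits hFL
      intro x hx
      exact hle (hmem x hx)
    let e : i.fieldRange ≃ₐ[k] H.SplittingField :=
      (AlgEquiv.ofInjectiveField i).symm
    have h2 := h1.map (e : i.fieldRange →+* H.SplittingField)
    rw [Polynomial.map_map] at h2
    have h3 : (e : i.fieldRange →+* H.SplittingField).comp (algebraMap k i.fieldRange) =
        algebraMap k H.SplittingField := by
      ext x
      exact e.commutes x
    rw [h3] at h2
    exact h2
  have hsol : Group.IsSolvable F.Gal := gal_isSolvable_of_splits ⟨hFH⟩ hHsol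
  haveI : FiniteDimensional k F.SplittingField := inferInstance
  haveI : IsGalois k F.SplittingField := IsGalois.of_separable_splitting_field hF
  have hsurj := hfull F.SplittingField (SplittingField.splits F)
  have hsol' : Group.IsSolvable (F.SplittingField ≃ₐ[k] F.SplittingField) := hsol
  have h4 : Group.IsSolvable (Equiv.Perm (F.rootSet F.SplittingField)) :=
    Group.isSolvable_of_surjective hsurj
  have hcard : Nat.card (F.rootSet F.SplittingField) = F.natDegree := by
    rw [Nat.card_eq_fintype_card, card_rootSet_eq_natDegree hF (SplittingField.splits F)]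
  exact Equiv.Perm.not_solvable _ (by
    rw [Cardinal.mk_fintype, ← Nat.card_eq_fintype_card, hcard]
    exact_mod_cast h5) h4

end good

end Pool.Agent.X243.Gen
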